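import Pool.Agent.Lib.MP_0830d8_co.Ex.Sys

-- part Pool.Agent.Lib.MP_0830d8_co.Blocks
section

/-!
Labelling most blocks of a rooted forest by the weighted matching theorem.
-/

set_option linter.unusedSectionVars false

namespace Pool.Agent.Lib.MP_0830d8_co

open Finset

variable {V : Type} [Fintype V] [DecidableEq V] {β : ℕ}

lemma card_line (v : V) (E : Finset (V → Fin β))
    (h : ∀ y ∈ E, ∀ y' ∈ E, (∀ u, u ≠ v → y u = y' u) → y v = y' v) :
    E.card * β ≤ β ^ Fintype.card V := by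
  have h1 := card_le_card_of_injOn (s := E ×ˢ (univ : Finset (Fin β))) (t := univ)
    (fun p => Function.update p.1 v p.2) (fun _ _ => mem_univ _) (by
      rintro ⟨y, c⟩ h1 ⟨y', c'⟩ h2 h3
      simp only at h3
      have h4 : ∀ u, u ≠ v → y u = y' u := fun u hu => by
        have := congrFun h3 u
        rwa [Function.update_of_ne hu, Function.update_of_ne hu] at this
      have h5 := h y (mem_product.mp h1).1 y' (mem_product.mp h2).1 h4
      have h6 := congrFun h3 v
      rw [Function.update_self, Function.update_self] at h6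
      refine Prod.ext (funext fun u => ?_) h6
      by_cases hu : u = v
      · rw [hu]; exact h5
      · exact h4 u hu)
  simpa using h1

lemma card_plane {u v : V} (huv : u ≠ v) (E : Finset (V → Fin β))
    (h : ∀ y ∈ E, ∀ y' ∈ E, (∀ z, z ≠ u → z ≠ v → y z = y' z) → y u = y' u ∧ y v = y' v) :
    E.card * β * β ≤ β ^ Fintype.card V := by
  have h1 := card_le_card_of_injOn (s := (E ×ˢ (univ : Finset (Fin β))) ×ˢ (univ : Finset (Fin β)))
    (t := univ) (fun p => Function.update (Function.update p.1.1 u p.1.2) v p.2)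
    (fun _ _ => mem_univ _) (by
      rintro ⟨⟨y, c⟩, b⟩ h1 ⟨⟨y', c'⟩, b'⟩ h2 h3
      simp only at h3
      have h4 : ∀ z, z ≠ u → z ≠ v → y z = y' z := fun z h1 h2 => by
        have := congrFun h3 z
        rwa [Function.update_of_ne h2, Function.update_of_ne h2, Function.update_of_ne h1,
          Function.update_of_ne h1] at this
      have h5 := h y (mem_product.mp (mem_product.mp h1).1).1 y'
        (mem_product.mp (mem_product.mp h2).1).1 h4
      have h6 := congrFun h3 v
      rw [Function.update_self, Function.update_self] at h6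
      have h7 := congrFun h3 u
      rw [Function.update_of_ne huv, Function.update_of_ne huv, Function.update_self,
        Function.update_self] at h7
      refine Prod.ext (Prod.ext (funext fun z => ?_) h7) h6
      by_cases hu : z = u
      · rw [hu]; exact h5.1
      by_cases hv : z = v
      · rw [hv]; exact h5.2
      · exact h4 z hu hv)
  simpa using h1

/-- labels computed from the deepest vertices upwards -/
def Xk (W : Finset V) (π : V → V) (ω : V → ℕ) (ξ : ℕ → Fin β → ℕ) (y : V → Fin β) : ℕ → V → ℕ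
  | 0, _ => 0
  | k + 1, v => ξ (ω v + ∑ c ∈ W with π c = v, Xk W π ω ξ y k c) (y v)

lemma exists_X (W : Finset V) (π : V → V) (d : V → ℕ) (hd : ∀ v ∈ W, d (π v) + 1 = d v)
    (ω : V → ℕ) (ξ : ℕ → Fin β → ℕ) :
    ∃ X A : (V → Fin β) → V → ℕ, (∀ y v, A y v = ω v + ∑ c ∈ W with π c = v, X y c) ∧
      (∀ y v, X y v = ξ (A y v) (y v)) ∧
      ∀ y y' v, (∀ u, d v < d u → y u = y' u) → A y v = A y' v := by
  set D := univ.sup d + 1 with hD
  have hlt : ∀ v, d v < D := fun v => Nat.lt_succ_of_le (le_sup (f := d) (mem_univ v))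
  refine ⟨fun y v => Xk W π ω ξ y (D - d v) v,
    fun y v => ω v + ∑ c ∈ W with π c = v, Xk W π ω ξ y (D - d c) c, fun _ _ => rfl,
    fun y v => ?_, fun y y' v h => ?_⟩
  · have := hlt v
    beta_reduce
    rw [show D - d v = (D - d v - 1) + 1 by omega, Xk]
    congr 2
    refine sum_congr rfl fun c hc => ?_
    rw [mem_filter] at hc
    have := hd c hc.1
    rw [hc.2] at this
    congr 1; omega
  · have key : ∀ k c, (∀ u, (u = c ∨ d c < d u) → y u = y' u) →
        Xk W π ω ξ y k c = Xk W π ω ξ y' k c := by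
      intro k
      induction k with
      | zero => intro _ _; rfl
      | succ k ih =>
        intro c hc
        rw [Xk, Xk, hc c (Or.inl rfl)]
        congr 2
        refine sum_congr rfl fun b hb => ih b fun u hu => hc u (Or.inr ?_)
        rw [mem_filter] at hb
        have := hd b hb.1
        rw [hb.2] at this
        rcases hu with rfl | hu <;> omega
    beta_reduce
    congr 1
    refine sum_congr rfl fun c hc => key _ c fun u hu => h u ?_
    rw [mem_filter] at hc
    have := hd c hc.1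
    rw [hc.2] at this
    rcases hu with rfl | hu <;> omega

/-- a triangular system of values -/
structure Tri (d : V → ℕ) (val : (V → Fin β) → V → Bool → ℕ) : Prop where
  dep : ∀ y y' v b, (∀ u, d v < d u → y u = y' u) → y v = y' v → val y v b = val y' v b
  inj : ∀ y y' v b, (∀ u, d v < d u → y u = y' u) → val y v b = val y' v b → y v = y' v

variable {d : V → ℕ} {val : (V → Fin β) → V → Bool → ℕ}

lemma Tri.one (h : Tri d val) (v : V) (b : Bool) (z : ℕ) :
    (univ.filter fun y => val y v b = z).card * β ≤ β ^ Fintype.card V :=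
  card_line v _ fun y hy y' hy' h1 => h.inj y y' v b (fun u hu => h1 u fun e => by
    rw [e] at hu; omega) ((mem_filter.mp hy).2.trans (mem_filter.mp hy').2.symm)

lemma Tri.two' (h : Tri d val) {u v : V} (huv : u ≠ v) (hd : d v ≤ d u) (b b' : Bool) (z z' : ℕ) :
    (univ.filter fun y => val y u b = z ∧ val y v b' = z').card * β * β ≤ β ^ Fintype.card V :=
  card_plane huv _ fun y hy y' hy' h1 => by
    have a1 := (mem_filter.mp hy).2
    have a2 := (mem_filter.mp hy').2
    have h2 : y u = y' u := h.inj y y' u b (fun s hs => h1 s (fun e => by rw [e] at hs; omega)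
      (fun e => by rw [e] at hs; omega)) (a1.1.trans a2.1.symm)
    refine ⟨h2, h.inj y y' v b' (fun s hs => ?_) (a1.2.trans a2.2.symm)⟩
    by_cases e : s = u
    · rw [e]; exact h2
    · exact h1 s e fun e => by rw [e] at hs; omega

lemma Tri.two (h : Tri d val) {u v : V} (huv : u ≠ v) (b b' : Bool) (z z' : ℕ) :
    (univ.filter fun y => val y u b = z ∧ val y v b' = z').card * β * β ≤ β ^ Fintype.card V := by
  rcases le_total (d v) (d u) with hd | hd
  · exact h.two' huv hd b b' z z'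
  · simp_rw [and_comm (a := val _ u b = z)]
    exact h.two' huv.symm hd b' b z' z

lemma Tri.eq' (h : Tri d val) {u v : V} (huv : u ≠ v) (hd : d u ≤ d v) (b : Bool) :
    (univ.filter fun y => val y u b = val y v b).card * β ≤ β ^ Fintype.card V :=
  card_line u _ fun y hy y' hy' h1 => by
    refine h.inj y y' u b (fun s hs => h1 s fun e => by rw [e] at hs; omega) ?_
    rw [(mem_filter.mp hy).2, (mem_filter.mp hy').2]
    exact h.dep y y' v b (fun s hs => h1 s fun e => by rw [e] at hs; omega) (h1 v huv.symm)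

lemma Tri.eq (h : Tri d val) {u v : V} (huv : u ≠ v) (b : Bool) :
    (univ.filter fun y => val y u b = val y v b).card * β ≤ β ^ Fintype.card V := by
  rcases le_total (d u) (d v) with hd | hd
  · exact h.eq' huv hd b
  · simp_rw [eq_comm (a := val _ u b)]
    exact h.eq' huv.symm hd b

lemma card_cover {γ δ : Type*} [DecidableEq γ] (F : Finset (V × γ)) (s : Finset δ) (top : δ → V)
    (E : δ → Finset γ) (h : ∀ i ∈ F, ∃ a ∈ s, i.1 = top a ∧ i.2 ∈ E a) :
    F.card ≤ ∑ a ∈ s, (E a).card := by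
  refine (card_le_card (t := s.biUnion fun a => (E a).image fun y => (top a, y))
    fun i hi => ?_).trans (card_biUnion_le.trans (sum_le_sum fun a _ => card_image_le))
  obtain ⟨a, ha, h1, h2⟩ := h i hi
  exact mem_biUnion.mpr ⟨a, ha, mem_image.mpr ⟨i.2, h2, Prod.ext h1.symm rfl⟩⟩

lemma exists_blocks_tri (C : ℕ) {ε : ℝ} (hε : 0 < ε) : ∃ γ : ℝ, 0 < γ ∧
    ∀ (V : Type) [Fintype V] [DecidableEq V] (β μ : ℕ) (d : V → ℕ)
      (val : (V → Fin β) → V → Bool → ℕ), Tri d val → ∀ (W : Finset V) (top : V → V),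
      (∀ t, (W.filter (top · = t)).card ≤ C) → 0 < β → W.card ≤ β → (C + μ : ℝ) ≤ γ * β →
      (∀ z z', (∑ v ∈ W, (univ.filter fun y => val y v false = z ∧ val y v true = z').card) * β ≤
        (1 + μ) * β ^ Fintype.card V) →
      ∃ (T : Finset V) (Y : V → V → Fin β), ((W.filter (top · ∉ T)).card : ℝ) ≤ ε * W.card ∧
        ∀ b, Set.InjOn (fun v => val (Y (top v)) v b) (W.filter (top · ∈ T)) := by
  classical
  obtain ⟨γ, hγ, H⟩ := exists_matching (2 * C + 1) (show 0 < ε / (2 * (C + 1)) by positivity)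
  refine ⟨min (γ / 2) (ε / (4 * (C + 1) ^ 2)), by positivity,
    fun V _ _ β μ d val h W top hC hβ hW hγβ hdiag => ?_⟩
  rcases W.eq_empty_or_nonempty with rfl | hne
  · exact ⟨∅, fun _ _ => ⟨0, hβ⟩, by simp, by simp⟩
  have hC1 : 1 ≤ C := by
    obtain ⟨v, hv⟩ := hne
    exact le_trans (card_pos.mpr ⟨v, by simp [hv]⟩) (hC (top v))
  set N : ℕ := β ^ Fintype.card V with hN
  have hN0 : (0 : ℝ) < N := by positivity
  have hβ0 : (0 : ℝ) < β := by exact_mod_cast hβ
  set blk : V → Finset V := fun t => W.filter (top · = t) with hblk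
  set e : V × (V → Fin β) → Finset (V ⊕ Bool × ℕ) := fun i => insert (.inl i.1)
    ((blk i.1 ×ˢ (univ : Finset Bool)).image fun p => .inr (p.2, val i.2 p.1 p.2)) with he
  have hel : ∀ i t, Sum.inl t ∈ e i ↔ i.1 = t := fun i t => by
    simp only [he, mem_insert, Sum.inl.injEq, mem_image, reduceCtorEq, and_false, exists_false,
      or_false]
    exact eq_comm
  have her : ∀ i b z, Sum.inr (b, z) ∈ e i ↔ ∃ v ∈ W, i.1 = top v ∧ val i.2 v b = z := by
    intro i b z
    simp only [he, hblk, mem_insert, reduceCtorEq, mem_image, mem_product, mem_filter, mem_univ,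
      and_true, Sum.inr.injEq, Prod.mk.injEq, Prod.exists, false_or]
    constructor
    · rintro ⟨v, b', ⟨h1, h2⟩, rfl, h3⟩; exact ⟨v, h1, h2.symm, h3⟩
    · rintro ⟨v, h1, h2, h3⟩; exact ⟨v, b, ⟨h1, h2.symm⟩, rfl, h3⟩
  set I := (W.image top ×ˢ (univ : Finset (V → Fin β))).filter
    fun i => ∀ b, Set.InjOn (fun v => val i.2 v b) (blk i.1) with hI
  have hload : ∀ (F : Finset (V × (V → Fin β))) (c : ℕ), F.card * β ≤ c * N →
      ∑ _i ∈ F, (N : ℝ)⁻¹ ≤ c / β := by
    intro F c hF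
    rw [sum_const, nsmul_eq_mul, ← div_eq_mul_inv, div_le_div_iff₀ hN0 hβ0]
    exact_mod_cast hF
  have hγ1 : ((C + (1 + μ) : ℕ) : ℝ) / β ≤ γ := by
    rw [div_le_iff₀ hβ0]
    have : min (γ / 2) (ε / (4 * (C + 1) ^ 2)) * β ≤ γ / 2 * β := by gcongr; exact min_le_left _ _
    have : (1 : ℝ) ≤ C := by exact_mod_cast hC1
    have : (0 : ℝ) ≤ μ := Nat.cast_nonneg _
    push_cast; linarith
  have hlr : ∀ t b z, ∑ i ∈ I with (Sum.inl t ∈ e i ∧ Sum.inr (b, z) ∈ e i), (N : ℝ)⁻¹ ≤ γ := by
    intro t b z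
    refine (hload _ (C + (1 + μ)) ?_).trans hγ1
    refine (Nat.mul_le_mul_right _ (card_cover _ (blk t) top
      (fun v => univ.filter fun y => val y v b = z) fun i hi => ?_)).trans ?_
    · obtain ⟨-, h1, h2⟩ := mem_filter.mp hi
      obtain ⟨v, h3, h4, h5⟩ := (her _ _ _).mp h2
      exact ⟨v, mem_filter.mpr ⟨h3, h4.symm.trans ((hel _ _).mp h1)⟩, h4,
        mem_filter.mpr ⟨mem_univ _, h5⟩⟩
    · rw [sum_mul]
      refine (sum_le_card_nsmul _ _ N fun v _ => h.one v b z).trans ?_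
      rw [smul_eq_mul]
      exact Nat.mul_le_mul_right _ ((hC t).trans (Nat.le_add_right _ _))
  obtain ⟨M, hM, hdisj, hcard⟩ := H _ _ I e (fun _ => (N : ℝ)⁻¹) ⟨fun i _ => ⟨by positivity,
      insert_nonempty _ _, (card_insert_le _ _).trans (Nat.succ_le_succ (card_image_le.trans (by
        rw [card_product, card_univ, Fintype.card_bool, mul_comm]
        exact Nat.mul_le_mul_left _ (hC _))))⟩, by
    rintro (t | ⟨b, z⟩)
    · refine (hload _ β ?_).trans (div_self hβ0.ne').le
      rw [mul_comm]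
      refine Nat.mul_le_mul_left _ ((card_cover _ {t} id (fun _ => univ) fun i hi => ?_).trans ?_)
      · exact ⟨t, mem_singleton_self _, (hel _ _).mp (mem_filter.mp hi).2, mem_univ _⟩
      · simp [hN]
    · refine (hload _ β ?_).trans (div_self hβ0.ne').le
      refine (Nat.mul_le_mul_right _ (card_cover _ W top
        (fun v => univ.filter fun y => val y v b = z) fun i hi => ?_)).trans ?_
      · obtain ⟨v, h3, h4, h5⟩ := (her _ _ _).mp (mem_filter.mp hi).2
        exact ⟨v, h3, h4, mem_filter.mpr ⟨mem_univ _, h5⟩⟩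
      · rw [sum_mul]
        refine (sum_le_card_nsmul _ _ N fun v _ => h.one v b z).trans ?_
        rw [smul_eq_mul]
        exact Nat.mul_le_mul_right _ hW, by
    rintro (t | ⟨b, z⟩) (t' | ⟨b', z'⟩) hne
    · rw [sum_eq_zero fun i hi => absurd ?_ hne]
      · exact hγ.le
      · obtain ⟨-, h1, h2⟩ := mem_filter.mp hi
        rw [← (hel _ _).mp h1, (hel _ _).mp h2]
    · exact hlr t b' z'
    · simp_rw [and_comm (a := Sum.inr (b, z) ∈ e _)]
      exact hlr t' b z
    · refine (hload _ (C + (1 + μ)) ?_).trans hγ1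
      refine (Nat.mul_le_mul_right _ (card_cover _ (W.sigma fun u => blk (top u))
        (fun p => top p.1) (fun p => univ.filter fun y => val y p.1 b = z ∧ val y p.2 b' = z')
        fun i hi => ?_)).trans ?_
      · obtain ⟨-, h1, h2⟩ := mem_filter.mp hi
        obtain ⟨u, h3, h4, h5⟩ := (her _ _ _).mp h1
        obtain ⟨v, h6, h7, h8⟩ := (her _ _ _).mp h2
        exact ⟨⟨u, v⟩, mem_sigma.mpr ⟨h3, mem_filter.mpr ⟨h6, h7.symm.trans h4⟩⟩, h4,
          mem_filter.mpr ⟨mem_univ _, h5, h8⟩⟩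
      · rw [sum_sigma, add_mul]
        have h1 : ∀ u ∈ W, ∑ v ∈ blk (top u),
            (univ.filter fun y => val y u b = z ∧ val y v b' = z').card =
            ∑ v ∈ (blk (top u)).erase u,
              (univ.filter fun y => val y u b = z ∧ val y v b' = z').card +
            (univ.filter fun y => val y u b = z ∧ val y u b' = z').card := fun u hu =>
          (sum_erase_add _ _ (by simp [hblk, hu])).symm
        rw [sum_congr rfl h1, sum_add_distrib, add_mul]
        refine add_le_add ?_ ?_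
        · refine Nat.le_of_mul_le_mul_right ?_ hβ
          rw [sum_mul, sum_mul]
          refine (sum_le_card_nsmul _ _ (C * N) fun u _ => ?_).trans ?_
          · rw [sum_mul, sum_mul]
            refine (sum_le_card_nsmul _ _ N fun v hv =>
              h.two (mem_erase.mp hv).1.symm b b' z z').trans ?_
            rw [smul_eq_mul]
            exact Nat.mul_le_mul_right _ (card_erase_le.trans (hC _))
          · rw [smul_eq_mul, mul_comm]
            exact Nat.mul_le_mul_left _ hW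
        · cases b <;> cases b'
          · rw [sum_eq_zero fun u _ => card_eq_zero.mpr (filter_eq_empty_iff.mpr
              fun y _ hy => hne (by rw [← hy.1, hy.2]))]
            simp
          · exact hdiag z z'
          · simp_rw [and_comm (a := val _ _ true = z)]
            exact hdiag z' z
          · rw [sum_eq_zero fun u _ => card_eq_zero.mpr (filter_eq_empty_iff.mpr
              fun y _ hy => hne (by rw [← hy.1, hy.2]))]
            simp⟩
  have hinj : Set.InjOn Prod.fst (M : Set (V × (V → Fin β))) := by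
    intro i hi j hj hij
    by_contra hc
    exact disjoint_left.mp (hdisj hi hj hc) ((hel _ _).mpr rfl) ((hel _ _).mpr hij.symm)
  have hY : ∀ t, ∃ y : V → Fin β, t ∈ M.image Prod.fst → (t, y) ∈ M := by
    intro t
    by_cases ht : t ∈ M.image Prod.fst
    · obtain ⟨i, hi, rfl⟩ := mem_image.mp ht
      exact ⟨i.2, fun _ => hi⟩
    · exact ⟨fun _ => ⟨0, hβ⟩, fun h => absurd h ht⟩
  choose Y hY using hY
  refine ⟨M.image Prod.fst, Y, ?_, fun b u hu v hv huv => ?_⟩
  · set T := W.image top with hT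
    have hsub : M.image Prod.fst ⊆ T := fun t ht => by
      obtain ⟨i, hi, rfl⟩ := mem_image.mp ht
      exact (mem_product.mp (mem_filter.mp (hM hi)).1).1
    have h1 : (W.filter (top · ∉ M.image Prod.fst)).card ≤ C * (T \ M.image Prod.fst).card :=
      card_le_mul_card_image_of_maps_to (f := top) (fun v hv => mem_sdiff.mpr
        ⟨mem_image_of_mem _ (mem_filter.mp hv).1, (mem_filter.mp hv).2⟩) C fun t _ =>
        (card_le_card (filter_subset_filter _ (filter_subset _ _))).trans (hC t)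
    rw [card_sdiff_of_subset hsub, card_image_of_injOn hinj] at h1
    have h2 : M.card ≤ T.card := by rw [← card_image_of_injOn hinj]; exact card_le_card hsub
    have h3 : (((T ×ˢ (univ : Finset (V → Fin β))).filter fun i =>
        ¬∀ b, Set.InjOn (fun v => val i.2 v b) (blk i.1)).card) * β ≤ T.card * (2 * C ^ 2) * N := by
      refine (Nat.mul_le_mul_right _ (card_cover _
        (T.sigma fun t => (univ : Finset Bool) ×ˢ (blk t).offDiag) (fun p => p.1)
        (fun p => univ.filter fun y => val y p.2.2.1 p.2.1 = val y p.2.2.2 p.2.1)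
        fun i hi => ?_)).trans ?_
      · obtain ⟨h4, h5⟩ := mem_filter.mp hi
        simp only [Set.InjOn, not_forall] at h5
        obtain ⟨b, u, hu, v, hv, h6, h7⟩ := h5
        exact ⟨⟨i.1, b, u, v⟩, mem_sigma.mpr ⟨(mem_product.mp h4).1, mem_product.mpr
          ⟨mem_univ _, mem_offDiag.mpr ⟨hu, hv, h7⟩⟩⟩, rfl, mem_filter.mpr ⟨mem_univ _, h6⟩⟩
      · rw [sum_mul]
        refine (sum_le_card_nsmul _ _ N fun p hp => h.eq (by
          have h4 := (mem_sigma.mp hp).2
          rw [mem_product, mem_offDiag] at h4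
          exact h4.2.2.2) _).trans ?_
        rw [smul_eq_mul, card_sigma]
        refine Nat.mul_le_mul_right _ ((sum_le_card_nsmul _ _ (2 * C ^ 2) fun t _ => ?_).trans
          (smul_eq_mul _ _).le)
        rw [card_product, card_univ, Fintype.card_bool, offDiag_card, sq]
        exact Nat.mul_le_mul_left _ ((Nat.sub_le _ _).trans (Nat.mul_le_mul (hC t) (hC t)))
    have h4 := card_filter_add_card_filter_not (s := T ×ˢ (univ : Finset (V → Fin β)))
      fun i => ∀ b, Set.InjOn (fun v => val i.2 v b) (blk i.1)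
    rw [card_product, card_univ, Fintype.card_fun, Fintype.card_fin, ← hN, ← hI] at h4
    rw [sum_const, nsmul_eq_mul] at hcard
    set B := ((T ×ˢ (univ : Finset (V → Fin β))).filter fun i =>
        ¬∀ b, Set.InjOn (fun v => val i.2 v b) (blk i.1)).card
    have h5 : (I.card : ℝ) + B = T.card * N := by exact_mod_cast h4
    have h6 : (B : ℝ) * β ≤ T.card * (2 * C ^ 2) * N := by exact_mod_cast h3
    have h7 : (T.card : ℝ) ≤ W.card := by exact_mod_cast card_image_le
    have h8 : ((W.filter (top · ∉ M.image Prod.fst)).card : ℝ) ≤ C * (T.card - M.card) := by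
      rw [← Nat.cast_sub h2]; exact_mod_cast h1
    have h9 : (C : ℝ) ≤ ε / (4 * (C + 1) ^ 2) * β := by
      have : min (γ / 2) (ε / (4 * (C + 1) ^ 2)) * β ≤ ε / (4 * (C + 1) ^ 2) * β := by
        gcongr; exact min_le_right _ _
      have : (0 : ℝ) ≤ μ := Nat.cast_nonneg _
      linarith
    have hC0 : (0 : ℝ) ≤ C := Nat.cast_nonneg _
    have hT0 : (0 : ℝ) ≤ T.card := Nat.cast_nonneg _
    have h10 : (I.card : ℝ) * (N : ℝ)⁻¹ = T.card - B / N := by
      field_simp; linarith
    have h11 : C * ((B : ℝ) / N) ≤ ε / 2 * T.card := by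
      rw [← mul_div_assoc, div_le_iff₀ hN0]
      refine le_of_mul_le_mul_right ?_ hβ0
      rw [div_mul_eq_mul_div, le_div_iff₀ (by positivity)] at h9
      calc (C : ℝ) * B * β ≤ C * (T.card * (2 * C ^ 2) * N) := by rw [mul_assoc]; gcongr
        _ = T.card * N * (C * (4 * C ^ 2)) / 2 := by ring
        _ ≤ T.card * N * (ε * β) / 2 := by
          gcongr T.card * N * ?_ / 2
          refine le_trans ?_ h9
          gcongr; linarith
        _ = _ := by ring
    have h12 : C * (ε / (2 * (C + 1))) ≤ ε / 2 := by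
      rw [← mul_div_assoc, div_le_div_iff₀ (by positivity) (by norm_num)]; nlinarith
    have h13 : 0 ≤ ε / (2 * (C + 1)) * ((B : ℝ) / N) := by positivity
    rw [h10] at hcard
    calc _ ≤ C * (T.card - M.card : ℝ) := h8
      _ ≤ C * (ε / (2 * (C + 1)) * T.card + B / N) := by gcongr; nlinarith
      _ ≤ ε / 2 * T.card + ε / 2 * T.card := by
        rw [mul_add, ← mul_assoc]; gcongr
      _ ≤ _ := by nlinarith
  · rw [mem_coe, mem_filter] at hu hv
    by_cases h1 : top u = top v
    · refine (mem_filter.mp (hM (hY _ hu.2))).2 b (mem_filter.mpr ⟨hu.1, rfl⟩)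
        (mem_filter.mpr ⟨hv.1, h1.symm⟩) ?_
      simp only at huv ⊢
      rw [huv, h1]
    · exfalso
      refine disjoint_left.mp (hdisj (hY _ hu.2) (hY _ hv.2) fun h2 => h1 (congrArg Prod.fst h2))
        ((her _ b _).mpr ⟨u, hu.1, rfl, rfl⟩) ((her _ b _).mpr ⟨v, hv.1, rfl, huv.symm⟩)

lemma exists_blocks (C : ℕ) {ε : ℝ} (hε : 0 < ε) : ∃ γ : ℝ, 0 < γ ∧
    ∀ (V : Type) [Fintype V] [DecidableEq V] (β μ : ℕ) (W : Finset V) (π top : V → V) (d ω : V → ℕ)
      (ξ : ℕ → Fin β → ℕ), (∀ v ∈ W, d (π v) + 1 = d v) → (∀ a, Function.Injective (ξ a)) →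
      (∀ v ∈ W, π v ∈ W → top (π v) = top v) → (∀ t, (W.filter (top · = t)).card ≤ C) →
      0 < β → W.card ≤ β → (C + μ : ℝ) ≤ γ * β →
      (∀ z, (W.filter fun v => (∀ c ∈ W, π c ≠ v) ∧ ω v = z).card ≤ μ) →
      ∃ Cov ⊆ W, ∃ x : V → ℕ, (∀ v ∈ W, π v ∈ W → (v ∈ Cov ↔ π v ∈ Cov)) ∧
        ((W \ Cov).card : ℝ) ≤ ε * W.card ∧ Set.InjOn x Cov ∧
        Set.InjOn (fun v => ω v + ∑ c ∈ W with π c = v, x c + x v) Cov ∧
        ∀ v ∈ Cov, ∃ j, x v = ξ (ω v + ∑ c ∈ W with π c = v, x c) j := by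
  obtain ⟨γ, hγ, H⟩ := exists_blocks_tri C hε
  refine ⟨γ, hγ, fun V _ _ β μ W π top d ω ξ hd hξ htop hC hβ hW hγβ hμ => ?_⟩
  obtain ⟨X, A, hA, hX, hdep⟩ := exists_X W π d hd ω ξ
  have tri : Tri d fun y v b => if b then A y v + X y v else X y v := by
    constructor
    · intro y y' v b h1 h2
      rw [hX y, hX y', hdep y y' v h1, h2]
    · intro y y' v b h1 h2
      rw [hX y, hX y', hdep y y' v h1] at h2
      refine hξ (A y' v) ?_
      cases b <;> simpa using h2
  obtain ⟨T, Y, h1, h2⟩ := H V β μ d _ tri W top hC hβ hW hγβ (by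
    intro z z'
    simp only [Bool.false_eq_true, if_false, if_true]
    rw [← sum_filter_add_sum_filter_not W fun v => ∀ c ∈ W, π c ≠ v, add_mul, add_mul, add_comm]
    refine add_le_add ?_ ?_
    · refine Nat.le_of_mul_le_mul_right ?_ hβ
      rw [sum_mul, sum_mul, one_mul]
      refine (sum_le_card_nsmul _ _ (β ^ Fintype.card V) fun v hv => ?_).trans ?_
      · have h3 := (mem_filter.mp hv).2
        push Not at h3
        obtain ⟨c, hc, hcv⟩ := h3
        have h4 := hd c hc
        rw [hcv] at h4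
        refine card_plane (u := c) (v := v) (fun e => by rw [e] at h4; omega) _
          fun y hy y' hy' h5 => ?_
        have a1 := (mem_filter.mp hy).2
        have a2 := (mem_filter.mp hy').2
        have a3 : A y v = A y' v := by omega
        have a4 : ∀ s, d c ≤ d s → s ≠ c → y s = y' s := fun s hs hs' =>
          h5 s hs' fun e => by rw [e] at hs; omega
        refine ⟨tri.inj y y' c false (fun s hs => a4 s hs.le fun e => by rw [e] at hs; omega) ?_,
          hξ (A y v) (by rw [← hX, a3, ← hX]; omega)⟩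
        have hc' : c ∈ W.filter (π · = v) := mem_filter.mpr ⟨hc, hcv⟩
        have a5 : ∑ b ∈ (W.filter (π · = v)).erase c, X y b =
            ∑ b ∈ (W.filter (π · = v)).erase c, X y' b := by
          refine sum_congr rfl fun b hb => ?_
          obtain ⟨b1, b2⟩ := mem_erase.mp hb
          have b3 := hd b (mem_filter.mp b2).1
          rw [(mem_filter.mp b2).2] at b3
          exact tri.dep y y' b false (fun s hs => a4 s (by omega) fun e => by rw [e] at hs; omega)
            (a4 b (by omega) b1)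
        rw [hA, hA, ← add_sum_erase _ _ hc', ← add_sum_erase _ _ hc', a5] at a3
        simp only [Bool.false_eq_true, if_false]; omega
      · rw [smul_eq_mul, mul_comm]
        exact Nat.mul_le_mul_left _ ((card_filter_le _ _).trans hW)
    · rw [← sum_filter_add_sum_filter_not _ fun v => ω v = z' - z, sum_eq_zero
        (s := filter (fun v => ¬ω v = z' - z) _) fun v hv => card_eq_zero.mpr
          (filter_eq_empty_iff.mpr fun y _ hy => (mem_filter.mp hv).2 ?_), add_zero, sum_mul]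
      · refine (sum_le_card_nsmul _ _ (β ^ Fintype.card V) fun v _ => le_trans
          (Nat.mul_le_mul_right _ (card_le_card fun y hy => ?_)) (tri.one v false z)).trans ?_
        · exact mem_filter.mpr ⟨mem_univ _, (mem_filter.mp hy).2.1⟩
        · rw [smul_eq_mul, filter_filter]
          exact Nat.mul_le_mul_right _ (hμ _)
      · have h3 := hA y v
        rw [sum_eq_zero fun c hc => absurd (mem_filter.mp hc).2
          ((mem_filter.mp (mem_filter.mp hv).1).2 c (mem_filter.mp hc).1)] at h3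
        omega)
  have h3 : ∀ v ∈ W, ω v + ∑ c ∈ W with π c = v, X (Y (top c)) c = A (Y (top v)) v := by
    intro v hv
    rw [hA]
    congr 1
    refine sum_congr rfl fun c hc => ?_
    rw [mem_filter] at hc
    rw [← htop c hc.1 (hc.2 ▸ hv), hc.2]
  refine ⟨W.filter (top · ∈ T), filter_subset _ _, fun v => X (Y (top v)) v, fun v hv hv' => ?_,
    by rwa [← filter_not], h2 false, fun u hu v hv huv => h2 true hu hv ?_, fun v hv => ⟨Y (top v) v, ?_⟩⟩
  · simp only [mem_filter, hv, hv', true_and, htop v hv hv']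
  · simp only at huv
    rw [h3 u (mem_filter.mp hu).1, h3 v (mem_filter.mp hv).1] at huv
    exact huv
  · rw [h3 v (mem_filter.mp hv).1]; exact hX _ _

end Pool.Agent.Lib.MP_0830d8_co
end

-- part Pool.Agent.Lib.MP_0830d8_co.Ex.Nib
section

/-!
The matching theorem in the form used for blocks with random values.
-/

namespace Pool.Agent.Lib.MP_0830d8_co.Ex

open Finset

lemma nib (C : ℕ) {ε : ℝ} (hε : 0 < ε) : ∃ γ : ℝ, 0 < γ ∧
    ∀ (ι O Ω α : Type) [DecidableEq ι] [DecidableEq O] [Fintype Ω] [Nonempty Ω] [DecidableEq Ω]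
      [DecidableEq α] (B : Finset ι) (Os : Finset O) (blk : O → ι) (val : O → Ω → α),
      (∀ t, (Os.filter (blk · = t)).card ≤ C) →
      (∀ z, ∑ o ∈ Os, ((univ.filter fun ω => val o ω = z).card : ℝ) ≤ (1 + ε) * Fintype.card Ω) →
      (∀ o ∈ Os, ∀ z, ((univ.filter fun ω => val o ω = z).card : ℝ) ≤ γ * Fintype.card Ω) →
      (∀ z z', z ≠ z' → ∑ o ∈ Os, ∑ o' ∈ Os with blk o' = blk o,
        ((univ.filter fun ω => val o ω = z ∧ val o' ω = z').card : ℝ) ≤ γ * Fintype.card Ω) →
      (∀ o ∈ Os, ∀ o' ∈ Os, o ≠ o' → blk o = blk o' →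
        ((univ.filter fun ω => val o ω = val o' ω).card : ℝ) ≤ γ * Fintype.card Ω) →
      ∃ T ⊆ B, ∃ Y : ι → Ω, ((B \ T).card : ℝ) ≤ 3 * ε * B.card ∧
        Set.InjOn (fun o => val o (Y (blk o))) (Os.filter (blk · ∈ T)) := by
  classical
  obtain ⟨γ0, hγ0, H⟩ := exists_matching (C + 1) hε
  have hC1 : (0 : ℝ) < (C + 1) ^ 2 := by positivity
  refine ⟨min (γ0 / (C + 1)) (ε / (C + 1) ^ 2), by positivity,
    fun ι O Ω α _ _ _ _ _ _ B Os blk val hC h2 h3 h4 h5 => ?_⟩
  set γ := min (γ0 / (C + 1)) (ε / (C + 1) ^ 2) with hγ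
  have hγ' : 0 < γ := by positivity
  have g1 : (C + 1) * γ ≤ γ0 := by
    have := min_le_left (γ0 / (C + 1)) (ε / (C + 1) ^ 2)
    rwa [← hγ, le_div_iff₀ (by positivity), mul_comm] at this
  have g2 : (C + 1) ^ 2 * γ ≤ ε := by
    have := min_le_right (γ0 / (C + 1)) (ε / (C + 1) ^ 2)
    rwa [← hγ, le_div_iff₀ (by positivity), mul_comm] at this
  have hC0 : (0 : ℝ) ≤ C := Nat.cast_nonneg _
  set N : ℝ := (Fintype.card Ω : ℝ) with hN
  have hN0 : 0 < N := by rw [hN]; exact_mod_cast Fintype.card_pos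
  set bl : ι → Finset O := fun t => Os.filter (blk · = t) with hbl
  set e : ι × Ω → Finset (ι ⊕ α) := fun i => insert (.inl i.1)
    ((bl i.1).image fun o => .inr (val o i.2)) with he
  have hel : ∀ i t, Sum.inl t ∈ e i ↔ i.1 = t := fun i t => by
    simp only [he, mem_insert, Sum.inl.injEq, mem_image, reduceCtorEq, and_false, exists_false,
      or_false]
    exact eq_comm
  have her : ∀ i z, Sum.inr z ∈ e i ↔ ∃ o ∈ Os, i.1 = blk o ∧ val o i.2 = z := by
    intro i z
    simp only [he, hbl, mem_insert, reduceCtorEq, mem_image, mem_filter, Sum.inr.injEq, false_or]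
    constructor
    · rintro ⟨o, ⟨h1, h2⟩, h3⟩; exact ⟨o, h1, h2.symm, h3⟩
    · rintro ⟨o, h1, h2, h3⟩; exact ⟨o, ⟨h1, h2.symm⟩, h3⟩
  set I := (B ×ˢ (univ : Finset Ω)).filter
    fun i => Set.InjOn (fun o => val o i.2) (bl i.1) with hI
  set w0 : ℝ := ((1 + ε) * N)⁻¹ with hw0
  have hw00 : 0 < w0 := by positivity
  have hload : ∀ (F : Finset (ι × Ω)) (c : ℝ), (F.card : ℝ) ≤ c * ((1 + ε) * N) →
      ∑ _i ∈ F, w0 ≤ c := by
    intro F c hF
    rw [sum_const, nsmul_eq_mul, hw0, ← div_eq_mul_inv, div_le_iff₀ (by positivity)]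
    exact hF
  have hcov : ∀ {δ : Type} (F : Finset (ι × Ω)) (s : Finset δ) (top : δ → ι) (E : δ → Finset Ω),
      (∀ i ∈ F, ∃ a ∈ s, i.1 = top a ∧ i.2 ∈ E a) →
      (F.card : ℝ) ≤ ∑ a ∈ s, ((E a).card : ℝ) := by
    intro δ F s top E h
    have : F.card ≤ ∑ a ∈ s, (E a).card := by
      refine (card_le_card (t := s.biUnion fun a => (E a).image fun y => (top a, y))
        fun i hi => ?_).trans (card_biUnion_le.trans (sum_le_sum fun a _ => card_image_le))
      obtain ⟨a, ha, h1, h2⟩ := h i hi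
      exact mem_biUnion.mpr ⟨a, ha, mem_image.mpr ⟨i.2, h2, Prod.ext h1.symm rfl⟩⟩
    exact_mod_cast this
  have hNle : N ≤ (1 + ε) * N := by nlinarith
  have hlr : ∀ t z, ∑ i ∈ I with (Sum.inl t ∈ e i ∧ Sum.inr z ∈ e i), w0 ≤ γ0 := by
    intro t z
    refine hload _ _ ((hcov _ (bl t) blk (fun o => univ.filter fun ω => val o ω = z)
      fun i hi => ?_).trans ?_)
    · obtain ⟨-, h1, h2⟩ := mem_filter.mp hi
      obtain ⟨o, a1, a2, a3⟩ := (her _ _).mp h2
      exact ⟨o, mem_filter.mpr ⟨a1, a2.symm.trans ((hel _ _).mp h1)⟩, a2,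
        mem_filter.mpr ⟨mem_univ _, a3⟩⟩
    · refine (sum_le_card_nsmul _ _ (γ * N) fun o ho => h3 o (mem_filter.mp ho).1 z).trans ?_
      rw [nsmul_eq_mul]
      have : ((bl t).card : ℝ) ≤ C := by exact_mod_cast hC t
      calc ((bl t).card : ℝ) * (γ * N) ≤ (C + 1) * (γ * N) := by gcongr; linarith
        _ = (C + 1) * γ * N := by ring
        _ ≤ _ := by gcongr
  obtain ⟨M, hM, hdisj, hcard⟩ := H _ _ I e (fun _ => w0) ⟨fun i _ => ⟨hw00.le,
      insert_nonempty _ _, (card_insert_le _ _).trans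
        (Nat.succ_le_succ (card_image_le.trans (hC _)))⟩, by
    rintro (t | z)
    · refine hload _ _ ((hcov _ {t} id (fun _ => univ) fun i hi => ?_).trans ?_)
      · exact ⟨t, mem_singleton_self _, (hel _ _).mp (mem_filter.mp hi).2, mem_univ _⟩
      · rw [sum_singleton, card_univ, one_mul]; exact hNle
    · refine hload _ _ ((hcov _ Os blk (fun o => univ.filter fun ω => val o ω = z)
        fun i hi => ?_).trans (by rw [one_mul]; exact h2 z))
      obtain ⟨o, a1, a2, a3⟩ := (her _ _).mp (mem_filter.mp hi).2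
      exact ⟨o, a1, a2, mem_filter.mpr ⟨mem_univ _, a3⟩⟩, by
    rintro (t | z) (t' | z') hne
    · rw [sum_eq_zero fun i hi => absurd ?_ hne]
      · exact hγ0.le
      · obtain ⟨-, h1, h2⟩ := mem_filter.mp hi
        rw [← (hel _ _).mp h1, (hel _ _).mp h2]
    · exact hlr t z'
    · simp_rw [and_comm (a := Sum.inr z ∈ e _)]
      exact hlr t' z
    · refine hload _ _ ((hcov _ (Os.sigma fun o => Os.filter fun o' => blk o' = blk o)
        (fun p => blk p.1) (fun p => univ.filter fun ω => val p.1 ω = z ∧ val p.2 ω = z')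
        fun i hi => ?_).trans ?_)
      · obtain ⟨-, h1, h2⟩ := mem_filter.mp hi
        obtain ⟨u, a3, a4, a5⟩ := (her _ _).mp h1
        obtain ⟨v, a6, a7, a8⟩ := (her _ _).mp h2
        exact ⟨⟨u, v⟩, mem_sigma.mpr ⟨a3, mem_filter.mpr ⟨a6, a7.symm.trans a4⟩⟩, a4,
          mem_filter.mpr ⟨mem_univ _, a5, a8⟩⟩
      · rw [sum_sigma]
        refine (h4 z z' fun h => hne (by rw [h])).trans ?_
        have : γ ≤ γ0 := by nlinarith
        gcongr⟩
  have hinj : Set.InjOn Prod.fst (M : Set (ι × Ω)) := by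
    intro i hi j hj hij
    by_contra hc
    exact disjoint_left.mp (hdisj hi hj hc) ((hel _ _).mpr rfl) ((hel _ _).mpr hij.symm)
  have hY : ∀ t, ∃ y : Ω, t ∈ M.image Prod.fst → (t, y) ∈ M := by
    intro t
    by_cases ht : t ∈ M.image Prod.fst
    · obtain ⟨i, hi, rfl⟩ := mem_image.mp ht
      exact ⟨i.2, fun _ => hi⟩
    · exact ⟨Classical.arbitrary Ω, fun h => absurd h ht⟩
  choose Y hY using hY
  have hsub : M.image Prod.fst ⊆ B := fun t ht => by
    obtain ⟨i, hi, rfl⟩ := mem_image.mp ht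
    exact (mem_product.mp (mem_filter.mp (hM hi)).1).1
  refine ⟨M.image Prod.fst, hsub, Y, ?_, fun u hu v hv huv => ?_⟩
  · have h6 : (((B ×ˢ (univ : Finset Ω)).filter fun i =>
        ¬Set.InjOn (fun o => val o i.2) (bl i.1)).card : ℝ) ≤ B.card * (ε * N) := by
      refine (hcov _ (B.sigma fun t => (bl t).offDiag) (fun p => p.1)
        (fun p => univ.filter fun ω => val p.2.1 ω = val p.2.2 ω) fun i hi => ?_).trans ?_
      · obtain ⟨a4, a5⟩ := mem_filter.mp hi
        simp only [Set.InjOn, not_forall] at a5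
        obtain ⟨u, hu, v, hv, a6, a7⟩ := a5
        exact ⟨⟨i.1, u, v⟩, mem_sigma.mpr ⟨(mem_product.mp a4).1,
          mem_offDiag.mpr ⟨hu, hv, a7⟩⟩, rfl, mem_filter.mpr ⟨mem_univ _, a6⟩⟩
      · rw [sum_sigma, ← nsmul_eq_mul]
        refine sum_le_card_nsmul _ _ _ fun t _ => ?_
        refine (sum_le_card_nsmul _ _ (γ * N) fun p hp => ?_).trans ?_
        · obtain ⟨a1, a2, a3⟩ := mem_offDiag.mp hp
          exact h5 _ (mem_filter.mp a1).1 _ (mem_filter.mp a2).1 a3
            ((mem_filter.mp a1).2.trans (mem_filter.mp a2).2.symm)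
        · rw [nsmul_eq_mul]
          have b1 : ((bl t).offDiag.card : ℝ) ≤ (C + 1) ^ 2 := by
            have : (bl t).offDiag.card ≤ C * C := by
              rw [offDiag_card]
              exact (Nat.sub_le _ _).trans (Nat.mul_le_mul (hC t) (hC t))
            have : ((bl t).offDiag.card : ℝ) ≤ C * C := by exact_mod_cast this
            nlinarith
          calc _ ≤ (C + 1) ^ 2 * (γ * N) := by gcongr
            _ = (C + 1) ^ 2 * γ * N := by ring
            _ ≤ _ := by gcongr
    have h7 := card_filter_add_card_filter_not (s := B ×ˢ (univ : Finset Ω))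
      fun i => Set.InjOn (fun o => val o i.2) (bl i.1)
    rw [card_product, card_univ, ← hI] at h7
    have h8 := congrArg (Nat.cast : ℕ → ℝ) h7
    rw [Nat.cast_add, Nat.cast_mul, ← hN] at h8
    rw [sum_const, nsmul_eq_mul] at hcard
    rw [card_sdiff_of_subset hsub, card_image_of_injOn hinj,
      Nat.cast_sub (by rw [← card_image_of_injOn hinj]; exact card_le_card hsub)]
    have hB0 : (0 : ℝ) ≤ B.card := Nat.cast_nonneg _
    have hM0 : (0 : ℝ) ≤ M.card := Nat.cast_nonneg _
    rcases le_total 1 ε with h1 | h1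
    · nlinarith
    · have h9 : (1 - ε) * B.card * N ≤ I.card := by linarith
      have h10 : (1 - ε) * B.card / (1 + ε) ≤ I.card * w0 := by
        rw [hw0, ← div_eq_mul_inv, div_le_div_iff₀ (by positivity) (by positivity)]
        nlinarith
      have h11 : (1 - 2 * ε) * B.card ≤ (1 - ε) * B.card / (1 + ε) := by
        rw [le_div_iff₀ (by positivity)]
        nlinarith [mul_nonneg hB0 (sq_nonneg ε)]
      have h12 := mul_le_mul_of_nonneg_left (h11.trans h10) (show 0 ≤ 1 - ε by linarith)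
      nlinarith [mul_nonneg hB0 (sq_nonneg ε)]
  · rw [mem_coe, mem_filter] at hu hv
    by_cases h1 : blk u = blk v
    · refine (mem_filter.mp (hM (hY _ hu.2))).2 (mem_filter.mpr ⟨hu.1, rfl⟩)
        (mem_filter.mpr ⟨hv.1, h1.symm⟩) ?_
      simp only at huv ⊢
      rw [huv, h1]
    · exfalso
      refine disjoint_left.mp (hdisj (hY _ hu.2) (hY _ hv.2) fun h2 => h1 (congrArg Prod.fst h2))
        ((her _ _).mpr ⟨u, hu.1, rfl, rfl⟩) ((her _ _).mpr ⟨v, hv.1, rfl, huv.symm⟩)

end Pool.Agent.Lib.MP_0830d8_co.Ex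
end

-- part Pool.Agent.Lib.MP_0830d8_co.Ex.NibLin
section

/-!
The matching theorem for linear forms in heights with a common centre.
-/

namespace Pool.Agent.Lib.MP_0830d8_co.Ex

open Finset

lemma nib_lin (C : ℕ) {ε : ℝ} (hε : 0 < ε) : ∃ γ : ℝ, 0 < γ ∧
    ∀ (ι O A K : Type) [DecidableEq ι] [DecidableEq O] [Fintype A] [DecidableEq A] [DecidableEq K]
      (B : Finset ι) (Os : Finset O) (blk : O → ι) (key : O → K) (supp : O → Finset A)
      (k : O → ℤ) (Q β w : ℕ) (M : ℝ), 0 < Q → 0 < β → 0 < w →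
      (∀ t, (Os.filter (blk · = t)).card ≤ C) → (∀ o ∈ Os, (supp o).Nonempty) →
      (∀ κ z, (∑ o ∈ Os with (key o = κ ∧ (Q : ℤ) ∣ z - k o),
        (if (supp o).card = 1 then 2 else 1 : ℝ)) * (w + 1) ≤ (1 + ε) * (2 * w * β)) →
      (∀ o ∈ Os, ∀ o' ∈ Os, o ≠ o' → key o = key o' → supp o ≠ supp o') →
      (∀ D, (((Os ×ˢ Os).filter fun p => p.1 ≠ p.2 ∧ supp p.1 = supp p.2 ∧
        k p.2 - k p.1 = D).card : ℝ) ≤ M) →
      Os.card * C + M * w ≤ γ * β * w → 1 ≤ γ * w → 1 ≤ γ * β →
      ∃ T ⊆ B, ∃ Y : ι → Fin β × (A → Fin w), ((B \ T).card : ℝ) ≤ 3 * ε * B.card ∧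
        ∀ o ∈ Os, ∀ o' ∈ Os, blk o ∈ T → blk o' ∈ T → key o = key o' →
          k o + Q * lin (supp o) (Y (blk o)) = k o' + Q * lin (supp o') (Y (blk o')) → o = o' := by
  obtain ⟨γ, hγ, H⟩ := nib C hε
  refine ⟨γ, hγ, fun ι O A K _ _ _ _ _ B Os blk key supp k Q β w M hQ hβ hw hC hne hload hkey
    hsame g1 g2 g3 => ?_⟩
  have : Nonempty (Fin β × (A → Fin w)) := ⟨(⟨0, hβ⟩, fun _ => ⟨0, hw⟩)⟩
  set N : ℝ := (Fintype.card (Fin β × (A → Fin w)) : ℝ) with hN
  have hN0 : 0 < N := by rw [hN]; exact_mod_cast Fintype.card_pos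
  have hβ0 : (0 : ℝ) < β := by exact_mod_cast hβ
  have hw0 : (0 : ℝ) < w := by exact_mod_cast hw
  have hQ0 : (Q : ℤ) ≠ 0 := by exact_mod_cast hQ.ne'
  set val : O → Fin β × (A → Fin w) → K × ℤ :=
    fun o ω => (key o, k o + Q * lin (supp o) ω) with hval
  have hc : ∀ o ω ω', val o ω = val o ω' → lin (supp o) ω = lin (supp o) ω' := fun o ω ω' h =>
    mul_left_cancel₀ hQ0 (add_left_cancel (congrArg Prod.snd h))
  have one : ∀ o ∈ Os, ∀ z, ((univ.filter fun ω => val o ω = z).card : ℝ) ≤ N / β := by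
    intro o ho z
    rw [le_div_iff₀ hβ0, hN]
    exact_mod_cast lin_one (hne o ho) (univ.filter fun ω => val o ω = z) fun ω h ω' h' =>
      hc o _ _ ((mem_filter.mp h).2.trans (mem_filter.mp h').2.symm)
  obtain ⟨T, hT, Y, h1, h2⟩ := H ι O (Fin β × (A → Fin w)) (K × ℤ) B Os blk val hC (by
      rintro ⟨κ, z⟩
      have a1 : ∀ o ∈ Os, ((univ.filter fun ω => val o ω = (κ, z)).card : ℝ) ≤
          if key o = κ ∧ (Q : ℤ) ∣ z - k o then
            (if (supp o).card = 1 then 2 else 1 : ℝ) * (w + 1) * (N / (2 * w * β)) else 0 := by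
        intro o ho
        split_ifs with b1 b2
        · refine (one o ho _).trans ?_
          rw [← mul_div_assoc, div_le_div_iff₀ hβ0 (by positivity)]
          nlinarith [mul_pos hN0 hβ0]
        · rw [← mul_div_assoc, le_div_iff₀ (by positivity), one_mul, hN]
          have := lin_two (S := supp o) (β := β) (w := w) (by have := (hne o ho).card_pos; omega)
            (univ.filter fun ω => val o ω = (κ, z)) fun ω h ω' h' =>
              hc o _ _ ((mem_filter.mp h).2.trans (mem_filter.mp h').2.symm)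
          have h3 : ((2 * (univ.filter fun ω => val o ω = (κ, z)).card * β * w : ℕ) : ℝ) ≤ _ :=
            Nat.cast_le.mpr this
          push_cast at h3
          linarith
        · rw [filter_eq_empty_iff.mpr fun ω _ h => b1 ?_]
          · simp
          · simp only [hval, Prod.mk.injEq] at h
            exact ⟨h.1, lin (supp o) ω, by rw [← h.2]; ring⟩
      refine (sum_le_sum a1).trans ?_
      rw [← sum_filter, ← sum_mul, ← sum_mul]
      refine (mul_le_mul_of_nonneg_right (hload κ z) (by positivity)).trans (le_of_eq ?_)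
      rw [← hN]
      field_simp)
    (fun o ho z => (one o ho z).trans (by
      rw [div_le_iff₀ hβ0]; nlinarith)) (by
      intro z z' hz
      have a1 : ∀ o ∈ Os, ∀ o' ∈ Os.filter fun o' => blk o' = blk o,
          ((univ.filter fun ω => val o ω = z ∧ val o' ω = z').card : ℝ) ≤ N / (β * w) +
            if o ≠ o' ∧ supp o = supp o' ∧ k o' - k o = z'.2 - z.2 then N / β else 0 := by
        intro o ho o' ho'
        have ho'' := (mem_filter.mp ho').1
        have p1 : 0 ≤ N / (β * w) := by positivity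
        by_cases b1 : supp o = supp o'
        · split_ifs with b2
          · refine le_add_of_nonneg_of_le p1 (le_trans ?_ (one o ho z))
            exact Nat.cast_le.mpr (card_le_card fun ω h =>
              mem_filter.mpr ⟨mem_univ _, (mem_filter.mp h).2.1⟩)
          · rw [filter_eq_empty_iff.mpr fun ω _ (h : val o ω = z ∧ val o' ω = z') =>
              b2 ⟨?_, b1, ?_⟩]
            · simpa using p1
            · rintro rfl; exact hz (h.1.symm.trans h.2)
            · rw [← h.1, ← h.2]; simp only [hval, b1]; ring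
        · rw [if_neg fun h => b1 h.2.1, add_zero, le_div_iff₀ (by positivity), hN, ← mul_assoc]
          exact_mod_cast lin_pair (hne o ho) (hne o' ho'') b1
            (univ.filter fun ω => val o ω = z ∧ val o' ω = z') fun ω h ω' h' =>
            ⟨hc o _ _ ((mem_filter.mp h).2.1.trans (mem_filter.mp h').2.1.symm),
              hc o' _ _ ((mem_filter.mp h).2.2.trans (mem_filter.mp h').2.2.symm)⟩
      refine (sum_le_sum fun o ho => sum_le_sum (a1 o ho)).trans ?_
      simp only [sum_add_distrib]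
      have a2 : ∑ o ∈ Os, ∑ _o' ∈ Os with blk _o' = blk o, N / (β * w) ≤
          Os.card * (C * (N / (β * w))) := by
        refine (sum_le_card_nsmul _ _ _ fun o _ => ?_).trans (nsmul_eq_mul _ _).le
        rw [sum_const, nsmul_eq_mul]
        gcongr
        exact_mod_cast hC (blk o)
      have a3 : ∑ o ∈ Os, ∑ o' ∈ Os with blk o' = blk o,
          (if o ≠ o' ∧ supp o = supp o' ∧ k o' - k o = z'.2 - z.2 then N / β else 0) ≤
          M * (N / β) := by
        refine (sum_le_sum fun o _ => sum_le_sum_of_subset_of_nonneg (filter_subset _ _)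
          fun o' _ _ => by split_ifs <;> positivity).trans ?_
        rw [← sum_product', ← sum_filter, sum_const, nsmul_eq_mul]
        exact mul_le_mul_of_nonneg_right (hsame _) (by positivity)
      have a4 : Os.card * (C * (N / (β * w))) + M * (N / β) =
          (Os.card * C + M * w) * (N / (β * w)) := by field_simp
      have a5 : γ * β * w * (N / (β * w)) = γ * N := by field_simp
      have a6 := mul_le_mul_of_nonneg_right g1 (show 0 ≤ N / (β * w) by positivity)
      linarith) (by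
      intro o ho o' ho' hoo _
      by_cases b1 : key o = key o'
      · have := lin_eq (hkey o ho o' ho' hoo b1) (univ.filter fun ω => val o ω = val o' ω)
          fun ω h ω' h' => ⟨fun e => hc o' _ _ (by
            rw [← (mem_filter.mp h).2, ← (mem_filter.mp h').2]; simp only [hval, e]),
            fun e => hc o _ _ (by
              rw [(mem_filter.mp h).2, (mem_filter.mp h').2]; simp only [hval, e])⟩
        have h3 : ((univ.filter fun ω => val o ω = val o' ω).card : ℝ) * w ≤ N := by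
          rw [hN]; exact_mod_cast this
        have h4 : (0 : ℝ) ≤ (univ.filter fun ω => val o ω = val o' ω).card := Nat.cast_nonneg _
        nlinarith
      · rw [filter_eq_empty_iff.mpr fun ω _ h => b1 (congrArg Prod.fst h)]
        simp only [card_empty, Nat.cast_zero]
        positivity)
  exact ⟨T, hT, Y, h1, fun o ho o' ho' a1 a2 a3 a4 =>
    h2 (mem_filter.mpr ⟨ho, a1⟩) (mem_filter.mpr ⟨ho', a2⟩) (Prod.ext a3 a4)⟩

end Pool.Agent.Lib.MP_0830d8_co.Ex
end

-- part Pool.Agent.Lib.MP_0830d8_co.Ex.Fix1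
section

/-! Repair of the bad vertices by swaps: the general scheme. -/

set_option linter.unusedSectionVars false

namespace Pool.Agent.Lib.MP_0830d8_co.Ex

open Finset

variable {V : Type} [Fintype V] [DecidableEq V]

/-- reserved classes are available for the difference `d` -/
def Sys.Rs (S : Sys) (d : ZMod S.Q) : Prop :=
  ∀ d', (d' = d ∨ d' = -d) → ∀ X : Finset (ZMod S.Q), X.card ≤ 5 → ∃ R, R ∉ X ∧ R ∉ S.SN ∧
    R + d' ∈ S.SN

theorem fixgen (S : Sys) (s : (V → ℤ) → V → ℤ) (Inv : (V → ℤ) → Prop) (lam : V → ℤ)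
    (h0 : Inv lam) (Bad Φ E : Finset V) (k : ℕ) (hk : 200 * (Bad.card + 2) ≤ k)
    (hE : E.card ≤ 2 * Bad.card + 4) (hgood : ∀ v ∉ Bad, ((s lam v : ℤ) : ZMod S.Q) ∈ S.SN)
    (hinj : Set.InjOn lam Φ) (ε : V → V → ℤ) (hε : ∀ v w, ε v w = 0 ∨ ε v w = 1 ∨ ε v w = -1)
    (M : V → Fin 4 → V) (hM : ∀ v w, ε v w ≠ 0 → ∃ i, M v i = w) (Nb : V → Finset V)
    (hNb : ∀ x, (Nb x).card ≤ 2) (hNb' : ∀ w, (Φ.filter fun x => w ∈ Nb x).card ≤ 2)
    (new : ℤ → V → V → ℤ) (op : (V → ℤ) → V → V → V → ℤ)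
    (hcand : ∀ (a : ℤ) (d : ZMod S.Q) (X : Finset (ZMod S.Q)), X.card ≤ 4 → S.Rs d →
      ∃ Cand ⊆ Φ, k ≤ Cand.card ∧ ∀ x ∈ Cand, ((lam x - a : ℤ) : ZMod S.Q) = d ∧
        ∀ w ∈ Nb x, ((new a x w : ℤ) : ZMod S.Q) ∉ S.SN ∧ ((new a x w : ℤ) : ZMod S.Q) ∉ X ∧
          ∀ w' ∈ Nb x, w' ≠ w → new a x w ≠ new a x w')
    (hmult : ∀ a z, (Φ.filter fun x => ∃ w ∈ Nb x, new a x w = z).card ≤ 6)
    (hop : ∀ l, Inv l → ∀ v ∈ E, ∀ x ∈ Φ,
      (∀ w ∈ Nb x, l w = lam w ∧ s l w = s lam w ∧ ∀ i, M v i ≠ w) → Inv (op l v x) ∧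
        (∀ w ∉ Nb x, s (op l v x) w = s l w + ε v w * (lam x - l v)) ∧
        (∀ w ∈ Nb x, s (op l v x) w = new (l v) x w) ∧
        ∀ w ∉ Nb x, (∀ i, M v i ≠ w) → op l v x w = l w) :
    ∃ l, Inv l ∧ ∀ u u', s l u = s l u' → s lam u = s lam u' ∧ ∀ v ∈ E, ε v u = ε v u' := by
  classical
  suffices H : ∀ E' ⊆ E, ∃ (l : V → ℤ) (D : Finset V), Inv l ∧ D.card ≤ 6 * E'.card ∧
      (∀ w ∉ D, l w = lam w ∧ s l w = s lam w) ∧
      ∀ u u', s l u = s l u' → s lam u = s lam u' ∧ ∀ v ∈ E', ε v u = ε v u' by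
    obtain ⟨l, D, a, -, -, b⟩ := H E Subset.rfl
    exact ⟨l, a, b⟩
  intro E'
  induction E' using Finset.induction_on with
  | empty => exact fun _ => ⟨lam, ∅, h0, by simp, by simp, by simp⟩
  | insert v E' hv ih =>
    intro hs
    obtain ⟨l, D, hI, hD, hD', hl⟩ := ih ((subset_insert _ _).trans hs)
    have hvE := hs (mem_insert_self _ _)
    have hE' : E'.card + 1 ≤ E.card := by
      rw [← card_insert_of_notMem hv]; exact card_le_card hs
    obtain ⟨d, hd, hd'⟩ := S.res (fun i => ((s l (M v i) : ℤ) : ZMod S.Q))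
      (fun i => if ε v (M v i) = -1 then -1 else 1) fun i => by split_ifs <;> simp
    obtain ⟨Cd, c1, c2, c3⟩ := hcand (l v) d (univ.image fun i => ((s l (M v i) : ℤ) : ZMod S.Q) +
      (if ε v (M v i) = -1 then -1 else 1) * d) (card_image_le.trans (by simp)) hd'
    set F := D ∪ univ.image (M v) with hF
    have hFc : F.card ≤ D.card + 4 := (card_union_le _ _).trans (by
      have := card_image_le (s := univ) (f := M v); simp at this; omega)
    set Cand := Cd.filter fun x => ∀ w ∈ Nb x, w ∉ F with hCand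
    have hc : Cd.card ≤ Cand.card + F.card * 2 := by
      have : Cd ⊆ Cand ∪ F.biUnion fun w => Φ.filter fun x => w ∈ Nb x := fun x hx => by
        by_cases h : ∀ w ∈ Nb x, w ∉ F
        · exact mem_union_left _ (mem_filter.2 ⟨hx, h⟩)
        · push Not at h
          obtain ⟨w, a, b⟩ := h
          exact mem_union_right _ (mem_biUnion.2 ⟨w, b, mem_filter.2 ⟨c1 hx, a⟩⟩)
      exact (card_le_card this).trans ((card_union_le _ _).trans (Nat.add_le_add_left
        (card_biUnion_le_card_mul _ _ _ fun w _ => hNb' w) _))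
    have hP : ∀ x ∈ Cand, ∀ w ∈ Nb x, l w = lam w ∧ s l w = s lam w ∧ ∀ i, M v i ≠ w :=
      fun x hx w hw => by
        have := (mem_filter.1 hx).2 w hw
        simp only [hF, mem_union, mem_image, mem_univ, true_and, not_or, not_exists] at this
        exact ⟨(hD' w this.1).1, (hD' w this.1).2, this.2⟩
    have ho := fun x (hx : x ∈ Cand) => hop l hI v hvE x (c1 (mem_filter.1 hx).1) (hP x hx)
    have hsup : ∀ x ∈ Cand, ∀ w, ε v w ≠ 0 → w ∉ Nb x ∧ ∃ i,
        ((s (op l v x) w : ℤ) : ZMod S.Q) = ((s l (M v i) : ℤ) : ZMod S.Q) +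
          (if ε v (M v i) = -1 then -1 else 1) * d := fun x hx w hw => by
      obtain ⟨i, rfl⟩ := hM v w hw
      have n : M v i ∉ Nb x := fun a => (hP x hx _ a).2.2 i rfl
      refine ⟨n, i, ?_⟩
      rw [(ho x hx).2.1 _ n, Int.cast_add, Int.cast_mul, (c3 x (mem_filter.1 hx).1).1]
      rcases hε v (M v i) with e | e | e
      · exact absurd e hw
      · simp [e]
      · simp [e]
    obtain ⟨x, hx, hx'⟩ := choose_op (fun z : ℤ => (z : ZMod S.Q) ∈ S.SN) (s l) (ε v) (hε v) Cand
      (fun x => lam x - l v) (fun x hx y hy e => hinj (c1 (mem_filter.1 hx).1)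
        (c1 (mem_filter.1 hy).1) (by simpa using e)) Nb (fun x => s (op l v x)) (Bad ∪ D)
      (fun w hw => by
        rw [mem_union, not_or] at hw
        rw [(hD' w hw.2).2]; exact hgood w hw.1) 6 4
      ((card_le_card (t := univ.image (M v)) fun w hw => by
        simpa using hM v w (mem_filter.1 hw).2).trans (card_image_le.trans (by simp)))
      (fun x hx => (ho x hx).2.1)
      (fun x hx w hw => by
        obtain ⟨a, i, b⟩ := hsup x hx w hw
        exact ⟨a, by rw [b]; exact hd i⟩)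
      (fun x hx w hw => by
        obtain ⟨a, b, c⟩ := (c3 x (mem_filter.1 hx).1).2 w hw
        rw [(ho x hx).2.2.1 w hw]
        refine ⟨a, fun w' n h => h.elim (fun h => ?_) fun h e => ?_⟩
        · rw [(ho x hx).2.2.1 w' h]; exact c w' h n
        · obtain ⟨-, i, e'⟩ := hsup x hx w' h
          exact b (mem_image.2 ⟨i, mem_univ _, by rw [e, e']⟩))
      (fun z => (card_le_card fun x hx => by
        obtain ⟨hx, w, a, b⟩ := mem_filter.1 hx
        exact mem_filter.2 ⟨c1 (mem_filter.1 hx).1, w, a, (ho x hx).2.2.1 w a ▸ b⟩).trans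
        (hmult (l v) z))
      (by have := card_union_le Bad D; omega)
    refine ⟨op l v x, F ∪ Nb x, (ho x hx).1, ?_, fun w hw => ?_, fun u u' e => ?_⟩
    · have := card_union_le F (Nb x)
      have := hNb x
      rw [card_insert_of_notMem hv]; omega
    · simp only [hF, mem_union, mem_image, mem_univ, true_and, not_or, not_exists] at hw
      have e0 : ε v w = 0 := by
        by_contra h
        obtain ⟨i, hi⟩ := hM v w h
        exact hw.1.2 i hi
      rw [(ho x hx).2.2.2 w hw.2 hw.1.2, (ho x hx).2.1 w hw.2, e0, zero_mul, add_zero]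
      exact hD' w hw.1.1
    · obtain ⟨a, b⟩ := hx' u u' e
      exact ⟨(hl u u' a).1, fun y hy => (mem_insert.1 hy).elim (fun h => h ▸ b)
        ((hl u u' a).2 y)⟩

namespace RT

variable (T : RT V)

theorem mem_W {v : V} : v ∈ T.W ↔ v ≠ T.r := by simp [W]

theorem mem_lv {v : V} : v ∈ T.lv ↔ v ≠ T.r ∧ ∀ c, c ≠ T.r → T.π c ≠ v := by simp [lv, mem_W]

theorem pi_ne {v : V} (h : v ≠ T.r) : T.π v ≠ v := fun e => by
  have := T.hd v h; rw [e] at this; omega

theorem pi_pi_ne {v : V} (h : v ≠ T.r) (h' : T.π v ≠ T.r) : T.π (T.π v) ≠ v := fun e => by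
  have := T.hd v h
  have h2 := T.hd _ h'
  rw [e] at h2; omega

theorem inc_cases (v w : V) : T.inc v w = 0 ∨ T.inc v w = 1 := by
  unfold inc; split_ifs <;> simp

theorem sm_swap (ω l : V → ℤ) {v x : V} (hv : v ∈ T.W) (hx : x ∈ T.W) (u : V) :
    T.sm ω (l ∘ Equiv.swap v x) u = T.sm ω l u + (T.inc v u - T.inc x u) * (l x - l v) := by
  by_cases h : v = x
  · subst h; simp
  unfold sm
  have : ∑ y ∈ T.W, (T.inc y u * (l ∘ Equiv.swap v x) y - T.inc y u * l y) =
      (T.inc v u - T.inc x u) * (l x - l v) := by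
    rw [sum_eq_add_of_mem v x hv hx h fun c _ hc => by
      simp [Equiv.swap_apply_of_ne_of_ne hc.1 hc.2]]
    simp; ring
  rw [sum_sub_distrib] at this
  linarith

theorem exists_c0 (hV : 3 ≤ Fintype.card V) : ∃ c0 ∈ T.W, ∃ c1 ∈ T.W, T.π c0 = T.r ∧ c1 ≠ c0 ∧
    (T.π c1 = T.r ∨ T.π c1 = c0) := by
  have hW : 2 ≤ T.W.card := by rw [W, card_erase_of_mem (mem_univ _), card_univ]; omega
  obtain ⟨c0, a0, b0⟩ := exists_min_image T.W T.d (card_pos.1 (by omega))
  obtain ⟨c1, a1, b1⟩ := exists_min_image (T.W.erase c0) T.d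
    (card_pos.1 (by rw [card_erase_of_mem a0]; omega))
  refine ⟨c0, a0, c1, mem_of_mem_erase a1, ?_, ne_of_mem_erase a1, ?_⟩
  · by_contra h
    have := b0 _ (T.mem_W.2 h)
    have := T.hd c0 (T.mem_W.1 a0)
    omega
  · by_contra h
    push Not at h
    have := b1 _ (mem_erase.2 ⟨h.2, T.mem_W.2 h.1⟩)
    have := T.hd c1 (T.mem_W.1 (mem_of_mem_erase a1))
    omega

theorem sep {c0 c1 : V} (a0 : c0 ∈ T.W) (a1 : c1 ∈ T.W) (h0 : T.π c0 = T.r) (h1 : c1 ≠ c0)
    (h2 : T.π c1 = T.r ∨ T.π c1 = c0) (F : Finset V) {u u' : V} (hu : u ∈ F) (n : u ≠ u') :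
    ∃ v ∈ (F ∪ F.image T.π ∪ {c0, c1}) ∩ T.W, T.inc v u ≠ T.inc v u' := by
  have root : ∀ c, c ≠ T.r → ∃ v ∈ (F ∪ F.image T.π ∪ {c0, c1}) ∩ T.W, T.inc v c ≠ T.inc v T.r := by
    intro c hc
    by_cases e : c = c0
    · subst e
      refine ⟨c1, by simp [a1], ?_⟩
      have := (T.mem_W.1 a1).symm
      rcases h2 with h2 | h2 <;> simp [inc, h2, h1.symm, hc, hc.symm, this]
    · exact ⟨c0, by simp [a0], by simp [inc, h0, e, hc]⟩
  by_cases e : u = T.r
  · subst e
    obtain ⟨v, a, b⟩ := root u' n.symm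
    exact ⟨v, a, b.symm⟩
  by_cases e' : u' = T.r
  · exact e' ▸ root u e
  by_cases e2 : u' = T.π u
  · subst e2
    exact ⟨T.π u, by simp [T.mem_W, e', mem_image_of_mem _ hu], by
      simp [inc, n, (T.pi_pi_ne e e').symm]⟩
  · exact ⟨u, by simp [T.mem_W, e, hu], by simp [inc, e2, n.symm]⟩

end RT

theorem card_E (F A : Finset V) (f : V → V) (a b : V) :
    ((F ∪ F.image f ∪ {a, b}) ∩ A).card ≤ 2 * F.card + 2 := by
  have := card_le_card (inter_subset_left (s₁ := F ∪ F.image f ∪ {a, b}) (s₂ := A))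
  have := card_union_le (F ∪ F.image f) {a, b}
  have := card_union_le F (F.image f)
  have := card_image_le (s := F) (f := f)
  have := card_le_two (a := a) (b := b)
  omega

theorem card_fib {Φ : Finset V} {f : V → V} (h : Set.InjOn f Φ) (w : V) :
    (Φ.filter fun x => w ∈ ({x, f x} : Finset V)).card ≤ 2 := by
  have h1 : (Φ.filter fun x => w = f x).card ≤ 1 := card_le_one.2 fun a ha b hb =>
    h (mem_filter.1 ha).1 (mem_filter.1 hb).1 ((mem_filter.1 ha).2.symm.trans (mem_filter.1 hb).2)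
  have h2 := card_insert_le w (Φ.filter fun x => w = f x)
  refine (card_le_card fun x hx => ?_).trans (h2.trans (by omega))
  simp only [mem_filter, mem_insert, mem_singleton] at hx ⊢
  tauto

theorem card_two {Φ : Finset V} {f : V → V} {g : V → V → ℤ} {z : ℤ} {p q : V → Prop}
    [DecidablePred p] [DecidablePred q] (hp : ∀ x ∈ Φ, g x x = z → p x)
    (hq : ∀ x ∈ Φ, g x (f x) = z → q x) :
    (Φ.filter fun x => ∃ w ∈ ({x, f x} : Finset V), g x w = z).card ≤
      (Φ.filter p).card + (Φ.filter q).card :=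
  (card_le_card fun x hx => by
    simp only [mem_filter, mem_insert, mem_singleton, exists_eq_or_imp, exists_eq_left,
      mem_union] at hx ⊢
    exact hx.2.imp (fun h => ⟨hx.1, hp x hx.1 h⟩) fun h => ⟨hx.1, hq x hx.1 h⟩).trans
    (card_union_le _ _)

theorem fix1 (S : Sys) (T : RT V) (hV : 3 ≤ Fintype.card V) (ω lam : V → ℤ) (B : Set ℤ)
    (hlam : Set.BijOn lam T.W B) (Bad Φ : Finset V) (k : ℕ) (hk : 200 * (Bad.card + 2) ≤ k)
    (hinj : Set.InjOn (T.sm ω lam) (Badᶜ : Finset V))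
    (hgood : ∀ v ∉ Bad, ((T.sm ω lam v : ℤ) : ZMod S.Q) ∈ S.SN)
    (hΦ : Φ ⊆ T.W) (hπ : Set.InjOn T.π Φ)
    (hty : ∀ b σ σ', σ ∈ S.SN → σ' ∈ S.SN → k ≤ (Φ.filter fun x => ((lam x : ℤ) : ZMod S.Q) = b ∧
      ((T.sm ω lam x : ℤ) : ZMod S.Q) = σ ∧ ((T.sm ω lam (T.π x) : ℤ) : ZMod S.Q) = σ').card)
    (hm1 : ∀ z, (Φ.filter fun x => T.sm ω lam x - lam x = z).card ≤ 3)
    (hm2 : ∀ z, (Φ.filter fun x => T.sm ω lam (T.π x) - lam x = z).card ≤ 3) :
    ∃ lam' : V → ℤ, Set.BijOn lam' T.W B ∧ Function.Injective (T.sm ω lam') := by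
  obtain ⟨c0, a0, c1, a1, h0, h1, h2⟩ := T.exists_c0 hV
  obtain ⟨l, hl, hl'⟩ := fixgen S (T.sm ω) (fun l => Set.BijOn l T.W B) lam hlam Bad Φ
    ((Bad ∪ Bad.image T.π ∪ {c0, c1}) ∩ T.W) k hk ((card_E _ _ _ _ _).trans (by omega)) hgood
    (hlam.injOn.mono hΦ) T.inc (fun v w => by have := T.inc_cases v w; tauto)
    (fun v => ![v, T.π v, v, v]) (fun v w h => by
      unfold RT.inc at h
      split_ifs at h with e
      · rcases e with rfl | rfl
        exacts [⟨0, rfl⟩, ⟨1, rfl⟩]
      · exact absurd rfl h)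
    (fun x => {x, T.π x}) (fun _ => card_le_two) (card_fib hπ)
    (fun a x w => T.sm ω lam w - lam x + a) (fun l v x => l ∘ Equiv.swap v x)
    (fun a d X hX hd => by
      obtain ⟨R1, b1, b2, b3⟩ := hd d (Or.inl rfl) X (by omega)
      obtain ⟨R2, d1, d2, d3⟩ := hd d (Or.inl rfl) (insert R1 X)
        ((card_insert_le _ _).trans (by omega))
      rw [mem_insert, not_or] at d1
      refine ⟨_, filter_subset _ _, hty (d + a) _ _ b3 d3, fun x hx => ?_⟩
      obtain ⟨-, e1, e2, e3⟩ := mem_filter.1 hx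
      have f1 : ((T.sm ω lam x - lam x + a : ℤ) : ZMod S.Q) = R1 := by
        push_cast; rw [e1, e2]; ring
      have f2 : ((T.sm ω lam (T.π x) - lam x + a : ℤ) : ZMod S.Q) = R2 := by
        push_cast; rw [e1, e3]; ring
      refine ⟨by push_cast; rw [e1]; ring, fun w hw => ?_⟩
      simp only [mem_insert, mem_singleton] at hw ⊢
      rcases hw with rfl | rfl
      · rw [f1]
        refine ⟨b2, b1, ?_⟩
        rintro w' (rfl | rfl) n e
        · exact n rfl
        · exact d1.1 (by rw [← f1, e, f2])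
      · rw [f2]
        refine ⟨d2, d1.2, ?_⟩
        rintro w' (rfl | rfl) n e
        · exact d1.1 (by rw [← f1, ← e, f2])
        · exact n rfl)
    (fun a z => (card_two (fun x _ h => by omega) fun x _ h => by omega).trans
      (add_le_add (hm1 (z - a)) (hm2 (z - a))))
    (fun l hl v hv x hx hp => by
      have hv := (mem_inter.1 hv).2
      have e := (hp x (by simp)).1
      refine ⟨hl.comp (Equiv.bijOn_swap hv (hΦ hx)), fun w hw => ?_, fun w hw => ?_,
        fun w hw hw' => ?_⟩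
      · rw [T.sm_swap ω l hv (hΦ hx), e]
        simp only [mem_insert, mem_singleton] at hw
        simp [RT.inc, hw]
      · obtain ⟨-, p1, p2⟩ := hp w hw
        have q0 : w ≠ v := (p2 0).symm
        have q1 : w ≠ T.π v := (p2 1).symm
        simp only [mem_insert, mem_singleton] at hw
        rw [T.sm_swap ω l hv (hΦ hx), e, p1]
        simp [RT.inc, hw, q0, q1]; ring
      · simp only [mem_insert, mem_singleton, not_or] at hw
        exact congrArg l (Equiv.swap_apply_of_ne_of_ne (hw' 0).symm hw.1))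
  refine ⟨l, hl, fun u u' e => ?_⟩
  by_contra n
  obtain ⟨e1, e2⟩ := hl' u u' e
  by_cases hu : u ∈ Bad
  · obtain ⟨v, a, b⟩ := T.sep a0 a1 h0 h1 h2 Bad hu n
    exact b (e2 v a)
  by_cases hu' : u' ∈ Bad
  · obtain ⟨v, a, b⟩ := T.sep a0 a1 h0 h1 h2 Bad hu' (Ne.symm n)
    exact b (e2 v a).symm
  exact n (hinj (by simpa using hu) (by simpa using hu') e1)

end Pool.Agent.Lib.MP_0830d8_co.Ex
end

-- part Pool.Agent.Lib.MP_0830d8_co.Ex.Fix2
section

/-! Repair of the bad vertices when there are many leaves. -/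

set_option linter.unusedSectionVars false

namespace Pool.Agent.Lib.MP_0830d8_co.Ex

open Finset

variable {V : Type} [Fintype V] [DecidableEq V]

theorem card_star {Bad : Finset V} {s : V → ℤ} (hinj : Set.InjOn s (Badᶜ : Finset V)) (z : ℤ) :
    (Bad ∪ univ.filter fun u => u ∉ Bad ∧ s u = z).card ≤ Bad.card + 1 :=
  (card_union_le _ _).trans (Nat.add_le_add_left (card_le_one.2 fun a ha b hb => by
    simp only [mem_filter, mem_univ, true_and] at ha hb
    exact hinj (by simpa using ha.1) (by simpa using hb.1) (ha.2.trans hb.2.symm)) _)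

theorem fix2a (S : Sys) (T : RT V) (hV : 3 ≤ Fintype.card V) (ω lam : V → ℤ) (B : Set ℤ)
    (hlam : Set.BijOn lam T.W B) (Bad Φ : Finset V) (k : ℕ) (hk : 200 * (Bad.card + 2) ≤ k)
    (hinj : Set.InjOn (T.sm ω lam) (Badᶜ : Finset V))
    (hgood : ∀ v ∉ Bad, ((T.sm ω lam v : ℤ) : ZMod S.Q) ∈ S.SN)
    (h : V) (hΦ : ∀ x ∈ Φ, x ∈ T.lv ∧ T.π x = h)
    (hty : ∀ b σ, σ ∈ S.SN → k ≤ (Φ.filter fun x => ((lam x : ℤ) : ZMod S.Q) = b ∧
      ((T.sm ω lam x : ℤ) : ZMod S.Q) = σ).card)
    (hm1 : ∀ z, (Φ.filter fun x => T.sm ω lam x - lam x = z).card ≤ 2) :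
    ∃ lam' : V → ℤ, Set.BijOn lam' T.W B ∧ Function.Injective (T.sm ω lam') := by
  obtain ⟨c0, a0, c1, a1, h0, h1, h2⟩ := T.exists_c0 hV
  have hW : ∀ x ∈ Φ, x ∈ T.W := fun x hx => (mem_filter.1 (hΦ x hx).1).1
  set F := Bad ∪ univ.filter fun u => u ∉ Bad ∧ T.sm ω lam u = T.sm ω lam h with hF
  obtain ⟨l, hl, hl'⟩ := fixgen S (T.sm ω) (fun l => Set.BijOn l T.W B) lam hlam Bad Φ
    ((F ∪ F.image T.π ∪ {c0, c1}) ∩ T.W) k hk ((card_E _ _ _ _ _).trans (by
      have := card_star hinj (T.sm ω lam h); rw [← hF] at this; omega)) hgood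
    (hlam.injOn.mono hW) (fun v w => T.inc v w - if w = h then 1 else 0)
    (fun v w => by have := T.inc_cases v w; split_ifs <;> omega)
    (fun v => ![v, T.π v, h, h]) (fun v w e => by
      by_cases e1 : w = v
      · exact ⟨0, e1.symm⟩
      by_cases e2 : w = T.π v
      · exact ⟨1, e2.symm⟩
      by_cases e3 : w = h
      · exact ⟨2, e3.symm⟩
      simp [RT.inc, e1, e2, e3] at e)
    (fun x => {x}) (fun _ => by simp) (fun w => (card_le_card (t := {w}) fun x hx => by
      simpa using (mem_singleton.1 (mem_filter.1 hx).2).symm).trans (by simp))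
    (fun a x w => T.sm ω lam w - lam x + a) (fun l v x => l ∘ Equiv.swap v x)
    (fun a d X hX hd => by
      obtain ⟨R1, b1, b2, b3⟩ := hd d (Or.inl rfl) X (by omega)
      refine ⟨_, filter_subset _ _, hty (d + a) _ b3, fun x hx => ?_⟩
      obtain ⟨-, e1, e2⟩ := mem_filter.1 hx
      have f1 : ((T.sm ω lam x - lam x + a : ℤ) : ZMod S.Q) = R1 := by
        push_cast; rw [e1, e2]; ring
      refine ⟨by push_cast; rw [e1]; ring, fun w hw => ?_⟩
      obtain rfl := mem_singleton.1 hw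
      rw [f1]
      exact ⟨b2, b1, fun w' a n => absurd (mem_singleton.1 a) n⟩)
    (fun a z => (card_le_card fun x hx => by
      simp only [mem_filter, mem_singleton, exists_eq_left] at hx ⊢
      exact ⟨hx.1, by omega⟩).trans ((hm1 (z - a)).trans (by omega)))
    (fun l hl v hv x hx hp => by
      have hv := (mem_inter.1 hv).2
      obtain ⟨e, p1, p2⟩ := hp x (by simp)
      refine ⟨hl.comp (Equiv.bijOn_swap hv (hW x hx)), fun w hw => ?_, fun w hw => ?_,
        fun w hw hw' => ?_⟩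
      · rw [T.sm_swap ω l hv (hW x hx), e]
        simp only [mem_singleton] at hw
        simp [RT.inc, hw, (hΦ x hx).2]
      · obtain rfl := mem_singleton.1 hw
        have q0 : w ≠ v := (p2 0).symm
        have q1 : w ≠ T.π v := (p2 1).symm
        rw [T.sm_swap ω l hv (hW w hx), e, p1]
        simp [RT.inc, q0, q1]; ring
      · exact congrArg l (Equiv.swap_apply_of_ne_of_ne (hw' 0).symm (by simpa using hw)))
  refine ⟨l, hl, fun u u' e => ?_⟩
  by_contra n
  obtain ⟨e1, e2⟩ := hl' u u' e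
  have key : ∀ u, u ≠ h → T.sm ω lam u = T.sm ω lam h → ∃ v ∈ (F ∪ F.image T.π ∪ {c0, c1}) ∩ T.W,
      T.inc v u = 1 := fun u _ e => by
    by_cases hr : u = T.r
    · exact ⟨c0, by simp [a0], by simp [RT.inc, h0, hr]⟩
    · refine ⟨u, ?_, by simp [RT.inc]⟩
      have : u ∈ F := by by_cases hb : u ∈ Bad <;> simp [hF, hb, e]
      simp [this, T.mem_W, hr]
  by_cases g : u = h
  · subst g
    obtain ⟨v, a, b⟩ := key u' (Ne.symm n) e1.symm
    have := e2 v a
    have := T.inc_cases v u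
    simp only [if_true, if_neg (Ne.symm n)] at *
    omega
  by_cases g' : u' = h
  · subst g'
    obtain ⟨v, a, b⟩ := key u n e1
    have := e2 v a
    have := T.inc_cases v u'
    simp only [if_true, if_neg n] at *
    omega
  simp only [if_neg g, if_neg g', sub_zero] at e2
  by_cases hu : u ∈ Bad
  · obtain ⟨v, a, b⟩ := T.sep a0 a1 h0 h1 h2 F (mem_union_left _ hu) n
    exact b (e2 v a)
  by_cases hu' : u' ∈ Bad
  · obtain ⟨v, a, b⟩ := T.sep a0 a1 h0 h1 h2 F (mem_union_left _ hu') (Ne.symm n)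
    exact b (e2 v a).symm
  exact n (hinj (by simpa using hu) (by simpa using hu') e1)

theorem fix2b (S : Sys) (T : RT V) (ω lam : V → ℤ) (B : Set ℤ)
    (hlam : Set.BijOn lam T.W B) (Bad Φ : Finset V) (k : ℕ) (hk : 200 * (Bad.card + 2) ≤ k)
    (hinj : Set.InjOn (T.sm ω lam) (Badᶜ : Finset V))
    (hgood : ∀ v ∉ Bad, ((T.sm ω lam v : ℤ) : ZMod S.Q) ∈ S.SN)
    (τ : V → V) (hτ : Tau T τ) (Sg : ℤ) (hSg : ∀ w ∈ T.W, τ w ≠ w → lam w + lam (τ w) = Sg)
    (hT1 : ∀ c ∈ T.W, c ∉ T.lv → τ c ≠ c ∧ T.π (τ c) ≠ c ∧ T.π (τ c) ≠ T.π c)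
    (hT4 : ∃ c0 ∈ T.W, ∃ c2 ∈ T.W, T.π c0 = T.r ∧ T.π c2 = c0 ∧ τ c2 ≠ c2 ∧ τ c2 ≠ c0 ∧
      T.π (τ c2) ≠ c0 ∧ T.π (τ c2) ≠ c2)
    (hΦ : ∀ x ∈ Φ, x ∈ T.lv ∧ τ x ∈ T.lv ∧ τ x ≠ x ∧ T.π (τ x) = T.π x ∧ τ x ∉ Φ)
    (hty : ∀ b σ σ', σ ∈ S.SN → σ' ∈ S.SN → k ≤ (Φ.filter fun x => ((lam x : ℤ) : ZMod S.Q) = b ∧
      ((T.sm ω lam x : ℤ) : ZMod S.Q) = σ ∧ ((T.sm ω lam (τ x) : ℤ) : ZMod S.Q) = σ').card)
    (hm1 : ∀ z, (Φ.filter fun x => T.sm ω lam x - lam x = z).card ≤ 2)
    (hm2 : ∀ z, (Φ.filter fun x => T.sm ω lam (τ x) - lam (τ x) = z).card ≤ 2) :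
    ∃ lam' : V → ℤ, Set.BijOn lam' T.W B ∧ Function.Injective (T.sm ω lam') := by
  obtain ⟨c0, a0, c2, a2, h0, h2, h3, h4, h5, -⟩ := hT4
  have hW : ∀ x ∈ Φ, x ∈ T.W := fun x hx => (mem_filter.1 (hΦ x hx).1).1
  have ti : Function.Injective τ := Function.LeftInverse.injective hτ.inv
  have tW : ∀ x ∈ T.W, τ x ∈ T.W := fun x hx => T.mem_W.2 fun e =>
    T.mem_W.1 hx (ti (e.trans hτ.root.symm))
  obtain ⟨x1, hx1⟩ : ∃ x1, ∀ u ∈ T.W, τ u = u → u = x1 := by
    by_cases h : ∃ x ∈ T.W, τ x = x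
    · obtain ⟨x, a, b⟩ := h
      exact ⟨x, fun u c d => hτ.fix u c x a d b⟩
    · exact ⟨T.r, fun u c d => absurd ⟨u, c, d⟩ h⟩
  set F := Bad ∪ univ.filter fun u => u ∉ Bad ∧ T.sm ω lam u = T.sm ω lam x1 with hF
  obtain ⟨l, hl, hl'⟩ := fixgen S (T.sm ω)
    (fun l => Set.BijOn l T.W B ∧ ∀ w ∈ T.W, τ w ≠ w → l w + l (τ w) = Sg) lam ⟨hlam, hSg⟩ Bad Φ
    ((F ∪ F.image T.π ∪ {c0, c2}) ∩ T.W.filter fun w => τ w ≠ w) k hk
    ((card_E _ _ _ _ _).trans (by
      have := card_star hinj (T.sm ω lam x1); rw [← hF] at this; omega)) hgood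
    (hlam.injOn.mono hW) (fun v w => T.inc v w - T.inc (τ v) w)
    (fun v w => by
      rcases T.inc_cases v w with e | e <;> rcases T.inc_cases (τ v) w with e' | e' <;>
        simp [e, e'])
    (fun v => ![v, T.π v, τ v, T.π (τ v)]) (fun v w e => by
      by_cases e1 : w = v
      · exact ⟨0, e1.symm⟩
      by_cases e2 : w = T.π v
      · exact ⟨1, e2.symm⟩
      by_cases e3 : w = τ v
      · exact ⟨2, e3.symm⟩
      by_cases e4 : w = T.π (τ v)
      · exact ⟨3, e4.symm⟩
      simp [RT.inc, e1, e2, e3, e4] at e)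
    (fun x => {x, τ x}) (fun _ => card_le_two) (card_fib ti.injOn)
    (fun a x w => if w = x then T.sm ω lam w - lam x + a else T.sm ω lam w + lam x - a)
    (fun l v x => (l ∘ Equiv.swap v x) ∘ Equiv.swap (τ v) (τ x))
    (fun a d X hX hd => by
      obtain ⟨R1, b1, b2, b3⟩ := hd d (Or.inl rfl) X (by omega)
      obtain ⟨R2, d1, d2, d3⟩ := hd (-d) (Or.inr rfl) (insert R1 X)
        ((card_insert_le _ _).trans (by omega))
      rw [mem_insert, not_or] at d1
      refine ⟨_, filter_subset _ _, hty (d + a) _ _ b3 d3, fun x hx => ?_⟩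
      obtain ⟨hx, e1, e2, e3⟩ := mem_filter.1 hx
      have n := (hΦ x hx).2.2.1
      have f1 : ((T.sm ω lam x - lam x + a : ℤ) : ZMod S.Q) = R1 := by
        push_cast; rw [e1, e2]; ring
      have f2 : ((T.sm ω lam (τ x) + lam x - a : ℤ) : ZMod S.Q) = R2 := by
        push_cast; rw [e1, e3]; ring
      refine ⟨by push_cast; rw [e1]; ring, fun w hw => ?_⟩
      simp only [mem_insert, mem_singleton] at hw ⊢
      rcases hw with rfl | rfl
      · rw [if_pos rfl, f1]
        refine ⟨b2, b1, ?_⟩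
        rintro w' (rfl | rfl) n' e
        · exact n' rfl
        · rw [if_neg n] at e
          exact d1.1 (by rw [← f1, e, f2])
      · rw [if_neg n, f2]
        refine ⟨d2, d1.2, ?_⟩
        rintro w' (rfl | rfl) n' e
        · rw [if_pos rfl] at e
          exact d1.1 (by rw [← f1, ← e, f2])
        · exact n' rfl)
    (fun a z => (card_two (fun x _ h => by rw [if_pos rfl] at h; omega) fun x hx h => by
      have := hSg x (hW x hx) (hΦ x hx).2.2.1
      rw [if_neg (hΦ x hx).2.2.1] at h; omega).trans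
      ((add_le_add (hm1 (z - a)) (hm2 (z + a - Sg))).trans (by omega)))
    (fun l hl v hv x hx hp => by
      obtain ⟨hv, nv⟩ := mem_filter.1 (mem_inter.1 hv).2
      obtain ⟨e, p1, p2⟩ := hp x (by simp)
      obtain ⟨e', p3, p4⟩ := hp (τ x) (by simp)
      have nx := (hΦ x hx).2.2.1
      have q0 : v ≠ x := p2 0
      have q1 : T.π v ≠ x := p2 1
      have q2 : τ v ≠ x := p2 2
      have q3 : T.π (τ v) ≠ x := p2 3
      have r0 : v ≠ τ x := p4 0
      have r1 : T.π v ≠ τ x := p4 1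
      have r2 : τ v ≠ τ x := p4 2
      have r3 : T.π (τ v) ≠ τ x := p4 3
      have s1 := hl.2 v hv nv
      have s2 := hl.2 x (hW x hx) nx
      have sm : ∀ u, T.sm ω ((l ∘ Equiv.swap v x) ∘ Equiv.swap (τ v) (τ x)) u = T.sm ω l u +
          (T.inc v u - T.inc x u - T.inc (τ v) u + T.inc (τ x) u) * (lam x - l v) := fun u => by
        rw [T.sm_swap ω _ (tW v hv) (tW x (hW x hx)), T.sm_swap ω l hv (hW x hx),
          Function.comp_apply, Function.comp_apply, Equiv.swap_apply_of_ne_of_ne r0.symm nx,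
          Equiv.swap_apply_of_ne_of_ne nv q2, ← e, show l (τ x) = Sg - l x by omega,
          show l (τ v) = Sg - l v by omega]
        ring
      have hpx := T.pi_ne (T.mem_W.1 (hW x hx))
      have lf := T.mem_lv.1 (hΦ x hx).1
      have lf' := T.mem_lv.1 (hΦ x hx).2.1
      refine ⟨⟨(hl.1.comp (Equiv.bijOn_swap hv (hW x hx))).comp
        (Equiv.bijOn_swap (tW v hv) (tW x (hW x hx))), fun w hw nw => ?_⟩, fun w hw => ?_,
        fun w hw => ?_, fun w hw hw' => ?_⟩
      · have c : ∀ w, Equiv.swap v x (Equiv.swap (τ v) (τ x) (τ w)) =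
            τ (Equiv.swap v x (Equiv.swap (τ v) (τ x) w)) := fun w => by
          have c1 : ∀ a b w, Equiv.swap (τ a) (τ b) (τ w) = τ (Equiv.swap a b w) :=
            fun a b w => ti.swap_apply a b w
          have c2 : ∀ w, Equiv.swap v x (τ w) = τ (Equiv.swap (τ v) (τ x) w) := fun w => by
            rw [← c1, hτ.inv, hτ.inv]
          rw [c1, c2, ← (Equiv.swap v x).injective.swap_apply, Equiv.swap_apply_of_ne_of_ne nv q2,
            Equiv.swap_apply_of_ne_of_ne r0.symm nx]
        simp only [Function.comp_apply]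
        rw [c]
        refine hl.2 _ ((Equiv.bijOn_swap hv (hW x hx)).mapsTo
          ((Equiv.bijOn_swap (tW v hv) (tW x (hW x hx))).mapsTo hw)) fun a => nw ?_
        rw [← c] at a
        exact (Equiv.swap _ _).injective ((Equiv.swap _ _).injective a)
      · simp only [mem_insert, mem_singleton, not_or] at hw
        rw [sm, show T.inc (τ x) w = T.inc x w by simp [RT.inc, hw, (hΦ x hx).2.2.2.1]]
        ring
      · simp only [mem_insert, mem_singleton] at hw
        rw [sm]
        rcases hw with rfl | rfl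
        · simp [RT.inc, q0.symm, q1.symm, q2.symm, q3.symm, nx.symm, (lf.2 _ lf'.1).symm, p1]; ring
        · simp [RT.inc, r0.symm, r1.symm, r2.symm, r3.symm, nx, (lf'.2 _ lf.1).symm, p3]; ring
      · simp only [mem_insert, mem_singleton, not_or] at hw
        simp only [Function.comp_apply]
        rw [Equiv.swap_apply_of_ne_of_ne (show w ≠ τ v from (hw' 2).symm) hw.2,
          Equiv.swap_apply_of_ne_of_ne (show w ≠ v from (hw' 0).symm) hw.1])
  refine ⟨l, hl.1, fun u u' e => ?_⟩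
  by_contra n
  obtain ⟨e1, e2⟩ := hl' u u' e
  have nl : ∀ c ∈ T.W, T.π c ≠ T.r → T.π c ∉ T.lv := fun c hc _ h =>
    (T.mem_lv.1 h).2 c (T.mem_W.1 hc) rfl
  have self : ∀ v ∈ T.W, τ v ≠ v → T.inc v v - T.inc (τ v) v = 1 := fun v hv nv => by
    have : T.π (τ v) ≠ v := fun e => (hT1 v hv fun h =>
      (T.mem_lv.1 h).2 _ (T.mem_W.1 (tW v hv)) e).2.1 e
    simp [RT.inc, nv.symm, this.symm]
  have one : ∀ v w, T.inc v w - T.inc (τ v) w = 1 → w = v ∨ w = T.π v := fun v w e => by
    by_contra h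
    have := T.inc_cases (τ v) w
    rw [RT.inc, if_neg h] at e
    omega
  have n0 := hT1 c0 a0 (h2 ▸ nl c2 a2 (h2 ▸ T.mem_W.1 a0))
  have root : ∀ c, c ≠ T.r → ¬ ∀ v ∈ (F ∪ F.image T.π ∪ {c0, c2}) ∩ T.W.filter fun w => τ w ≠ w,
      T.inc v c - T.inc (τ v) c = T.inc v T.r - T.inc (τ v) T.r := fun c hc h => by
    have k0 := h c0 (by simp [a0, n0.1])
    have k2 := h c2 (by simp [a2, h3])
    have : T.inc c0 T.r - T.inc (τ c0) T.r = 1 := by
      simp [RT.inc, h0, (T.mem_W.1 (tW c0 a0)).symm, (h0 ▸ n0.2.2 : T.π (τ c0) ≠ T.r).symm]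
    obtain rfl := (one c0 c (k0.trans this)).resolve_right (h0 ▸ hc)
    have k3 : T.inc c2 c - T.inc (τ c2) c = 1 := by simp [RT.inc, h2, h4.symm, h5.symm]
    rcases one c2 T.r (k2.symm.trans k3) with a | a
    · exact T.mem_W.1 a2 a.symm
    · exact hc (h2 ▸ a.symm)
  have main : ∀ u u', u ≠ u' → u ≠ T.r → u' ≠ T.r → u ∈ F → τ u ≠ u →
      ¬ ∀ v ∈ (F ∪ F.image T.π ∪ {c0, c2}) ∩ T.W.filter fun w => τ w ≠ w,
        T.inc v u - T.inc (τ v) u = T.inc v u' - T.inc (τ v) u' := fun u u' n a b c d h => by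
    have hu := T.mem_W.2 a
    obtain rfl := (one u u' ((h u (by simp [c, hu, d])).symm.trans (self u hu d))).resolve_left
      n.symm
    have hp := T.mem_W.2 b
    have d' := (hT1 _ hp (nl u hu b)).1
    rcases one _ u ((h (T.π u) (by simp [mem_image_of_mem _ c, hp, d'])).trans (self _ hp d'))
      with a' | a'
    · exact n a'
    · exact T.pi_pi_ne a b a'.symm
  by_cases g : u = T.r
  · subst g
    exact root u' (Ne.symm n) fun v hv => (e2 v hv).symm
  by_cases g' : u' = T.r
  · subst g'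
    exact root u n e2
  have fin : ∀ u u', u ≠ u' → u ≠ T.r → u' ≠ T.r → u ∈ Bad → T.sm ω lam u = T.sm ω lam u' →
      ¬ ∀ v ∈ (F ∪ F.image T.π ∪ {c0, c2}) ∩ T.W.filter fun w => τ w ≠ w,
        T.inc v u - T.inc (τ v) u = T.inc v u' - T.inc (τ v) u' := fun u u' n a b c e h => by
    by_cases d : τ u = u
    · obtain rfl := hx1 u (T.mem_W.2 a) d
      exact main u' u n.symm b a (by by_cases hb : u' ∈ Bad <;> simp [hF, hb, e])
        (fun d' => n (hx1 u' (T.mem_W.2 b) d').symm) fun v hv => (h v hv).symm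
    · exact main u u' n a b (mem_union_left _ c) d h
  by_cases hu : u ∈ Bad
  · exact fin u u' n g g' hu e1 e2
  by_cases hu' : u' ∈ Bad
  · exact fin u' u (Ne.symm n) g' g hu' e1.symm fun v hv => (e2 v hv).symm
  exact n (hinj (by simpa using hu) (by simpa using hu') e1)

end Pool.Agent.Lib.MP_0830d8_co.Ex
end
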