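import Pool.Agent.Lib.MP_0830d8_co.Ex.Fix2

/-!
The initial labelling for trees with few inner vertices: pairs of sibling leaves.
-/

namespace Pool.Agent.Lib.MP_0830d8_co.Ex

open Finset

section
variable {V : Type} [Fintype V] [DecidableEq V]

lemma leaf_sm {T : RT V} {ep : V → Finset V} {ω0 : V → ℤ} {a0 : ℤ} {γ : ℝ} (h : Hyp T ep ω0 a0 γ)
    (α lam : V → ℤ) {x : V} (hx : x ∈ T.lv) :
    T.sm (T.om ep ω0 α) lam x = ω0 x + α x + lam x := by
  obtain ⟨h1, h2⟩ := mem_filter.mp hx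
  rw [RT.sm, RT.om, sum_eq_single_of_mem (s := T.lv.filter fun y => x ∈ ep y) x
    (mem_filter.mpr ⟨hx, h.self x hx⟩) fun y hy e =>
      absurd (h.ind y (mem_filter.mp hy).1 x (mem_filter.mp hy).2 hx).symm e,
    sum_eq_single_of_mem x h1 fun v hv e => by
      rw [RT.inc, if_neg (not_or.mpr ⟨e.symm, (h2 v hv).symm⟩), zero_mul]]
  simp [RT.inc]

lemma pair_labels {T : RT V} {τ : V → V} (hτ : Tau T τ) {P : Finset V}
    (hP : ∀ x ∈ P, x ∈ T.W ∧ τ x ≠ x ∧ τ x ∉ P) (l0 : ℤ) : ∃ r : ℕ, T.W.card ≤ 2 * r + 1 ∧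
      ∀ Cov ⊆ P, ∀ b : V → ℤ, (∀ x ∈ Cov, l0 < b x ∧ b x ≤ l0 + 2 * r) →
        Set.InjOn (fun x => min (b x) (2 * l0 + 2 * r + 1 - b x)) Cov →
        ∃ lam : V → ℤ, Set.BijOn lam T.W (Set.Ioc l0 (l0 + T.W.card)) ∧
          (∀ w ∈ T.W, τ w ≠ w → lam w + lam (τ w) = 2 * l0 + 2 * r + 1) ∧
          ∀ x ∈ Cov, lam x = b x := by
  have hi : Function.Injective τ := Function.Involutive.injective hτ.inv
  have hW : ∀ w ∈ T.W, τ w ∈ T.W := fun w hw =>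
    mem_erase.mpr ⟨fun e => (mem_erase.mp hw).1 (hi (e.trans hτ.root.symm)), mem_univ _⟩
  let e := Fintype.equivFin V
  obtain ⟨R, hR⟩ : ∃ R : Finset V, ∀ w, w ∈ R ↔
      w ∈ T.W ∧ τ w ≠ w ∧ (w ∈ P ∨ (τ w ∉ P ∧ e w < e (τ w))) := ⟨T.W.filter _, fun _ => mem_filter⟩
  have h1 : ∀ w ∈ R, τ w ∉ R := fun w hw k => by
    obtain ⟨-, -, k1⟩ := (hR _).mp hw
    obtain ⟨-, -, k2⟩ := (hR _).mp k
    rw [hτ.inv] at k2
    rcases k1 with k1 | k1 <;> rcases k2 with k2 | k2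
    exacts [(hP w k1).2.2 k2, k2.1 k1, k1.1 k2, lt_asymm k1.2 k2.2]
  have h2 : ∀ w ∈ T.W, τ w ≠ w → w ∉ R → τ w ∈ R := fun w hw k1 k2 => by
    rw [hR, hτ.inv]
    refine ⟨hW w hw, k1.symm, ?_⟩
    rw [hR] at k2
    by_contra! k3
    exact k2 ⟨hw, k1, (em _).imp_right fun k4 =>
      ⟨k3.1, lt_of_le_of_ne (k3.2 k4) fun k5 => k1 (e.injective k5).symm⟩⟩
  set F := T.W.filter fun w => τ w = w with hF
  have h3 : T.W.card = 2 * R.card + F.card := by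
    have h4 : T.W = (R ∪ R.image τ) ∪ F := by
      ext w
      simp only [mem_union, hF, mem_filter, mem_image]
      refine ⟨fun hw => ?_, ?_⟩
      · by_cases k1 : τ w = w
        · exact .inr ⟨hw, k1⟩
        · exact .inl ((em _).imp_right fun k => ⟨_, h2 w hw k1 k, hτ.inv w⟩)
      · rintro ((k | ⟨v, k, rfl⟩) | k)
        exacts [((hR _).mp k).1, hW _ ((hR _).mp k).1, k.1]
    rw [h4, card_union_of_disjoint, card_union_of_disjoint, card_image_of_injective _ hi, two_mul]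
    · exact disjoint_right.mpr (forall_mem_image.mpr h1)
    · refine disjoint_left.mpr fun w k1 k2 => ?_
      have k3 := (mem_filter.mp k2).2
      rcases mem_union.mp k1 with k | k
      · exact ((hR _).mp k).2.1 k3
      · obtain ⟨v, k', rfl⟩ := mem_image.mp k
        exact ((hR _).mp k').2.1 (hi k3)
  have h4 : F.card ≤ 1 := card_le_one.mpr fun u hu v hv =>
    hτ.fix u (mem_filter.mp hu).1 v (mem_filter.mp hv).1 (mem_filter.mp hu).2 (mem_filter.mp hv).2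
  refine ⟨R.card, by omega, fun Cov hC b hb hinj => ?_⟩
  obtain ⟨μ, m1, m2⟩ := extend_bij R Cov (fun x hx => (hR x).mpr
    ⟨(hP x (hC hx)).1, (hP x (hC hx)).2.1, .inl (hC hx)⟩) (Ioc l0 (l0 + R.card)) (by simp) _ hinj
    fun x hx => by have := hb x hx; rw [mem_Ioc]; omega
  obtain ⟨c, hc⟩ : ∃ c : V → ℤ, ∀ x, c x = if x ∈ Cov then b x else μ x := ⟨_, fun _ => rfl⟩
  have h5 : ∀ x ∈ R, (l0 < μ x ∧ μ x ≤ l0 + R.card) ∧
      (c x = μ x ∨ c x = 2 * l0 + 2 * R.card + 1 - μ x) := fun x hx => by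
    refine ⟨by simpa using m1.mapsTo hx, ?_⟩
    rw [hc]
    split_ifs with k
    · have := m2 x k
      omega
    · exact .inl rfl
  obtain ⟨lam, hl⟩ : ∃ lam : V → ℤ, ∀ w, lam w = if w ∈ R then c w else if τ w = w then
    l0 + T.W.card else 2 * l0 + 2 * R.card + 1 - c (τ w) := ⟨_, fun _ => rfl⟩
  have h6 : ∀ w ∈ T.W, (w ∈ R ∧ lam w = c w) ∨ (τ w = w ∧ F.card = 1 ∧ lam w = l0 + T.W.card) ∨
      (τ w ∈ R ∧ lam w = 2 * l0 + 2 * R.card + 1 - c (τ w)) := fun w hw => by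
    rw [hl]
    split_ifs with k1 k2
    · exact .inl ⟨k1, rfl⟩
    · exact .inr (.inl ⟨k2, le_antisymm h4 (card_pos.mpr ⟨w, mem_filter.mpr ⟨hw, k2⟩⟩), rfl⟩)
    · exact .inr (.inr ⟨h2 w hw k2 k1, rfl⟩)
  have h7 : ∀ u ∈ R, ∀ v ∈ R, (c u = c v ∨ c u = 2 * l0 + 2 * R.card + 1 - c v) → u = v :=
    fun u hu v hv k => m1.injOn hu hv (by have := h5 u hu; have := h5 v hv; omega)
  have h8 : Set.MapsTo lam T.W (Ioc l0 (l0 + T.W.card) : Finset ℤ) := fun w hw => by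
    rw [mem_coe, mem_Ioc]
    rcases h6 w hw with k | k | k
    · have := h5 w k.1; omega
    · omega
    · have := h5 _ k.1; omega
  have h9 : Set.InjOn lam T.W := fun u hu v hv k => by
    rcases h6 u hu with k1 | k1 | k1 <;> rcases h6 v hv with k2 | k2 | k2
    · exact h7 u k1.1 v k2.1 (by omega)
    · have := h5 u k1.1; omega
    · have := h7 u k1.1 _ k2.1 (by omega)
      rw [← this] at k2
      omega
    · have := h5 v k2.1; omega
    · exact hτ.fix u hu v hv k1.1 k2.1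
    · have := h5 _ k2.1; omega
    · have := h7 v k2.1 _ k1.1 (by omega)
      rw [← this] at k1
      omega
    · have := h5 _ k1.1; omega
    · exact hi (h7 _ k1.1 _ k2.1 (by omega))
  refine ⟨lam, ?_, fun w hw k => ?_, fun x hx => ?_⟩
  · rw [← coe_Ioc]
    exact ⟨h8, h9, surjOn_of_injOn_of_card_le _ h8 h9 (by simp)⟩
  · by_cases k1 : w ∈ R
    · rw [hl w, hl (τ w), if_pos k1, if_neg (h1 w k1), hτ.inv, if_neg k.symm]; ring
    · rw [hl w, hl (τ w), if_neg k1, if_neg k, if_pos (h2 w hw k k1)]; ring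
  · rw [hl, if_pos ((hR x).mpr ⟨(hP x (hC hx)).1, (hP x (hC hx)).2.1, .inl (hC hx)⟩), hc, if_pos hx]

lemma bal_ev {ι Ω J : Type} [Fintype Ω] [Nonempty Ω] [Fintype J] (B : Finset ι)
    (E : J → ι → Ω → Prop) [∀ j t ω, Decidable (E j t ω)] {D : ℝ} (hD0 : 0 ≤ D)
    (hD : (B.card : ℝ) * Fintype.card J ≤ D ^ 2) : ∃ Y : ι → Ω, ∀ j,
      |((B.filter fun t => E j t (Y t)).card : ℝ) -
        ∑ t ∈ B, ((univ.filter (E j t)).card : ℝ) / Fintype.card Ω| ≤ D := by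
  obtain ⟨Y, hY⟩ := bal B (fun t ω j => if E j t ω then 1 else 0) 1 fun t _ ω j => by
    split_ifs <;> norm_num
  refine ⟨Y, fun j => abs_le_of_sq_le_sq' ?_ hD0 |> abs_le.mpr⟩
  simpa using (hY j).trans (by simpa using hD)

omit [Fintype V] [DecidableEq V] in
lemma res_step (S : Sys) (hS : S.SN.Nonempty) (P Φ : Finset V) (hΦ : Φ ⊆ P) (c1 c2 : V → ZMod S.Q)
    {D : ℝ} (hD0 : 0 ≤ D) (hD : (P.card : ℝ) * (5 * S.Q + S.Q ^ 3) ≤ D ^ 2) :
    ∃ ρ σ σ' : V → ZMod S.Q, (∀ x, σ x ∈ S.SN ∧ σ' x ∈ S.SN) ∧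
      (∀ j, ((P.filter fun x => ρ x = j).card : ℝ) ≤ P.card / S.Q + D) ∧
      (∀ j, ((P.filter fun x => σ x - c1 x - ρ x = j).card : ℝ) ≤ P.card / S.Q + D) ∧
      (∀ j, ((P.filter fun x => σ' x - c2 x + ρ x = j).card : ℝ) ≤ P.card / S.Q + D) ∧
      (∀ j, ((P.filter fun x => σ x = j).card : ℝ) ≤ P.card / S.SN.card + D) ∧
      (∀ j, ((P.filter fun x => σ' x = j).card : ℝ) ≤ P.card / S.SN.card + D) ∧
      ∀ b s s', s ∈ S.SN → s' ∈ S.SN → (Φ.card : ℝ) / S.Q ^ 3 - D ≤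
        (Φ.filter fun x => ρ x = b ∧ σ x = s ∧ σ' x = s').card := by
  classical
  have : Nonempty S.SN := hS.to_subtype
  have hQ : (0 : ℝ) < S.Q := by exact_mod_cast S.hQ
  have hn : (0 : ℝ) < S.SN.card := by exact_mod_cast hS.card_pos
  have hn' : (S.SN.card : ℝ) ≤ S.Q := by exact_mod_cast (card_le_univ _).trans (ZMod.card _).le
  have hc : (Fintype.card (ZMod S.Q × S.SN × S.SN) : ℝ) = S.Q * (S.SN.card * S.SN.card) := by simp
  let κ : Fin 5 → V → ZMod S.Q × S.SN × S.SN → ZMod S.Q := fun i x ω =>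
    ![ω.1, ω.2.1 - c1 x - ω.1, ω.2.2 - c2 x + ω.1, ω.2.1, ω.2.2] i
  obtain ⟨Y, hY⟩ := bal_ev P (J := (Fin 5 × ZMod S.Q) ⊕ (ZMod S.Q × S.SN × S.SN))
    (fun j x ω => j.elim (fun j => κ j.1 x ω = j.2) fun j => x ∈ Φ ∧ ω = j) hD0 (le_trans (by
      rw [Fintype.card_sum, Nat.cast_add, hc]
      simp only [Fintype.card_prod, Fintype.card_fin, ZMod.card, Nat.cast_mul, Nat.cast_ofNat]
      gcongr
      calc (S.Q : ℝ) * (S.SN.card * S.SN.card) ≤ S.Q * (S.Q * S.Q) := by gcongr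
        _ = _ := by ring) hD)
  have key : ∀ (i : Fin 5) (j : ZMod S.Q) {A : Type} [Fintype A] (f : ZMod S.Q × S.SN × S.SN → A)
      (n : ℝ), 0 < n → Fintype.card A * n = S.Q * (S.SN.card * S.SN.card) →
      (∀ x ω ω', κ i x ω = κ i x ω' → f ω = f ω' → ω = ω') →
      ((P.filter fun x => κ i x (Y x) = j).card : ℝ) ≤ P.card / n + D := fun i j A _ f n h0 h1 h2 => by
    have h3 := (abs_le.mp (hY (.inl (i, j)))).2
    refine le_trans (le_of_eq ?_) ((sub_le_iff_le_add'.mp h3).trans (add_le_add_left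
      ((sum_le_card_nsmul _ _ (1 / n) fun x _ => ?_).trans (le_of_eq ?_)) _))
    · congr
    swap
    · rw [nsmul_eq_mul, mul_one_div]
    rw [hc, div_le_div_iff₀ (by positivity) h0, one_mul, ← h1]
    refine mul_le_mul_of_nonneg_right (Nat.cast_le.mpr ?_) h0.le
    exact card_le_card_of_injOn f (t := univ) (by simp) fun ω k ω' k' e =>
      h2 x _ _ ((mem_filter.mp k).2.trans (mem_filter.mp k').2.symm) e
  refine ⟨fun x => (Y x).1, fun x => (Y x).2.1, fun x => (Y x).2.2,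
    fun x => ⟨(Y x).2.1.2, (Y x).2.2.2⟩,
    fun j => key 0 j Prod.snd _ hQ (by simp; ring) fun x ω ω' k e => Prod.ext k e,
    fun j => key 1 j Prod.snd _ hQ (by simp; ring) fun x ω ω' k e =>
      Prod.ext (by simpa [κ, e] using k) e,
    fun j => key 2 j Prod.snd _ hQ (by simp; ring) fun x ω ω' k e =>
      Prod.ext (by simpa [κ, e] using k) e,
    fun j => key 3 j (fun ω => (ω.1, ω.2.2)) _ hn (by simp; ring) fun x ω ω' k e =>
      Prod.ext (Prod.ext_iff.mp e).1 (Prod.ext (Subtype.ext k) (Prod.ext_iff.mp e).2),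
    fun j => key 4 j (fun ω => (ω.1, ω.2.1)) _ hn (by simp; ring) fun x ω ω' k e =>
      Prod.ext (Prod.ext_iff.mp e).1 (Prod.ext (Prod.ext_iff.mp e).2 (Subtype.ext k)),
    fun b s s' hs hs' => ?_⟩
  have h3 := (abs_le.mp (hY (.inr (b, ⟨s, hs⟩, ⟨s', hs'⟩)))).1
  rw [← sum_subset hΦ fun x _ k => by simp [k], sum_congr rfl (g := fun _ => 1 / (S.Q *
    (S.SN.card * S.SN.card) : ℝ)) fun x k => by simp [k, filter_eq'], sum_const, nsmul_eq_mul] at h3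
  have h4 : (Φ.card : ℝ) / S.Q ^ 3 ≤ Φ.card * (1 / (S.Q * (S.SN.card * S.SN.card))) := by
    rw [mul_one_div, show (S.Q : ℝ) ^ 3 = S.Q * (S.Q * S.Q) by ring]
    gcongr
  refine (sub_le_sub_right h4 D).trans ((sub_le_iff_le_add'.mpr (neg_le_sub_iff_le_add'.mp h3)).trans
    (Nat.cast_le.mpr (card_le_card fun x hx => ?_)))
  obtain ⟨k1, k2⟩ : x ∈ Φ ∧ Y x = _ := (mem_filter.mp hx).2
  exact mem_filter.mpr ⟨k1, by simp only [k2, and_self]⟩

end

/-- supports of the seven outputs of a block -/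
def sup7 : Fin 7 → Finset (Fin 3) := ![{0}, {1}, {2}, {0, 1}, {0, 2}, {1}, {2}]

/-- keys of the seven outputs of a block -/
def key7 : Fin 7 → Fin 4 := ![0, 1, 1, 2, 2, 3, 3]

/-- signs of the seven outputs of a block -/
def sg7 : Fin 7 → ℤ := ![1, 1, -1, 1, -1, 1, -1]

/-- raw values of the outputs -/
def raw7 {β w : ℕ} (Q c : ℤ) (i : Fin 7) (ω : Fin β × (Fin 3 → Fin w)) : ℤ :=
  c + sg7 i * Q * lin (sup7 i) ω

/-- values of the outputs -/
def val7 {β w : ℕ} (Q Sg c : ℤ) (i : Fin 7) (ω : Fin β × (Fin 3 → Fin w)) : Fin 4 × ℤ :=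
  (key7 i, if i = 0 then min (raw7 Q c i ω) (Sg - raw7 Q c i ω) else raw7 Q c i ω)

section
variable {β w : ℕ} {Q Sg c c' : ℤ} {i j : Fin 7}

lemma sup7_ne (i : Fin 7) : (sup7 i).Nonempty := by revert i; decide

lemma raw7_inj (hQ : Q ≠ 0) {ω ω' : Fin β × (Fin 3 → Fin w)} :
    raw7 Q c i ω = raw7 Q c i ω' ↔ lin (sup7 i) ω = lin (sup7 i) ω' := by
  have h : sg7 i ≠ 0 := by revert i; decide
  simp [raw7, h, hQ]

lemma val7_two (z : Fin 4 × ℤ) (ω : Fin β × (Fin 3 → Fin w)) (h : val7 Q Sg c i ω = z) :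
    raw7 Q c i ω = z.2 ∨ raw7 Q c i ω = Sg - z.2 := by
  subst h
  simp only [val7]
  split_ifs <;> omega

lemma raw7_one (hQ : Q ≠ 0) (hβ : 0 < β) (z : ℤ) :
    ((univ.filter fun ω : Fin β × (Fin 3 → Fin w) => raw7 Q c i ω = z).card : ℝ) ≤
      if Q ∣ z - c then (Fintype.card (Fin β × (Fin 3 → Fin w)) : ℝ) / β else 0 := by
  split_ifs with h
  · rw [le_div_iff₀ (by exact_mod_cast hβ)]
    exact_mod_cast lin_one (sup7_ne i)
      (univ.filter fun ω : Fin β × (Fin 3 → Fin w) => raw7 Q c i ω = z) fun ω k ω' k' =>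
      (raw7_inj hQ).mp ((mem_filter.mp k).2.trans (mem_filter.mp k').2.symm)
  · rw [filter_eq_empty_iff.mpr fun ω _ k => h ⟨sg7 i * lin (sup7 i) ω, by rw [← k, raw7]; ring⟩]
    simp

lemma raw7_two (hQ : Q ≠ 0) (hβ : 0 < β) (hw : 0 < w) (hi : 2 ≤ (sup7 i).card) (z : ℤ) :
    ((univ.filter fun ω : Fin β × (Fin 3 → Fin w) => raw7 Q c i ω = z).card : ℝ) ≤
      if Q ∣ z - c then (w + 1) * (Fintype.card (Fin β × (Fin 3 → Fin w)) : ℝ) / (2 * β * w)
      else 0 := by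
  split_ifs with h
  · rw [le_div_iff₀ (by positivity)]
    have := lin_two hi (univ.filter fun ω : Fin β × (Fin 3 → Fin w) => raw7 Q c i ω = z)
      fun ω k ω' k' => (raw7_inj hQ).mp ((mem_filter.mp k).2.trans (mem_filter.mp k').2.symm)
    exact_mod_cast le_of_eq_of_le (by ring) this
  · simpa [h] using raw7_one (i := i) (w := w) (c := c) hQ hβ z

lemma card_or {Ω : Type} [Fintype Ω] [DecidableEq Ω] {p q r : Ω → Prop} [DecidablePred p]
    [DecidablePred q] [DecidablePred r] (h : ∀ ω, p ω → q ω ∨ r ω) :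
    ((univ.filter p).card : ℝ) ≤ (univ.filter q).card + (univ.filter r).card := by
  exact_mod_cast (card_le_card fun ω k => by simpa using h ω (mem_filter.mp k).2).trans
    (card_union_le _ _)

lemma val7_one (hQ : Q ≠ 0) (hβ : 0 < β) (z : Fin 4 × ℤ) :
    ((univ.filter fun ω : Fin β × (Fin 3 → Fin w) => val7 Q Sg c i ω = z).card : ℝ) ≤
      2 * ((Fintype.card (Fin β × (Fin 3 → Fin w)) : ℝ) / β) := by
  have h : ∀ z, ((univ.filter fun ω : Fin β × (Fin 3 → Fin w) => raw7 Q c i ω = z).card : ℝ) ≤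
      (Fintype.card (Fin β × (Fin 3 → Fin w)) : ℝ) / β := fun z => (raw7_one hQ hβ z).trans (by
    split_ifs
    exacts [le_rfl, by positivity])
  linarith [card_or (val7_two (β := β) (w := w) (Q := Q) (Sg := Sg) (c := c) (i := i) z), h z.2,
    h (Sg - z.2)]

lemma val7_pair (hQ : Q ≠ 0) (hβ : 0 < β) (hw : 0 < w) (hne : sup7 i ≠ sup7 j) (z z' : Fin 4 × ℤ) :
    ((univ.filter fun ω : Fin β × (Fin 3 → Fin w) =>
      val7 Q Sg c i ω = z ∧ val7 Q Sg c' j ω = z').card : ℝ) ≤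
      4 * ((Fintype.card (Fin β × (Fin 3 → Fin w)) : ℝ) / (β * w)) := by
  have h : ∀ z z', ((univ.filter fun ω : Fin β × (Fin 3 → Fin w) =>
      raw7 Q c i ω = z ∧ raw7 Q c' j ω = z').card : ℝ) ≤
      (Fintype.card (Fin β × (Fin 3 → Fin w)) : ℝ) / (β * w) := fun z z' => by
    rw [le_div_iff₀ (by positivity), ← mul_assoc]
    exact_mod_cast lin_pair (sup7_ne i) (sup7_ne j) hne (univ.filter
      fun ω : Fin β × (Fin 3 → Fin w) => raw7 Q c i ω = z ∧ raw7 Q c' j ω = z') fun ω k ω' k' =>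
      ⟨(raw7_inj hQ).mp ((mem_filter.mp k).2.1.trans (mem_filter.mp k').2.1.symm),
        (raw7_inj hQ).mp ((mem_filter.mp k).2.2.trans (mem_filter.mp k').2.2.symm)⟩
  have h1 : ∀ y, ((univ.filter fun ω : Fin β × (Fin 3 → Fin w) =>
      raw7 Q c i ω = y ∧ val7 Q Sg c' j ω = z').card : ℝ) ≤ _ := fun y =>
    (card_or fun ω k => and_or_left.mp ⟨k.1, val7_two z' ω k.2⟩).trans (add_le_add (h _ _) (h _ _))
  exact ((card_or fun ω k => or_and_right.mp ⟨val7_two z ω k.1, k.2⟩).trans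
    (add_le_add (h1 _) (h1 _))).trans_eq (by ring)

end

lemma nib_step {ε : ℝ} (hε : 0 < ε) : ∃ γ : ℝ, 0 < γ ∧
    ∀ (V : Type) [Fintype V] [DecidableEq V] (P : Finset V) (B : Fin 7 → Finset V) (Q Sg : ℤ)
      (β w : ℕ) (c : Fin 7 → V → ℤ), Q ≠ 0 → w ≤ β → 1 ≤ γ * w → Fintype.card V ≤ γ * (β * w) →
      (∀ z, 2 * (((B 0).filter fun x => Q ∣ z - c 0 x).card : ℝ) ≤ (1 + ε) * β) →
      (∀ z, (((B 1).filter fun x => Q ∣ z - c 1 x).card : ℝ) +
        ((B 2).filter fun x => Q ∣ z - c 2 x).card ≤ (1 + ε) * β) →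
      (∀ z, ((((B 3).filter fun x => Q ∣ z - c 3 x).card : ℝ) +
        ((B 4).filter fun x => Q ∣ z - c 4 x).card) * (w + 1) ≤ 2 * β * w) →
      ((B 5).card + (B 6).card ≤ β) →
      (∀ δ, ((univ.filter fun x => (x ∈ B 5 ∧ |c 5 x - c 1 x| = δ) ∨
        (x ∈ B 6 ∧ |c 6 x - c 2 x| = δ)).card : ℝ) ≤ γ * β) →
      ∃ T ⊆ P, ∃ Y : V → Fin β × (Fin 3 → Fin w), ((P \ T).card : ℝ) ≤ 3 * ε * P.card ∧
        ∀ i j, ∀ x ∈ B i, ∀ y ∈ B j, x ∈ T → y ∈ T →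
          val7 Q Sg (c i x) i (Y x) = val7 Q Sg (c j y) j (Y y) → i = j ∧ x = y := by
  obtain ⟨γ, hγ, H⟩ := nib 7 hε
  refine ⟨γ / 300, by positivity, fun V _ _ P B Q Sg β w c hQ hwβ h1 h2 l0 l1 l2 l3 l4 => ?_⟩
  have hw : 0 < w := Nat.pos_of_ne_zero (by rintro rfl; norm_num at h1)
  have hβ : 0 < β := hw.trans_le hwβ
  have hw' : (0 : ℝ) < w := by exact_mod_cast hw
  have hβ' : (0 : ℝ) < β := by exact_mod_cast hβ
  have hwβ' : (w : ℝ) ≤ β := by exact_mod_cast hwβ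
  have : Nonempty (Fin β × (Fin 3 → Fin w)) := ⟨⟨0, hβ⟩, fun _ => ⟨0, hw⟩⟩
  set N : ℝ := (Fintype.card (Fin β × (Fin 3 → Fin w)) : ℝ) with hN
  have hN0 : 0 ≤ N := by positivity
  have hb : ∀ t : V, ((univ.sigma B).filter (·.2 = t)).card ≤ 7 := fun t =>
    card_le_card_of_injOn (t := univ) Sigma.fst (by simp) fun o k o' k' e => Sigma.ext e
      (heq_of_eq ((mem_filter.mp k).2.trans (mem_filter.mp k').2.symm))
  refine (H V (Σ _ : Fin 7, V) (Fin β × (Fin 3 → Fin w)) (Fin 4 × ℤ) P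
    (univ.sigma B) (·.2) (fun o => val7 Q Sg (c o.1 o.2) o.1) hb ?_ ?_ ?_ ?_).imp fun T =>
    And.imp_right <| Exists.imp fun Y => And.imp_right fun t3 i j x hx y hy k1 k2 e => by
      simpa using @t3 ⟨i, x⟩ (by simp [hx, k1]) ⟨j, y⟩ (by simp [hy, k2]) e
  · rintro ⟨k, z⟩
    have a1 : ∀ (i : Fin 7) (z : ℤ), ∑ x ∈ B i, ((univ.filter fun ω : Fin β × (Fin 3 → Fin w) =>
        raw7 Q (c i x) i ω = z).card : ℝ) ≤ ((B i).filter fun x => Q ∣ z - c i x).card * (N / β) :=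
      fun i z => (sum_le_sum fun x _ => raw7_one hQ hβ z).trans_eq (by
        rw [← sum_filter, sum_const, nsmul_eq_mul])
    have a2 : ∀ (i : Fin 7), 2 ≤ (sup7 i).card → ∑ x ∈ B i,
        ((univ.filter fun ω : Fin β × (Fin 3 → Fin w) => raw7 Q (c i x) i ω = z).card : ℝ) ≤
        ((B i).filter fun x => Q ∣ z - c i x).card * ((w + 1) * N / (2 * β * w)) :=
      fun i hi => (sum_le_sum fun x _ => raw7_two hQ hβ hw hi z).trans_eq (by
        rw [← sum_filter, sum_const, nsmul_eq_mul])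
    have a3 : ∀ a : ℝ, a ≤ (1 + ε) * β → a * (N / β) ≤ (1 + ε) * N := fun a h =>
      (mul_le_mul_of_nonneg_right h (by positivity)).trans_eq (by field_simp)
    rw [sum_sigma, Fin.sum_univ_seven, ← hN]
    fin_cases k
    · have a4 := sum_le_sum (s := B 0) fun x _ => card_or (val7_two (β := β) (w := w) (Q := Q)
        (Sg := Sg) (c := c 0 x) (i := 0) (0, z))
      rw [sum_add_distrib] at a4
      have a5 := a3 _ (l0 z)
      have a6 := a3 _ (l0 (Sg - z))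
      simp [val7, key7] at a4 ⊢
      linarith [a1 0 z, a1 0 (Sg - z)]
    · have a5 := a3 _ (l1 z)
      simp [val7, key7]
      linarith [a1 1 z, a1 2 z]
    · have a5 : _ ≤ (2 * β * w) * (N / (2 * β * w)) :=
        mul_le_mul_of_nonneg_right (l2 z) (by positivity)
      rw [mul_div_cancel₀ _ (by positivity), mul_assoc, ← mul_div_assoc] at a5
      simp [val7, key7]
      nlinarith [a2 3 (by decide), a2 4 (by decide)]
    · have a5 := a3 (((B 5).filter fun x => Q ∣ z - c 5 x).card +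
        ((B 6).filter fun x => Q ∣ z - c 6 x).card) (le_trans (by
          exact_mod_cast (add_le_add (card_filter_le _ _) (card_filter_le _ _)).trans l3)
          (le_mul_of_one_le_left hβ'.le (by linarith)))
      simp [val7, key7]
      linarith [a1 5 z, a1 6 z]
  · intro o _ z
    refine (val7_one hQ hβ z).trans ?_
    rw [← mul_div_assoc, div_le_iff₀ hβ', mul_right_comm]
    exact mul_le_mul_of_nonneg_right (by nlinarith) hN0
  · intro z z' hz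
    set X := univ.filter fun x => (x ∈ B 5 ∧ |c 5 x - c 1 x| = |z'.2 - z.2|) ∨
      (x ∈ B 6 ∧ |c 6 x - c 2 x| = |z'.2 - z.2|) with hX
    have a1 : ∀ o ∈ univ.sigma B, ∀ o' ∈ (univ.sigma B).filter (·.2 = o.2),
        ((univ.filter fun ω : Fin β × (Fin 3 → Fin w) => val7 Q Sg (c o.1 o.2) o.1 ω = z ∧
          val7 Q Sg (c o'.1 o'.2) o'.1 ω = z').card : ℝ) ≤
          4 * (N / (β * w)) + if o.2 ∈ X then 2 * (N / β) else 0 := by
      rintro ⟨i, x⟩ ho ⟨j, y⟩ ho'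
      obtain ⟨hp, e⟩ := mem_filter.mp ho'
      obtain rfl : y = x := e
      replace ho : y ∈ B i := (mem_sigma.mp ho).2
      replace ho' : y ∈ B j := (mem_sigma.mp hp).2
      by_cases h3 : sup7 i = sup7 j
      swap
      · exact (val7_pair hQ hβ hw h3 z z').trans (le_add_of_nonneg_right (by positivity))
      split_ifs with h4
      · refine le_trans ?_ (le_add_of_nonneg_left (by positivity))
        exact le_trans (Nat.cast_le.mpr (card_le_card fun ω k => by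
          simpa using (mem_filter.mp k).2.1)) (val7_one hQ hβ z)
      rw [filter_eq_empty_iff.mpr fun ω _ k => ?_, card_empty, Nat.cast_zero]
      · positivity
      obtain ⟨rfl, rfl⟩ := k
      have h5 : ∀ i j : Fin 7, sup7 i = sup7 j → i = j ∨ (i = 1 ∧ j = 5) ∨ (i = 5 ∧ j = 1) ∨
        (i = 2 ∧ j = 6) ∨ (i = 6 ∧ j = 2) := by decide
      refine h4 (mem_filter.mpr ⟨mem_univ _, ?_⟩)
      rcases h5 i j h3 with rfl | ⟨rfl, rfl⟩ | ⟨rfl, rfl⟩ | ⟨rfl, rfl⟩ | ⟨rfl, rfl⟩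
      · exact absurd rfl hz
      · exact .inl ⟨ho', by simp [val7, raw7, sg7, sup7]⟩
      · exact .inl ⟨ho, by simp [val7, raw7, sg7, sup7, abs_sub_comm]⟩
      · exact .inr ⟨ho', by simp [val7, raw7, sg7, sup7]⟩
      · exact .inr ⟨ho, by simp [val7, raw7, sg7, sup7, abs_sub_comm]⟩
    refine (sum_le_sum fun o ho => (sum_le_card_nsmul _ _ _ (a1 o ho)).trans
      (nsmul_le_nsmul_left (by positivity) (hb _))).trans ?_
    rw [sum_sigma]
    refine (sum_le_card_nsmul _ _ _ fun i _ => sum_le_univ_sum_of_nonneg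
      (f := fun x => 7 • (4 * (N / (β * w)) + if x ∈ X then 2 * (N / β) else 0))
      fun x => by positivity).trans ?_
    rw [← smul_sum, ← hN]
    simp only [sum_add_distrib, sum_const, sum_ite_mem, univ_inter, nsmul_eq_mul,
      card_univ, Fintype.card_fin, Nat.cast_ofNat]
    have a2 : Fintype.card V * (N / (β * w)) ≤ γ / 300 * N :=
      (mul_le_mul_of_nonneg_right h2 (by positivity)).trans_eq (by field_simp)
    have a3 : X.card * (N / β) ≤ γ / 300 * N :=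
      (mul_le_mul_of_nonneg_right (l4 _) (by positivity)).trans_eq (by field_simp)
    nlinarith [mul_nonneg hγ.le hN0]
  · rintro ⟨i, x⟩ ho ⟨j, y⟩ ho' hne (rfl : x = y)
    have h3 : i ≠ j := fun e => hne (by rw [e])
    by_cases h4 : key7 i = key7 j
    swap
    · rw [filter_eq_empty_iff.mpr fun ω _ k => h4 (congrArg Prod.fst k), card_empty, Nat.cast_zero]
      positivity
    have h5 : sup7 i ≠ sup7 j ∧ i ≠ 0 ∧ j ≠ 0 := by
      clear ho ho' hne; revert i j; decide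
    have h6 := lin_eq h5.1 (univ.filter fun ω : Fin β × (Fin 3 → Fin w) =>
        val7 Q Sg (c i x) i ω = val7 Q Sg (c j x) j ω) fun ω k ω' k' => by
      have k1 := (mem_filter.mp k).2
      have k2 := (mem_filter.mp k').2
      simp only [val7, if_neg h5.2.1, if_neg h5.2.2, Prod.mk.injEq] at k1 k2
      rw [← raw7_inj (c := c i x) hQ, ← raw7_inj (c := c j x) hQ, k1.2, k2.2]
    have h7 := (Nat.cast_le (α := ℝ)).mpr h6
    rw [Nat.cast_mul, ← hN] at h7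
    refine le_of_mul_le_mul_right (h7.trans ?_) hw'
    nlinarith

lemma lin_single {β w : ℕ} (a : Fin 3) (ω : Fin β × (Fin 3 → Fin w)) :
    0 ≤ lin {a} ω ∧ lin {a} ω + 2 ≤ β + w := by
  have h1 := ω.1.2
  have h2 := (ω.2 a).2
  rw [lin, sum_singleton]
  omega

lemma exists_lift (Q : ℕ) [NeZero Q] (b : ℤ) (ρ : ZMod Q) :
    (∃ c : ℤ, (c : ZMod Q) = ρ ∧ b < c ∧ c ≤ b + Q) ∧ ∃ c : ℤ, (c : ZMod Q) = ρ ∧ b < c + Q ∧ c ≤ b := by
  have h := ZMod.val_lt (ρ - (b : ZMod Q) - 1)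
  exact ⟨⟨b + 1 + (ρ - (b : ZMod Q) - 1).val, by simp, by omega, by omega⟩,
    ⟨b + 1 + (ρ - (b : ZMod Q) - 1).val - Q, by simp, by omega, by omega⟩⟩

lemma init_par {Q s M : ℕ} (hQ0 : 0 < Q) (hS : (3 / 4 : ℝ) * Q ≤ s) (hM : 3 ≤ M) {γ : ℝ}
    (hγ : 0 < γ) : ∃ N0 : ℕ, ∀ N L p φ : ℕ, N0 ≤ N → N ≤ 2 * L → 2 * p ≤ L → L ≤ N →
      8 * Q * φ ≤ N → ∃ w β : ℕ, Q * (β + w) ≤ L ∧ w ≤ β ∧ 1 ≤ γ * w ∧ N ≤ γ * (β * w) ∧
        (p : ℝ) * (5 * Q + Q ^ 3) ≤ (w / 2) ^ 2 ∧ 2 * ((p : ℝ) / Q + w / 2) ≤ (1 + 1 / M) * β ∧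
        ((p : ℝ) / s + w / 2 + (p / s + w / 2)) * (w + 1) ≤ 2 * β * w ∧ φ + φ ≤ β ∧
        γ / (32 * Q * M) * N + γ / (32 * Q * M) * N ≤ γ * β ∧ (w : ℝ) / 2 ≤ N / M := by
  have hM3 : (3 : ℝ) ≤ M := by exact_mod_cast hM
  have hM0 : (0 : ℝ) < M := by linarith
  have hQ : (1 : ℝ) ≤ Q := by exact_mod_cast hQ0
  obtain ⟨c, hc⟩ : ∃ c : ℝ, c = 16 * Q * M := ⟨_, rfl⟩
  have hc0 : 0 < c := by rw [hc]; positivity
  obtain ⟨w0, hw0⟩ := exists_nat_ge (8 + 1 / γ + c / γ + 4 * c * (5 * Q + Q ^ 3))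
  refine ⟨8 * Q * M * w0, fun N L p φ hN hL hp hLN hφ => ?_⟩
  obtain ⟨w, β, e1, e2, e3, e4, e5⟩ : ∃ w β : ℕ, w0 ≤ w ∧ 4 * M * w ≤ β + w ∧
      β + w + 1 ≤ 4 * M * (w + 1) ∧ Q * (β + w) ≤ L ∧ L ≤ Q * (β + w + 1) := by
    have k1 := Nat.mul_div_le (L / Q) (4 * M)
    have k2 := Nat.lt_mul_div_succ (L / Q) (show 0 < 4 * M by omega)
    have k3 := Nat.lt_mul_div_succ L hQ0
    have k4 : L / Q / (4 * M) ≤ L / Q := Nat.div_le_self _ _
    refine ⟨L / Q / (4 * M), L / Q - L / Q / (4 * M), ?_, by omega, by omega, ?_, ?_⟩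
    · rw [Nat.div_div_eq_div_mul, Nat.le_div_iff_mul_le (Nat.mul_pos hQ0 (by omega))]
      linarith
    · rw [Nat.sub_add_cancel k4]; exact Nat.mul_div_le _ _
    · rw [Nat.sub_add_cancel k4]; exact k3.le
  have f1 : (w0 : ℝ) ≤ w := by exact_mod_cast e1
  have f2 : 4 * (M : ℝ) * w ≤ β + w := by exact_mod_cast e2
  have f3 : (β : ℝ) + w + 1 ≤ 4 * M * (w + 1) := by exact_mod_cast e3
  have f4 : (Q : ℝ) * (β + w) ≤ L := by exact_mod_cast e4
  have f5 : (L : ℝ) ≤ Q * (β + w + 1) := by exact_mod_cast e5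
  have f6 : (N : ℝ) ≤ 2 * L := by exact_mod_cast hL
  have f7 : 2 * (p : ℝ) ≤ L := by exact_mod_cast hp
  have f8 : (L : ℝ) ≤ N := by exact_mod_cast hLN
  have f9 : 8 * (Q : ℝ) * φ ≤ N := by exact_mod_cast hφ
  have g0 : 0 ≤ 1 / γ ∧ 0 ≤ c / γ ∧ 0 ≤ 4 * c * (5 * Q + Q ^ 3) := by
    refine ⟨?_, ?_, ?_⟩ <;> positivity
  have g1 : (8 : ℝ) ≤ w := by linarith
  have g7 : 3 * (w : ℝ) ≤ M * w := by gcongr
  have g8 : (M : ℝ) * 8 ≤ M * w := by gcongr
  have g2 : 11 * (w : ℝ) ≤ β := by linarith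
  have g3 : (N : ℝ) ≤ c * w := by
    have : (Q : ℝ) * (β + w + 1) ≤ Q * (8 * M * w) := by gcongr; linarith
    rw [hc]; linarith
  have g4 : (p : ℝ) / Q ≤ (β + w + 1) / 2 := by
    rw [div_le_iff₀ (by linarith)]; linarith
  have g5 : (p : ℝ) / s ≤ 2 / 3 * (β + w + 1) := by
    have : 3 / 4 * (Q : ℝ) * (β + w + 1) ≤ s * (β + w + 1) := by gcongr
    rw [div_le_iff₀ (by linarith)]; linarith
  refine ⟨w, β, e4, by exact_mod_cast (show (w : ℝ) ≤ β by linarith),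
    by rw [mul_comm, ← div_le_iff₀ hγ]; linarith, ?_, ?_, ?_, ?_, ?_, ?_, ?_⟩
  · have : c ≤ γ * β := by rw [mul_comm, ← div_le_iff₀ hγ]; linarith
    rw [← mul_assoc]
    exact g3.trans (by gcongr)
  · have h1 : (p : ℝ) * (5 * Q + Q ^ 3) ≤ c * w * (5 * Q + Q ^ 3) := by gcongr; linarith
    have h2 : 4 * c * (5 * Q + Q ^ 3) * w ≤ w * w := by gcongr; linarith
    linarith
  · have : 3 * (w : ℝ) ≤ 1 / M * β := by
      rw [one_div, ← div_eq_inv_mul, le_div_iff₀ hM0]; linarith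
    linarith
  · have h1 : ((p : ℝ) / s + w / 2 + (p / s + w / 2)) * (w + 1) ≤ (16 / 9 * β) * (9 / 8 * w) := by
      gcongr <;> linarith
    linarith
  · have h1 : (Q : ℝ) * (β + w + 1) ≤ Q * (2 * β) := by gcongr; linarith
    exact_mod_cast le_of_mul_le_mul_left (show (Q : ℝ) * (φ + φ) ≤ Q * β by linarith) (by linarith)
  · have h1 : γ / (32 * Q * M) * N ≤ γ / (32 * Q * M) * (c * β) := by
      gcongr
      exact g3.trans (mul_le_mul_of_nonneg_left (by linarith) hc0.le)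
    rw [show γ / (32 * Q * M) * (c * β) = γ * β / 2 by rw [hc]; field_simp; ring] at h1
    linarith
  · have : 1 * ((β : ℝ) + w) ≤ Q * (β + w) := by gcongr
    rw [le_div_iff₀ hM0]; linarith

theorem init2 (S : Sys) (hS : (3 / 4 : ℝ) * S.Q ≤ S.SN.card) {ε : ℝ} (hε : 0 < ε) :
    ∃ γ : ℝ, 0 < γ ∧ ∃ N0 : ℕ, ∀ (V : Type) [Fintype V] [DecidableEq V] (T : RT V)
      (ep : V → Finset V) (ω0 : V → ℤ) (a0 l0 : ℤ) (τ : V → V) (P Φ : Finset V),
      N0 ≤ Fintype.card V → Hyp T ep ω0 a0 γ → Tau T τ →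
      (∀ x ∈ P, x ∈ T.lv ∧ τ x ∈ T.lv ∧ τ x ≠ x ∧ T.π (τ x) = T.π x ∧ τ x ∉ P) → Φ ⊆ P →
      8 * S.Q * Φ.card ≤ Fintype.card V → Fintype.card V ≤ 2 * T.lv.card →
      ∃ (α lam : V → ℤ) (Cov : Finset V) (Sg : ℤ),
        Set.BijOn α T.lv (Set.Ioc a0 (a0 + T.lv.card)) ∧
        Set.BijOn lam T.W (Set.Ioc l0 (l0 + T.W.card)) ∧ Cov ⊆ P ∧
        ((P \ Cov).card : ℝ) ≤ ε * Fintype.card V ∧
        (∀ w ∈ T.W, τ w ≠ w → lam w + lam (τ w) = Sg) ∧
        Set.InjOn (T.sm (T.om ep ω0 α) lam) (Cov ∪ Cov.image τ : Finset V) ∧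
        (∀ x ∈ Cov ∪ Cov.image τ, ((T.sm (T.om ep ω0 α) lam x : ℤ) : ZMod S.Q) ∈ S.SN) ∧
        (∀ b σ σ', σ ∈ S.SN → σ' ∈ S.SN →
          (Φ.card : ℝ) / S.Q ^ 3 - ε * Fintype.card V ≤ ((Φ ∩ Cov).filter fun x =>
            ((lam x : ℤ) : ZMod S.Q) = b ∧ ((T.sm (T.om ep ω0 α) lam x : ℤ) : ZMod S.Q) = σ ∧
            ((T.sm (T.om ep ω0 α) lam (τ x) : ℤ) : ZMod S.Q) = σ').card) ∧
        (∀ z, ((Φ ∩ Cov).filter fun x => T.sm (T.om ep ω0 α) lam x - lam x = z).card ≤ 2) ∧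
        (∀ z, ((Φ ∩ Cov).filter fun x =>
          T.sm (T.om ep ω0 α) lam (τ x) - lam (τ x) = z).card ≤ 2) := by
  obtain ⟨M, hM⟩ := exists_nat_ge (max 3 (4 / ε))
  have hM3 : (3 : ℝ) ≤ M := (le_max_left _ _).trans hM
  have hM0 : (0 : ℝ) < M := by linarith
  have hMε : 4 / (M : ℝ) ≤ ε := by
    rw [div_le_iff₀ hM0, mul_comm, ← div_le_iff₀ hε]; exact (le_max_right _ _).trans hM
  have hQ : (0 : ℝ) < S.Q := by exact_mod_cast S.hQ
  obtain ⟨γ, hγ, H⟩ := nib_step (ε := 1 / M) (by positivity)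
  obtain ⟨N0, hpar⟩ := init_par S.hQ hS (by exact_mod_cast hM3 : 3 ≤ M) hγ
  refine ⟨γ / (32 * S.Q * M), by positivity, N0,
    fun V _ _ T ep ω0 a0 l0 τ P Φ hN hH hτ hP hΦ h8 hL => ?_⟩
  have hi : Function.Injective τ := Function.Involutive.injective hτ.inv
  have hLW : T.lv.card ≤ T.W.card := card_filter_le _ _
  have hPL : 2 * P.card ≤ T.lv.card := by
    rw [two_mul]
    nth_rw 2 [← card_image_of_injective P hi]
    rw [← card_union_of_disjoint (disjoint_right.mpr (forall_mem_image.mpr fun x hx =>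
      (hP x hx).2.2.2.2))]
    exact card_le_card (union_subset (fun x hx => (hP x hx).1)
      (forall_mem_image.mpr fun x hx => (hP x hx).2.1))
  obtain ⟨w, β, g0, g1, g2, g3, g4, g5, g6, g7, g8, g9⟩ :=
    hpar _ _ _ _ hN hL hPL (card_le_univ _) h8
  obtain ⟨r, hr, hlam⟩ := pair_labels hτ (P := P)
    (fun x hx => ⟨(mem_filter.mp (hP x hx).1).1, (hP x hx).2.2.1, (hP x hx).2.2.2.2⟩) l0
  obtain ⟨Sg, hSg⟩ : ∃ Sg : ℤ, Sg = 2 * l0 + 2 * r + 1 := ⟨_, rfl⟩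
  rw [← hSg] at hlam
  obtain ⟨ρ, σ, σ', r0, r1, r2, r3, r4, r5, r6⟩ := res_step S (card_pos.mp (by
    exact_mod_cast (show (0 : ℝ) < S.SN.card by linarith))) P Φ hΦ (fun x => ω0 x)
    (fun x => ω0 (τ x) + Sg) (by positivity) g4
  choose c0 p0 q0 using fun x => (exists_lift S.Q l0 (ρ x)).1
  choose c1 p1 q1 using fun x => (exists_lift S.Q a0 (σ x - ω0 x - ρ x)).1
  choose c2 p2 q2 using fun x =>
    (exists_lift S.Q (a0 + T.lv.card) (σ' x - (ω0 (τ x) + Sg) + ρ x)).2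
  have dv : ∀ {f : V → ℤ} {g : V → ZMod S.Q} {a : ℝ}, (∀ x, (f x : ZMod S.Q) = g x) →
      (∀ j, ((P.filter fun x => g x = j).card : ℝ) ≤ a) →
      ∀ z : ℤ, ((P.filter fun x => (S.Q : ℤ) ∣ z - f x).card : ℝ) ≤ a := fun h1 h2 z =>
    le_of_eq_of_le (by simp only [← h1, ZMod.intCast_eq_intCast_iff_dvd_sub]) (h2 z)
  have p3 : ∀ x, ((ω0 x + c0 x + c1 x : ℤ) : ZMod S.Q) = σ x := fun x => by
    push_cast; rw [p0, p1]; ring
  have p4 : ∀ x, ((ω0 (τ x) + Sg - c0 x + c2 x : ℤ) : ZMod S.Q) = σ' x := fun x => by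
    rw [Int.cast_add, Int.cast_sub, Int.cast_add, p0, p2]; ring
  let c : Fin 7 → V → ℤ := ![c0, c1, c2, fun x => ω0 x + c0 x + c1 x,
    fun x => ω0 (τ x) + Sg - c0 x + c2 x, fun x => ω0 x + c1 x, fun x => ω0 (τ x) + c2 x]
  obtain ⟨Cov, hC, Y, hY, inj⟩ := H V P
    ![P, P, P, P, P, Φ.filter (ω0 · ≠ 0), Φ.filter fun x => ω0 (τ x) ≠ 0] S.Q Sg β w c (by exact_mod_cast S.hQ.ne') g1 g2 g3
    (fun z => (mul_le_mul_of_nonneg_left (dv p0 r1 z) two_pos.le).trans g5)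
    (fun z => (add_le_add (dv p1 r2 z) (dv p2 r3 z)).trans ((two_mul _).symm.trans_le g5))
    (fun z => (mul_le_mul_of_nonneg_right (add_le_add (dv p3 r4 z) (dv p4 r5 z))
      (by positivity)).trans g6)
    ((add_le_add (card_filter_le _ _) (card_filter_le _ _)).trans g7)
    (fun δ => by
      have k1 : ∀ f : V → V, Function.Injective f → ((univ.filter fun x => ω0 (f x) ≠ 0 ∧
          |ω0 (f x)| = δ).card : ℝ) ≤ γ / (32 * S.Q * M) * Fintype.card V := fun f hf => by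
        rcases eq_or_ne δ 0 with rfl | k
        · rw [filter_eq_empty_iff.mpr (by simp), card_empty, Nat.cast_zero]; positivity
        refine le_trans (Nat.cast_le.mpr (card_le_card_of_injOn f (fun x hx => ?_) hf.injOn))
          (hH.mult δ k)
        simpa [abs_of_nonneg (hH.nn _)] using (mem_filter.mp hx).2.2
      refine (card_or (q := fun x => ω0 (id x) ≠ 0 ∧ |ω0 (id x)| = δ)
        (r := fun x => ω0 (τ x) ≠ 0 ∧ |ω0 (τ x)| = δ) fun x hx => ?_).trans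
        ((add_le_add (k1 id Function.injective_id) (k1 τ hi)).trans g8)
      exact hx.imp (fun k => ⟨(mem_filter.mp (show x ∈ Φ.filter (ω0 · ≠ 0) from k.1)).2,
        by simpa [c] using k.2⟩) fun k => ⟨(mem_filter.mp
          (show x ∈ Φ.filter fun x => ω0 (τ x) ≠ 0 from k.1)).2, by simpa [c] using k.2⟩)
  obtain ⟨h, hh⟩ : ∃ h : Fin 3 → V → ℤ, ∀ a x, h a x = S.Q * lin {a} (Y x) := ⟨_, fun _ _ => rfl⟩
  have hb : ∀ a x, 0 ≤ h a x ∧ h a x + 2 * S.Q ≤ T.lv.card := fun a x => by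
    have k1 := lin_single a (Y x)
    have k2 : (S.Q : ℤ) * (β + w) ≤ T.lv.card := by exact_mod_cast g0
    rw [hh]
    exact ⟨mul_nonneg (by positivity) k1.1, by nlinarith⟩
  have hz : ∀ a x, (h a x : ZMod S.Q) = 0 := fun a x => by simp [hh]
  have hl : ∀ (a b : Fin 3) x, a ≠ b → S.Q * lin {a, b} (Y x) = h a x + h b x := fun a b x k => by
    simp only [hh, lin, sum_pair k, sum_singleton, mul_add]
  have hQ' := S.hQ
  have v0 : ∀ x ∈ Cov, ∀ y ∈ Cov, min (c0 x + h 0 x) (Sg - (c0 x + h 0 x)) =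
      min (c0 y + h 0 y) (Sg - (c0 y + h 0 y)) → x = y := fun x hx y hy e =>
    (inj 0 0 x (hC hx) y (hC hy) hx hy (by simpa [c, val7, raw7, sg7, sup7, ← hh] using e)).2
  obtain ⟨lam, l1, l2, l3⟩ := hlam Cov hC (fun x => c0 x + h 0 x)
    (fun x _ => by have := hb 0 x; have := q0 x; omega) fun x hx y hy e => v0 x hx y hy e
  have two : ∀ {F : V → ℤ} {i j : Fin 7} {B : Finset V},
      (∀ x ∈ B, F x = raw7 S.Q (c i x) i (Y x) ∧ F (τ x) = raw7 S.Q (c j x) j (Y x)) →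
      (∀ x ∈ B, ∀ y ∈ B, ∀ i' j', (i' = i ∨ i' = j) → (j' = i ∨ j' = j) →
        raw7 S.Q (c i' x) i' (Y x) = raw7 S.Q (c j' y) j' (Y y) → i' = j' ∧ x = y) → i ≠ j →
      Set.InjOn F (B ∪ B.image τ : Finset V) := fun {F i j B} h1 h2 h3 x hx y hy e => by
    simp only [coe_union, Set.mem_union, mem_coe, mem_image] at hx hy
    rcases hx with hx | ⟨x, hx, rfl⟩ <;> rcases hy with hy | ⟨y, hy, rfl⟩
    · exact (h2 x hx y hy i i (.inl rfl) (.inl rfl) (by rwa [← (h1 x hx).1, ← (h1 y hy).1])).2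
    · exact absurd (h2 x hx y hy i j (.inl rfl) (.inr rfl)
        (by rwa [← (h1 x hx).1, ← (h1 y hy).2])).1 h3
    · exact absurd (h2 x hx y hy j i (.inr rfl) (.inl rfl)
        (by rwa [← (h1 x hx).2, ← (h1 y hy).1])).1 h3.symm
    · rw [(h2 x hx y hy j j (.inr rfl) (.inr rfl) (by rwa [← (h1 x hx).2, ← (h1 y hy).2])).2]
  obtain ⟨α, a1, a2⟩ := extend_bij T.lv (Cov ∪ Cov.image τ) (union_subset
    (fun x hx => (hP x (hC hx)).1) (forall_mem_image.mpr fun x hx => (hP x (hC hx)).2.1))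
    (Ioc a0 (a0 + T.lv.card)) (by simp)
    (fun v => if v ∈ P then c1 v + h 1 v else c2 (τ v) - h 2 (τ v))
    (two (i := 1) (j := 2) (fun x hx => by
      simp [c, hC hx, (hP x (hC hx)).2.2.2.2, hτ.inv, raw7, sg7, sup7, ← hh, sub_eq_add_neg])
      (fun x hx y hy i j hi hj e => inj i j x (by rcases hi with rfl | rfl <;> exact hC hx) y
        (by rcases hj with rfl | rfl <;> exact hC hy) hx hy (by
          rcases hi with rfl | rfl <;> rcases hj with rfl | rfl <;> exact Prod.ext rfl e))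
      (by decide)) fun v _ => by
        have := hb 1 v; have := q1 v; have := hb 2 (τ v); have := q2 (τ v)
        rw [mem_Ioc]; split_ifs <;> omega
  have s1 : ∀ x ∈ Cov, α x = c1 x + h 1 x ∧ α (τ x) = c2 x - h 2 x := fun x hx =>
    ⟨by rw [a2 x (mem_union_left _ hx), if_pos (hC hx)], by
      rw [a2 _ (mem_union_right _ (mem_image_of_mem _ hx)), if_neg (hP x (hC hx)).2.2.2.2, hτ.inv]⟩
  have s2 : ∀ x ∈ Cov, T.sm (T.om ep ω0 α) lam x = ω0 x + α x + lam x ∧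
      T.sm (T.om ep ω0 α) lam (τ x) = ω0 (τ x) + α (τ x) + lam (τ x) := fun x hx =>
    ⟨leaf_sm hH _ _ (hP x (hC hx)).1, leaf_sm hH _ _ (hP x (hC hx)).2.1⟩
  have s3 : ∀ x ∈ Cov, T.sm (T.om ep ω0 α) lam x = ω0 x + c0 x + c1 x + (h 0 x + h 1 x) ∧
      T.sm (T.om ep ω0 α) lam (τ x) = ω0 (τ x) + Sg - c0 x + c2 x - (h 0 x + h 2 x) := fun x hx => by
    have := l2 x (mem_filter.mp (hP x (hC hx)).1).1 (hP x (hC hx)).2.2.1
    have := s1 x hx
    have := s2 x hx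
    have := l3 x hx
    omega
  have s4 : ∀ x ∈ Cov, ((lam x : ℤ) : ZMod S.Q) = ρ x ∧
      ((T.sm (T.om ep ω0 α) lam x : ℤ) : ZMod S.Q) = σ x ∧
      ((T.sm (T.om ep ω0 α) lam (τ x) : ℤ) : ZMod S.Q) = σ' x := fun x hx => by
    rw [(s3 x hx).1, (s3 x hx).2, l3 x hx, Int.cast_add, Int.cast_add _ (_ + _), Int.cast_sub, p0,
      p3, p4]
    simp [hz]
  have hP3 : ((P \ Cov).card : ℝ) ≤ 3 * (Fintype.card V / M) := by
    have : (P.card : ℝ) ≤ Fintype.card V := by exact_mod_cast card_le_univ _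
    refine hY.trans ?_
    rw [mul_assoc, one_div, ← div_eq_inv_mul]
    gcongr
  have hP4 : 4 * ((Fintype.card V : ℝ) / M) ≤ ε * Fintype.card V := by
    rw [← mul_div_assoc, mul_div_right_comm]; gcongr
  have mult : ∀ (f : V → V), Set.InjOn (α ∘ f) Cov → (∀ x ∈ Φ ∩ Cov, ∀ y ∈ Φ ∩ Cov,
      ω0 (f x) ≠ 0 → ω0 (f y) ≠ 0 → ω0 (f x) + α (f x) = ω0 (f y) + α (f y) → x = y) →
      (∀ x ∈ Cov, T.sm (T.om ep ω0 α) lam (f x) = ω0 (f x) + α (f x) + lam (f x)) → ∀ z,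
      ((Φ ∩ Cov).filter fun x => T.sm (T.om ep ω0 α) lam (f x) - lam (f x) = z).card ≤ 2 :=
    fun f k1 k2 k3 z => by
      refine card_le_card_of_injOn (t := (univ : Finset Bool)) (fun x => decide (ω0 (f x) = 0))
        (fun _ _ => mem_univ _) fun x hx y hy e => ?_
      obtain ⟨x1, x2⟩ := mem_filter.mp hx
      obtain ⟨y1, y2⟩ := mem_filter.mp hy
      rw [k3 _ (mem_inter.mp x1).2] at x2
      rw [k3 _ (mem_inter.mp y1).2] at y2
      replace e : ω0 (f x) = 0 ↔ ω0 (f y) = 0 := by simpa using e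
      by_cases k : ω0 (f x) = 0
      · exact k1 (mem_inter.mp x1).2 (mem_inter.mp y1).2 (by have := e.mp k; simp; omega)
      · exact k2 x x1 y y1 k (mt e.mpr k) (by omega)
  refine ⟨α, lam, Cov, Sg, by simpa using a1, l1, hC, by
    linarith [show 0 ≤ (Fintype.card V : ℝ) / M by positivity], l2, ?_, fun x hx => ?_, fun b s s' k1 k2 => ?_,
    mult id (fun x hx y hy => a1.injOn (hP x (hC hx)).1 (hP y (hC hy)).1) (fun x hx y hy k1 k2 e =>
      ?_) fun x hx => (s2 x hx).1, mult τ (fun x hx y hy e => hi (a1.injOn (hP x (hC hx)).2.1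
      (hP y (hC hy)).2.1 e)) (fun x hx y hy k1 k2 e => ?_) fun x hx => (s2 x hx).2⟩
  · exact two (i := 3) (j := 4) (fun x hx => by
      simp [c, s3 x hx, raw7, sg7, sup7, hl, sub_eq_add_neg])
      (fun x hx y hy i j hi hj e => inj i j x (by rcases hi with rfl | rfl <;> exact hC hx) y
        (by rcases hj with rfl | rfl <;> exact hC hy) hx hy (by
          rcases hi with rfl | rfl <;> rcases hj with rfl | rfl <;> exact Prod.ext rfl e))
      (by decide)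
  · rcases mem_union.mp hx with k | k
    · exact (s4 x k).2.1 ▸ (r0 x).1
    · obtain ⟨y, k', rfl⟩ := mem_image.mp k
      exact (s4 y k').2.2 ▸ (r0 y).2
  · have k3 := (Nat.cast_le (α := ℝ)).mpr ((card_le_card (s := Φ.filter fun x => ρ x = b ∧ σ x = s ∧
      σ' x = s') (t := ((Φ ∩ Cov).filter fun x => ((lam x : ℤ) : ZMod S.Q) = b ∧
        ((T.sm (T.om ep ω0 α) lam x : ℤ) : ZMod S.Q) = s ∧
        ((T.sm (T.om ep ω0 α) lam (τ x) : ℤ) : ZMod S.Q) = s') ∪ (P \ Cov)) fun x hx => by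
      obtain ⟨x1, x2⟩ := mem_filter.mp hx
      by_cases k : x ∈ Cov
      · refine mem_union_left _ (mem_filter.mpr ⟨mem_inter.mpr ⟨x1, k⟩, ?_⟩)
        rwa [(s4 x k).1, (s4 x k).2.1, (s4 x k).2.2]
      · exact mem_union_right _ (mem_sdiff.mpr ⟨hΦ x1, k⟩)).trans (card_union_le _ _))
    rw [Nat.cast_add] at k3
    linarith [r6 b s s' k1 k2]
  · obtain ⟨x1, x2⟩ := mem_inter.mp hx
    obtain ⟨y1, y2⟩ := mem_inter.mp hy
    refine (inj 5 5 x (mem_filter.mpr ⟨x1, k1⟩) y (mem_filter.mpr ⟨y1, k2⟩) x2 y2 ?_).2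
    simpa [c, val7, raw7, sg7, sup7, ← hh, s1 x x2, s1 y y2, add_assoc] using e
  · obtain ⟨x1, x2⟩ := mem_inter.mp hx
    obtain ⟨y1, y2⟩ := mem_inter.mp hy
    refine (inj 6 6 x (mem_filter.mpr ⟨x1, k1⟩) y (mem_filter.mpr ⟨y1, k2⟩) x2 y2 ?_).2
    simpa [c, val7, raw7, sg7, sup7, ← hh, s1 x x2, s1 y y2, add_assoc, sub_eq_add_neg] using e

end Pool.Agent.Lib.MP_0830d8_co.Ex
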