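import Pool.Agent.Lib.MP_0830d8_co.Ex.Sys
import Pool.Agent.Lib.MP_0830d8_co.Tree

-- part Pool.Agent.Lib.MP_0830d8_co.Ex.Big
section

/-!
Reduction of the antimagic property of a connected graph with many vertices of degree at least two
to the core theorem.
-/

namespace Pool.Agent.Lib.MP_0830d8_co.Ex

open Finset

namespace Big

section tree

variable {U : Type} [Fintype U] [DecidableEq U]

lemma depth_le (r : U) (π : U → U) (d : U → ℕ) (h : ∀ v, v ≠ r → d (π v) + 1 = d v) (v : U) :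
    d v ≤ d r + Fintype.card U := by
  have key : ∀ n v, d v = n → ∀ j, d r ≤ j → j ≤ d v → ∃ u, d u = j := by
    intro n
    induction n using Nat.strong_induction_on with
    | _ n ih =>
      intro v hv j h1 h2
      by_cases hj : j = d v
      · exact ⟨v, hj.symm⟩
      by_cases hr : v = r
      · subst hr; omega
      have := h v hr
      exact ih (d (π v)) (by omega) (π v) rfl j h1 (by omega)
  have h1 : Icc (d r) (d v) ⊆ univ.image d := fun j hj => by
    obtain ⟨u, hu⟩ := key _ v rfl j (mem_Icc.mp hj).1 (mem_Icc.mp hj).2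
    exact mem_image.mpr ⟨u, mem_univ _, hu⟩
  have h2 := (card_le_card h1).trans card_image_le
  rw [Nat.card_Icc, card_univ] at h2
  omega

/-- a depth-maximal tree has pairwise unrelated leaves -/
lemma exists_tree (A : U → U → Prop) (hA : ∀ u v, A u v → A v u) (r : U) (π : U → U)
    (d : U → ℕ) (h : ∀ v, v ≠ r → A v (π v) ∧ d (π v) + 1 = d v) :
    ∃ T : RT U, T.r = r ∧ (∀ v, v ≠ r → A v (T.π v)) ∧
      ∀ x ∈ T.lv, ∀ y ∈ T.lv, A x y → x = y := by
  set S : Set ℕ := {s | ∃ (π' : U → U) (d' : U → ℕ),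
    (∀ v, v ≠ r → A v (π' v) ∧ d' (π' v) + 1 = d' v) ∧ d' r = d r ∧ ∑ v, d' v = s} with hS
  have hne : S.Nonempty := ⟨_, π, d, h, rfl, rfl⟩
  have hbd : BddAbove S := by
    refine ⟨Fintype.card U * (d r + Fintype.card U), ?_⟩
    rintro s ⟨π', d', h1, h2, rfl⟩
    refine (sum_le_card_nsmul _ _ (d r + Fintype.card U) fun v _ => ?_).trans (by simp)
    rw [← h2]
    exact depth_le r π' d' (fun v hv => (h1 v hv).2) v
  obtain ⟨π', d', h1, h2, h3⟩ := Nat.sSup_mem hne hbd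
  let T : RT U := ⟨r, π', d', fun v hv => (h1 v hv).2⟩
  refine ⟨T, rfl, fun v hv => (h1 v hv).1, ?_⟩
  have main : ∀ x ∈ T.lv, ∀ y, A x y → x ≠ y → d' y < d' x := by
    intro x hx y hxy hne
    by_contra hlt
    obtain ⟨hxW, hxl⟩ := mem_filter.mp hx
    have hxr : x ≠ r := (mem_erase.mp hxW).1
    have hmem : ∑ v, Function.update d' x (d' y + 1) v ∈ S := by
      refine ⟨Function.update π' x y, Function.update d' x (d' y + 1), fun v hv => ?_, ?_, rfl⟩
      · by_cases hvx : v = x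
        · subst hvx
          simp only [Function.update_self]
          exact ⟨hxy, by rw [Function.update_of_ne hne.symm]⟩
        · have h4 : π' v ≠ x := hxl v (mem_erase.mpr ⟨hv, mem_univ _⟩)
          rw [Function.update_of_ne hvx, Function.update_of_ne hvx, Function.update_of_ne h4]
          exact h1 v hv
      · rw [Function.update_of_ne hxr.symm, h2]
    have h5 := le_csSup hbd hmem
    rw [← h3, sum_update_of_mem (mem_univ x), ← add_sum_erase _ _ (mem_univ x),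
      sdiff_singleton_eq_erase] at h5
    omega
  intro x hx y hy hxy
  by_contra hne
  have h6 := main x hx y hxy hne
  have h7 := main y hy x (hA _ _ hxy) (Ne.symm hne)
  omega

lemma exists_inc (T : RT U) (hU : 2 ≤ Fintype.card U) (w : U) :
    ∃ v ∈ T.W, w = v ∨ w = T.π v := by
  by_cases hw : w = T.r
  · have hne : T.W.Nonempty := by
      rw [← card_pos, RT.W, card_erase_of_mem (mem_univ _), card_univ]; omega
    obtain ⟨v, hv, hmin⟩ := exists_min_image T.W T.d hne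
    refine ⟨v, hv, Or.inr ?_⟩
    by_contra hc
    have h1 := hmin (T.π v) (mem_erase.mpr ⟨fun e => hc (hw.trans e.symm), mem_univ _⟩)
    have h2 := T.hd v (mem_erase.mp hv).1
    omega
  · exact ⟨w, mem_erase.mpr ⟨hw, mem_univ _⟩, Or.inl rfl⟩

end tree

lemma bij_union {α : Type} {f : α → ℤ} {s t : Set α} {a b c : ℤ} (hab : a ≤ b) (hbc : b ≤ c)
    (h1 : Set.BijOn f s (Set.Ioc a b)) (h2 : Set.BijOn f t (Set.Ioc b c)) :
    Set.BijOn f (s ∪ t) (Set.Ioc a c) := by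
  rw [← Set.Ioc_union_Ioc_eq_Ioc hab hbc]
  refine h1.union h2 ?_
  rintro x (hx | hx) y (hy | hy) e
  · exact h1.injOn hx hy e
  · have := (h1.mapsTo hx).2; have := (h2.mapsTo hy).1; omega
  · have := (h1.mapsTo hy).2; have := (h2.mapsTo hx).1; omega
  · exact h2.injOn hx hy e

lemma bij_image {α β : Type} [DecidableEq β] {s : Finset α} {g : α → β} {f : β → ℤ} {l : α → ℤ}
    {B : Set ℤ} (hl : Set.BijOn l s B) (hf : ∀ x ∈ s, f (g x) = l x) :
    Set.BijOn f (s.image g : Finset β) B := by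
  rw [coe_image]
  refine ⟨?_, ?_, ?_⟩
  · rintro _ ⟨x, hx, rfl⟩
    rw [hf x hx]; exact hl.mapsTo hx
  · rintro _ ⟨x, hx, rfl⟩ _ ⟨y, hy, rfl⟩ e
    rw [hf x hx, hf y hy] at e
    rw [hl.injOn hx hy e]
  · intro z hz
    obtain ⟨x, hx, rfl⟩ := hl.surjOn hz
    exact ⟨g x, ⟨x, hx, rfl⟩, hf x hx⟩

section graph

variable {V : Type} [Fintype V] [DecidableEq V] (G : SimpleGraph V) [DecidableRel G.Adj]

/-- the vertices of degree at least two -/
abbrev Core : Type := {v : V // 2 ≤ G.degree v}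

/-- the core vertices on an edge -/
def ends (e : Sym2 V) : Finset (Core G) := univ.filter fun w => w.1 ∈ e

lemma card_ends (e : Sym2 V) : (ends G e).card ≤ 2 := by
  induction e using Sym2.ind with
  | _ a b =>
    refine (card_le_card_of_injOn (t := ({a, b} : Finset V)) Subtype.val (fun w hw => ?_)
      Subtype.val_injective.injOn).trans card_le_two
    have := (mem_filter.mp (mem_coe.mp hw)).2
    simpa using this

variable {G}

lemma exists_core_parent (hG : G.Connected) (r : Core G) :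
    ∃ (π : V → Core G) (d : V → ℕ), ∀ v, v ≠ r.1 → G.Adj v (π v).1 ∧ d (π v).1 + 1 = d v := by
  obtain ⟨π, d, h⟩ := exists_parent hG r.1
  have hc : ∀ v, v ≠ r.1 → 2 ≤ G.degree (π v) := by
    intro v hv
    by_cases hr : π v = r.1
    · rw [hr]; exact r.2
    have h1 := h v hv
    have h2 := h _ hr
    have hne : v ≠ π (π v) := fun e => by
      have := congrArg d e
      omega
    rw [← G.card_neighborFinset_eq_degree, ← card_pair hne]
    refine card_le_card fun x hx => ?_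
    rw [SimpleGraph.mem_neighborFinset]
    rcases mem_insert.mp hx with rfl | hx
    · exact h1.1.symm
    · rw [mem_singleton.mp hx]; exact h2.1
  refine ⟨fun v => if hv : v = r.1 then r else ⟨π v, hc v hv⟩, d, fun v hv => ?_⟩
  simp only [dif_neg hv]
  exact h v hv

omit [DecidableEq V] in
lemma exists_other (x : Core G) (y : V) : ∃ z, G.Adj x.1 z ∧ z ≠ y := by
  have h := x.2
  rw [← G.card_neighborFinset_eq_degree] at h
  obtain ⟨z, hz, hzy⟩ := exists_mem_ne (by omega : 1 < (G.neighborFinset x.1).card) y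
  exact ⟨z, (G.mem_neighborFinset _ _).mp hz, hzy⟩

lemma filter_noncore {u p : V} (hu : ¬2 ≤ G.degree u) (hp : G.Adj u p) :
    (G.edgeFinset.filter fun e => u ∈ e) = {s(u, p)} := by
  ext e
  simp only [mem_filter, mem_singleton, SimpleGraph.mem_edgeFinset]
  constructor
  · rintro ⟨he, hue⟩
    obtain ⟨z, rfl⟩ := Sym2.mem_iff_exists.mp hue
    have h1 : (G.neighborFinset u).card ≤ 1 := by
      rw [G.card_neighborFinset_eq_degree]; omega
    rw [card_le_one.mp h1 z ((G.mem_neighborFinset _ _).mpr he) p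
      ((G.mem_neighborFinset _ _).mpr hp)]
  · rintro rfl
    exact ⟨hp, Sym2.mem_mk_left _ _⟩

/-- gluing the three labellings -/
lemma glue (p : V → Core G) (T : RT (Core G)) (hp : ∀ v, v ≠ T.r.1 → G.Adj v (p v).1)
    (hN : 2 ≤ Fintype.card (Core G)) (hT : ∀ v, v ≠ T.r → G.Adj v.1 (T.π v).1)
    (g : Core G → Sym2 V) (hg : ∀ x ∈ T.lv, g x ∈ G.edgeFinset) (hgi : Set.InjOn g T.lv)
    (hgt : ∀ x ∈ T.lv, ∀ v ∈ T.W, g x ≠ s(v.1, (T.π v).1)) (H : Finset (Sym2 V))
    (hH : H = G.edgeFinset \ (T.lv.image g ∪ T.W.image fun v => s(v.1, (T.π v).1)))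
    (α1 : Sym2 V → ℤ) (h1 : Set.BijOn α1 H (Set.Ioc 0 (H.card : ℤ)))
    (hc : Concl T (fun x => ends G (g x)) (fun w => ∑ e ∈ H with w ∈ ends G e, α1 e) H.card
      (H.card + T.lv.card)) : AM G := by
  classical
  obtain ⟨α, lam, hα, hlam, hinj⟩ := hc
  set t : Core G → Sym2 V := fun v => s(v.1, (T.π v).1) with ht
  have hti : Set.InjOn t T.W := by
    intro v hv w hw e
    rcases Sym2.eq_iff.mp e with e | e
    · exact Subtype.ext e.1
    · have e1 : v = T.π w := Subtype.ext e.1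
      have e2 : T.π v = w := Subtype.ext e.2
      have a1 := T.hd v (mem_erase.mp hv).1
      have a2 := T.hd w (mem_erase.mp hw).1
      rw [e2] at a1
      rw [← e1] at a2
      omega
  have htE : ∀ v ∈ T.W, t v ∈ G.edgeFinset := fun v hv =>
    SimpleGraph.mem_edgeFinset.mpr (hT v (mem_erase.mp hv).1)
  have : Nonempty (Core G) := ⟨T.r⟩
  set f : Sym2 V → ℤ := fun e => if e ∈ T.W.image t then lam (Function.invFunOn t T.W e)
    else if e ∈ T.lv.image g then α (Function.invFunOn g T.lv e) else α1 e with hf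
  have f1 : ∀ v ∈ T.W, f (t v) = lam v := fun v hv => by
    simp only [hf]
    rw [if_pos (mem_image_of_mem _ hv), hti.leftInvOn_invFunOn hv]
  have f2 : ∀ x ∈ T.lv, f (g x) = α x := fun x hx => by
    have : g x ∉ T.W.image t := fun h => by
      obtain ⟨v, hv, e⟩ := mem_image.mp h
      exact hgt x hx v hv e.symm
    simp only [hf]
    rw [if_neg this, if_pos (mem_image_of_mem _ hx), hgi.leftInvOn_invFunOn hx]
  have f3 : ∀ e ∈ H, f e = α1 e := fun e he => by
    rw [hH, mem_sdiff, mem_union, not_or] at he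
    simp only [hf]
    rw [if_neg he.2.2, if_neg he.2.1]
  have hsub : T.lv.image g ∪ T.W.image t ⊆ G.edgeFinset :=
    union_subset (image_subset_iff.mpr hg) (image_subset_iff.mpr htE)
  have hE : G.edgeFinset = (H ∪ T.lv.image g) ∪ T.W.image t := by
    rw [union_assoc, hH, sdiff_union_of_subset hsub]
  have b1 : Set.BijOn f H (Set.Ioc 0 (H.card : ℤ)) := h1.congr fun e he => (f3 e he).symm
  have b2 := bij_union (Int.natCast_nonneg _) (le_add_of_nonneg_right (Int.natCast_nonneg _)) b1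
    (bij_image hα f2)
  have b3 := bij_union (add_nonneg (Int.natCast_nonneg _) (Int.natCast_nonneg _))
    (le_add_of_nonneg_right (Int.natCast_nonneg _)) b2 (bij_image hlam f1)
  rw [← coe_union, ← coe_union, ← hE] at b3
  rw [← coe_union] at b2
  have hcard : (G.edgeFinset.card : ℤ) = H.card + T.lv.card + T.W.card := by
    have := Set.BijOn.finsetCard_eq (s := G.edgeFinset)
      (t := Ioc (0 : ℤ) (H.card + T.lv.card + T.W.card)) f (by rw [coe_Ioc]; exact b3)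
    rw [Int.card_Ioc] at this
    omega
  have hpos : ∀ e ∈ G.edgeFinset, 0 ≤ f e := fun e he => (b3.mapsTo he).1.le
  have hsum : ∀ w : Core G, ∑ e ∈ G.edgeFinset with w.1 ∈ e, f e =
      T.sm (T.om (fun x => ends G (g x)) (fun w => ∑ e ∈ H with w ∈ ends G e, α1 e) α) lam w := by
    intro w
    have d1 : Disjoint H (T.lv.image g) := by
      rw [hH]; exact disjoint_of_subset_right subset_union_left sdiff_disjoint
    have d2 : Disjoint (H ∪ T.lv.image g) (T.W.image t) := by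
      refine disjoint_union_left.mpr ⟨?_, disjoint_left.mpr fun e h h' => ?_⟩
      · rw [hH]; exact disjoint_of_subset_right subset_union_right sdiff_disjoint
      · obtain ⟨x, hx, rfl⟩ := mem_image.mp h
        obtain ⟨v, hv, e⟩ := mem_image.mp h'
        exact hgt x hx v hv e.symm
    rw [sum_filter, hE, sum_union d2, sum_union d1, sum_image hgi, sum_image hti]
    simp only [RT.sm, RT.om, RT.inc, ends, mem_filter, mem_univ, true_and, sum_filter]
    congr 1
    · congr 1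
      · exact sum_congr rfl fun e he => by rw [f3 e he]
      · exact sum_congr rfl fun x hx => by rw [f2 x hx]
    · refine sum_congr rfl fun v hv => ?_
      rw [f1 v hv]
      have : w.1 ∈ t v ↔ w = v ∨ w = T.π v := by
        simp only [ht, Sym2.mem_iff, Subtype.ext_iff]
      simp only [this]
      split_ifs <;> simp
  have hbig : ∀ w : Core G, (H.card + T.lv.card : ℤ) < ∑ e ∈ G.edgeFinset with w.1 ∈ e, f e := by
    intro w
    obtain ⟨v, hv, hw⟩ := exists_inc T hN w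
    have hm : t v ∈ G.edgeFinset.filter fun e => w.1 ∈ e := by
      refine mem_filter.mpr ⟨htE v hv, ?_⟩
      rcases hw with rfl | rfl
      · exact Sym2.mem_mk_left _ _
      · exact Sym2.mem_mk_right _ _
    refine lt_of_lt_of_le ?_ (single_le_sum (fun e he => hpos e (mem_filter.mp he).1) hm)
    rw [f1 v hv]
    exact (hlam.mapsTo hv).1
  have hnc : ∀ u, ¬2 ≤ G.degree u → G.Adj u (p u).1 := fun u hu =>
    hp u fun e => hu (e ▸ T.r.2)
  have hsm : ∀ u, ¬2 ≤ G.degree u → ∑ e ∈ G.edgeFinset with u ∈ e, f e = f s(u, (p u).1) :=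
    fun u hu => by rw [filter_noncore hu (hnc u hu), sum_singleton]
  have hmem : ∀ u, ¬2 ≤ G.degree u → s(u, (p u).1) ∈ H ∪ T.lv.image g := fun u hu => by
    have h2 : s(u, (p u).1) ∈ G.edgeFinset := SimpleGraph.mem_edgeFinset.mpr (hnc u hu)
    rw [hE] at h2
    refine (mem_union.mp h2).resolve_right fun h => ?_
    obtain ⟨v, -, e⟩ := mem_image.mp h
    have h3 : u ∈ t v := e ▸ Sym2.mem_mk_left _ _
    rcases Sym2.mem_iff.mp h3 with h4 | h4
    · exact hu (h4 ▸ v.2)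
    · exact hu (h4 ▸ (T.π v).2)
  refine ⟨f, ?_, fun u u' e => ?_⟩
  · rw [hcard, ← SimpleGraph.coe_edgeFinset]; exact b3
  simp only at e
  by_cases hu : 2 ≤ G.degree u <;> by_cases hu' : 2 ≤ G.degree u'
  · have := (hsum ⟨u, hu⟩).symm.trans (e.trans (hsum ⟨u', hu'⟩))
    exact congrArg Subtype.val (hinj this)
  · have a1 := hbig ⟨u, hu⟩
    have a2 := (b2.mapsTo (hmem u' hu')).2
    rw [← hsm u' hu', ← e] at a2
    exact absurd a1 (not_lt.mpr a2)
  · have a1 := hbig ⟨u', hu'⟩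
    have a2 := (b2.mapsTo (hmem u hu)).2
    rw [← hsm u hu, e] at a2
    exact absurd a1 (not_lt.mpr a2)
  · rw [hsm u hu, hsm u' hu'] at e
    rcases Sym2.eq_iff.mp (b2.injOn (hmem u hu) (hmem u' hu') e) with h | h
    · exact h.1
    · exact absurd (h.1 ▸ (p u').2) hu

end graph

end Big

open Big in
theorem big_core (hc : CoreStmt) : ∃ N0 : ℕ, ∀ (V : Type) [Fintype V] [DecidableEq V]
    (G : SimpleGraph V) [DecidableRel G.Adj], G.Connected →
    N0 ≤ (univ.filter fun v => 2 ≤ G.degree v).card → AM G := by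
  obtain ⟨γ, hγ, N1, hcore⟩ := hc
  obtain ⟨K, hK⟩ := exists_nat_gt (4 / γ)
  have hK0 : (0 : ℝ) < K := lt_trans (by positivity) hK
  have hK1 : 0 < K := by exact_mod_cast hK0
  obtain ⟨N2, hN2⟩ := exists_nat_gt ((4 + 4 * K) / γ)
  refine ⟨max (max N1 N2) 2, fun V _ _ G _ hG hN => ?_⟩
  rw [← Fintype.card_subtype] at hN
  have n1 : N1 ≤ Fintype.card (Core G) := ((le_max_left _ _).trans (le_max_left _ _)).trans hN
  have n2 : N2 ≤ Fintype.card (Core G) := ((le_max_right _ _).trans (le_max_left _ _)).trans hN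
  have n3 : 2 ≤ Fintype.card (Core G) := (le_max_right _ _).trans hN
  obtain ⟨r⟩ : Nonempty (Core G) := Fintype.card_pos_iff.mp (by omega)
  obtain ⟨p, d, hp⟩ := exists_core_parent hG r
  obtain ⟨T, hr, hT, hlv⟩ := exists_tree (fun u v : Core G => G.Adj u.1 v.1) (fun _ _ h => h.symm)
    r (fun v => p v.1) (fun v => d v.1) fun v hv => hp v.1 fun e => hv (Subtype.ext e)
  subst hr
  choose z hz using fun x : Core G => exists_other x (T.π x).1
  set g : Core G → Sym2 V := fun x => s(x.1, z x) with hg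
  set H := G.edgeFinset \ (T.lv.image g ∪ T.W.image fun v => s(v.1, (T.π v).1)) with hH
  set N := Fintype.card (Core G) with hNd
  obtain ⟨α1, X, h1, -, h2, -, h3, -⟩ := early (J := Unit) H ∅ (empty_subset _) (ends G)
    (fun e _ => card_ends G e) (fun _ => 0) (fun _ => 0) 0 (fun _ => ()) (fun _ => ())
    (2 * N / K + 2) K 0 (Nat.le_add_left _ _) (by
      have := Nat.lt_div_mul_add (a := 2 * N) hK1
      rw [show 2 * N / K + 2 - 1 = 2 * N / K + 1 from rfl, add_mul, one_mul]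
      exact this.le)
    (fun z hz => by simp [hz.symm]) (fun j => by simp) (by simp)
  simp only [zero_add] at h1 h3
  have h2' : X.card ≤ K := by simpa using h2
  refine glue p T (fun v hv => (hp v hv).1) n3 hT g
    (fun x _ => SimpleGraph.mem_edgeFinset.mpr (hz x).1) ?_ ?_ H hH α1 h1
    (hcore _ T _ _ _ _ n1 ⟨?_, ?_, ?_, ?_, ?_, ?_⟩)
  · intro x hx y hy e
    rcases Sym2.eq_iff.mp e with e | e
    · exact Subtype.ext e.1
    · exact hlv x hx y hy (e.2 ▸ (hz x).1)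
  · intro x hx v hv e
    rcases Sym2.eq_iff.mp e with e | e
    · have e1 : x = v := Subtype.ext e.1
      subst e1
      exact (hz x).2 e.2
    · exact (mem_filter.mp hx).2 v hv (Subtype.ext e.1.symm)
  · exact fun x _ => mem_filter.mpr ⟨mem_univ _, Sym2.mem_mk_left _ _⟩
  · exact fun x _ => card_ends G _
  · intro x hx v hv hvl
    rcases Sym2.mem_iff.mp (mem_filter.mp hv).2 with e | e
    · exact Subtype.ext e
    · exact (hlv x hx v hvl (e ▸ (hz x).1)).symm
  · exact fun v => sum_nonneg fun e he => (h1.mapsTo (mem_filter.mp he).1).1.le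
  · positivity
  · intro y hy
    have a1 : (((univ.filter fun v : Core G => ∑ e ∈ H with v ∈ ends G e, α1 e = y).card : ℕ) : ℝ)
        ≤ ((2 * N / K + 2 + 2 * K : ℕ) : ℝ) := by
      exact_mod_cast (h3 y hy).trans (by omega)
    refine a1.trans ?_
    have a2 : ((2 * N / K : ℕ) : ℝ) ≤ 2 * N / K := by
      simpa using Nat.cast_div_le (α := ℝ) (m := 2 * N) (n := K)
    have a3 : (2 * N / K : ℝ) ≤ γ * N / 2 := by
      rw [div_lt_iff₀ hγ] at hK
      rw [div_le_div_iff₀ hK0 (by norm_num)]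
      have : (0 : ℝ) ≤ N := by positivity
      nlinarith
    have a4 : (4 + 4 * K : ℝ) ≤ γ * N := by
      rw [div_lt_iff₀ hγ] at hN2
      have : (N2 : ℝ) ≤ N := by exact_mod_cast n2
      nlinarith
    push_cast
    linarith

end Pool.Agent.Lib.MP_0830d8_co.Ex
end

-- part Pool.Agent.Lib.MP_0830d8_co.Ex.Regime2
section

/-! Pairings of the tree edges, and the second regime from its ingredients. -/

namespace Pool.Agent.Lib.MP_0830d8_co.Ex

open Finset

set_option linter.unusedVariables false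

variable {V : Type} [Fintype V] [DecidableEq V]

lemma pairingR2 (R : V → V → Prop) (hs : ∀ u v, R u v → R v u) (t0 : V → V)
    (h0 : ∀ v, t0 (t0 v) = v) :
    ∃ t : V → V, (∀ v, t (t v) = v) ∧ (∀ v, t0 v ≠ v → t v = t0 v) ∧
      (∀ v, t0 v = v → t v ≠ v → R v (t v)) ∧ ∀ u v, t u = u → t v = v → u ≠ v → ¬R u v := by
  induction hn : (univ.filter fun v => t0 v = v).card using Nat.strong_induction_on
    generalizing t0 with
  | _ n ih =>
    by_cases h : ∃ u v, t0 u = u ∧ t0 v = v ∧ u ≠ v ∧ R u v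
    · obtain ⟨u, v, hu, hv, huv, hR⟩ := h
      let t1 : V → V := fun w => if w = u then v else if w = v then u else t0 w
      have e1 : t1 u = v := if_pos rfl
      have e2 : t1 v = u := by simp [t1, huv.symm]
      have e3 : ∀ w, w ≠ u → w ≠ v → t1 w = t0 w := fun w h1 h2 => by simp [t1, h1, h2]
      have h1 : ∀ w, t1 (t1 w) = w := fun w => by
        by_cases h1 : w = u
        · rw [h1, e1, e2]
        by_cases h2 : w = v
        · rw [h2, e2, e1]
        rw [e3 w h1 h2, e3 _ (fun h => h1 (by rw [← h0 w, h, hu]))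
          (fun h => h2 (by rw [← h0 w, h, hv])), h0]
      obtain ⟨t, a1, a2, a3, a4⟩ := ih _ (hn ▸ card_lt_card (s := univ.filter fun v => t1 v = v) ⟨by
        intro w hw
        simp only [mem_filter, mem_univ, true_and] at hw ⊢
        by_cases h1 : w = u
        · rw [h1, hu]
        by_cases h2 : w = v
        · rw [h2, hv]
        rw [← e3 w h1 h2, hw], fun h => by
          have := h (mem_filter.2 ⟨mem_univ u, hu⟩)
          simp only [mem_filter, mem_univ, true_and, e1] at this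
          exact huv this.symm⟩) t1 h1 rfl
      refine ⟨t, a1, fun w hw => ?_, fun w hw hw' => ?_, a4⟩
      · have h2 := e3 w (fun h => hw (h ▸ hu)) (fun h => hw (h ▸ hv))
        rw [a2 w (h2 ▸ hw), h2]
      · by_cases h1 : w = u
        · rw [h1, a2 u (e1 ▸ huv.symm), e1]; exact hR
        by_cases h2 : w = v
        · rw [h2, a2 v (e2 ▸ huv), e2]; exact hs _ _ hR
        exact a3 w (by rw [e3 w h1 h2, hw]) hw'
    · exact ⟨t0, h0, fun _ _ => rfl, fun v h1 h2 => absurd h1 h2,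
        fun u v h1 h2 h3 h4 => h ⟨u, v, h1, h2, h3, h4⟩⟩

lemma RT.lvSubR2 (T : RT V) : T.lv ⊆ T.W := filter_subset _ _

lemma RT.piNotLvR2 (T : RT V) {x : V} (hx : x ∈ T.W) : T.π x ∉ T.lv :=
  fun h => (mem_filter.1 h).2 x hx rfl

lemma RT.rNotWR2 (T : RT V) : T.r ∉ T.W := notMem_erase _ _

lemma pair3R2 (T : RT V) (R : V → V → Prop) (hs : ∀ u v, R u v → R v u)
    (hW : ∀ u v, R u v → u ∈ T.W) :
    ∃ (τ : V → V) (P M F : Finset V), Tau T τ ∧
      (∀ x ∈ P, x ∈ T.lv ∧ τ x ∈ T.lv ∧ τ x ≠ x ∧ T.π (τ x) = T.π x ∧ τ x ∉ P) ∧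
      (∀ x ∈ M, τ x ≠ x ∧ R x (τ x)) ∧ (∀ u ∉ M, ∀ v ∉ M, u ≠ v → ¬R u v) ∧ F ⊆ T.lv ∧
      Set.InjOn T.π F ∧ ∀ x ∈ T.lv, x ∈ P ∨ τ x ∈ P ∨ x ∈ M ∨ x ∈ F := by
  obtain ⟨t1, a1, -, a3, a4⟩ := pairingR2 R hs id fun _ => rfl
  obtain ⟨t2, b1, b2, b3, b4⟩ := pairingR2 (fun u v => u ∈ T.lv ∧ v ∈ T.lv ∧ T.π u = T.π v)
    (fun u v h => ⟨h.2.1, h.1, h.2.2.symm⟩) t1 a1
  obtain ⟨t3, c1, c2, c3, c4⟩ := pairingR2 (fun u v => u ∈ T.W ∧ v ∈ T.W)
    (fun u v h => ⟨h.2, h.1⟩) t2 b1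
  let e := Fintype.equivFin V
  refine ⟨t3, T.lv.filter fun x => t3 x ∈ T.lv ∧ T.π (t3 x) = T.π x ∧ e x < e (t3 x),
    univ.filter fun x => t1 x ≠ x, T.lv.filter fun x => t2 x = x, ⟨c1, ?_, fun u hu v hv h1 h2 => ?_⟩,
    fun x hx => ?_, fun x hx => ?_, fun u hu v hv => a4 u v (by simpa using hu) (by simpa using hv),
    filter_subset _ _, fun u hu v hv h => ?_, fun x hx => ?_⟩
  · have h1 : t1 T.r = T.r := by
      by_contra h
      exact T.rNotWR2 (hW _ _ (a3 _ rfl h))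
    have h2 : t2 T.r = T.r := by
      by_contra h
      exact T.rNotWR2 (T.lvSubR2 (b3 _ h1 h).1)
    by_contra h
    exact T.rNotWR2 (c3 _ h2 h).1
  · by_contra h
    exact c4 u v h1 h2 h ⟨hu, hv⟩
  · simp only [mem_filter] at hx ⊢
    refine ⟨hx.1, hx.2.1, fun h => ?_, hx.2.2.1, fun h => ?_⟩
    · rw [h] at hx
      exact lt_irrefl _ hx.2.2.2
    · rw [c1] at h
      exact lt_asymm hx.2.2.2 h.2.2.2
  · have h1 : t1 x ≠ x := by simpa using hx
    have h2 := b2 x h1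
    have h3 := c2 x (h2 ▸ h1)
    rw [h3, h2]
    exact ⟨h1, a3 x rfl h1⟩
  · simp only [coe_filter, Set.mem_ofPred_eq] at hu hv
    by_contra h1
    exact b4 u v hu.2 hv.2 h1 ⟨hu.1, hv.1, h⟩
  · simp only [mem_filter, mem_univ, true_and, c1]
    by_cases h1 : t1 x = x
    · by_cases h2 : t2 x = x
      · exact Or.inr (Or.inr (Or.inr ⟨hx, h2⟩))
      · have h3 := b3 x h1 h2
        rw [c2 x h2]
        rcases lt_trichotomy (e x) (e (t2 x)) with h | h | h
        · exact Or.inl ⟨hx, h3.2.1, h3.2.2.symm, h⟩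
        · exact absurd (e.injective h).symm h2
        · exact Or.inr (Or.inl ⟨h3.2.1, hx, h3.2.2, h⟩)
    · exact Or.inr (Or.inr (Or.inl h1))

lemma setupR2 (T : RT V) (hK : 100 * (T.lvᶜ.card + 1) ≤ Fintype.card V) (m : ℕ)
    (hm : 40 * m ≤ Fintype.card V) :
    ∃ (τ : V → V) (P Φ Z : Finset V), Tau T τ ∧
      (∀ x ∈ P, x ∈ T.lv ∧ τ x ∈ T.lv ∧ τ x ≠ x ∧ T.π (τ x) = T.π x ∧ τ x ∉ P) ∧
      Φ ⊆ P ∧ Φ.card = m ∧ Z.card ≤ 4 * T.lvᶜ.card + 2 ∧ (∀ x, x ∈ P ∨ τ x ∈ P ∨ x ∈ Z) ∧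
      ((∃ h, ∀ x ∈ Φ, T.π x = h) ∨
        ((∀ c ∈ T.W, c ∉ T.lv → τ c ≠ c ∧ T.π (τ c) ≠ c ∧ T.π (τ c) ≠ T.π c) ∧
        ∃ c0 ∈ T.W, ∃ c2 ∈ T.W, T.π c0 = T.r ∧ T.π c2 = c0 ∧ τ c2 ≠ c2 ∧ τ c2 ≠ c0 ∧
          T.π (τ c2) ≠ c0 ∧ T.π (τ c2) ≠ c2)) := by
  have hF : ∀ F ⊆ T.lv, Set.InjOn T.π F → F.card ≤ T.lvᶜ.card := fun F h1 h2 =>
    card_le_card_of_injOn T.π (fun x hx => mem_coe.2 (mem_compl.2 (T.piNotLvR2 (T.lvSubR2 (h1 hx))))) h2
  have hN := T.lv.card_add_card_compl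
  by_cases hc : ∃ h, Fintype.card V ≤ 10 * (T.lv.filter fun x => T.π x = h).card
  · obtain ⟨h, hh⟩ := hc
    obtain ⟨τ, P, M, F, h1, h2, h3, -, h5, h6, h7⟩ := pair3R2 T (fun _ _ => False)
      (fun _ _ => id) fun _ _ => False.elim
    have h8 : (T.lv.filter fun x => T.π x = h) ⊆ (P.filter fun x => T.π x = h) ∪
        (P.filter fun x => T.π x = h).image τ ∪ F.filter fun x => T.π x = h := by
      intro x hx
      simp only [mem_filter, mem_union, mem_image] at hx ⊢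
      rcases h7 x hx.1 with h | h | h | h
      · exact Or.inl (Or.inl ⟨h, hx.2⟩)
      · refine Or.inl (Or.inr ⟨τ x, ⟨h, ?_⟩, h1.inv x⟩)
        rw [← (h2 _ h).2.2.2.1, h1.inv, hx.2]
      · exact (h3 x h).2.elim
      · exact Or.inr ⟨h, hx.2⟩
    have h9 : (F.filter fun x => T.π x = h).card ≤ 1 := card_le_one.2 fun a ha b hb => by
      simp only [mem_filter] at ha hb
      exact h6 ha.1 hb.1 (ha.2.trans hb.2.symm)
    have h10 := (card_le_card h8).trans ((card_union_le _ _).trans (add_le_add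
      ((card_union_le _ _).trans (add_le_add le_rfl card_image_le)) h9))
    obtain ⟨Φ, hΦ, hΦc⟩ := exists_subset_card_eq (s := P.filter fun x => T.π x = h) (n := m)
      (by omega)
    refine ⟨τ, P, Φ, T.lvᶜ ∪ F, h1, h2, hΦ.trans (filter_subset _ _), hΦc, ?_, fun x => ?_,
      Or.inl ⟨h, fun x hx => (mem_filter.1 (hΦ hx)).2⟩⟩
    · have := card_union_le T.lvᶜ F
      have := hF F h5 h6
      omega
    · by_cases hx : x ∈ T.lv
      · rcases h7 x hx with h | h | h | h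
        · exact Or.inl h
        · exact Or.inr (Or.inl h)
        · exact (h3 x h).2.elim
        · exact Or.inr (Or.inr (mem_union_right _ h))
      · exact Or.inr (Or.inr (mem_union_left _ (mem_compl.2 hx)))
  · push Not at hc
    have hne : (T.W \ T.lv).Nonempty := by
      by_contra h
      rw [not_nonempty_iff_eq_empty, sdiff_eq_empty_iff_subset] at h
      have h1 := hc T.r
      rw [filter_true_of_mem fun x hx => ?_] at h1
      · omega
      · by_contra h2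
        exact T.piNotLvR2 (T.lvSubR2 hx) (h (mem_erase.2 ⟨h2, mem_univ _⟩))
    obtain ⟨c0, hc0, hmin⟩ := exists_min_image _ T.d hne
    rw [mem_sdiff] at hc0
    have hc0r : T.π c0 = T.r := by
      by_contra h
      have h1 := hmin (T.π c0) (mem_sdiff.2 ⟨mem_erase.2 ⟨h, mem_univ _⟩, T.piNotLvR2 hc0.1⟩)
      have h2 := T.hd c0 (mem_erase.1 hc0.1).1
      omega
    obtain ⟨c2, hc2, hc2p⟩ : ∃ c2 ∈ T.W, T.π c2 = c0 := by
      by_contra! h
      exact hc0.2 (mem_filter.2 ⟨hc0.1, h⟩)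
    let C := insert c2 (T.W \ T.lv)
    have hCW : C ⊆ T.W := insert_subset hc2 sdiff_subset
    have hCc : C.card ≤ T.lvᶜ.card + 1 := (card_insert_le _ _).trans (Nat.succ_le_succ
      (card_le_card fun x hx => mem_compl.2 (mem_sdiff.1 hx).2))
    let R : V → V → Prop := fun c x => c ∈ C ∧ x ∈ T.lv ∧ x ∉ C ∧ T.π x ≠ c ∧ T.π x ≠ T.π c
    obtain ⟨τ, P, M, F, h1, h2, h3, h4, h5, h6, h7⟩ := pair3R2 T (fun u v => R u v ∨ R v u)
      (fun _ _ => Or.symm) fun u v h => h.elim (fun h => hCW h.1) fun h => T.lvSubR2 h.2.1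
    have hM : M.card ≤ 2 * (T.lvᶜ.card + 1) := by
      have h8 : M ⊆ C ∪ C.image τ := fun x hx => by
        rcases (h3 x hx).2 with h | h
        · exact mem_union_left _ h.1
        · exact mem_union_right _ (mem_image.2 ⟨τ x, h.1, h1.inv x⟩)
      have := (card_le_card h8).trans ((card_union_le _ _).trans (add_le_add le_rfl card_image_le))
      omega
    have hCM : ∀ c ∈ C, τ c ≠ c ∧ R c (τ c) := fun c hc' => by
      have h8 : c ∈ M := by
        by_contra h8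
        have h9 : T.lv ⊆ C ∪ M ∪ (T.lv.filter fun x => T.π x = c) ∪
            T.lv.filter fun x => T.π x = T.π c := fun x hx => by
          simp only [mem_union, mem_filter]
          by_contra! h
          exact h4 c h8 x h.1.1.2 (fun e => h.1.1.1 (e ▸ hc'))
            (Or.inl ⟨hc', hx, h.1.1.1, h.1.2 hx, h.2 hx⟩)
        have := (card_le_card h9).trans ((card_union_le _ _).trans (add_le_add
          ((card_union_le _ _).trans (add_le_add (card_union_le _ _) le_rfl)) le_rfl))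
        have := hc c
        have := hc (T.π c)
        omega
      exact ⟨(h3 c h8).1, (h3 c h8).2.resolve_right fun h => h.2.2.1 hc'⟩
    have hZ : (T.lvᶜ ∪ M ∪ F).card ≤ 4 * T.lvᶜ.card + 2 := by
      have := (card_union_le (T.lvᶜ ∪ M) F).trans (add_le_add (card_union_le _ _) (hF F h5 h6))
      omega
    have hcov : ∀ x, x ∈ P ∨ τ x ∈ P ∨ x ∈ T.lvᶜ ∪ M ∪ F := fun x => by
      simp only [mem_union, mem_compl]
      by_cases hx : x ∈ T.lv
      · have := h7 x hx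
        tauto
      · tauto
    have h8 : (univ : Finset V) ⊆ P ∪ P.image τ ∪ (T.lvᶜ ∪ M ∪ F) := fun x _ => by
      rcases hcov x with h | h | h
      · exact mem_union_left _ (mem_union_left _ h)
      · exact mem_union_left _ (mem_union_right _ (mem_image.2 ⟨τ x, h, h1.inv x⟩))
      · exact mem_union_right _ h
    have h9 := (card_le_card h8).trans ((card_union_le _ _).trans (add_le_add
      ((card_union_le _ _).trans (add_le_add le_rfl card_image_le)) hZ))
    rw [card_univ] at h9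
    obtain ⟨Φ, hΦ, hΦc⟩ := exists_subset_card_eq (s := P) (n := m) (by omega)
    refine ⟨τ, P, Φ, _, h1, h2, hΦ, hΦc, hZ, hcov, Or.inr ⟨fun c hc1 hc2 => ?_,
      c0, hc0.1, c2, hc2, hc0r, hc2p, ?_⟩⟩
    · have := hCM c (mem_insert_of_mem (mem_sdiff.2 ⟨hc1, hc2⟩))
      exact ⟨this.1, this.2.2.2.2⟩
    · obtain ⟨a, -, b, -, c, d⟩ := hCM c2 (mem_insert_self _ _)
      exact ⟨a, fun h => hc0.2 (h ▸ b), hc2p ▸ d, c⟩

/-- statement of `exists_sys` -/
def St_exists_sys : Prop :=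
  ∀ {r : ℝ} (hr : 0 < r), ∃ S : Sys, (1 - r) * S.Q ≤ S.SN.card

/-- statement of `init2` -/
def St_init2 : Prop :=
  ∀ (S : Sys) (hS : (3 / 4 : ℝ) * S.Q ≤ S.SN.card) {ε : ℝ} (hε : 0 < ε),
    ∃ γ : ℝ, 0 < γ ∧ ∃ N0 : ℕ, ∀ (V : Type) [Fintype V] [DecidableEq V] (T : RT V)
      (ep : V → Finset V) (ω0 : V → ℤ) (a0 l0 : ℤ) (τ : V → V) (P Φ : Finset V),
      N0 ≤ Fintype.card V → Hyp T ep ω0 a0 γ → Tau T τ →
      (∀ x ∈ P, x ∈ T.lv ∧ τ x ∈ T.lv ∧ τ x ≠ x ∧ T.π (τ x) = T.π x ∧ τ x ∉ P) → Φ ⊆ P →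
      8 * S.Q * Φ.card ≤ Fintype.card V → Fintype.card V ≤ 2 * T.lv.card →
      ∃ (α lam : V → ℤ) (Cov : Finset V) (Sg : ℤ),
        Set.BijOn α T.lv (Set.Ioc a0 (a0 + T.lv.card)) ∧
        Set.BijOn lam T.W (Set.Ioc l0 (l0 + T.W.card)) ∧ Cov ⊆ P ∧
        ((P \ Cov).card : ℝ) ≤ ε * Fintype.card V ∧
        (∀ w ∈ T.W, τ w ≠ w → lam w + lam (τ w) = Sg) ∧
        Set.InjOn (T.sm (T.om ep ω0 α) lam) (Cov ∪ Cov.image τ : Finset V) ∧
        (∀ x ∈ Cov ∪ Cov.image τ, ((T.sm (T.om ep ω0 α) lam x : ℤ) : ZMod S.Q) ∈ S.SN) ∧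
        (∀ b σ σ', σ ∈ S.SN → σ' ∈ S.SN →
          (Φ.card : ℝ) / S.Q ^ 3 - ε * Fintype.card V ≤ ((Φ ∩ Cov).filter fun x =>
            ((lam x : ℤ) : ZMod S.Q) = b ∧ ((T.sm (T.om ep ω0 α) lam x : ℤ) : ZMod S.Q) = σ ∧
            ((T.sm (T.om ep ω0 α) lam (τ x) : ℤ) : ZMod S.Q) = σ').card) ∧
        (∀ z, ((Φ ∩ Cov).filter fun x => T.sm (T.om ep ω0 α) lam x - lam x = z).card ≤ 2) ∧
        (∀ z, ((Φ ∩ Cov).filter fun x =>
          T.sm (T.om ep ω0 α) lam (τ x) - lam (τ x) = z).card ≤ 2)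

/-- statement of `fix2a` -/
def St_fix2a : Prop :=
  ∀ {V : Type} [Fintype V] [DecidableEq V] (S : Sys) (T : RT V) (hV : 3 ≤ Fintype.card V) (ω lam : V → ℤ) (B : Set ℤ)
    (hlam : Set.BijOn lam T.W B) (Bad Φ : Finset V) (k : ℕ) (hk : 200 * (Bad.card + 2) ≤ k)
    (hinj : Set.InjOn (T.sm ω lam) (Badᶜ : Finset V))
    (hgood : ∀ v ∉ Bad, ((T.sm ω lam v : ℤ) : ZMod S.Q) ∈ S.SN)
    (h : V) (hΦ : ∀ x ∈ Φ, x ∈ T.lv ∧ T.π x = h)
    (hty : ∀ b σ, σ ∈ S.SN → k ≤ (Φ.filter fun x => ((lam x : ℤ) : ZMod S.Q) = b ∧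
      ((T.sm ω lam x : ℤ) : ZMod S.Q) = σ).card)
    (hm1 : ∀ z, (Φ.filter fun x => T.sm ω lam x - lam x = z).card ≤ 2),
    ∃ lam' : V → ℤ, Set.BijOn lam' T.W B ∧ Function.Injective (T.sm ω lam')

/-- statement of `fix2b` -/
def St_fix2b : Prop :=
  ∀ {V : Type} [Fintype V] [DecidableEq V] (S : Sys) (T : RT V) (ω lam : V → ℤ) (B : Set ℤ)
    (hlam : Set.BijOn lam T.W B) (Bad Φ : Finset V) (k : ℕ) (hk : 200 * (Bad.card + 2) ≤ k)
    (hinj : Set.InjOn (T.sm ω lam) (Badᶜ : Finset V))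
    (hgood : ∀ v ∉ Bad, ((T.sm ω lam v : ℤ) : ZMod S.Q) ∈ S.SN)
    (τ : V → V) (hτ : Tau T τ) (Sg : ℤ) (hSg : ∀ w ∈ T.W, τ w ≠ w → lam w + lam (τ w) = Sg)
    (hT1 : ∀ c ∈ T.W, c ∉ T.lv → τ c ≠ c ∧ T.π (τ c) ≠ c ∧ T.π (τ c) ≠ T.π c)
    (hT4 : ∃ c0 ∈ T.W, ∃ c2 ∈ T.W, T.π c0 = T.r ∧ T.π c2 = c0 ∧ τ c2 ≠ c2 ∧ τ c2 ≠ c0 ∧
      T.π (τ c2) ≠ c0 ∧ T.π (τ c2) ≠ c2)
    (hΦ : ∀ x ∈ Φ, x ∈ T.lv ∧ τ x ∈ T.lv ∧ τ x ≠ x ∧ T.π (τ x) = T.π x ∧ τ x ∉ Φ)
    (hty : ∀ b σ σ', σ ∈ S.SN → σ' ∈ S.SN → k ≤ (Φ.filter fun x => ((lam x : ℤ) : ZMod S.Q) = b ∧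
      ((T.sm ω lam x : ℤ) : ZMod S.Q) = σ ∧ ((T.sm ω lam (τ x) : ℤ) : ZMod S.Q) = σ').card)
    (hm1 : ∀ z, (Φ.filter fun x => T.sm ω lam x - lam x = z).card ≤ 2)
    (hm2 : ∀ z, (Φ.filter fun x => T.sm ω lam (τ x) - lam (τ x) = z).card ≤ 2),
    ∃ lam' : V → ℤ, Set.BijOn lam' T.W B ∧ Function.Injective (T.sm ω lam')

theorem regime2_of (hsys : St_exists_sys) (hinit : St_init2) (hfa : St_fix2a) (hfb : St_fix2b) :
    ∃ δ : ℝ, 0 < δ ∧ ∃ γ : ℝ, 0 < γ ∧ ∃ N0 : ℕ,
    ∀ (V : Type) [Fintype V] [DecidableEq V] (T : RT V) (ep : V → Finset V) (ω0 : V → ℤ)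
      (a0 l0 : ℤ), N0 ≤ Fintype.card V → Hyp T ep ω0 a0 γ →
      (Fintype.card V : ℝ) - T.lv.card ≤ δ * Fintype.card V → Concl T ep ω0 a0 l0 := by
  obtain ⟨S, hS⟩ := hsys (r := 1 / 4) (by norm_num)
  have hQ : (1 : ℝ) ≤ S.Q := Nat.one_le_cast.2 S.hQ
  have hq : (1 : ℝ) ≤ (S.Q : ℝ) ^ 4 := one_le_pow₀ hQ
  obtain ⟨θ, hθ, hθ1⟩ : ∃ θ : ℝ, 0 < θ ∧ θ * (S.Q : ℝ) ^ 4 = 1 :=
    ⟨_, by positivity, inv_mul_cancel₀ (by positivity)⟩
  have hθ2 : θ ≤ 1 := by nlinarith
  obtain ⟨γ, hγ, N0, h⟩ := hinit S (by linarith) (ε := θ / 200000) (by positivity)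
  refine ⟨θ / 200000, by positivity, γ, hγ, max N0 (100000 * S.Q ^ 4),
    fun V _ _ T ep ω0 a0 l0 hN hyp hδ => ?_⟩
  have hN1 : (100000 : ℝ) ≤ θ * Fintype.card V := by
    have h1 : ((100000 * S.Q ^ 4 : ℕ) : ℝ) ≤ Fintype.card V :=
      Nat.cast_le.2 (le_of_max_le_right hN)
    push_cast at h1
    nlinarith
  have hN2 : θ * Fintype.card V ≤ Fintype.card V :=
    mul_le_of_le_one_left (Nat.cast_nonneg _) hθ2
  have hc := T.lv.card_add_card_compl
  have hK : (T.lvᶜ.card : ℝ) ≤ θ / 200000 * Fintype.card V := by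
    have : (T.lv.card : ℝ) + T.lvᶜ.card = Fintype.card V := by exact_mod_cast hc
    linarith
  have hK1 : 100 * (T.lvᶜ.card + 1) ≤ Fintype.card V := by
    have : (100 : ℝ) * (T.lvᶜ.card + 1) ≤ Fintype.card V := by linarith
    exact_mod_cast this
  have hm := Nat.mul_div_le (Fintype.card V) (40 * S.Q)
  have hm1 := Nat.lt_mul_div_succ (Fintype.card V) (show 0 < 40 * S.Q by have := S.hQ; omega)
  generalize Fintype.card V / (40 * S.Q) = m at hm hm1
  obtain ⟨τ, P, Φ, Z, hτ, hP, hΦ, hΦc, hZ, hcov, hcase⟩ := setupR2 T hK1 m (by nlinarith [S.hQ])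
  obtain ⟨α, lam, Cov, Sg, h1, h2, h3, h4, h5, h6, h7, h8, h9, h10⟩ :=
    h V T ep ω0 a0 l0 τ P Φ (le_of_max_le_left hN) hyp hτ hP hΦ (by rw [hΦc]; nlinarith) (by omega)
  obtain ⟨Bad, hBad⟩ : ∃ Bad : Finset V, Badᶜ = Cov ∪ Cov.image τ := ⟨_, compl_compl _⟩
  have hB : Bad ⊆ Z ∪ (P \ Cov) ∪ (P \ Cov).image τ := fun x hx => by
    have hx' : x ∉ Cov ∪ Cov.image τ := hBad ▸ notMem_compl.2 hx
    simp only [mem_union, mem_image, mem_sdiff, not_or, not_exists, not_and] at hx' ⊢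
    rcases hcov x with h | h | h
    · exact Or.inl (Or.inr ⟨h, hx'.1⟩)
    · exact Or.inr ⟨τ x, ⟨h, fun h' => hx'.2 _ h' (hτ.inv x)⟩, hτ.inv x⟩
    · exact Or.inl (Or.inl h)
  have hB1 : (Bad.card : ℝ) ≤ 4 * T.lvᶜ.card + 2 + (P \ Cov).card + (P \ Cov).card := by
    exact_mod_cast (card_le_card hB).trans ((card_union_le _ _).trans
      (add_le_add ((card_union_le _ _).trans (add_le_add hZ le_rfl)) card_image_le))
  have hm2 : θ * Fintype.card V / 40 - 1 ≤ (Φ.card : ℝ) / S.Q ^ 3 := by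
    have h11 : (Fintype.card V : ℝ) ≤ 40 * S.Q * (m + 1) := by exact_mod_cast hm1.le
    have h12 : (1 : ℝ) ≤ (S.Q : ℝ) ^ 3 := one_le_pow₀ hQ
    rw [hΦc, le_div_iff₀ (by positivity)]
    have h13 : θ * Fintype.card V * (S.Q : ℝ) ^ 3 ≤ θ * (40 * S.Q * (m + 1)) * (S.Q : ℝ) ^ 3 := by
      gcongr
    have h14 : θ * (40 * S.Q * (m + 1)) * (S.Q : ℝ) ^ 3 = 40 * (m + 1) := by
      linear_combination 40 * ((m : ℝ) + 1) * hθ1
    linarith
  have hty : ∀ b σ σ', σ ∈ S.SN → σ' ∈ S.SN → 200 * (Bad.card + 2) ≤ ((Φ ∩ Cov).filter fun x =>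
      ((lam x : ℤ) : ZMod S.Q) = b ∧ ((T.sm (T.om ep ω0 α) lam x : ℤ) : ZMod S.Q) = σ ∧
      ((T.sm (T.om ep ω0 α) lam (τ x) : ℤ) : ZMod S.Q) = σ').card := fun b σ σ' hσ hσ' => by
    have := h8 b σ σ' hσ hσ'
    rw [← Nat.cast_le (α := ℝ)]
    push_cast
    linarith
  have hgood : ∀ v ∉ Bad, ((T.sm (T.om ep ω0 α) lam v : ℤ) : ZMod S.Q) ∈ S.SN :=
    fun v hv => h7 v (hBad ▸ mem_compl.2 hv)
  rw [← hBad] at h6
  have hΦP : ∀ x ∈ Φ ∩ Cov, x ∈ P := fun x hx => hΦ (mem_inter.1 hx).1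
  rcases hcase with ⟨w, hw⟩ | ⟨hT1, hT4⟩
  · obtain ⟨lam', h11, h12⟩ := hfa S T (by omega) _ lam _ h2 Bad (Φ ∩ Cov) _ le_rfl h6 hgood w
      (fun x hx => ⟨(hP x (hΦP x hx)).1, hw x (mem_inter.1 hx).1⟩)
      (fun b σ hσ => (hty b σ σ hσ hσ).trans (card_le_card fun x hx => by
        simp only [mem_filter] at hx ⊢
        exact ⟨hx.1, hx.2.1, hx.2.2.1⟩)) h9
    exact ⟨α, lam', h1, h11, h12⟩
  · obtain ⟨lam', h11, h12⟩ := hfb S T _ lam _ h2 Bad (Φ ∩ Cov) _ le_rfl h6 hgood τ hτ Sg h5 hT1 hT4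
      (fun x hx => by
        obtain ⟨a, b, c, d, e⟩ := hP x (hΦP x hx)
        exact ⟨a, b, c, d, fun h => e (hΦP _ h)⟩) hty h9 h10
    exact ⟨α, lam', h1, h11, h12⟩

end Pool.Agent.Lib.MP_0830d8_co.Ex
end

-- part Pool.Agent.Lib.MP_0830d8_co.Ex.Small
section

/-! Large connected graphs with a bounded core are antimagic. -/

namespace Pool.Agent.Lib.MP_0830d8_co.Ex

open Finset

/-- a labelling with the top labels on a prescribed set -/
lemma top_bij {ι : Type} [DecidableEq ι] {E B : Finset ι} (hB : B ⊆ E) (h : 2 * B.card ≤ E.card) :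
    ∃ f : ι → ℤ, Set.BijOn f E (Set.Ioc 0 E.card) ∧ ∀ e ∈ B, (E.card : ℤ) < 2 * f e := by
  have hc := card_le_card hB
  obtain ⟨f, hf⟩ := B.finite_toSet.exists_bijOn_of_encard_eq
    (t := ((Ioc ((E.card : ℤ) - B.card) E.card : Finset ℤ) : Set ℤ)) (by
      rw [Set.encard_coe_eq_coe_finsetCard, Set.encard_coe_eq_coe_finsetCard, Int.card_Ioc]
      simp)
  obtain ⟨g, hg⟩ := (E \ B).finite_toSet.exists_bijOn_of_encard_eq
    (t := ((Ioc (0 : ℤ) ((E.card : ℤ) - B.card) : Finset ℤ) : Set ℤ)) (by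
      rw [Set.encard_coe_eq_coe_finsetCard, Set.encard_coe_eq_coe_finsetCard, Int.card_Ioc,
        card_sdiff_of_subset hB]
      congr 1
      omega)
  rw [coe_Ioc] at hf hg
  obtain ⟨k, h1, h2⟩ : ∃ k : ι → ℤ, Set.BijOn k B (Set.Ioc ((E.card : ℤ) - B.card) E.card) ∧
      Set.BijOn k (E \ B : Finset ι) (Set.Ioc 0 ((E.card : ℤ) - B.card)) :=
    ⟨fun e => if e ∈ B then f e else g e, hf.congr fun e he => (if_pos he).symm,
      hg.congr fun e he => (if_neg (mem_sdiff.1 he).2).symm⟩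
  refine ⟨k, ?_, fun e he => ?_⟩
  · have := h2.union h1 (by
      rintro a (ha | ha) b (hb | hb) e
      · exact h2.injOn ha hb e
      · have a1 := (h2.mapsTo ha).2
        have a2 := (h1.mapsTo hb).1
        omega
      · have a1 := (h2.mapsTo hb).2
        have a2 := (h1.mapsTo ha).1
        omega
      · exact h1.injOn ha hb e)
    rwa [← coe_union, sdiff_union_of_subset hB, Set.Ioc_union_Ioc_eq_Ioc (by omega) (by omega)]
      at this
  · have a2 := (h1.mapsTo he).1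
    omega

lemma sum_swap {ι : Type} [DecidableEq ι] {E : Finset ι} (p : ι → Prop) [DecidablePred p]
    (f : ι → ℤ) {e g : ι} (he : e ∈ E) (hg : g ∈ E) :
    ∑ x ∈ E with p x, f (Equiv.swap e g x) = ∑ x ∈ E with p x, f x +
      ((if p e then 1 else 0) - if p g then 1 else 0) * (f g - f e) := by
  have h : ∀ x, f (Equiv.swap e g x) = f x + ((if x = e then f g - f e else 0) -
      if x = g then f g - f e else 0) := fun x => by
    rw [Equiv.swap_apply_def]
    split_ifs <;> simp_all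
  simp only [h, sum_add_distrib, sum_sub_distrib, sum_ite_eq', mem_filter, he, hg, true_and]
  split_ifs <;> ring

/-- separation of the core sums by swaps -/
lemma swaps {ι V : Type} [DecidableEq ι] [DecidableEq V] {E B F : Finset ι} (hB : B ⊆ E)
    (hF : F ⊆ B) (C : Finset V) (inc : V → ι → Prop) [∀ v, DecidablePred (inc v)] (h : V)
    (hFh : ∀ g ∈ F, ∀ v ∈ C, inc v g ↔ v = h)
    (hsep : ∀ w ∈ C, ∀ w', w' ≠ w → ∃ e ∈ B, inc w e ∧ ¬inc w' e)
    (hK : C.card * C.card < F.card) (T : Set ℤ) (P : ℤ → Prop) (f0 : ι → ℤ)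
    (h0 : Set.BijOn f0 E T ∧ ∀ e ∈ B, P (f0 e)) :
    ∃ f : ι → ℤ, (Set.BijOn f E T ∧ ∀ e ∈ B, P (f e)) ∧
      Set.InjOn (fun v => ∑ e ∈ E with inc v e, f e) C := by
  obtain ⟨f, hf, hmin⟩ := exists_minimalFor_of_wellFoundedLT
    (fun f : ι → ℤ => Set.BijOn f E T ∧ ∀ e ∈ B, P (f e))
    (fun f => ((C ×ˢ C).filter fun q =>
      ∑ e ∈ E with inc q.1 e, f e = ∑ e ∈ E with inc q.2 e, f e).card) ⟨f0, h0⟩
  have key : ∀ w ∈ C, ∀ w' ∈ C, w ≠ h → w' ≠ w →
      ∑ e ∈ E with inc w e, f e ≠ ∑ e ∈ E with inc w' e, f e := by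
    intro w hw w' hw' hne hne' heq
    obtain ⟨e, he, h1, h2⟩ := hsep w hw w' hne'
    set s : V → ℤ := fun v => ∑ e ∈ E with inc v e, f e with hs
    set ε : V → ℤ := fun v => (if inc v e then 1 else 0) - if v = h then 1 else 0 with hε
    have h3 : ∀ g ∈ F, ∀ v ∈ C, ∑ x ∈ E with inc v x, f (Equiv.swap e g x) =
        s v + ε v * (f g - f e) := fun g hg v hv => by
      rw [sum_swap _ f (hB he) (hB (hF hg))]
      simp only [hFh g hg v hv, hs, hε]
    obtain ⟨g, hg, h4⟩ : ∃ g ∈ F,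
        f g - f e ∉ (C ×ˢ C).image fun q => (s q.2 - s q.1) / (ε q.1 - ε q.2) := by
      by_contra hc
      push Not at hc
      have := card_le_card_of_injOn (fun g => f g - f e) hc fun a ha b hb hab =>
        hf.1.injOn (hB (hF ha)) (hB (hF hb)) (sub_left_injective hab)
      have h5 := card_image_le (s := C ×ˢ C) (f := fun q => (s q.2 - s q.1) / (ε q.1 - ε q.2))
      rw [card_product] at h5
      omega
    have h5 : ∀ q ∈ C ×ˢ C, s q.1 + ε q.1 * (f g - f e) = s q.2 + ε q.2 * (f g - f e) →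
        ε q.1 = ε q.2 := fun q hq h6 => by
      by_contra h7
      refine h4 (mem_image.2 ⟨q, hq, ?_⟩)
      rw [show s q.2 - s q.1 = (ε q.1 - ε q.2) * (f g - f e) by linarith,
        Int.mul_ediv_cancel_left _ (sub_ne_zero.2 h7)]
    have hsw : ∀ S : Finset ι, e ∈ S → g ∈ S → Set.BijOn (Equiv.swap e g) S S := fun S a b =>
      Equiv.swap_bijOn_self (by simp [a, b])
    refine (hmin (j := fun x => f (Equiv.swap e g x))
      ⟨hf.1.comp (hsw E (hB he) (hB (hF hg))), fun x hx => hf.2 _ ((hsw B he (hF hg)).mapsTo hx)⟩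
      (card_le_card ?_)).not_gt (card_lt_card ⟨?_, fun hc => ?_⟩)
    rotate_left 2
    · have hq : (w, w') ∈ C ×ˢ C := mem_product.2 ⟨hw, hw'⟩
      have h6 := (mem_filter.1 (hc (mem_filter.2 ⟨hq, heq⟩))).2
      rw [h3 g hg _ hw, h3 g hg _ hw'] at h6
      have h7 := h5 _ hq h6
      simp only [hε, h1, h2, hne, if_true, if_false] at h7
      split_ifs at h7 <;> omega
    all_goals
      intro q hq
      obtain ⟨hq, h6⟩ := mem_filter.1 hq
      rw [h3 g hg _ (mem_product.1 hq).1, h3 g hg _ (mem_product.1 hq).2] at h6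
      have h7 := h5 q hq h6
      rw [h7] at h6
      exact mem_filter.2 ⟨hq, add_right_cancel h6⟩
  refine ⟨f, hf, fun w hw w' hw' heq => by_contra fun hne => ?_⟩
  by_cases hh : w = h
  · exact key w' hw' w hw (fun e => hne (hh.trans e.symm)) hne heq.symm
  · exact key w hw w' hw' hh (Ne.symm hne) heq

theorem small_core (N0 : ℕ) : ∃ n0 : ℕ, ∀ (V : Type) [Fintype V] [DecidableEq V]
    (G : SimpleGraph V) [DecidableRel G.Adj], G.Connected → n0 ≤ Fintype.card V →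
    (univ.filter fun v => 2 ≤ G.degree v).card ≤ N0 → AM G := by
  refine ⟨N0 * (2 * (N0 * N0) + 1) + 5 * N0 + 3, fun V _ _ G _ hG hn hC => ?_⟩
  set C := univ.filter fun v => 2 ≤ G.degree v with hCd
  have : Nontrivial V := Fintype.one_lt_card_iff_nontrivial.1 (by omega)
  have h1 : ∀ x, ∃ y, x ∉ C → ∀ z, G.Adj x z ↔ z = y := fun x => by
    by_cases hx : x ∈ C
    · exact ⟨x, fun h => absurd hx h⟩
    have a1 := hG.preconnected.degree_pos_of_nontrivial x
    simp only [hCd, mem_filter, mem_univ, true_and] at hx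
    obtain ⟨y, hy, hy'⟩ := (G.degree_eq_one_iff_existsUnique_adj (v := x)).1 (by omega)
    exact ⟨y, fun _ z => ⟨hy' z, fun e => e ▸ hy⟩⟩
  choose p hp using h1
  have hadj : ∀ x ∉ C, G.Adj x (p x) := fun x hx => (hp x hx _).2 rfl
  have hpC : ∀ x ∉ C, p x ∈ C := fun x hx => by
    by_contra hc
    have a1 : ∀ u v, G.Reachable u v → u ∈ ({x, p x} : Finset V) → v ∈ ({x, p x} : Finset V) := by
      rintro u v ⟨w⟩
      induction w with
      | nil => exact id
      | cons a w ih =>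
        intro hu
        refine ih ?_
        rcases mem_insert.1 hu with rfl | hu
        · simp [(hp _ hx _).1 a]
        · rw [mem_singleton.1 hu] at a
          simp [((hp _ hc _).1 a).trans ((hp _ hc _).1 (hadj x hx).symm).symm]
    have a2 := card_le_card (s := univ) fun v _ => a1 x v (hG x v) (by simp)
    have a3 := card_le_two (a := x) (b := p x)
    rw [card_univ] at a2
    omega
  obtain ⟨h, hh, hfib⟩ := exists_lt_card_fiber_of_mul_lt_card_of_maps_to (s := Cᶜ) (t := C)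
    (f := p) (n := N0 * N0) (fun x hx => hpC x (mem_compl.1 hx)) (by
      rw [card_compl]
      have := Nat.mul_le_mul_right (N0 * N0) hC
      have a : N0 * (2 * (N0 * N0) + 1) = 2 * (N0 * (N0 * N0)) + N0 := by ring
      omega)
  obtain ⟨L, hL, hLc⟩ := exists_subset_card_eq (n := N0 * N0 + 1) hfib
  have hL' : ∀ x ∈ L, x ∉ C ∧ p x = h := fun x hx =>
    ⟨mem_compl.1 (mem_filter.1 (hL hx)).1, (mem_filter.1 (hL hx)).2⟩
  have h2 : ∀ v, ∃ P ⊆ G.incidenceFinset v, v ∈ C → P.card = 2 := fun v => by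
    by_cases hv : v ∈ C
    · obtain ⟨P, a, b⟩ := exists_subset_card_eq (s := G.incidenceFinset v) (n := 2)
        (by simpa [hCd] using hv)
      exact ⟨P, a, fun _ => b⟩
    · exact ⟨∅, empty_subset _, fun h => absurd h hv⟩
  choose P hP hP2 using h2
  simp only [G.incidenceFinset_eq_filter] at hP
  have hFc : (L.image fun x => s(x, h)).card = N0 * N0 + 1 := by
    rw [card_image_of_injOn fun a _ b _ e => Sym2.congr_left.1 e, hLc]
  have hB : (L.image fun x => s(x, h)) ∪ C.biUnion P ⊆ G.edgeFinset := by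
    refine union_subset (fun e he => ?_) fun e he => ?_
    · obtain ⟨x, hx, rfl⟩ := mem_image.1 he
      simpa [← (hL' x hx).2] using hadj x (hL' x hx).1
    · obtain ⟨v, -, hv⟩ := mem_biUnion.1 he
      exact (mem_filter.1 (hP v hv)).1
  obtain ⟨f0, h0⟩ := top_bij hB (by
    have a1 := card_union_le (L.image fun x => s(x, h)) (C.biUnion P)
    have a2 := card_biUnion_le_card_mul C P 2 fun v hv => (hP2 v hv).le
    have a3 := hG.card_vert_le_card_edgeSet_add_one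
    rw [Nat.card_eq_fintype_card, Nat.card_eq_fintype_card, ← G.edgeFinset_card] at a3
    have a4 : 1 ≤ N0 := (card_pos.2 ⟨h, hh⟩).trans_le hC
    have a5 := Nat.mul_le_mul_right (2 * (N0 * N0) + 1) a4
    omega)
  obtain ⟨f, ⟨hf, hf'⟩, hinj⟩ := swaps hB subset_union_left C (fun v e => v ∈ e) h
    (fun g hg v hv => by
      obtain ⟨x, hx, rfl⟩ := mem_image.1 hg
      exact Sym2.mem_iff.trans (or_iff_right fun e => (hL' x hx).1 (e ▸ hv)))
    (fun w hw w' hne => by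
      obtain ⟨a, b, hab, e⟩ := card_eq_two.1 (hP2 w hw)
      have ha : a ∈ P w := by simp [e]
      have hb : b ∈ P w := by simp [e]
      by_cases hc : w' ∈ a
      · exact ⟨b, mem_union_right _ (mem_biUnion.2 ⟨w, hw, hb⟩), (mem_filter.1 (hP w hb)).2,
          fun hd => hab (Sym2.eq_of_ne_mem hne hc (mem_filter.1 (hP w ha)).2 hd
            (mem_filter.1 (hP w hb)).2)⟩
      · exact ⟨a, mem_union_right _ (mem_biUnion.2 ⟨w, hw, ha⟩), (mem_filter.1 (hP w ha)).2, hc⟩)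
    (by rw [hFc]; exact Nat.lt_succ_of_le (Nat.mul_le_mul hC hC)) _
    (fun z => (G.edgeFinset.card : ℤ) < 2 * z) f0 h0
  have hcore : ∀ v ∈ C, (G.edgeFinset.card : ℤ) < ∑ e ∈ G.edgeFinset with v ∈ e, f e := by
    intro v hv
    refine lt_of_lt_of_le ?_ (sum_le_sum_of_subset_of_nonneg (hP v)
      fun e he _ => (hf.mapsTo (mem_filter.1 he).1).1.le)
    obtain ⟨a, b, hab, e⟩ := card_eq_two.1 (hP2 v hv)
    have a1 := hf' a (mem_union_right _ (mem_biUnion.2 ⟨v, hv, by simp [e]⟩))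
    have a2 := hf' b (mem_union_right _ (mem_biUnion.2 ⟨v, hv, by simp [e]⟩))
    rw [e, sum_pair hab]
    omega
  have hmem : ∀ x ∉ C, s(x, p x) ∈ G.edgeFinset := fun x hx => by simpa using hadj x hx
  have hleaf : ∀ x ∉ C, ∑ e ∈ G.edgeFinset with x ∈ e, f e = f s(x, p x) := fun x hx => by
    refine sum_eq_single_of_mem _ (mem_filter.2 ⟨hmem x hx, Sym2.mem_mk_left _ _⟩)
      fun e he hne => absurd ?_ hne
    obtain ⟨he, y, rfl⟩ := mem_filter.1 he
    rw [(hp x hx y).1 (by simpa using he)]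
  refine ⟨f, G.coe_edgeFinset ▸ hf, fun u v e => ?_⟩
  by_cases hu : u ∈ C <;> by_cases hv : v ∈ C
  · exact hinj hu hv e
  · have a1 := hcore u hu
    have a2 := (hf.mapsTo (hmem v hv)).2
    simp only [hleaf v hv] at e
    omega
  · have a1 := hcore v hv
    have a2 := (hf.mapsTo (hmem u hu)).2
    simp only [hleaf u hu] at e
    omega
  · simp only [hleaf u hu, hleaf v hv] at e
    rcases Sym2.eq_iff.1 (hf.injOn (hmem u hu) (hmem v hv) e) with a | a
    · exact a.1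
    · exact absurd (a.1 ▸ hpC v hv) hu

end Pool.Agent.Lib.MP_0830d8_co.Ex
end
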