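import Mathlib

-- part Pool.Agent.Lib.MP_0830d8_co.Ex.Defs
section

/-!
Definitions for the exact antimagic theorem for large graphs.
-/

namespace Pool.Agent.Lib.MP_0830d8_co.Ex

open Finset

/-- A system of residues: `SN` are the classes used by ordinary vertex sums, its complement is
reserved for repaired vertices. -/
structure Sys where
  Q : ℕ
  hQ : 0 < Q
  SN : Finset (ZMod Q)
  n : ℕ
  hn : 0 < n
  s1 : Fin n → ZMod Q
  s2 : Fin n → ZMod Q
  m1 : ∀ y, s1 y ∈ SN
  m2 : ∀ y, s2 y ∈ SN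
  c1 : ∀ a, (univ.filter fun y => s1 y = a).card * SN.card ≤ n
  c2 : ∀ a, (univ.filter fun y => s2 y = a).card * SN.card ≤ n
  c0 : ∀ a, (univ.filter fun y => s1 y - s2 y = a).card * Q ≤ n
  surj : ∀ a ∈ SN, ∀ b ∈ SN, ∃ y, s1 y = a ∧ s2 y = b
  surj0 : ∀ a, ∃ y, s1 y - s2 y = a
  res : ∀ z e : Fin 4 → ZMod Q, (∀ i, e i = 1 ∨ e i = -1) → ∃ d, (∀ i, z i + e i * d ∉ SN) ∧
    ∀ d', (d' = d ∨ d' = -d) → ∀ X : Finset (ZMod Q), X.card ≤ 5 →
      ∃ R, R ∉ X ∧ R ∉ SN ∧ R + d' ∈ SN

instance (S : Sys) : NeZero S.Q := ⟨S.hQ.ne'⟩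

/-- a rooted spanning tree on `V`, given by a parent map and a depth -/
structure RT (V : Type) where
  r : V
  π : V → V
  d : V → ℕ
  hd : ∀ v, v ≠ r → d (π v) + 1 = d v

variable {V : Type} [Fintype V] [DecidableEq V]

/-- the non-root vertices; `v` stands for the tree edge from `v` to its parent -/
def RT.W (T : RT V) : Finset V := univ.erase T.r

/-- the leaves -/
def RT.lv (T : RT V) : Finset V := T.W.filter fun v => ∀ c ∈ T.W, T.π c ≠ v

/-- incidence of the tree edge `v` with the vertex `w` -/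
def RT.inc (T : RT V) (v w : V) : ℤ := if w = v ∨ w = T.π v then 1 else 0

/-- vertex sums for weights `ω` and labels `lam` of the tree edges -/
def RT.sm (T : RT V) (ω lam : V → ℤ) (w : V) : ℤ := ω w + ∑ v ∈ T.W, T.inc v w * lam v

/-- weights after labelling one extra edge (with end set `ep x`) at every leaf `x` -/
def RT.om (T : RT V) (ep : V → Finset V) (ω0 α : V → ℤ) (w : V) : ℤ :=
  ω0 w + ∑ x ∈ T.lv with w ∈ ep x, α x

/-- conclusion of the core theorem -/
def Concl (T : RT V) (ep : V → Finset V) (ω0 : V → ℤ) (a0 l0 : ℤ) : Prop :=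
  ∃ α lam : V → ℤ, Set.BijOn α T.lv (Set.Ioc a0 (a0 + T.lv.card)) ∧
    Set.BijOn lam T.W (Set.Ioc l0 (l0 + T.W.card)) ∧
    Function.Injective (T.sm (T.om ep ω0 α) lam)

/-- hypotheses of the core theorem -/
structure Hyp (T : RT V) (ep : V → Finset V) (ω0 : V → ℤ) (a0 : ℤ) (γ : ℝ) : Prop where
  self : ∀ x ∈ T.lv, x ∈ ep x
  two : ∀ x ∈ T.lv, (ep x).card ≤ 2
  ind : ∀ x ∈ T.lv, ∀ v ∈ ep x, v ∈ T.lv → v = x
  nn : ∀ v, 0 ≤ ω0 v
  a0 : 0 ≤ a0
  mult : ∀ z, z ≠ 0 → ((univ.filter fun v => ω0 v = z).card : ℝ) ≤ γ * Fintype.card V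

/-- the core theorem -/
def CoreStmt : Prop :=
  ∃ γ : ℝ, 0 < γ ∧ ∃ N0 : ℕ, ∀ (V : Type) [Fintype V] [DecidableEq V] (T : RT V)
    (ep : V → Finset V) (ω0 : V → ℤ) (a0 l0 : ℤ), N0 ≤ Fintype.card V → Hyp T ep ω0 a0 γ →
    Concl T ep ω0 a0 l0

/-- a pairing of the tree edges with at most one exception -/
structure Tau (T : RT V) (τ : V → V) : Prop where
  inv : ∀ v, τ (τ v) = v
  root : τ T.r = T.r
  fix : ∀ u ∈ T.W, ∀ v ∈ T.W, τ u = u → τ v = v → u = v

/-- antimagic, with integer labels -/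
def AM (G : SimpleGraph V) [DecidableRel G.Adj] : Prop :=
  ∃ f : Sym2 V → ℤ, Set.BijOn f G.edgeSet (Set.Ioc 0 G.edgeFinset.card) ∧
    Function.Injective fun v => ∑ e ∈ G.edgeFinset with v ∈ e, f e

/-- heights with a common centre -/
def lin {A : Type} {β w : ℕ} (S : Finset A) (ω : Fin β × (A → Fin w)) : ℤ :=
  ∑ v ∈ S, (((ω.1 : ℕ) : ℤ) + ((ω.2 v : ℕ) : ℤ))

end Pool.Agent.Lib.MP_0830d8_co.Ex
end

-- part Pool.Agent.Lib.MP_0830d8_co.Ex.Basic
section

/-!
Basic tools: balancing, fibre counting, choice of a repair operation.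
-/

set_option linter.unusedSectionVars false

namespace Pool.Agent.Lib.MP_0830d8_co.Ex

open Finset

lemma bal {ι Ω J : Type} [Fintype Ω] [Nonempty Ω] [Fintype J] (B : Finset ι)
    (X : ι → Ω → J → ℝ) (C : ℝ) (hX : ∀ t ∈ B, ∀ ω j, 0 ≤ X t ω j ∧ X t ω j ≤ C) :
    ∃ Y : ι → Ω, ∀ j, (∑ t ∈ B, X t (Y t) j - ∑ t ∈ B, (∑ ω, X t ω j) / Fintype.card Ω) ^ 2 ≤
      B.card * Fintype.card J * C ^ 2 := by
  classical
  have hΩ : (0 : ℝ) < Fintype.card Ω := by exact_mod_cast Fintype.card_pos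
  suffices h : ∃ Y : ι → Ω, ∑ j, (∑ t ∈ B, X t (Y t) j -
      ∑ t ∈ B, (∑ ω, X t ω j) / Fintype.card Ω) ^ 2 ≤ B.card * Fintype.card J * C ^ 2 by
    obtain ⟨Y, hY⟩ := h
    exact ⟨Y, fun j => (single_le_sum (f := fun j => (∑ t ∈ B, X t (Y t) j -
      ∑ t ∈ B, (∑ ω, X t ω j) / Fintype.card Ω) ^ 2) (fun _ _ => sq_nonneg _)
      (mem_univ j)).trans hY⟩
  induction B using Finset.induction_on with
  | empty => exact ⟨fun _ => Classical.arbitrary Ω, by simp⟩
  | insert t B ht ih =>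
    obtain ⟨Y, hY⟩ := ih fun s hs => hX s (mem_insert_of_mem hs)
    set u : J → ℝ := fun j => ∑ s ∈ B, X s (Y s) j -
      ∑ s ∈ B, (∑ ω, X s ω j) / Fintype.card Ω with hu
    set m : J → ℝ := fun j => (∑ ω, X t ω j) / Fintype.card Ω with hm
    have hm0 : ∀ j, 0 ≤ m j ∧ m j ≤ C := fun j => by
      refine ⟨div_nonneg (sum_nonneg fun ω _ => (hX t (mem_insert_self _ _) ω j).1) hΩ.le, ?_⟩
      rw [hm, div_le_iff₀ hΩ]
      refine (sum_le_card_nsmul _ _ C fun ω _ => (hX t (mem_insert_self _ _) ω j).2).trans ?_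
      rw [card_univ, nsmul_eq_mul, mul_comm]
    have h0 : ∑ ω, ∑ j, u j * (X t ω j - m j) = ∑ _ω : Ω, (0 : ℝ) := by
      rw [sum_comm, sum_const_zero]
      refine sum_eq_zero fun j _ => ?_
      rw [← mul_sum, sum_sub_distrib, sum_const, card_univ, nsmul_eq_mul, hm]
      field_simp
      ring
    obtain ⟨ω, -, hω⟩ := exists_le_of_sum_le univ_nonempty h0.le
    refine ⟨Function.update Y t ω, ?_⟩
    have h1 : ∀ j, ∑ s ∈ insert t B, X s (Function.update Y t ω s) j -
        ∑ s ∈ insert t B, (∑ ω, X s ω j) / Fintype.card Ω = u j + (X t ω j - m j) := by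
      intro j
      rw [sum_insert ht, sum_insert ht, Function.update_self,
        sum_congr rfl fun s hs => by rw [Function.update_of_ne (ne_of_mem_of_not_mem hs ht)]]
      simp only [hu, hm]; ring
    simp_rw [h1]
    have h2 : ∑ j, (u j + (X t ω j - m j)) ^ 2 =
        ∑ j, u j ^ 2 + 2 * ∑ j, u j * (X t ω j - m j) + ∑ j, (X t ω j - m j) ^ 2 := by
      rw [mul_sum, ← sum_add_distrib, ← sum_add_distrib]
      exact sum_congr rfl fun j _ => by ring
    have h3 : ∑ j, (X t ω j - m j) ^ 2 ≤ Fintype.card J * C ^ 2 := by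
      refine (sum_le_card_nsmul _ _ (C ^ 2) fun j _ => ?_).trans (by rw [card_univ, nsmul_eq_mul])
      have := hX t (mem_insert_self _ _) ω j
      have := hm0 j
      exact sq_le_sq' (by linarith) (by linarith)
    rw [h2, card_insert_of_notMem ht]
    push_cast
    linarith

/-- double counting along a family of self-maps -/
lemma card_line_le {Ω γ : Type} [Fintype Ω] [DecidableEq Ω] [Fintype γ] [DecidableEq γ]
    (get : Ω → γ) (put : Ω → γ → Ω) (h1 : ∀ ω c, get (put ω c) = c)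
    (h2 : ∀ ω, put ω (get ω) = ω) (h3 : ∀ ω c c', put (put ω c) c' = put ω c')
    (E : Finset Ω) (κ : ℕ) (hE : ∀ ω, (univ.filter fun c => put ω c ∈ E).card ≤ κ) :
    E.card * Fintype.card γ ≤ κ * Fintype.card Ω := by
  have a1 : (E ×ˢ (univ : Finset γ)).card =
      ((univ : Finset (Ω × γ)).filter fun p => put p.1 p.2 ∈ E).card := by
    refine card_bij' (fun p _ => (put p.1 p.2, get p.1)) (fun p _ => (put p.1 p.2, get p.1))
      (fun p hp => ?_) (fun p hp => ?_) (fun p _ => ?_) (fun p _ => ?_)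
    · simp only [mem_filter, mem_univ, true_and, h3, h2]; exact (mem_product.mp hp).1
    · exact mem_product.mpr ⟨(mem_filter.mp hp).2, mem_univ _⟩
    · simp only [h3, h2, h1]
    · simp only [h3, h2, h1]
  rw [card_product, card_univ] at a1
  rw [a1, card_eq_sum_card_fiberwise (f := Prod.fst) (t := univ) fun _ _ => mem_univ _, mul_comm,
    ← smul_eq_mul, ← card_univ]
  refine sum_le_card_nsmul _ _ _ fun ω _ => le_trans ?_ (hE ω)
  refine card_le_card_of_injOn Prod.snd (fun p hp => ?_) fun p hp q hq h => ?_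
  · simp only [coe_filter, mem_filter, mem_univ, true_and, Set.mem_ofPred_eq] at hp ⊢
    rw [← hp.2]; exact hp.1
  · simp only [coe_filter, mem_filter, mem_univ, true_and, Set.mem_ofPred_eq] at hp hq
    exact Prod.ext (hp.2.trans hq.2.symm) h

lemma card_line_ge {Ω γ : Type} [Fintype Ω] [DecidableEq Ω] [Fintype γ]
    (get : Ω → γ) (put : Ω → γ → Ω) (h2 : ∀ ω, put ω (get ω) = ω)
    (h3 : ∀ ω c c', put (put ω c) c' = put ω c')
    (E : Finset Ω) (hE : ∀ ω, ∃ c, put ω c ∈ E) :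
    Fintype.card Ω ≤ E.card * Fintype.card γ := by
  choose c hc using hE
  rw [← card_univ, ← card_univ, ← card_product]
  refine card_le_card_of_injOn (fun ω => (put ω (c ω), get ω))
    (fun ω _ => mem_coe.mpr (mem_product.mpr ⟨hc ω, mem_univ _⟩)) fun ω _ ω' _ h => ?_
  simp only [Prod.mk.injEq] at h
  rw [← h2 ω, ← h3 ω (c ω), h.1, h.2, h3, h2]

lemma card_le_one_of {γ : Type} (F : Finset γ) (h : ∀ a ∈ F, ∀ b ∈ F, a = b) : F.card ≤ 1 :=
  card_le_one.mpr h

section lin
variable {A : Type} [Fintype A] [DecidableEq A] {β w : ℕ}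

lemma lin_def (S : Finset A) (ω : Fin β × (A → Fin w)) :
    lin S ω = S.card * ((ω.1 : ℕ) : ℤ) + ∑ v ∈ S, ((ω.2 v : ℕ) : ℤ) := by
  rw [lin, sum_add_distrib, sum_const, nsmul_eq_mul]

lemma lin_update (S : Finset A) (c : Fin β) (y : A → Fin w) (v : A) (a : Fin w) :
    lin S (c, Function.update y v a) =
      S.card * ((c : ℕ) : ℤ) + ∑ u ∈ S.erase v, ((y u : ℕ) : ℤ) +
        if v ∈ S then ((a : ℕ) : ℤ) else 0 := by
  rw [lin_def, add_assoc]
  congr 1
  have h : ∑ u ∈ S.erase v, ((Function.update y v a u : ℕ) : ℤ) =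
      ∑ u ∈ S.erase v, ((y u : ℕ) : ℤ) :=
    sum_congr rfl fun u hu => by rw [Function.update_of_ne (mem_erase.mp hu).1]
  split_ifs with hv
  · rw [← sum_erase_add _ _ hv, h]
    simp only [Function.update_self]
  · rw [erase_eq_of_notMem hv] at h ⊢
    simp only [h, add_zero]

lemma lin_one {S : Finset A} (hS : S.Nonempty) (E : Finset (Fin β × (A → Fin w)))
    (hE : ∀ ω ∈ E, ∀ ω' ∈ E, lin S ω = lin S ω') :
    E.card * β ≤ Fintype.card (Fin β × (A → Fin w)) := by
  have := card_line_le (Ω := Fin β × (A → Fin w)) Prod.fst (fun ω c => (c, ω.2)) (fun _ _ => rfl)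
    (fun _ => rfl) (fun _ _ _ => rfl) E 1 fun ω => card_le_one_of _ fun a ha b hb => by
      have h := hE _ (mem_filter.mp ha).2 _ (mem_filter.mp hb).2
      rw [lin_def, lin_def] at h
      have h0 : (S.card : ℤ) ≠ 0 := by exact_mod_cast hS.card_pos.ne'
      have h1 := mul_left_cancel₀ h0 (add_right_cancel h)
      exact Fin.ext (by exact_mod_cast h1)
  rwa [Fintype.card_fin, one_mul] at this

lemma lin_plane (v : A) (E : Finset (Fin β × (A → Fin w))) (κ : ℕ)
    (hE : ∀ y : A → Fin w, (univ.filter fun p : Fin β × Fin w =>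
      (p.1, Function.update y v p.2) ∈ E).card ≤ κ) :
    E.card * β * w ≤ κ * Fintype.card (Fin β × (A → Fin w)) := by
  have := card_line_le (Ω := Fin β × (A → Fin w)) (γ := Fin β × Fin w) (fun ω => (ω.1, ω.2 v))
    (fun ω p => (p.1, Function.update ω.2 v p.2)) (fun _ _ => by simp)
    (fun _ => by simp) (fun _ _ _ => by simp) E κ fun ω => hE ω.2
  rwa [Fintype.card_prod, Fintype.card_fin, Fintype.card_fin, ← mul_assoc] at this

lemma lin_two {S : Finset A} (hS : 2 ≤ S.card) (E : Finset (Fin β × (A → Fin w)))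
    (hE : ∀ ω ∈ E, ∀ ω' ∈ E, lin S ω = lin S ω') :
    2 * E.card * β * w ≤ (w + 1) * Fintype.card (Fin β × (A → Fin w)) := by
  obtain ⟨v, hv⟩ := card_pos.mp (show 0 < S.card by omega)
  have h := lin_plane v E ((w + 1) / 2) fun y => by
    rw [← card_range ((w + 1) / 2)]
    refine card_le_card_of_injOn (fun p => (p.2 : ℕ) / 2) (fun p _ => ?_) fun p hp q hq hpq => ?_
    · have := p.2.2
      simp only [coe_range, Set.mem_Iio]; omega
    · have h1 := hE _ (mem_filter.mp hp).2 _ (mem_filter.mp hq).2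
      rw [lin_update, lin_update, if_pos hv, if_pos hv] at h1
      simp only at hpq
      have h2 : (2 : ℤ) ≤ S.card := by exact_mod_cast hS
      have h3 : (S.card : ℤ) * (((p.1 : ℕ) : ℤ) - (q.1 : ℕ)) = ((q.2 : ℕ) : ℤ) - (p.2 : ℕ) := by
        linarith
      have h4 : ((p.1 : ℕ) : ℤ) = (q.1 : ℕ) := by
        rcases lt_trichotomy ((p.1 : ℕ) : ℤ) (q.1 : ℕ) with h | h | h
        · nlinarith [show ((q.2 : ℕ) : ℤ) - (p.2 : ℕ) ≥ -1 by omega]
        · exact h
        · nlinarith [show ((q.2 : ℕ) : ℤ) - (p.2 : ℕ) ≤ 1 by omega]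
      rw [h4, sub_self, mul_zero] at h3
      exact Prod.ext (Fin.ext (by exact_mod_cast h4)) (Fin.ext (by omega))
  calc 2 * E.card * β * w = 2 * (E.card * β * w) := by ring
    _ ≤ 2 * ((w + 1) / 2 * Fintype.card (Fin β × (A → Fin w))) := Nat.mul_le_mul_left _ h
    _ ≤ _ := by rw [← mul_assoc]; exact Nat.mul_le_mul_right _ (by omega)

lemma lin_pair' {S S' : Finset A} (hS : S.Nonempty) {v : A} (h1 : v ∈ S') (h2 : v ∉ S)
    (E : Finset (Fin β × (A → Fin w)))
    (hE : ∀ ω ∈ E, ∀ ω' ∈ E, lin S ω = lin S ω' ∧ lin S' ω = lin S' ω') :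
    E.card * β * w ≤ Fintype.card (Fin β × (A → Fin w)) := by
  have h := lin_plane v E 1 fun y => card_le_one_of _ fun p hp q hq => by
    obtain ⟨a1, a2⟩ := hE _ (mem_filter.mp hp).2 _ (mem_filter.mp hq).2
    rw [lin_update, lin_update, if_neg h2, if_neg h2] at a1
    rw [lin_update, lin_update, if_pos h1, if_pos h1] at a2
    have h0 : (S.card : ℤ) ≠ 0 := by exact_mod_cast hS.card_pos.ne'
    have h3 : ((p.1 : ℕ) : ℤ) = (q.1 : ℕ) := mul_left_cancel₀ h0 (by linarith)
    rw [h3] at a2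
    exact Prod.ext (Fin.ext (by exact_mod_cast h3)) (Fin.ext (by omega))
  rwa [one_mul] at h

lemma exists_diff {S S' : Finset A} (hne : S ≠ S') :
    ∃ v, (v ∈ S' ∧ v ∉ S) ∨ (v ∈ S ∧ v ∉ S') := by
  by_contra hc
  push Not at hc
  exact hne (Finset.ext fun v => ⟨(hc v).2, (hc v).1⟩)

lemma lin_pair {S S' : Finset A} (hS : S.Nonempty) (hS' : S'.Nonempty) (hne : S ≠ S')
    (E : Finset (Fin β × (A → Fin w)))
    (hE : ∀ ω ∈ E, ∀ ω' ∈ E, lin S ω = lin S ω' ∧ lin S' ω = lin S' ω') :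
    E.card * β * w ≤ Fintype.card (Fin β × (A → Fin w)) := by
  obtain ⟨v, h | h⟩ := exists_diff hne
  · exact lin_pair' hS h.1 h.2 E hE
  · exact lin_pair' hS' h.1 h.2 E fun ω a ω' b => (hE ω a ω' b).symm

lemma lin_eq' {S S' : Finset A} {v : A} (h1 : v ∈ S') (h2 : v ∉ S)
    (E : Finset (Fin β × (A → Fin w)))
    (hE : ∀ ω ∈ E, ∀ ω' ∈ E, lin S ω = lin S ω' → lin S' ω = lin S' ω') :
    E.card * w ≤ Fintype.card (Fin β × (A → Fin w)) := by
  have := card_line_le (Ω := Fin β × (A → Fin w)) (fun ω => ω.2 v)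
    (fun ω c => (ω.1, Function.update ω.2 v c)) (fun _ _ => by simp)
    (fun _ => by simp) (fun _ _ _ => by simp) E 1 fun ω => card_le_one_of _ fun a ha b hb => by
      have h := hE _ (mem_filter.mp ha).2 _ (mem_filter.mp hb).2 (by
        rw [lin_update, lin_update, if_neg h2, if_neg h2])
      rw [lin_update, lin_update, if_pos h1, if_pos h1] at h
      exact Fin.ext (by omega)
  rwa [Fintype.card_fin, one_mul] at this

lemma lin_eq {S S' : Finset A} (hne : S ≠ S') (E : Finset (Fin β × (A → Fin w)))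
    (hE : ∀ ω ∈ E, ∀ ω' ∈ E, lin S ω = lin S ω' ↔ lin S' ω = lin S' ω') :
    E.card * w ≤ Fintype.card (Fin β × (A → Fin w)) := by
  obtain ⟨v, h | h⟩ := exists_diff hne
  · exact lin_eq' h.1 h.2 E fun ω a ω' b => (hE ω a ω' b).1
  · exact lin_eq' h.1 h.2 E fun ω a ω' b => (hE ω a ω' b).2

end lin

lemma choose_op {V J : Type} [Fintype V] [DecidableEq V] [DecidableEq J] (good : ℤ → Prop)
    (s ε : V → ℤ) (hε : ∀ w, ε w = 0 ∨ ε w = 1 ∨ ε w = -1) (Cand : Finset J) (Δ : J → ℤ)
    (hΔ : Set.InjOn Δ Cand) (Nb : J → Finset V) (s' : J → V → ℤ) (Z : Finset V)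
    (hZ : ∀ w ∉ Z, good (s w)) (μ m : ℕ) (hm : (univ.filter fun w => ε w ≠ 0).card ≤ m)
    (h1 : ∀ j ∈ Cand, ∀ w ∉ Nb j, s' j w = s w + ε w * Δ j)
    (h2 : ∀ j ∈ Cand, ∀ w, ε w ≠ 0 → w ∉ Nb j ∧ ¬good (s' j w))
    (h3 : ∀ j ∈ Cand, ∀ w ∈ Nb j, ¬good (s' j w) ∧
      ∀ w', w' ≠ w → (w' ∈ Nb j ∨ ε w' ≠ 0) → s' j w ≠ s' j w')
    (h4 : ∀ z, (Cand.filter fun j => ∃ w ∈ Nb j, s' j w = z).card ≤ μ)
    (h5 : (m + μ) * Z.card + m * m < Cand.card) :
    ∃ j ∈ Cand, ∀ w w', s' j w = s' j w' → s w = s w' ∧ ε w = ε w' := by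
  classical
  set M := univ.filter fun w => ε w ≠ 0 with hM
  set K1 := Z.biUnion fun z => Cand.filter fun j => ∃ w ∈ Nb j, s' j w = s z with hK1
  set K2 := (M ×ˢ Z).biUnion fun p => Cand.filter fun j => s p.1 + ε p.1 * Δ j = s p.2 with hK2
  set K3 := (M ×ˢ M).biUnion fun p =>
    Cand.filter fun j => s p.1 + ε p.1 * Δ j = s p.2 - ε p.1 * Δ j with hK3
  have c1 : K1.card ≤ Z.card * μ :=
    card_biUnion_le.trans ((sum_le_card_nsmul _ _ μ fun z _ => h4 _).trans (smul_eq_mul _ _).le)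
  have c2 : K2.card ≤ M.card * Z.card := by
    refine card_biUnion_le.trans ((sum_le_card_nsmul _ _ 1 fun p hp => ?_).trans (by simp))
    refine card_le_one_of _ fun a ha b hb => hΔ (mem_filter.mp ha).1 (mem_filter.mp hb).1 ?_
    have a1 := (mem_filter.mp ha).2
    have a2 := (mem_filter.mp hb).2
    exact mul_left_cancel₀ (mem_filter.mp (mem_product.mp hp).1).2 (by linarith)
  have c3 : K3.card ≤ M.card * M.card := by
    refine card_biUnion_le.trans ((sum_le_card_nsmul _ _ 1 fun p hp => ?_).trans (by simp))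
    refine card_le_one_of _ fun a ha b hb => hΔ (mem_filter.mp ha).1 (mem_filter.mp hb).1 ?_
    have a1 := (mem_filter.mp ha).2
    have a2 := (mem_filter.mp hb).2
    exact mul_left_cancel₀ (mem_filter.mp (mem_product.mp hp).1).2 (by linarith)
  have c4 : (K1 ∪ K2 ∪ K3).card < Cand.card := by
    have b1 := card_union_le (K1 ∪ K2) K3
    have b2 := card_union_le K1 K2
    have b3 := Nat.mul_le_mul_right Z.card hm
    have b4 := Nat.mul_le_mul hm hm
    nlinarith
  obtain ⟨j, hj, hj'⟩ := exists_mem_notMem_of_card_lt_card c4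
  simp only [mem_union, not_or] at hj'
  obtain ⟨⟨n1, n2⟩, n3⟩ := hj'
  have key1 : ∀ w w', w ∈ Nb j → w' ≠ w → s' j w ≠ s' j w' := by
    intro w w' hw hne he
    by_cases hw' : w' ∈ Nb j ∨ ε w' ≠ 0
    · exact (h3 j hj w hw).2 w' hne hw' he
    · push Not at hw'
      rw [h1 j hj w' hw'.1, hw'.2, zero_mul, add_zero] at he
      refine n1 (mem_biUnion.mpr ⟨w', ?_, mem_filter.mpr ⟨hj, w, hw, he⟩⟩)
      by_contra hz
      exact (h3 j hj w hw).1 (he ▸ hZ w' hz)
  have key2 : ∀ w w', w ∉ Nb j → w' ∉ Nb j → ε w ≠ 0 → s' j w = s' j w' → ε w = ε w' := by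
    intro w w' hw hw' h0 he
    have hg := (h2 j hj w h0).2
    by_cases h0' : ε w' = 0
    · exfalso
      rw [he] at hg
      rw [h1 j hj w hw, h1 j hj w' hw', h0', zero_mul, add_zero] at he
      rw [h1 j hj w' hw', h0', zero_mul, add_zero] at hg
      refine n2 (mem_biUnion.mpr ⟨(w, w'), mem_product.mpr ⟨mem_filter.mpr ⟨mem_univ _, h0⟩, ?_⟩,
        mem_filter.mpr ⟨hj, he⟩⟩)
      by_contra hz
      exact hg (hZ w' hz)
    · by_contra hne
      have h6 : ε w' = -ε w := by
        rcases hε w with a | a | a <;> rcases hε w' with b | b | b <;> omega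
      rw [h1 j hj w hw, h1 j hj w' hw', h6] at he
      exact n3 (mem_biUnion.mpr ⟨(w, w'), mem_product.mpr ⟨mem_filter.mpr ⟨mem_univ _, h0⟩,
        mem_filter.mpr ⟨mem_univ _, h0'⟩⟩, mem_filter.mpr ⟨hj, by simp only; linarith⟩⟩)
  refine ⟨j, hj, fun w w' he => ?_⟩
  by_cases hww : w' = w
  · rw [hww]; exact ⟨rfl, rfl⟩
  have hw : w ∉ Nb j := fun h => key1 w w' h hww he
  have hw' : w' ∉ Nb j := fun h => key1 w' w h (Ne.symm hww) he.symm
  have h7 : ε w = ε w' := by
    by_cases h0 : ε w = 0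
    · by_cases h0' : ε w' = 0
      · rw [h0, h0']
      · exact (key2 w' w hw' hw h0' he.symm).symm
    · exact key2 w w' hw hw' h0 he
  rw [h1 j hj w hw, h1 j hj w' hw', h7] at he
  exact ⟨add_right_cancel he, h7⟩

lemma iterate {S ι : Type} [DecidableEq ι] (P : ℕ → S → Prop) (le : S → S → Prop)
    (Sep : ι → S → Prop) (mono : ∀ v s s', le s' s → Sep v s → Sep v s') (E : Finset ι)
    (op : ∀ i < E.card, ∀ s, P i s → ∀ v ∈ E, ∃ s', P (i + 1) s' ∧ le s' s ∧ Sep v s')
    (s0 : S) (h0 : P 0 s0) : ∃ s, P E.card s ∧ ∀ v ∈ E, Sep v s := by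
  have key : ∀ F : Finset ι, F ⊆ E → ∃ s, P F.card s ∧ ∀ v ∈ F, Sep v s := by
    intro F
    induction F using Finset.induction_on with
    | empty => exact fun _ => ⟨s0, h0, by simp⟩
    | insert v F hv ih =>
      intro hF
      obtain ⟨s, a1, a2⟩ := ih ((subset_insert _ _).trans hF)
      have := card_le_card hF
      rw [card_insert_of_notMem hv] at this ⊢
      obtain ⟨s', b1, b2, b3⟩ := op F.card (by omega) s a1 v (hF (mem_insert_self _ _))
      refine ⟨s', b1, fun u hu => ?_⟩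
      rcases mem_insert.mp hu with rfl | hu
      · exact b3
      · exact mono u s s' b2 (a2 u hu)
  exact key E Subset.rfl

/-- extend an injective partial labelling to a bijection -/
lemma extend_bij {ι : Type} [DecidableEq ι] (H H' : Finset ι) (hH : H' ⊆ H) (L : Finset ℤ)
    (hL : L.card = H.card) (α : ι → ℤ) (hinj : Set.InjOn α H') (hmap : ∀ e ∈ H', α e ∈ L) :
    ∃ α' : ι → ℤ, Set.BijOn α' H L ∧ ∀ e ∈ H', α' e = α e := by
  classical
  have hsub : H'.image α ⊆ L := image_subset_iff.mpr hmap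
  have hc : (H \ H').card = (L \ H'.image α).card := by
    rw [card_sdiff_of_subset hH, card_sdiff_of_subset hsub, card_image_of_injOn hinj, hL]
  set e := Finset.equivOfCardEq hc
  set α' : ι → ℤ := fun x => if h : x ∈ H \ H' then (e ⟨x, h⟩ : ℤ) else α x with hα'
  have a1 : ∀ x ∈ H', α' x = α x := fun x hx => dif_neg fun h => (mem_sdiff.mp h).2 hx
  have a2 : ∀ x (h : x ∈ H \ H'), α' x = e ⟨x, h⟩ := fun x h => dif_pos h
  have a3 : ∀ x ∈ H \ H', α' x ∈ L \ H'.image α := fun x h => by rw [a2 x h]; exact (e _).2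
  have a4 : Set.MapsTo α' H L := fun x hx => by
    by_cases h : x ∈ H'
    · rw [a1 x h]; exact hmap x h
    · exact (mem_sdiff.mp (a3 x (mem_sdiff.mpr ⟨hx, h⟩))).1
  have a5 : Set.InjOn α' H := fun x hx y hy hxy => by
    by_cases h : x ∈ H' <;> by_cases h' : y ∈ H'
    · rw [a1 x h, a1 y h'] at hxy; exact hinj h h' hxy
    · exact absurd (mem_image.mpr ⟨x, h, (a1 x h).symm.trans hxy⟩)
        (mem_sdiff.mp (a3 y (mem_sdiff.mpr ⟨hy, h'⟩))).2
    · exact absurd (mem_image.mpr ⟨y, h', (a1 y h').symm.trans hxy.symm⟩)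
        (mem_sdiff.mp (a3 x (mem_sdiff.mpr ⟨hx, h⟩))).2
    · rw [a2 x (mem_sdiff.mpr ⟨hx, h⟩), a2 y (mem_sdiff.mpr ⟨hy, h'⟩)] at hxy
      exact congrArg Subtype.val (e.injective (Subtype.ext hxy))
  refine ⟨α', ⟨a4, a5, ?_⟩, a1⟩
  exact Finset.surjOn_of_injOn_of_card_le α' a4 a5 hL.le

end Pool.Agent.Lib.MP_0830d8_co.Ex
end

-- part Pool.Agent.Lib.MP_0830d8_co.Nibble
section

/-!
A weighted version of the Frankl-Rodl-Pippenger theorem: a fractional matching with small
pair loads can be turned into an almost equally large matching.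
-/

set_option linter.unusedSectionVars false

namespace Pool.Agent.Lib.MP_0830d8_co

open Finset

section Ex

variable {κ : Type*} [DecidableEq κ]

/-- expectation for a random subset with independent inclusion probabilities -/
noncomputable def Ex (J : Finset κ) (q : κ → ℝ) (f : Finset κ → ℝ) : ℝ :=
  ∑ S ∈ J.powerset, ((∏ j ∈ S, q j) * ∏ j ∈ J \ S, (1 - q j)) * f S

variable {J : Finset κ} {q : κ → ℝ}

lemma Ex_add (f g : Finset κ → ℝ) : Ex J q (fun S => f S + g S) = Ex J q f + Ex J q g := by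
  simp only [Ex, mul_add, sum_add_distrib]

lemma Ex_sub (f g : Finset κ → ℝ) : Ex J q (fun S => f S - g S) = Ex J q f - Ex J q g := by
  simp only [Ex, mul_sub, sum_sub_distrib]

lemma Ex_mul (c : ℝ) (f : Finset κ → ℝ) : Ex J q (fun S => c * f S) = c * Ex J q f := by
  simp only [Ex, mul_sum]
  exact sum_congr rfl fun _ _ => by ring

lemma Ex_sum {β : Type*} (s : Finset β) (f : β → Finset κ → ℝ) :
    Ex J q (fun S => ∑ b ∈ s, f b S) = ∑ b ∈ s, Ex J q (f b) := by
  simp only [Ex, mul_sum]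
  exact sum_comm

lemma Ex_one : Ex J q (fun _ => 1) = 1 := by
  simp only [Ex, mul_one]
  rw [← prod_add]
  simp

lemma Ex_const (c : ℝ) : Ex J q (fun _ => c) = c := by
  have := Ex_mul (J := J) (q := q) c fun _ => 1
  rwa [Ex_one, mul_one] at this

lemma pw_nonneg (hq : ∀ j ∈ J, 0 ≤ q j ∧ q j ≤ 1) {S : Finset κ} (hS : S ∈ J.powerset) :
    0 ≤ (∏ j ∈ S, q j) * ∏ j ∈ J \ S, (1 - q j) :=
  mul_nonneg (prod_nonneg fun j hj => (hq j (mem_powerset.mp hS hj)).1)
    (prod_nonneg fun j hj => sub_nonneg.mpr (hq j (mem_sdiff.mp hj).1).2)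

lemma Ex_mono (hq : ∀ j ∈ J, 0 ≤ q j ∧ q j ≤ 1) {f g : Finset κ → ℝ} (h : ∀ S, f S ≤ g S) :
    Ex J q f ≤ Ex J q g :=
  sum_le_sum fun S hS => mul_le_mul_of_nonneg_left (h S) (pw_nonneg hq hS)

lemma exists_ge_Ex (hq : ∀ j ∈ J, 0 ≤ q j ∧ q j ≤ 1) (f : Finset κ → ℝ) :
    ∃ S, Ex J q f ≤ f S := by
  obtain ⟨S, -, hS⟩ := exists_max_image J.powerset f ⟨∅, empty_mem_powerset J⟩
  refine ⟨S, ?_⟩
  rw [← Ex_const (J := J) (q := q) (f S)]
  exact sum_le_sum fun T hT => mul_le_mul_of_nonneg_left (hS T hT) (pw_nonneg hq hT)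

lemma Ex_ind {A B : Finset κ} (hA : A ⊆ J) (hB : B ⊆ J) (hd : Disjoint A B) :
    Ex J q (fun S => if B ⊆ S ∧ Disjoint S A then 1 else 0) =
      (∏ j ∈ B, q j) * ∏ j ∈ A, (1 - q j) := by
  have h1 := prod_add (fun j => if j ∈ A then 0 else q j) (fun j => if j ∈ B then 0 else 1 - q j) J
  have h2 : ∏ j ∈ J, ((if j ∈ A then 0 else q j) + if j ∈ B then 0 else 1 - q j) =
      (∏ j ∈ B, q j) * ∏ j ∈ A, (1 - q j) := by
    have h3 : ∀ j, ((if j ∈ A then 0 else q j) + if j ∈ B then 0 else 1 - q j) =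
        (if j ∈ B then q j else 1) * if j ∈ A then 1 - q j else 1 := by
      intro j
      by_cases ha : j ∈ A <;> by_cases hb : j ∈ B
      · exact absurd hb (disjoint_left.mp hd ha)
      all_goals simp [ha, hb]
    simp_rw [h3]
    rw [prod_mul_distrib, prod_ite_mem, prod_ite_mem, inter_eq_right.mpr hA, inter_eq_right.mpr hB]
  rw [← h2, h1]
  refine sum_congr rfl fun S hS => ?_
  beta_reduce
  by_cases h : B ⊆ S ∧ Disjoint S A
  · rw [if_pos h, mul_one]
    congr 1
    · exact prod_congr rfl fun j hj => by rw [if_neg (disjoint_left.mp h.2 hj)]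
    · exact prod_congr rfl fun j hj => by rw [if_neg fun hb => (mem_sdiff.mp hj).2 (h.1 hb)]
  · rw [if_neg h, mul_zero]
    rw [not_and_or] at h
    rcases h with h | h
    · obtain ⟨j, hj, hj'⟩ := not_subset.mp h
      rw [prod_eq_zero (s := J \ S) (mem_sdiff.mpr ⟨hB hj, hj'⟩) (by rw [if_pos hj]), mul_zero]
    · obtain ⟨j, hj, hj'⟩ := not_disjoint_iff.mp h
      rw [prod_eq_zero (s := S) hj (by rw [if_pos hj']), zero_mul]

lemma Ex_avoid {A : Finset κ} (hA : A ⊆ J) :
    Ex J q (fun S => if Disjoint S A then 1 else 0) = ∏ j ∈ A, (1 - q j) := by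
  simpa using Ex_ind (q := q) hA (empty_subset J) (disjoint_empty_right A)

end Ex

lemma one_sub_sum_le_prod {β : Type*} (s : Finset β) (y : β → ℝ)
    (h : ∀ b ∈ s, 0 ≤ y b ∧ y b ≤ 1) : 1 - ∑ b ∈ s, (1 - y b) ≤ ∏ b ∈ s, y b := by
  classical
  induction s using Finset.induction_on with
  | empty => simp
  | insert a s ha ih =>
    rw [sum_insert ha, prod_insert ha]
    have h1 := ih fun b hb => h b (mem_insert_of_mem hb)
    have h2 := h a (mem_insert_self a s)
    have h3 : 0 ≤ ∑ b ∈ s, (1 - y b) :=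
      sum_nonneg fun b hb => sub_nonneg.mpr (h b (mem_insert_of_mem hb)).2
    nlinarith [mul_le_mul_of_nonneg_left h1 h2.1]

section kill

variable {κ α : Type*} [DecidableEq κ] [DecidableEq α]

/-- the indices whose set meets `A` -/
def meet (J : Finset κ) (E : κ → Finset α) (A : Finset α) : Finset κ :=
  J.filter fun j => ¬Disjoint (E j) A

variable {J : Finset κ} {E : κ → Finset α} {q : κ → ℝ} {p : ℝ}

lemma pow_eq_prod {A : Finset α} (hp : ∀ u ∈ A, ∏ j ∈ J with u ∈ E j, (1 - q j) = p) :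
    p ^ A.card = ∏ j ∈ meet J E A, (1 - q j) ^ (A.filter (· ∈ E j)).card := by
  rw [← prod_const, ← prod_congr rfl hp]
  simp_rw [prod_filter (s := J)]
  rw [prod_comm, meet, prod_filter]
  refine prod_congr rfl fun j _ => ?_
  rw [← prod_filter, prod_const]
  split_ifs with h
  · rw [filter_eq_empty_iff.mpr fun u hu hu' => disjoint_left.mp h hu' hu]; simp
  · rfl

lemma card_pos_of_meet {A : Finset α} {j : κ} (hj : j ∈ meet J E A) :
    1 ≤ (A.filter (· ∈ E j)).card := by
  obtain ⟨u, h1, h2⟩ := not_disjoint_iff.mp (mem_filter.mp hj).2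
  exact card_pos.mpr ⟨u, mem_filter.mpr ⟨h2, h1⟩⟩

lemma surv_lower (hq : ∀ j ∈ J, 0 ≤ q j ∧ q j ≤ 1) {A : Finset α}
    (hp : ∀ u ∈ A, ∏ j ∈ J with u ∈ E j, (1 - q j) = p) :
    p ^ A.card ≤ ∏ j ∈ meet J E A, (1 - q j) := by
  rw [pow_eq_prod hp]
  refine prod_le_prod (fun j hj => ?_) fun j hj => ?_
  · exact pow_nonneg (sub_nonneg.mpr (hq j (mem_filter.mp hj).1).2) _
  · have := hq j (mem_filter.mp hj).1
    exact pow_le_of_le_one (sub_nonneg.mpr this.2) (by linarith [this.1])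
      (Nat.one_le_iff_ne_zero.mp (card_pos_of_meet hj))

lemma surv_upper (hq : ∀ j ∈ J, 0 ≤ q j ∧ q j ≤ 1) {A : Finset α} {γ : ℝ}
    (hp : ∀ u ∈ A, ∏ j ∈ J with u ∈ E j, (1 - q j) = p)
    (hγ : ∀ u v, u ≠ v → ∑ j ∈ J with (u ∈ E j ∧ v ∈ E j), q j ≤ γ) (hγ0 : 0 ≤ γ) :
    ∏ j ∈ meet J E A, (1 - q j) ≤ p ^ A.card + A.card ^ 2 * γ := by
  set c : κ → ℕ := fun j => (A.filter (· ∈ E j)).card with hc
  have hq' : ∀ j ∈ meet J E A, 0 ≤ 1 - q j ∧ 1 - q j ≤ 1 := fun j hj => by
    have := hq j (mem_filter.mp hj).1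
    constructor <;> linarith [this.1, this.2]
  have h1 : p ^ A.card = (∏ j ∈ meet J E A, (1 - q j)) *
      ∏ j ∈ meet J E A, (1 - q j) ^ (c j - 1) := by
    rw [pow_eq_prod hp, ← prod_mul_distrib]
    refine prod_congr rfl fun j hj => ?_
    rw [← pow_succ', Nat.sub_add_cancel (card_pos_of_meet hj)]
  have h2 := one_sub_sum_le_prod (meet J E A) (fun j => (1 - q j) ^ (c j - 1))
    fun j hj => ⟨pow_nonneg (hq' j hj).1 _, pow_le_one₀ (hq' j hj).1 (hq' j hj).2⟩
  have h3 : ∑ j ∈ meet J E A, (1 - (1 - q j) ^ (c j - 1)) ≤ A.card ^ 2 * γ := by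
    calc _ ≤ ∑ j ∈ meet J E A, ∑ uv ∈ A.offDiag, if uv.1 ∈ E j ∧ uv.2 ∈ E j then q j else 0 := by
          refine sum_le_sum fun j hj => ?_
          have h4 := one_add_mul_le_pow (a := -q j) (by linarith [(hq' j hj).1]) (c j - 1)
          rw [← sum_filter, sum_const, nsmul_eq_mul]
          have h5 : (A.offDiag.filter fun uv => uv.1 ∈ E j ∧ uv.2 ∈ E j) =
              (A.filter (· ∈ E j)).offDiag := by
            ext uv; simp only [mem_filter, mem_offDiag]; tauto
          have h6 : c j - 1 ≤ (A.offDiag.filter fun uv => uv.1 ∈ E j ∧ uv.2 ∈ E j).card := by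
            rw [h5, offDiag_card]
            have := card_pos_of_meet hj
            change c j - 1 ≤ c j * c j - c j
            change 1 ≤ c j at this
            rw [← Nat.mul_sub_one]
            exact Nat.le_mul_of_pos_left _ this
          have h7 : ((c j - 1 : ℕ) : ℝ) * q j ≤
              (A.offDiag.filter fun uv => uv.1 ∈ E j ∧ uv.2 ∈ E j).card * q j :=
            mul_le_mul_of_nonneg_right (by exact_mod_cast h6) (hq j (mem_filter.mp hj).1).1
          rw [← sub_eq_add_neg] at h4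
          linarith
      _ ≤ ∑ j ∈ J, ∑ uv ∈ A.offDiag, if uv.1 ∈ E j ∧ uv.2 ∈ E j then q j else 0 :=
          sum_le_sum_of_subset_of_nonneg (filter_subset _ _) fun j hj _ =>
            sum_nonneg fun uv _ => by split_ifs; exacts [(hq j hj).1, le_rfl]
      _ ≤ ∑ uv ∈ A.offDiag, γ := by
          rw [sum_comm]
          refine sum_le_sum fun uv huv => ?_
          rw [← sum_filter]
          exact hγ _ _ (mem_offDiag.mp huv).2.2
      _ ≤ _ := by
          rw [sum_const, nsmul_eq_mul, offDiag_card]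
          gcongr
          exact_mod_cast (Nat.sub_le _ _).trans (sq A.card).ge
  have h4 : 0 ≤ ∏ j ∈ meet J E A, (1 - q j) := prod_nonneg fun j hj => (hq' j hj).1
  have h5 : ∏ j ∈ meet J E A, (1 - q j) ≤ 1 :=
    prod_le_one (fun j hj => (hq' j hj).1) fun j hj => (hq' j hj).2
  have h6 : 0 ≤ (A.card : ℝ) ^ 2 * γ := by positivity
  rw [h1]
  nlinarith [mul_le_mul_of_nonneg_left (show 1 - A.card ^ 2 * γ ≤ _ from le_trans (by linarith) h2) h4]

end kill

variable {ι α : Type*} [DecidableEq ι] [DecidableEq α]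

/-- fractional matching with small pair loads -/
def Frac (I : Finset ι) (e : ι → Finset α) (w : ι → ℝ) (k : ℕ) (γ : ℝ) : Prop :=
  (∀ i ∈ I, 0 ≤ w i ∧ (e i).Nonempty ∧ (e i).card ≤ k) ∧
    (∀ u, ∑ i ∈ I with u ∈ e i, w i ≤ 1) ∧
    ∀ u v, u ≠ v → ∑ i ∈ I with (u ∈ e i ∧ v ∈ e i), w i ≤ γ

lemma exists_kill {I : Finset ι} {e : ι → Finset α} {w : ι → ℝ} {k : ℕ} {γ θ : ℝ}
    (h : Frac I e w k γ) (hθ : 0 < θ) (hθ' : θ ≤ 1 / 2) :
    ∃ q : ι ⊕ α → ℝ, (∀ i, q (.inl i) = θ * w i) ∧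
      (∀ j ∈ I.disjSum (I.biUnion e), 0 ≤ q j ∧ q j ≤ 1) ∧
      (∀ u ∈ I.biUnion e, ∏ j ∈ I.disjSum (I.biUnion e) with u ∈ Sum.elim e (fun v => {v}) j,
        (1 - q j) = 1 - θ) ∧
      ∀ u v, u ≠ v → ∑ j ∈ I.disjSum (I.biUnion e) with (u ∈ Sum.elim e (fun v => {v}) j ∧
        v ∈ Sum.elim e (fun v => {v}) j), q j ≤ γ := by
  have hw1 : ∀ i ∈ I, w i ≤ 1 := fun i hi => by
    obtain ⟨u, hu⟩ := (h.1 i hi).2.1
    exact le_trans (single_le_sum (f := w) (fun j hj => (h.1 j (mem_filter.mp hj).1).1)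
      (mem_filter.mpr ⟨hi, hu⟩)) (h.2.1 u)
  have hq : ∀ i ∈ I, 0 ≤ 1 - θ * w i ∧ 1 - θ * w i ≤ 1 := fun i hi => by
    have := (h.1 i hi).1
    have := hw1 i hi
    constructor <;> nlinarith
  set π : α → ℝ := fun u => ∏ i ∈ I with u ∈ e i, (1 - θ * w i) with hπ
  have hπ1 : ∀ u, 1 - θ ≤ π u := fun u => by
    have := one_sub_sum_le_prod (I.filter (u ∈ e ·)) (fun i => 1 - θ * w i)
      fun i hi => hq i (mem_filter.mp hi).1
    simp only [sub_sub_cancel, ← mul_sum] at this
    nlinarith [h.2.1 u]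
  refine ⟨Sum.elim (fun i => θ * w i) fun u => 1 - (1 - θ) / π u, fun _ => rfl, ?_, ?_, ?_⟩
  · rintro (i | u) hj
    · have := hq i (by simpa using hj)
      simp only [Sum.elim_inl]
      constructor <;> linarith [this.1, this.2]
    · have h1 := hπ1 u
      have h2 : 0 < π u := by linarith
      have h3 : (1 - θ) / π u ≤ 1 := (div_le_one h2).mpr h1
      have h4 : 0 ≤ (1 - θ) / π u := div_nonneg (by linarith) h2.le
      simp only [Sum.elim_inr]
      constructor <;> linarith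
  · intro u hu
    have h2 : 0 < π u := by linarith [hπ1 u]
    rw [prod_filter, prod_disjSum, ← prod_filter]
    simp only [Sum.elim_inl, Sum.elim_inr, mem_singleton, sub_sub_cancel]
    rw [prod_ite_eq, if_pos hu]
    change π u * _ = _
    field_simp
  · intro u v huv
    rw [sum_filter, sum_disjSum, ← sum_filter]
    simp only [Sum.elim_inl, Sum.elim_inr, mem_singleton]
    rw [sum_eq_zero (s := I.biUnion e) fun x _ => if_neg fun hx => huv (hx.1.trans hx.2.symm),
      add_zero, ← mul_sum]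
    have h1 := h.2.2 u v huv
    have h2 : 0 ≤ ∑ i ∈ I with (u ∈ e i ∧ v ∈ e i), w i :=
      sum_nonneg fun i hi => (h.1 i (mem_filter.mp hi).1).1
    nlinarith

lemma second_moment {I : Finset ι} {e : ι → Finset α} {w : ι → ℝ} {k : ℕ} {γ p : ℝ}
    (h : Frac I e w k γ) (hp : 1 / 2 ≤ p) (hp1 : p ≤ 1) (hγ : 0 ≤ γ) (P : Finset α → ℝ)
    (hP1 : ∀ A, P A ≤ 1) (hP : ∀ A ⊆ I.biUnion e, P A ≤ p ^ A.card + A.card ^ 2 * γ) (u : α) :
    ∑ i ∈ I with u ∈ e i, ∑ j ∈ I with u ∈ e j,
      w i / p ^ ((e i).card - 1) * (w j / p ^ ((e j).card - 1)) * P (e i ∪ e j) ≤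
      p * (∑ i ∈ I with u ∈ e i, w i) ^ 2 +
        4 ^ k * (4 * k ^ 2 + k) * γ * ∑ i ∈ I with u ∈ e i, w i := by
  have hp0 : 0 < p := by linarith
  have hinv : ∀ i ∈ I, ∀ j ∈ I, (p ^ ((e i).card - 1) * p ^ ((e j).card - 1))⁻¹ ≤ 4 ^ k := by
    intro i hi j hj
    have h1 : ∀ n ≤ k, (1 / 2 : ℝ) ^ k ≤ p ^ n := fun n hn =>
      (pow_le_pow_of_le_one (by norm_num) (by norm_num) hn).trans
        (pow_le_pow_left₀ (by norm_num) hp n)
    rw [inv_le_comm₀ (by positivity) (by positivity),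
      show ((4 : ℝ) ^ k)⁻¹ = (1 / 2) ^ k * (1 / 2) ^ k by rw [← mul_pow, ← inv_pow]; norm_num]
    exact mul_le_mul (h1 _ ((Nat.sub_le _ _).trans (h.1 i hi).2.2))
      (h1 _ ((Nat.sub_le _ _).trans (h.1 j hj).2.2)) (by positivity) (by positivity)
  set L := ∑ i ∈ I with u ∈ e i, w i with hL
  have hL0 : 0 ≤ L := sum_nonneg fun i hi => (h.1 i (mem_filter.mp hi).1).1
  have hL1 : L ≤ 1 := h.2.1 u
  calc _ ≤ ∑ i ∈ I with u ∈ e i, ∑ j ∈ I with u ∈ e j, (w i * w j * (p + 4 ^ k * (4 * k ^ 2 * γ)) +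
        4 ^ k * w i * ∑ v ∈ (e i).erase u, if v ∈ e j then w j else 0) := by
        refine sum_le_sum fun i hi => sum_le_sum fun j hj => ?_
        rw [mem_filter] at hi hj
        have wi := (h.1 i hi.1).1
        have wj := (h.1 j hj.1).1
        have h0 : 0 ≤ ∑ v ∈ (e i).erase u, if v ∈ e j then w j else 0 :=
          sum_nonneg fun v _ => by split_ifs; exacts [wj, le_rfl]
        have h1 := hinv i hi.1 j hj.1
        rw [div_mul_div_comm, div_eq_mul_inv]
        by_cases hc : ∃ v ∈ (e i).erase u, v ∈ e j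
        · obtain ⟨v, hv, hv'⟩ := hc
          have h2 : w j ≤ ∑ v ∈ (e i).erase u, if v ∈ e j then w j else 0 := by
            refine le_trans (by rw [if_pos hv']) (single_le_sum
              (f := fun v => if v ∈ e j then w j else 0) (fun v _ => ?_) hv)
            split_ifs; exacts [wj, le_rfl]
          calc _ ≤ w i * w j * (p ^ ((e i).card - 1) * p ^ ((e j).card - 1))⁻¹ * 1 :=
              mul_le_mul_of_nonneg_left (hP1 _) (by positivity)
            _ ≤ w i * w j * 4 ^ k * 1 := by gcongr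
            _ = 4 ^ k * w i * w j := by ring
            _ ≤ 4 ^ k * w i * ∑ v ∈ (e i).erase u, if v ∈ e j then w j else 0 := by gcongr
            _ ≤ _ := le_add_of_nonneg_left (by positivity)
        · have h2 : e i ∩ e j = {u} := by
            ext v
            simp only [mem_inter, mem_singleton]
            refine ⟨fun hv => ?_, fun hv => hv ▸ ⟨hi.2, hj.2⟩⟩
            by_contra h3
            exact hc ⟨v, mem_erase.mpr ⟨h3, hv.1⟩, hv.2⟩
          have h3 := card_union_add_card_inter (e i) (e j)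
          rw [h2, card_singleton] at h3
          have c1 := (h.1 i hi.1).2.1.card_pos
          have c2 := (h.1 j hj.1).2.1.card_pos
          have c3 := (h.1 i hi.1).2.2
          have c4 := (h.1 j hj.1).2.2
          have h4 : (e i ∪ e j).card = ((e i).card - 1) + ((e j).card - 1) + 1 := by omega
          have h5 := hP (e i ∪ e j) (union_subset (subset_biUnion_of_mem e hi.1)
            (subset_biUnion_of_mem e hj.1))
          have h6 : ((e i ∪ e j).card : ℝ) ≤ 2 * k := by exact_mod_cast (by omega)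
          have h7 : ((e i ∪ e j).card : ℝ) ^ 2 * γ ≤ 4 * k ^ 2 * γ := by
            gcongr; nlinarith [Nat.cast_nonneg (α := ℝ) (e i ∪ e j).card]
          refine le_add_of_le_of_nonneg ?_ (by positivity)
          rw [mul_assoc]
          gcongr
          calc _ ≤ (p ^ ((e i).card - 1) * p ^ ((e j).card - 1))⁻¹ *
                (p ^ (e i ∪ e j).card + 4 * k ^ 2 * γ) := by gcongr; linarith
            _ = p + (p ^ ((e i).card - 1) * p ^ ((e j).card - 1))⁻¹ * (4 * k ^ 2 * γ) := by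
              rw [h4, pow_succ, pow_add]; field_simp
            _ ≤ _ := by gcongr
    _ ≤ L ^ 2 * (p + 4 ^ k * (4 * k ^ 2 * γ)) + ∑ i ∈ I with u ∈ e i, 4 ^ k * w i * (k * γ) := by
        simp_rw [sum_add_distrib]
        refine add_le_add (le_of_eq ?_) (sum_le_sum fun i hi => ?_)
        · rw [sq L, hL, sum_mul_sum, sum_mul]
          simp_rw [sum_mul]
        · rw [mem_filter] at hi
          have wi := (h.1 i hi.1).1
          rw [← mul_sum, sum_comm]
          gcongr
          calc _ ≤ ∑ v ∈ (e i).erase u, γ := by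
                refine sum_le_sum fun v hv => ?_
                rw [← sum_filter, filter_filter]
                exact h.2.2 u v (mem_erase.mp hv).1.symm
            _ ≤ _ := by
                rw [sum_const, nsmul_eq_mul]
                gcongr
                exact card_erase_le.trans (h.1 i hi.1).2.2
    _ ≤ _ := by
        rw [← sum_mul, ← mul_sum, ← hL]
        have : L ^ 2 * (4 ^ k * (4 * k ^ 2 * γ)) ≤ L * (4 ^ k * (4 * k ^ 2 * γ)) := by
          gcongr; nlinarith
        nlinarith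

lemma rescale {I' : Finset ι} {e : ι → Finset α} {c : ι → ℝ} (U : Finset α)
    (hU : ∀ i ∈ I', e i ⊆ U) (hc : ∀ i ∈ I', 0 ≤ c i) :
    ∃ w' : ι → ℝ, (∀ i ∈ I', 0 ≤ w' i ∧ w' i ≤ c i) ∧ (∀ u, ∑ i ∈ I' with u ∈ e i, w' i ≤ 1) ∧
      ∑ i ∈ I', c i - ∑ u ∈ U, (∑ i ∈ I' with u ∈ e i, c i) *
        max (∑ i ∈ I' with u ∈ e i, c i - 1) 0 ≤ ∑ i ∈ I', w' i := by
  set X : α → ℝ := fun u => ∑ i ∈ I' with u ∈ e i, c i with hX
  have hy : ∀ u, 0 ≤ (max 1 (X u))⁻¹ ∧ (max 1 (X u))⁻¹ ≤ 1 := fun u =>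
    ⟨by positivity, inv_le_one_of_one_le₀ (le_max_left _ _)⟩
  refine ⟨fun i => c i * ∏ u ∈ e i, (max 1 (X u))⁻¹, fun i hi => ⟨?_, ?_⟩, fun u => ?_, ?_⟩
  · exact mul_nonneg (hc i hi) (prod_nonneg fun u _ => (hy u).1)
  · exact mul_le_of_le_one_right (hc i hi) (prod_le_one (fun u _ => (hy u).1) fun u _ => (hy u).2)
  · calc _ ≤ ∑ i ∈ I' with u ∈ e i, c i * (max 1 (X u))⁻¹ := by
          refine sum_le_sum fun i hi => ?_
          rw [mem_filter] at hi
          refine mul_le_mul_of_nonneg_left ?_ (hc i hi.1)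
          rw [← mul_prod_erase _ _ hi.2]
          exact mul_le_of_le_one_right (hy u).1
            (prod_le_one (fun u _ => (hy u).1) fun u _ => (hy u).2)
      _ ≤ 1 := by
          rw [← sum_mul, ← div_eq_mul_inv, div_le_one (by positivity)]
          exact le_max_right _ _
  · have h1 : ∑ u ∈ U, X u * max (X u - 1) 0 = ∑ i ∈ I', c i * ∑ u ∈ e i, max (X u - 1) 0 := by
      simp only [mul_sum]
      rw [sum_comm' (t' := U) (s' := fun u => I'.filter (u ∈ e ·))]
      · exact sum_congr rfl fun u _ => by rw [← sum_mul]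
      · intro i u
        simp only [mem_filter]
        exact ⟨fun h => ⟨h, hU i h.1 h.2⟩, fun h => h.1⟩
    change _ - ∑ u ∈ U, X u * max (X u - 1) 0 ≤ _
    rw [h1, ← sum_sub_distrib]
    refine sum_le_sum fun i hi => ?_
    rw [← mul_one_sub]
    refine mul_le_mul_of_nonneg_left (le_trans ?_ (one_sub_sum_le_prod _ _ fun u _ => hy u))
      (hc i hi)
    gcongr with u hu
    rcases le_total (X u) 1 with h | h
    · simp [max_eq_left h]
    · rw [max_eq_right h]
      refine le_trans ?_ (le_max_left _ _)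
      have h2 : 0 < X u := by linarith
      have h3 : (X u)⁻¹ * X u = 1 := inv_mul_cancel₀ h2.ne'
      have h4 : 0 < (X u)⁻¹ := by positivity
      nlinarith [sq_nonneg (X u - 1)]

lemma round {I : Finset ι} {e : ι → Finset α} {w : ι → ℝ} {k : ℕ} {γ θ c t : ℝ}
    (h : Frac I e w k γ) (hθ : 0 < θ) (hθ' : θ ≤ 1 / 2) (hγ : 0 ≤ γ) (hc0 : 0 ≤ c) (hc1 : c ≤ 1)
    (ht : 0 < t) :
    ∃ M ⊆ I, ∃ I' ⊆ I, ∃ w' : ι → ℝ, (M : Set ι).PairwiseDisjoint e ∧
      (∀ i ∈ M, ∀ i' ∈ I', Disjoint (e i) (e i')) ∧ Frac I' e w' k (2 ^ k * γ) ∧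
      (θ * (1 - k * θ) + c * (1 - θ) - k * (4 ^ k * (4 * k ^ 2 + k) * γ * (1 + 1 / t) + t)) *
        ∑ i ∈ I, w i ≤ M.card + c * ∑ i ∈ I', w' i := by
  obtain ⟨q, hq0, hq, hp, hqγ⟩ := exists_kill h hθ hθ'
  set U := I.biUnion e with hU
  set J := I.disjSum U with hJ
  set E : ι ⊕ α → Finset α := Sum.elim e (fun v => {v}) with hE
  set p := 1 - θ with hpd
  have hp0 : 0 < p := by linarith
  set ζ : ℝ := 4 ^ k * (4 * k ^ 2 + k) * γ with hζ
  set sv : Finset α → Finset (ι ⊕ α) → ℝ := fun A S =>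
    if Disjoint S (meet J E A) then 1 else 0 with hsv
  have hex : ∀ A, Ex J q (sv A) = ∏ j ∈ meet J E A, (1 - q j) := fun A =>
    Ex_avoid (filter_subset _ _)
  have hmul : ∀ A B S, sv A S * sv B S = sv (A ∪ B) S := by
    intro A B S
    have : meet J E (A ∪ B) = meet J E A ∪ meet J E B := by
      ext j; simp only [meet, mem_filter, mem_union, disjoint_union_right]; tauto
    simp only [hsv, this, disjoint_union_right]
    by_cases h1 : Disjoint S (meet J E A) <;> by_cases h2 : Disjoint S (meet J E B) <;>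
      simp [h1, h2]
  set cw : ι → ℝ := fun i => w i / p ^ ((e i).card - 1) with hcw
  have hcw0 : ∀ i ∈ I, 0 ≤ cw i := fun i hi => div_nonneg (h.1 i hi).1 (by positivity)
  set L : α → ℝ := fun u => ∑ i ∈ I with u ∈ e i, w i with hL
  have hL0 : ∀ u, 0 ≤ L u := fun u => sum_nonneg fun i hi => (h.1 i (mem_filter.mp hi).1).1
  set X : α → Finset (ι ⊕ α) → ℝ := fun u S => ∑ i ∈ I with u ∈ e i, cw i * sv (e i) S with hX
  have hE1 : ∀ i ∈ I, p * w i ≤ Ex J q fun S => cw i * sv (e i) S := by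
    intro i hi
    rw [Ex_mul, hex]
    have h1 := surv_lower hq (A := e i) fun u hu => hp u (subset_biUnion_of_mem e hi hu)
    refine le_trans (le_of_eq ?_) (mul_le_mul_of_nonneg_left h1 (hcw0 i hi))
    have := (h.1 i hi).2.1.card_pos
    rw [hcw, show (e i).card = (e i).card - 1 + 1 by omega, pow_succ]
    simp only [Nat.add_sub_cancel]
    field_simp
  have hE2 : ∀ u ∈ U, Ex J q (fun S => sv {u} S * (X u S - L u) ^ 2) ≤ ζ * L u := by
    intro u hu
    have e1 : ∀ S, sv {u} S * (X u S - L u) ^ 2 =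
        (∑ i ∈ I with u ∈ e i, ∑ j ∈ I with u ∈ e j, cw i * cw j * sv (e i ∪ e j) S) -
          2 * L u * X u S + L u ^ 2 * sv {u} S := by
      intro S
      have a1 : sv {u} S * X u S = X u S := by
        simp only [hX, mul_sum]
        refine sum_congr rfl fun i hi => ?_
        rw [mul_left_comm, hmul, union_eq_right.mpr (singleton_subset_iff.mpr (mem_filter.mp hi).2)]
      have a2 : X u S * X u S =
          ∑ i ∈ I with u ∈ e i, ∑ j ∈ I with u ∈ e j, cw i * cw j * sv (e i ∪ e j) S := by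
        simp only [hX]
        rw [sum_mul_sum]
        refine sum_congr rfl fun i _ => sum_congr rfl fun j _ => ?_
        rw [← hmul]; ring
      rw [← a2]
      linear_combination (X u S - 2 * L u) * a1
    simp_rw [e1]
    rw [Ex_add, Ex_sub, Ex_mul, Ex_mul, Ex_sum]
    simp_rw [Ex_sum, Ex_mul]
    have a3 := second_moment h (p := p) (by linarith) (by linarith) hγ (fun A => Ex J q (sv A))
      (fun A => by
        rw [← Ex_one (J := J) (q := q)]
        exact Ex_mono hq fun S => by simp only [hsv]; split_ifs <;> norm_num)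
      (fun A hA => by rw [hex]; exact surv_upper hq (fun u hu => hp u (hA hu)) hqγ hγ) u
    have a4 : p * L u ≤ Ex J q (X u) := by
      simp only [hX, hL]
      rw [Ex_sum, mul_sum]
      exact sum_le_sum fun i hi => hE1 i (mem_filter.mp hi).1
    have a5 : Ex J q (sv {u}) = p := by
      rw [hex, ← hp u hu]
      congr 1
      ext j; simp [meet]
    rw [a5]
    change _ ≤ p * L u ^ 2 + ζ * L u at a3
    nlinarith [hL0 u, mul_le_mul_of_nonneg_left a4 (hL0 u)]
  set Nb : ι → Finset (ι ⊕ α) := fun i =>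
    (I.filter fun j => j ≠ i ∧ ¬Disjoint (e j) (e i)).map Function.Embedding.inl with hNb
  set mt : ι → Finset (ι ⊕ α) → ℝ := fun i S =>
    if {Sum.inl i} ⊆ S ∧ Disjoint S (Nb i) then 1 else 0 with hmt
  have hE3 : ∀ i ∈ I, θ * (1 - k * θ) * w i ≤ Ex J q (mt i) := by
    intro i hi
    have hsub : Nb i ⊆ J := fun j hj => by
      obtain ⟨j', hj', rfl⟩ := mem_map.mp hj
      exact inl_mem_disjSum.mpr (mem_filter.mp hj').1
    rw [hmt, Ex_ind hsub (singleton_subset_iff.mpr (inl_mem_disjSum.mpr hi))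
      (disjoint_singleton_right.mpr (by simp [hNb])), prod_singleton, hq0, mul_right_comm]
    refine mul_le_mul_of_nonneg_left (le_trans ?_ (one_sub_sum_le_prod _ _ fun j hj => ?_))
      (mul_nonneg hθ.le (h.1 i hi).1)
    · simp only [sub_sub_cancel, hNb, sum_map, Function.Embedding.inl_apply, hq0, ← mul_sum]
      rw [mul_comm (k : ℝ)]
      gcongr
      calc _ ≤ ∑ j ∈ I, ∑ u ∈ e i, if u ∈ e j then w j else 0 := by
            rw [sum_filter]
            refine sum_le_sum fun j hj => ?_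
            have wj := (h.1 j hj).1
            have h0 : ∀ v ∈ e i, 0 ≤ if v ∈ e j then w j else 0 := fun v _ => by
              split_ifs; exacts [wj, le_rfl]
            split_ifs with hc
            · obtain ⟨v, h1, h2⟩ := not_disjoint_iff.mp hc.2
              exact le_trans (by rw [if_pos h1]) (single_le_sum h0 h2)
            · exact sum_nonneg h0
        _ ≤ ∑ u ∈ e i, (1 : ℝ) := by
            rw [sum_comm]
            exact sum_le_sum fun u _ => by rw [← sum_filter]; exact h.2.1 u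
        _ ≤ k := by simpa using (h.1 i hi).2.2
    · have := hq j (hsub hj)
      constructor <;> linarith [this.1, this.2]
  have hsumL : ∑ u ∈ U, L u ≤ k * ∑ i ∈ I, w i := by
    simp only [hL]
    rw [sum_comm' (t' := I) (s' := e), mul_sum]
    · refine sum_le_sum fun i hi => ?_
      rw [sum_const, nsmul_eq_mul]
      exact mul_le_mul_of_nonneg_right (by exact_mod_cast (h.1 i hi).2.2) (h.1 i hi).1
    · intro u i
      simp only [mem_filter]
      exact ⟨fun h => ⟨h.2.2, h.2.1⟩, fun h => ⟨subset_biUnion_of_mem e h.2 h.1, h.2, h.1⟩⟩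
  obtain ⟨S, hS⟩ := exists_ge_Ex hq fun S => ∑ i ∈ I, mt i S + c * ∑ i ∈ I, cw i * sv (e i) S -
    ∑ u ∈ U, ((1 + 1 / t) * (sv {u} S * (X u S - L u) ^ 2) + t * L u)
  rw [Ex_sub, Ex_add, Ex_mul, Ex_sum, Ex_sum, Ex_sum] at hS
  simp_rw [Ex_add, Ex_const] at hS
  have b1 := sum_le_sum hE3
  have b2 := sum_le_sum hE1
  have b3 : ∑ u ∈ U, (Ex J q (fun S => (1 + 1 / t) * (sv {u} S * (X u S - L u) ^ 2)) + t * L u) ≤
      (ζ * (1 + 1 / t) + t) * (k * ∑ i ∈ I, w i) := by
    refine le_trans ?_ (mul_le_mul_of_nonneg_left hsumL (by positivity))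
    rw [mul_sum]
    refine sum_le_sum fun u hu => ?_
    rw [Ex_mul]
    nlinarith [mul_le_mul_of_nonneg_left (hE2 u hu) (show 0 ≤ 1 + 1 / t by positivity)]
  rw [← mul_sum] at b1 b2
  set I' := I.filter fun i => Disjoint S (meet J E (e i)) with hI'
  obtain ⟨w', hw1, hw2, hw3⟩ := rescale (I' := I') (e := e) (c := cw) U
    (fun i hi => subset_biUnion_of_mem e (mem_filter.mp hi).1)
    (fun i hi => hcw0 i (mem_filter.mp hi).1)
  have hXI : ∀ u, ∑ i ∈ I' with u ∈ e i, cw i = X u S := by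
    intro u
    simp only [hX, hI', hsv, mul_ite, mul_one, mul_zero]
    rw [filter_comm, sum_filter]
  refine ⟨I.filter fun i => {Sum.inl i} ⊆ S ∧ Disjoint S (Nb i), filter_subset _ _, I',
    filter_subset _ _, w', ?_, ?_, ⟨fun i hi => ⟨(hw1 i hi).1, (h.1 i (mem_filter.mp hi).1).2⟩,
      hw2, fun u v huv => ?_⟩, ?_⟩
  · intro i hi j hj hij
    rw [mem_coe, mem_filter] at hi hj
    by_contra hc
    refine disjoint_left.mp hj.2.2 (hi.2.1 (mem_singleton_self _)) ?_
    exact mem_map.mpr ⟨i, mem_filter.mpr ⟨hi.1, hij, hc⟩, rfl⟩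
  · intro i hi j hj
    rw [mem_filter] at hi hj
    by_contra hc
    exact disjoint_left.mp hj.2 (hi.2.1 (mem_singleton_self _))
      (mem_filter.mpr ⟨inl_mem_disjSum.mpr hi.1, hc⟩)
  · calc _ ≤ ∑ i ∈ I' with (u ∈ e i ∧ v ∈ e i), 2 ^ k * w i := by
          refine sum_le_sum fun i hi => ?_
          have hi' := (mem_filter.mp hi).1
          have hi'' := (mem_filter.mp hi').1
          refine (hw1 i hi').2.trans ?_
          rw [hcw, div_le_iff₀ (by positivity), mul_right_comm]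
          refine le_mul_of_one_le_left (h.1 i hi'').1 ?_
          have h1 : (1 / 2 : ℝ) ^ k ≤ p ^ ((e i).card - 1) :=
            (pow_le_pow_of_le_one (by norm_num) (by norm_num)
              ((Nat.sub_le _ _).trans (h.1 i hi'').2.2)).trans
              (pow_le_pow_left₀ (by norm_num) (by linarith) _)
          calc (1 : ℝ) = 2 ^ k * (1 / 2) ^ k := by rw [← mul_pow]; norm_num
            _ ≤ _ := by gcongr
      _ ≤ ∑ i ∈ I with (u ∈ e i ∧ v ∈ e i), 2 ^ k * w i :=
          sum_le_sum_of_subset_of_nonneg (filter_subset_filter _ (filter_subset _ _))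
            fun i hi _ => mul_nonneg (by positivity) (h.1 i (mem_filter.mp hi).1).1
      _ ≤ _ := by rw [← mul_sum]; gcongr; exact h.2.2 u v huv
  · have c1 : ∑ i ∈ I, mt i S = (I.filter fun i => {Sum.inl i} ⊆ S ∧ Disjoint S (Nb i)).card := by
      simp only [hmt]; rw [sum_boole]
    have c2 : ∑ i ∈ I, cw i * sv (e i) S = ∑ i ∈ I', cw i := by
      simp only [hsv, mul_ite, mul_one, mul_zero]; rw [hI', sum_filter]
    simp_rw [hXI] at hw3
    have c3 : ∑ u ∈ U, X u S * max (X u S - 1) 0 ≤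
        ∑ u ∈ U, ((1 + 1 / t) * (sv {u} S * (X u S - L u) ^ 2) + t * L u) := by
      refine sum_le_sum fun u _ => ?_
      have d0 := hL0 u
      have d1 : L u ≤ 1 := h.2.1 u
      rcases le_total (X u S) 1 with hx | hx
      · rw [max_eq_right (by linarith), mul_zero]
        have : 0 ≤ sv {u} S := by simp only [hsv]; split_ifs <;> norm_num
        positivity
      · have d2 : sv {u} S = 1 := by
          by_contra hc
          have d3 : X u S = 0 := by
            refine sum_eq_zero fun i hi => ?_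
            have d4 := hmul {u} (e i) S
            rw [union_eq_right.mpr (singleton_subset_iff.mpr (mem_filter.mp hi).2)] at d4
            have d5 : sv {u} S = 0 := by
              simp only [hsv] at hc ⊢
              split_ifs with d6
              · simp [d6] at hc
              · rfl
            rw [← d4, d5, zero_mul, mul_zero]
          linarith
        rw [max_eq_left (by linarith), d2, one_mul]
        have d3 : X u S - L u ≤ t + (X u S - L u) ^ 2 / t := by
          rw [← sub_le_iff_le_add', le_div_iff₀ ht]; nlinarith [sq_nonneg (X u S - L u - t)]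
        have d4 : 0 ≤ (X u S - L u) ^ 2 / t := by positivity
        have d5 : (1 + 1 / t) * (X u S - L u) ^ 2 = (X u S - L u) ^ 2 + (X u S - L u) ^ 2 / t := by
          ring
        rw [d5]
        nlinarith [mul_le_mul_of_nonneg_left d3 d0]
    have c4 : 0 ≤ ∑ u ∈ U, X u S * max (X u S - 1) 0 := sum_nonneg fun u _ =>
      mul_nonneg ((hXI u) ▸ sum_nonneg fun i hi =>
        hcw0 i (mem_filter.mp (mem_filter.mp hi).1).1) (le_max_right _ _)
    rw [c1, c2] at hS
    nlinarith [mul_le_mul_of_nonneg_left hw3 hc0, mul_le_mul_of_nonneg_left b2 hc0,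
      mul_le_mul_of_nonneg_right hc1 c4]

lemma rounds (k : ℕ) {θ : ℝ} (hθ : 0 < θ) (hθ' : θ ≤ 1 / 2) (hk : k * θ ≤ 1) (r : ℕ) :
    ∀ η : ℝ, 0 < η → ∃ γ : ℝ, 0 < γ ∧ ∀ (ι α : Type) [DecidableEq ι] [DecidableEq α]
      (I : Finset ι) (e : ι → Finset α) (w : ι → ℝ), Frac I e w k γ →
      ∃ M ⊆ I, (M : Set ι).PairwiseDisjoint e ∧
        ((1 - k * θ) * (1 - (1 - θ) ^ r) - η) * ∑ i ∈ I, w i ≤ M.card := by
  induction r with
  | zero =>
    intro η hη
    refine ⟨1, one_pos, fun ι α _ _ I e w h => ⟨∅, empty_subset _, by simp, ?_⟩⟩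
    have : 0 ≤ ∑ i ∈ I, w i := sum_nonneg fun i hi => (h.1 i hi).1
    simp only [pow_zero, sub_self, mul_zero, zero_sub, card_empty, Nat.cast_zero]
    nlinarith
  | succ r ih =>
    intro η hη
    obtain ⟨γ, hγ, H⟩ := ih (η / 2) (by positivity)
    set t : ℝ := η / (4 * (k + 1)) with ht
    have ht0 : 0 < t := by positivity
    set B : ℝ := 4 ^ k * (4 * k ^ 2 + k) * (1 + 1 / t) + 1 with hB
    have hB0 : 0 < B := by positivity
    refine ⟨min (γ / 2 ^ k) (t / B), by positivity, fun ι α _ _ I e w h => ?_⟩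
    set c := max ((1 - k * θ) * (1 - (1 - θ) ^ r) - η / 2) 0 with hc
    have hp1 : 0 ≤ (1 - θ) ^ r := pow_nonneg (by linarith) r
    have hp2 : (1 - θ) ^ r ≤ 1 := pow_le_one₀ (by linarith) (by linarith)
    have hk0 : 0 ≤ k * θ := by positivity
    obtain ⟨M, hM, I', hI', w', h1, h2, h3, h4⟩ := round h hθ hθ' (by positivity)
      (le_max_right _ _ : 0 ≤ c) (max_le (by nlinarith) zero_le_one) ht0
    have h3' : Frac I' e w' k γ := ⟨h3.1, h3.2.1, fun u v huv => (h3.2.2 u v huv).trans (by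
      rw [← le_div_iff₀' (by positivity)]; exact min_le_left _ _)⟩
    obtain ⟨M', hM', h5, h6⟩ := H ι α I' e w' h3'
    have hd : Disjoint M M' := disjoint_left.mpr fun i hi hi' => by
      have := h2 i hi i (hM' hi')
      exact (h.1 i (hM hi)).2.1.ne_empty (disjoint_self_iff_empty _ |>.mp this)
    refine ⟨M ∪ M', union_subset hM (hM'.trans hI'), ?_, ?_⟩
    · rw [coe_union]
      exact h1.union h5 fun i hi j hj _ => h2 i hi j (hM' hj)
    · rw [card_union_of_disjoint hd]
      push_cast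
      have h7 : c * ∑ i ∈ I', w' i ≤ M'.card := by
        rcases le_total ((1 - k * θ) * (1 - (1 - θ) ^ r) - η / 2) 0 with h8 | h8
        · rw [hc, max_eq_right h8, zero_mul]; positivity
        · rwa [hc, max_eq_left h8]
      refine le_trans (mul_le_mul_of_nonneg_right ?_ (sum_nonneg fun i hi => (h.1 i hi).1))
        (h4.trans (by linarith))
      have h8 : 4 ^ k * (4 * k ^ 2 + k) * min (γ / 2 ^ k) (t / B) * (1 + 1 / t) ≤ t := by
        calc _ ≤ 4 ^ k * (4 * k ^ 2 + k) * (t / B) * (1 + 1 / t) := by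
              gcongr; exact min_le_right _ _
          _ = t * ((B - 1) / B) := by rw [hB]; ring
          _ ≤ t * 1 := by gcongr; rw [div_le_one hB0]; linarith
          _ = t := mul_one t
      have h9 : k * (t + t) ≤ η / 2 := by
        rw [ht, ← two_mul, ← mul_div_assoc, ← mul_div_assoc, div_le_div_iff₀ (by positivity)
          (by norm_num)]
        nlinarith
      have h10 : (k : ℝ) * (4 ^ k * (4 * k ^ 2 + k) * min (γ / 2 ^ k) (t / B) * (1 + 1 / t) + t) ≤
          k * (t + t) := by gcongr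
      have h11 : ((1 - k * θ) * (1 - (1 - θ) ^ r) - η / 2) * (1 - θ) ≤ c * (1 - θ) :=
        mul_le_mul_of_nonneg_right (le_max_left _ _) (by linarith)
      rw [pow_succ]
      nlinarith

/-- weighted Pippenger theorem -/
theorem exists_matching (k : ℕ) {ε : ℝ} (hε : 0 < ε) :
    ∃ γ : ℝ, 0 < γ ∧ ∀ (ι α : Type) [DecidableEq ι] [DecidableEq α]
      (I : Finset ι) (e : ι → Finset α) (w : ι → ℝ), Frac I e w k γ →
      ∃ M ⊆ I, (M : Set ι).PairwiseDisjoint e ∧ (1 - ε) * ∑ i ∈ I, w i ≤ M.card := by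
  set θ : ℝ := min (1 / 2) (min ε 1 / (3 * (k + 1))) with hθ
  have hθ0 : 0 < θ := by positivity
  have hθ1 : θ ≤ 1 / 2 := min_le_left _ _
  have hk : k * θ ≤ min ε 1 / 3 := by
    calc k * θ ≤ (k + 1) * (min ε 1 / (3 * (k + 1))) := by
          gcongr
          · linarith
          · exact min_le_right _ _
      _ = _ := by field_simp
  have m1 := min_le_left ε 1
  have m2 := min_le_right ε 1
  obtain ⟨r, hr⟩ := exists_pow_lt_of_lt_one (show 0 < ε / 3 by positivity)
    (show 1 - θ < 1 by linarith)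
  obtain ⟨γ, hγ, H⟩ := rounds k hθ0 hθ1 (by linarith) r (ε / 3) (by positivity)
  refine ⟨γ, hγ, fun ι α _ _ I e w h => ?_⟩
  obtain ⟨M, h1, h2, h3⟩ := H ι α I e w h
  refine ⟨M, h1, h2, le_trans (mul_le_mul_of_nonneg_right ?_
    (sum_nonneg fun i hi => (h.1 i hi).1)) h3⟩
  have : 0 ≤ k * θ * (1 - θ) ^ r := mul_nonneg (by positivity) (pow_nonneg (by linarith) r)
  nlinarith

end Pool.Agent.Lib.MP_0830d8_co
end

-- part Pool.Agent.Lib.MP_0830d8_co.Ex.Sys
section

/-! A residue system via the Chinese remainder theorem. -/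

namespace Pool.Agent.Lib.MP_0830d8_co.Ex

open Finset

section one
variable {A : Type} [Fintype A] [DecidableEq A] [AddCommGroup A]

/-- weights of a coupling of two nonzero elements with uniform difference -/
def cw (x y : A) : ℕ :=
  if x = 0 ∨ y = 0 then 0 else if x = y then Fintype.card A - 2 else Fintype.card A - 1

lemma cw_symm (x y : A) : cw x y = cw y x := by
  unfold cw
  simp only [or_comm, eq_comm (a := x) (b := y)]

omit [AddCommGroup A] in
lemma sum_off (a b : A) (hab : a ≠ b) (f : A → ℕ) (c : ℕ) (h : ∀ y, y ≠ a → y ≠ b → f y = c) :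
    ∑ y, f y = f a + f b + (Fintype.card A - 2) * c := by
  rw [← add_sum_erase _ _ (mem_univ a), ← add_sum_erase _ _ (mem_erase.2 ⟨hab.symm, mem_univ b⟩),
    sum_congr rfl (g := fun _ => c) (fun y hy => h y (mem_erase.1 (mem_erase.1 hy).2).1
      (mem_erase.1 hy).1), sum_const, card_erase_of_mem (mem_erase.2 ⟨hab.symm, mem_univ b⟩),
    card_erase_of_mem (mem_univ a), card_univ, smul_eq_mul, add_assoc]
  rfl

lemma cw_row (x : A) : ∑ y, cw x y ≤ Fintype.card A * (Fintype.card A - 2) := by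
  by_cases hx : x = 0
  · simp [cw, hx]
  rw [sum_off 0 x (Ne.symm hx) _ (Fintype.card A - 1) (fun y h1 h2 => by
    simp [cw, hx, h1, h2.symm])]
  have : 1 ≤ Fintype.card A := Fintype.card_pos
  obtain ⟨k, hk⟩ := Nat.exists_eq_add_of_le this
  simp only [cw, or_true, hx, or_self, if_true, if_false, hk, Nat.add_sub_cancel_left]
  exact le_of_eq (by ring)

lemma cw_diff (d : A) : ∑ x, cw x (x - d) = (Fintype.card A - 1) * (Fintype.card A - 2) := by
  by_cases hd : d = 0
  · rw [← add_sum_erase _ _ (mem_univ 0), sum_congr rfl (g := fun _ => Fintype.card A - 2)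
      (fun y hy => by simp [cw, hd, (mem_erase.1 hy).1]), sum_const,
      card_erase_of_mem (mem_univ _), card_univ]
    simp [cw]
  rw [sum_off 0 d (Ne.symm hd) _ (Fintype.card A - 1) (fun y h1 h2 => by
    have : y ≠ y - d := fun h => hd (sub_eq_self.1 h.symm)
    simp [cw, h1, sub_eq_zero, h2, this])]
  simp [cw, mul_comm]

end one

lemma card_fibre {B : Type} [Fintype B] (W : B → ℕ) (P : B → Prop) [DecidablePred P] {n : ℕ}
    (e : Fin n ≃ Σ p : B, Fin (W p)) :
    (univ.filter fun y => P (e y).1).card = ∑ p, if P p then W p else 0 := by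
  rw [card_filter, e.sum_comp (fun y => if P y.1 then 1 else 0), Fintype.sum_sigma]
  refine sum_congr rfl fun p _ => ?_
  split_ifs <;> simp

lemma sys_of (q : Fin 5 → ℕ) (hq : ∀ i, 8 ≤ q i) (hc : Pairwise (Function.onFun Nat.Coprime q)) :
    ∃ S : Sys, S.Q = ∏ i, q i ∧ S.SN.card = ∏ i, (q i - 1) := by
  classical
  have : ∀ i, NeZero (q i) := fun i => ⟨by have := hq i; omega⟩
  have : ∀ i, Fact (1 < q i) := fun i => ⟨by have := hq i; omega⟩
  have hQ : 0 < ∏ i, q i := prod_pos fun i _ => by have := hq i; omega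
  have : NeZero (∏ i, q i) := ⟨hQ.ne'⟩
  let e := ZMod.prodEquivPi q hc
  let W : ZMod (∏ i, q i) × ZMod (∏ i, q i) → ℕ := fun p => ∏ i, cw (e p.1 i) (e p.2 i)
  let SN : Finset (ZMod (∏ i, q i)) := univ.filter fun a => ∀ i, e a i ≠ 0
  have hSN : ∀ a, a ∈ SN ↔ ∀ i, e a i ≠ 0 := fun a => by simp [SN]
  have hsum : ∀ f : ∀ i, ZMod (q i) → ℕ, ∑ a, ∏ i, f i (e a i) = ∏ i, ∑ x, f i x := fun f => by
    rw [prod_univ_sum, Fintype.piFinset_univ]
    exact e.toEquiv.sum_comp fun x => ∏ i, f i (x i)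
  have hcard : SN.card = ∏ i, (q i - 1) := by
    have := hsum fun i x => if x ≠ 0 then 1 else 0
    simp only [prod_boole, mem_univ, forall_const] at this
    rw [card_filter, this]
    refine prod_congr rfl fun i _ => ?_
    rw [← card_filter, filter_ne', card_erase_of_mem (mem_univ _), card_univ, ZMod.card]
  have hrow : ∀ a, ∑ b, W (a, b) ≤ ∏ i, q i * (q i - 2) := fun a => by
    rw [hsum fun i y => cw (e a i) y]
    exact prod_le_prod' fun i _ => by simpa using cw_row (e a i)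
  have hdiff : ∀ d, ∑ a, W (a, a - d) = ∏ i, (q i - 1) * (q i - 2) := fun d => by
    simp only [W, map_sub, Pi.sub_apply]
    rw [hsum fun i x => cw x (x - e d i)]
    exact prod_congr rfl fun i _ => by simpa using cw_diff (e d i)
  have hpos : ∀ p, 0 < W p ↔ p.1 ∈ SN ∧ p.2 ∈ SN := fun p => by
    rw [hSN, hSN, CanonicallyOrderedAdd.prod_pos, ← forall_and]
    refine forall_congr' fun i => ?_
    have := hq i
    simp only [mem_univ, forall_const, cw, ZMod.card]
    split_ifs with h1 h2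
    · simpa [← not_or] using h1
    · exact iff_of_true (by omega) (not_or.1 h1)
    · exact iff_of_true (by omega) (not_or.1 h1)
  let E := (Fintype.equivFin (Σ p, Fin (W p))).symm
  have hd : ∀ d, (univ.filter fun y => (E y).1.1 - (E y).1.2 = d).card =
      ∏ i, (q i - 1) * (q i - 2) := fun d => by
    rw [card_fibre W (fun p => p.1 - p.2 = d) E, Fintype.sum_prod_type, ← hdiff d]
    refine sum_congr rfl fun a _ => ?_
    have : ∀ b, a - b = d ↔ b = a - d := fun b => by
      constructor <;> rintro rfl <;> simp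
    simp only [this, sum_ite_eq', mem_univ, if_true]
  have hn : Fintype.card (Σ p, Fin (W p)) = (∏ i, (q i - 1) * (q i - 2)) * ∏ i, q i := by
    rw [← Fintype.card_fin (Fintype.card _), ← card_univ,
      card_eq_sum_card_fiberwise (f := fun y => (E y).1.1 - (E y).1.2) (t := univ)
        (fun _ _ => mem_univ _)]
    simp only [hd, sum_const, card_univ, ZMod.card, smul_eq_mul, mul_comm]
  have hn' : (∏ i, q i * (q i - 2)) * SN.card = Fintype.card (Σ p, Fin (W p)) := by
    rw [hn, hcard, ← prod_mul_distrib, ← prod_mul_distrib]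
    exact prod_congr rfl fun i _ => by ring
  have hp : 0 < ∏ i, (q i - 1) * (q i - 2) := prod_pos fun i _ => by
    have := hq i
    exact Nat.mul_pos (by omega) (by omega)
  refine ⟨⟨∏ i, q i, hQ, SN, _, hn ▸ Nat.mul_pos hp hQ, fun y => (E y).1.1, fun y => (E y).1.2,
    fun y => ((hpos _).1 (E y).2.pos).1, fun y => ((hpos _).1 (E y).2.pos).2, fun a => ?_,
    fun a => ?_, fun a => ?_, fun a ha b hb => ?_, fun a => ?_, fun z s hs => ?_⟩, rfl, hcard⟩
  · refine le_trans (Nat.mul_le_mul_right _ (le_trans (le_of_eq ?_) (hrow a))) hn'.le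
    convert card_fibre W (fun p => p.1 = a) E
    rw [Fintype.sum_prod_type_right]
    simp
  · refine le_trans (Nat.mul_le_mul_right _ (le_trans (le_of_eq ?_) (hrow a))) hn'.le
    convert card_fibre W (fun p => p.2 = a) E
    rw [Fintype.sum_prod_type]
    simp [W, cw_symm (e a _)]
  · refine le_trans (le_of_eq ?_) hn.ge
    rw [← hd a]
  · exact ⟨E.symm ⟨(a, b), ⟨0, (hpos _).2 ⟨ha, hb⟩⟩⟩, by simp⟩
  · obtain ⟨y, hy⟩ := card_pos.1 (hd a ▸ hp)
    exact ⟨y, (mem_filter.1 hy).2⟩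
  · let d : ∀ i, ZMod (q i) := Fin.lastCases 1 fun j => -e (s j * z j) j.castSucc
    refine ⟨e.symm d, fun j hj => (hSN _).1 hj j.castSucc ?_, fun d' hd' X hX => ?_⟩
    · have h1 : s j * s j = 1 := by rcases hs j with h | h <;> simp [h]
      have h2 : e (s j) j.castSucc * e (s j) j.castSucc = 1 := by
        rw [← Pi.mul_apply, ← map_mul, h1, map_one, Pi.one_apply]
      simp only [map_add, map_mul, RingEquiv.apply_symm_apply, Pi.add_apply, Pi.mul_apply, d,
        Fin.lastCases_castSucc]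
      linear_combination (-e (z j) j.castSucc) * h2
    · have h4 : e d' (Fin.last 4) ≠ 0 := by
        have hl : d (Fin.last 4) = 1 := Fin.lastCases_last
        rcases hd' with h | h
        · rw [h, RingEquiv.apply_symm_apply, hl]
          exact one_ne_zero
        · rw [h, map_neg, RingEquiv.apply_symm_apply, Pi.neg_apply, hl]
          exact neg_ne_zero.2 one_ne_zero
      let R : ZMod (q 0) → ZMod (∏ i, q i) := fun t => e.symm (Function.update (Function.update
        (fun i => 1 - e d' i) (Fin.last 4) 0) 0 (t - e d' 0))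
      have hR : Function.Injective R := fun t t' h => by
        simpa using congrFun (e.symm.injective h) 0
      have hlt : X.card < ((univ.erase 0).image R).card := by
        rw [card_image_of_injective _ hR, card_erase_of_mem (mem_univ _), card_univ, ZMod.card]
        have := hq 0
        omega
      obtain ⟨_, h1, h2⟩ := exists_mem_notMem_of_card_lt_card hlt
      obtain ⟨t, ht, rfl⟩ := mem_image.1 h1
      refine ⟨R t, h2, fun h => (hSN _).1 h (Fin.last 4) ?_, (hSN _).2 fun i => ?_⟩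
      · simp only [R, RingEquiv.apply_symm_apply]
        rw [Function.update_of_ne (by decide), Function.update_self]
      · simp only [R, map_add, RingEquiv.apply_symm_apply, Pi.add_apply]
        by_cases h0 : i = 0
        · subst h0
          simpa using (mem_erase.1 ht).1
        rw [Function.update_of_ne h0]
        by_cases h5 : i = Fin.last 4
        · subst h5
          simpa using h4
        · rw [Function.update_of_ne h5]
          simp

theorem exists_sys {r : ℝ} (hr : 0 < r) : ∃ S : Sys, (1 - r) * S.Q ≤ S.SN.card := by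
  obtain ⟨m, hm⟩ := exists_nat_ge (5 / r)
  obtain ⟨q, hq, hc⟩ : ∃ q : Fin 5 → ℕ, (∀ i, m + 8 ≤ q i) ∧
      Pairwise (Function.onFun Nat.Coprime q) :=
    ⟨fun i => Nat.fermatNumber (m + 8 + i),
      fun i => le_trans (Nat.le_add_right _ _) Nat.fermatNumber_strictMono.le_apply,
      fun i j hij => Nat.coprime_fermatNumber_fermatNumber (by simpa [Fin.val_inj] using hij)⟩
  obtain ⟨S, h1, h2⟩ := sys_of q (fun i => le_trans (by omega) (hq i)) hc
  refine ⟨S, ?_⟩
  rw [h2, h1]
  obtain ⟨u, hu⟩ : ∃ u : ℝ, u = 1 / ((m : ℝ) + 8) := ⟨_, rfl⟩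
  have hu0 : 0 < u := by rw [hu]; positivity
  have hu1 : u ≤ 1 := by
    rw [hu, div_le_one (by positivity)]
    have : (0 : ℝ) ≤ m := m.cast_nonneg
    linarith
  have h3 : 5 * u ≤ r := by
    rw [div_le_iff₀ hr] at hm
    rw [hu, mul_one_div, div_le_iff₀ (by positivity)]
    nlinarith
  have h4 : 1 - r ≤ (1 - u) ^ 5 := by
    have := one_add_mul_le_pow (a := -u) (by linarith) 5
    rw [← sub_eq_add_neg] at this
    push_cast at this
    linarith
  calc (1 - r) * ((∏ i, q i : ℕ) : ℝ) ≤ (1 - u) ^ 5 * ((∏ i, q i : ℕ) : ℝ) := by gcongr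
    _ = ∏ i, (1 - u) * (q i : ℝ) := by rw [prod_mul_distrib]; simp
    _ ≤ _ := by
      rw [Nat.cast_prod]
      refine prod_le_prod (fun i _ => mul_nonneg (by linarith) (q i).cast_nonneg) fun i _ => ?_
      have h5 : ((m : ℝ) + 8) ≤ q i := by exact_mod_cast hq i
      rw [Nat.cast_sub (by have := hq i; omega)]
      have h6 : u * ((m : ℝ) + 8) = 1 := by rw [hu]; field_simp
      push_cast
      nlinarith

end Pool.Agent.Lib.MP_0830d8_co.Ex
end
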