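import Pool.Agent.Lib.MP_0830d8_co.Ex.Nib1
import Pool.Agent.Lib.MP_0830d8_co.Tree
import Pool.Agent.Lib.MP_0830d8_co.Ex.Sys
import Pool.Agent.Lib.MP_0830d8_co.Ex.Small
import Pool.Agent.Lib.MP_0830d8_co.Ex.Init2
import Pool.Agent.Lib.MP_0830d8_co.Ex.Fix2

-- part Pool.Agent.Lib.MP_0830d8_co.Ex.Regime1
section

/-!
Trees with many inner vertices.
-/

set_option linter.unusedSectionVars false

namespace Pool.Agent.Lib.MP_0830d8_co.Ex

open Finset

lemma pool_card (Q : ℕ) [NeZero Q] (a : ℤ) (L : ℕ) (j : ZMod Q) :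
    (L : ℝ) / Q - 1 ≤ ((Ioc a (a + L)).filter fun z : ℤ => (z : ZMod Q) = j).card := by
  have hQ : 0 < Q := Nat.pos_of_ne_zero (NeZero.ne Q)
  have hQ0 : (0 : ℝ) < Q := by exact_mod_cast hQ
  set t : ℕ := (j - ((a + 1 : ℤ) : ZMod Q)).val with ht
  have ht1 : t < Q := ZMod.val_lt _
  have h1 : (range (L / Q)).card ≤ ((Ioc a (a + L)).filter fun z : ℤ => (z : ZMod Q) = j).card := by
    refine card_le_card_of_injOn (fun i => a + 1 + t + Q * i) (fun i hi => ?_) fun i _ i' _ h => ?_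
    · have h2 : i + 1 ≤ L / Q := mem_range.mp hi
      have h3 : Q * (i + 1) ≤ L := (Nat.mul_le_mul_left _ h2).trans (Nat.mul_div_le _ _)
      have h4 : (Q : ℤ) * (i + 1) ≤ L := by exact_mod_cast h3
      have h5 : (0 : ℤ) ≤ Q * i := by positivity
      have h6 : (t : ℤ) < Q := by exact_mod_cast ht1
      refine mem_filter.mpr ⟨mem_Ioc.mpr ⟨by simp only; omega, by simp only; linarith⟩, ?_⟩
      simp only [ht]
      push_cast
      rw [ZMod.natCast_zmod_val, ZMod.natCast_self]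
      ring
    · have h2 : (Q : ℤ) * i = Q * i' := by simp only at h; linarith
      exact_mod_cast mul_left_cancel₀ (show (Q : ℤ) ≠ 0 by exact_mod_cast hQ.ne') h2
  rw [card_range] at h1
  have h2 : (L : ℝ) < Q * ((L / Q : ℕ) + 1) := by exact_mod_cast Nat.lt_mul_div_succ L hQ
  have h3 : ((L / Q : ℕ) : ℝ) ≤ _ := Nat.cast_le.mpr h1
  rw [sub_le_iff_le_add, div_le_iff₀ hQ0]
  nlinarith

variable {V : Type} [Fintype V] [DecidableEq V]

lemma om_leaf {T : RT V} {ep : V → Finset V} {ω0 : V → ℤ} {a0 : ℤ} {γ : ℝ} (H : Hyp T ep ω0 a0 γ)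
    (α : V → ℤ) {x : V} (hx : x ∈ T.lv) : T.om ep ω0 α x = ω0 x + α x := by
  rw [RT.om, sum_eq_single_of_mem (s := T.lv.filter fun y => x ∈ ep y) x
    (mem_filter.mpr ⟨hx, H.self x hx⟩) fun y hy hne =>
    absurd (H.ind y (mem_filter.mp hy).1 x (mem_filter.mp hy).2 hx).symm hne]

lemma early1 (Q : ℕ) [NeZero Q] {T : RT V} {ep : V → Finset V} {ω0 : V → ℤ} {a0 : ℤ} {γ κ : ℝ}
    (K : ℕ) (H : Hyp T ep ω0 a0 (γ / 4)) (Φ : Finset V) (hΦ : Φ ⊆ T.lv) (hK : 8 ≤ γ * K)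
    (h8 : 8 ≤ γ * Fintype.card V) (hκ : 0 < κ) (herr : 12 * Q ≤ κ ^ 2 * Fintype.card V)
    (hX : 2 * (Q * (κ * Fintype.card V + 2 + K)) ≤ γ * Fintype.card V / 2)
    (hp : Φ.Nonempty → (2 * Φ.card + K + 1 : ℝ) < T.lv.card / Q) :
    ∃ α : V → ℤ, Set.BijOn α T.lv (Set.Ioc a0 (a0 + T.lv.card)) ∧
      (∀ j, ((T.lv.filter fun x => ((T.om ep ω0 α x : ℤ) : ZMod Q) = j).card : ℝ) ≤
        T.lv.card / Q + (κ * Fintype.card V + Q * (κ * Fintype.card V + 2 + K))) ∧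
      (∀ j, Φ.card / Q - κ * Fintype.card V ≤
        (Φ.filter fun x => ((T.om ep ω0 α x : ℤ) : ZMod Q) = j).card) ∧
      (∀ z, z ≠ 0 → ((univ.filter fun v => T.om ep ω0 α v = z).card : ℝ) ≤ γ * Fintype.card V) ∧
      (∀ x ∈ T.lv, T.om ep ω0 α x ≠ 0) ∧ Set.InjOn (T.om ep ω0 α) Φ := by
  classical
  set N : ℝ := (Fintype.card V : ℝ) with hN
  have hN0 : 0 ≤ N := Nat.cast_nonneg _
  have hQ0 : (0 : ℝ) < Q := by exact_mod_cast Nat.pos_of_ne_zero (NeZero.ne Q)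
  obtain ⟨c, hc⟩ := bal_events (Ω := ZMod Q) (J := ZMod Q ⊕ ZMod Q ⊕ ZMod Q) T.lv id 1
    (fun t => card_le_one.mpr fun a ha b hb => (mem_filter.mp ha).2.trans (mem_filter.mp hb).2.symm)
    (fun j v y => Sum.elim (fun j => y = j) (Sum.elim (fun j => (ω0 v : ZMod Q) + y = j)
      fun j => v ∈ Φ ∧ (ω0 v : ZMod Q) + y = j) j) (fun _ _ => 1) (fun _ _ => by norm_num)
    (κ * N) (by positivity) (by
      simp only [Fintype.card_sum, ZMod.card, ← hN]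
      push_cast
      nlinarith [mul_le_mul_of_nonneg_left herr hN0])
  have one : ∀ a j : ZMod Q, (univ.filter fun y => a + y = j).card = 1 := fun a j =>
    card_eq_one.mpr ⟨j - a, Finset.ext fun y => by
      simp only [mem_filter, mem_univ, true_and, mem_singleton]
      exact ⟨fun h => by rw [← h]; ring, fun h => by rw [h]; ring⟩⟩
  have c1 : ∀ j, ((T.lv.filter fun x => c x = j).card : ℝ) ≤ T.lv.card / Q + κ * N := by
    intro j
    have h1 : ∑ v ∈ T.lv with c v = j, (1 : ℝ) - ∑ v ∈ T.lv,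
        1 * ((univ.filter fun y : ZMod Q => y = j).card : ℝ) / Fintype.card (ZMod Q) ≤ κ * N := by
      convert (abs_le.mp (hc (.inl j))).2 <;> rfl
    simp only [filter_eq', mem_univ, if_true, card_singleton, sum_const, nsmul_eq_mul, ZMod.card,
      Nat.cast_one, mul_one, mul_one_div] at h1
    linarith
  have c2 : ∀ j, ((T.lv.filter fun x => (ω0 x : ZMod Q) + c x = j).card : ℝ) ≤
      T.lv.card / Q + κ * N := by
    intro j
    have h1 : ∑ v ∈ T.lv with (ω0 v : ZMod Q) + c v = j, (1 : ℝ) - ∑ v ∈ T.lv,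
        1 * ((univ.filter fun y : ZMod Q => (ω0 v : ZMod Q) + y = j).card : ℝ) /
          Fintype.card (ZMod Q) ≤ κ * N := by
      convert (abs_le.mp (hc (.inr (.inl j)))).2 <;> rfl
    simp only [one, sum_const, nsmul_eq_mul, ZMod.card, Nat.cast_one, mul_one, mul_one_div] at h1
    linarith
  have c3 : ∀ j, Φ.card / Q - κ * N ≤ (Φ.filter fun x => (ω0 x : ZMod Q) + c x = j).card := by
    intro j
    have h1 : -(κ * N) ≤ ∑ v ∈ T.lv with (v ∈ Φ ∧ (ω0 v : ZMod Q) + c v = j), (1 : ℝ) -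
        ∑ v ∈ T.lv, 1 * ((univ.filter fun y : ZMod Q => v ∈ Φ ∧ (ω0 v : ZMod Q) + y = j).card : ℝ) /
          Fintype.card (ZMod Q) := by
      convert (abs_le.mp (hc (.inr (.inr j)))).1 <;> rfl
    rw [← filter_filter, filter_mem_eq_inter, inter_eq_right.mpr hΦ,
      ← sum_subset hΦ fun v _ hv => by simp [hv],
      sum_congr (s₁ := Φ) rfl (g := fun _ => (1 / Q : ℝ)) fun v hv => by simp [hv, one]] at h1
    simp only [sum_const, nsmul_eq_mul, mul_one, mul_one_div] at h1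
    linarith
  have hμ1 : γ * N / 2 - 1 < ⌊γ * N / 2⌋₊ := Nat.sub_one_lt_floor _
  have hμ2 : (⌊γ * N / 2⌋₊ : ℝ) ≤ γ * N / 2 := Nat.floor_le (by linarith)
  have hμ3 : 2 ≤ ⌊γ * N / 2⌋₊ := Nat.le_floor (by push_cast; linarith)
  obtain ⟨α, X, b1, b2, b3, b4, b5, b6⟩ := early T.lv Φ hΦ ep H.two ω0 ω0 a0
    (fun z => (z : ZMod Q)) c ⌊γ * N / 2⌋₊ K (⌈κ * N⌉₊ + 1) hμ3 (by
      have : 2 * N ≤ ((⌊γ * N / 2⌋₊ - 1 : ℕ) : ℝ) * K := by
        rw [Nat.cast_sub (by omega), Nat.cast_one]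
        have h1 : γ * N / 4 ≤ ⌊γ * N / 2⌋₊ - 1 := by linarith
        nlinarith [mul_le_mul_of_nonneg_left hK hN0,
          mul_le_mul_of_nonneg_right h1 (Nat.cast_nonneg (α := ℝ) K)]
      rw [hN] at this
      exact_mod_cast this)
    (fun z hz => Nat.le_floor ((H.mult z hz).trans (by rw [← hN]; linarith))) (fun j => by
      have h1 := pool_card Q a0 T.lv.card j
      have h2 := Nat.le_ceil (κ * N)
      have h3 := c1 j
      have : ((T.lv.filter fun x => c x = j).card : ℝ) ≤ ((Ioc a0 (a0 + T.lv.card)).filter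
          fun z : ℤ => (z : ZMod Q) = j).card + ((⌈κ * N⌉₊ + 1 : ℕ) : ℝ) := by
        push_cast; linarith
      exact_mod_cast this) (fun e he => by
      have h1 := pool_card Q a0 T.lv.card (c e)
      have h2 := hp ⟨e, he⟩
      have : (2 * Φ.card + K : ℝ) < ((Ioc a0 (a0 + T.lv.card)).filter
          fun z : ℤ => (z : ZMod Q) = c e).card := by linarith
      exact_mod_cast this)
  have hXc : (X.card : ℝ) ≤ Q * (κ * N + 2 + K) := by
    have h1 : (X.card : ℝ) ≤ _ := Nat.cast_le.mpr b3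
    rw [ZMod.card] at h1
    push_cast at h1
    have h2 := Nat.ceil_lt_add_one (show 0 ≤ κ * N by positivity)
    refine h1.trans (mul_le_mul_of_nonneg_left (by linarith) hQ0.le)
  have hom : ∀ x ∈ T.lv, x ∉ X → ((T.om ep ω0 α x : ℤ) : ZMod Q) = ω0 x + c x := by
    intro x h1 h2
    rw [om_leaf H α h1, Int.cast_add, ← b4 x (mem_sdiff.mpr ⟨h1, h2⟩)]
  refine ⟨α, b1, fun j => ?_, fun j => (c3 j).trans (le_of_eq ?_), fun z hz => ?_,
    fun x hx => ?_, fun x hx y hy e => b6 hx hy ?_⟩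
  · have h1 : (T.lv.filter fun x => ((T.om ep ω0 α x : ℤ) : ZMod Q) = j) ⊆
        (T.lv.filter fun x => (ω0 x : ZMod Q) + c x = j) ∪ X := fun x hx => by
      by_cases h : x ∈ X
      · exact mem_union_right _ h
      · obtain ⟨h2, h3⟩ := mem_filter.mp hx
        exact mem_union_left _ (mem_filter.mpr ⟨h2, hom x h2 h ▸ h3⟩)
    have h2 := Nat.cast_le (α := ℝ).mpr ((card_le_card h1).trans (card_union_le _ _))
    push_cast at h2
    linarith [c2 j]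
  · exact congrArg _ (congrArg _ (filter_congr fun x hx => by
      rw [hom x (hΦ hx) fun h => (mem_sdiff.mp (b2 h)).2 hx]))
  · have h1 := Nat.cast_le (α := ℝ).mpr (b5 z hz)
    push_cast at h1
    exact le_trans h1 (by linarith)
  · rw [om_leaf H α hx]
    have h1 := (b1.mapsTo hx).1
    have := H.nn x
    have := H.a0
    omega
  · rw [om_leaf H α (hΦ hx), om_leaf H α (hΦ hy)] at e
    exact e

lemma card_U (T : RT V) (Z : Finset V) : (Zᶜ \ T.K Z).card ≤ Z.card := by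
  refine (card_le_card (t := Z.image T.π) fun v hv => ?_).trans card_image_le
  obtain ⟨h1, h2⟩ := mem_sdiff.mp hv
  rw [T.mem_K] at h2
  push Not at h2
  obtain ⟨c, -, c2, c3⟩ := h2 (mem_compl.mp h1)
  exact mem_image.mpr ⟨c, c3, c2⟩

lemma exists_flex (T : RT V) (Z : Finset V) (hr : T.r ∈ Z) (P p : ℕ) (hp : 3 * p ≤ P)
    (hP : 3 * Z.card + 3 * P + T.lv.card ≤ Fintype.card V) :
    ∃ Φ : Finset V, Φ.card = p ∧ Set.InjOn T.π Φ ∧
      (∀ x ∈ Φ, x ∈ T.K Z ∧ T.π x ∈ T.K Z ∧ (x ∈ T.lv ∨ ∃ c, c ≠ T.r ∧ T.π c = x ∧ c ∉ T.lv)) ∧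
      (∀ x ∈ Φ, ∀ x' ∈ Φ, T.d x' ≠ T.d x + 2) ∧
      ((Φ ⊆ T.lv ∧ P ≤ T.lv.card) ∨ ∀ x ∈ Φ, x ∉ T.lv) := by
  classical
  suffices h : ∃ F : Finset V, P ≤ F.card ∧ Set.InjOn T.π F ∧ (∀ x ∈ F, x ∈ T.K Z ∧
      T.π x ∈ T.K Z ∧ (x ∈ T.lv ∨ ∃ c, c ≠ T.r ∧ T.π c = x ∧ c ∉ T.lv)) ∧
      (F ⊆ T.lv ∨ ∀ x ∈ F, x ∉ T.lv) by
    obtain ⟨F, h1, h2, h3, h4⟩ := h
    obtain ⟨i, -, hi⟩ := exists_le_card_fiber_of_mul_le_card_of_maps_to (s := F) (t := range 3)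
      (f := fun v => T.d v % 3) (n := p) (fun v _ => mem_range.mpr (Nat.mod_lt _ (by norm_num)))
      (by simp) (by rw [card_range]; omega)
    obtain ⟨Φ, a1, a2⟩ := exists_subset_card_eq hi
    have a3 : Φ ⊆ F := a1.trans (filter_subset _ _)
    refine ⟨Φ, a2, h2.mono (coe_subset.mpr a3), fun x hx => h3 x (a3 hx), fun x hx x' hx' => ?_,
      h4.imp (fun h => ⟨a3.trans h, h1.trans (card_le_card h)⟩) fun h x hx => h x (a3 hx)⟩
    have := (mem_filter.mp (a1 hx)).2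
    have := (mem_filter.mp (a1 hx')).2
    omega
  set K' := (T.K Z).filter (· ∉ T.lv) with hK'
  set Y1 := K'.filter fun y => ∃ x ∈ T.lv, T.π x = y with hY1
  have hsp' : ∀ y, ∃ x, y ∈ K' → x ∈ T.ch Z y ∧ (y ∈ Y1 → x ∈ T.lv) := by
    intro y
    by_cases h : y ∈ Y1
    · obtain ⟨h1, x, h2, h3⟩ := mem_filter.mp h
      exact ⟨x, fun _ => ⟨T.mem_ch.mpr ⟨(T.mem_K.mp (mem_filter.mp h1).1).2 x
        (T.mem_lv.mp h2).1 h3, h3⟩, fun _ => h2⟩⟩
    · by_cases h' : y ∈ K'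
      · obtain ⟨x, hx⟩ := ch_ne hr (mem_filter.mp h').1 (mem_filter.mp h').2
        exact ⟨x, fun _ => ⟨hx, fun a => absurd a h⟩⟩
      · exact ⟨y, fun a => absurd a h'⟩
  choose sp hsp using hsp'
  have s1 : ∀ y ∈ K', T.π (sp y) = y := fun y hy => (T.mem_ch.mp (hsp y hy).1).2
  have s2 : Set.InjOn sp K' := fun y hy y' hy' e => by rw [← s1 y hy, e, s1 y' hy']
  have s3 : ∀ A ⊆ K', Set.InjOn T.π (A.image sp) := fun A hA x hx x' hx' e => by
    obtain ⟨y, hy, rfl⟩ := mem_image.mp hx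
    obtain ⟨y', hy', rfl⟩ := mem_image.mp hx'
    rw [s1 y (hA hy), s1 y' (hA hy')] at e
    rw [e]
  have s4 : ∀ A ⊆ K', (A.image sp).card = A.card := fun A hA =>
    card_image_of_injOn (s2.mono (coe_subset.mpr hA))
  by_cases h : P ≤ Y1.card
  · have hA : Y1 ⊆ K' := filter_subset _ _
    refine ⟨Y1.image sp, by rwa [s4 _ hA], s3 _ hA, fun x hx => ?_,
      Or.inl (image_subset_iff.mpr fun y hy => (hsp y (hA hy)).2 hy)⟩
    obtain ⟨y, hy, rfl⟩ := mem_image.mp hx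
    have a1 := (hsp y (hA hy)).2 hy
    refine ⟨lv_mem_K a1 (T.mem_ch.mp (hsp y (hA hy)).1).1, ?_, Or.inl a1⟩
    rw [s1 y (hA hy)]
    exact (mem_filter.mp (hA hy)).1
  · set A := K'.filter fun y => y ∉ Y1 ∧ sp y ∈ T.K Z ∧ sp y ∉ Y1 with hA'
    have hA : A ⊆ K' := filter_subset _ _
    have a0 : ∀ y ∈ A, sp y ∉ T.lv := fun y hy hl =>
      (mem_filter.mp hy).2.1 (mem_filter.mpr ⟨hA hy, sp y, hl, s1 y (hA hy)⟩)
    refine ⟨A.image sp, ?_, s3 _ hA, fun x hx => ?_,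
      Or.inr fun x hx => by obtain ⟨y, hy, rfl⟩ := mem_image.mp hx; exact a0 y hy⟩
    · rw [s4 _ hA]
      have a1 : (univ : Finset V) ⊆ Z ∪ (Zᶜ \ T.K Z) ∪ T.lv ∪ K' := fun v _ => by
        simp only [hK', mem_union, mem_sdiff, mem_compl, mem_filter]
        tauto
      have a2 : K' ⊆ A ∪ Y1 ∪ K'.filter fun y => sp y ∈ (Zᶜ \ T.K Z) ∪ Y1 := fun y hy => by
        have := (T.mem_ch.mp (hsp y hy).1).1
        simp only [hA', mem_union, mem_sdiff, mem_compl, mem_filter (s := K'), hy]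
        tauto
      have a3 : (K'.filter fun y => sp y ∈ (Zᶜ \ T.K Z) ∪ Y1).card ≤ ((Zᶜ \ T.K Z) ∪ Y1).card :=
        card_le_card_of_injOn sp (fun y hy => (mem_filter.mp hy).2)
          (s2.mono (coe_subset.mpr (filter_subset _ _)))
      have b1 := (card_le_card a1).trans ((card_union_le _ _).trans (Nat.add_le_add_right
        ((card_union_le _ _).trans (Nat.add_le_add_right (card_union_le _ _) _)) _))
      have b2 := (card_le_card a2).trans ((card_union_le _ _).trans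
        (add_le_add (card_union_le _ _) (a3.trans (card_union_le _ _))))
      have b3 := card_U T Z
      rw [card_univ] at b1
      omega
    · obtain ⟨y, hy, rfl⟩ := mem_image.mp hx
      obtain ⟨a1, a2, a3, a4⟩ := mem_filter.mp hy
      refine ⟨a3, by rw [s1 y a1]; exact (mem_filter.mp a1).1, Or.inr ?_⟩
      obtain ⟨c, hc⟩ := ch_ne hr a3 (a0 y hy)
      obtain ⟨c1, c2⟩ := T.mem_ch.mp hc
      exact ⟨c, fun e => c1 (e ▸ hr), c2,
        fun hl => a4 (mem_filter.mpr ⟨mem_filter.mpr ⟨a3, a0 y hy⟩, c, hl, c2⟩)⟩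

theorem regime1 {δ : ℝ} (hδ : 0 < δ) : ∃ γ : ℝ, 0 < γ ∧ ∃ N0 : ℕ,
    ∀ (V : Type) [Fintype V] [DecidableEq V] (T : RT V) (ep : V → Finset V) (ω0 : V → ℤ)
      (a0 l0 : ℤ), N0 ≤ Fintype.card V → Hyp T ep ω0 a0 γ →
      δ * Fintype.card V ≤ (Fintype.card V : ℝ) - T.lv.card → Concl T ep ω0 a0 l0 := by
  classical
  obtain ⟨S, hS⟩ := exists_sys (half_pos hδ)
  have hQ0 : (0 : ℝ) < S.Q := by exact_mod_cast S.hQ
  have hQ1 : (1 : ℝ) ≤ S.Q := by exact_mod_cast S.hQ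
  have hn1 : (1 : ℝ) ≤ S.n := by exact_mod_cast S.hn
  have hS0 : (0 : ℝ) < S.SN.card := by exact_mod_cast card_pos.mpr ⟨_, S.m1 ⟨0, S.hn⟩⟩
  obtain ⟨φ, hφ, hφ1⟩ : ∃ φ : ℝ, 0 < φ ∧ φ * (80 * S.Q) = δ :=
    ⟨δ / (80 * S.Q), by positivity, by field_simp⟩
  obtain ⟨θ, hθ, hθ1⟩ : ∃ θ : ℝ, 0 < θ ∧ θ * (4 * S.Q * S.n ^ 3) = φ :=
    ⟨φ / (4 * S.Q * S.n ^ 3), by positivity, by field_simp⟩
  have hn3 : (1 : ℝ) ≤ S.n ^ 3 := one_le_pow₀ hn1
  have hθφ : θ ≤ φ := by nlinarith [mul_le_mul hQ1 hn3 zero_le_one hQ0.le]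
  have hφδ : 80 * φ ≤ δ := by nlinarith
  obtain ⟨C0, hC0⟩ := exists_nat_ge (4000 / θ)
  rw [div_le_iff₀ hθ] at hC0
  have hC00 : 0 < C0 := Nat.pos_of_ne_zero (by rintro rfl; norm_num at hC0)
  obtain ⟨κ, hκ, γ, hγ, N1, HN⟩ := nib1 S.Q ((C0 + 1) ^ C0) S.hQ (show 0 < θ / 1000 by positivity)
  obtain ⟨K, hK⟩ := exists_nat_ge (8 / γ)
  rw [div_le_iff₀' hγ] at hK
  obtain ⟨ξ, hξ, hξ1, hξ2, hξ3⟩ : ∃ ξ : ℝ, 0 < ξ ∧ ξ ≤ κ ∧ ξ ≤ γ ∧ ξ ≤ θ :=
    ⟨min κ (min γ θ), by positivity, min_le_left _ _, (min_le_right _ _).trans (min_le_left _ _),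
      (min_le_right _ _).trans (min_le_right _ _)⟩
  obtain ⟨ν, hν, hν1⟩ : ∃ ν : ℝ, 0 < ν ∧ ν * (16 * S.Q) = ξ :=
    ⟨ξ / (16 * S.Q), by positivity, by field_simp⟩
  have hν2 : 16 * ν ≤ ξ := by nlinarith
  have big : ∀ (c t : ℝ), 0 < t → ∀ᶠ N : ℕ in Filter.atTop, c ≤ t * N := fun c t ht =>
    ((tendsto_natCast_atTop_atTop.const_mul_atTop ht).eventually_ge_atTop c)
  obtain ⟨N0, hN0⟩ := Filter.eventually_atTop.mp ((Filter.eventually_ge_atTop N1).and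
    ((Filter.eventually_ge_atTop 3).and ((big (K + 3) φ hφ).and ((big 8 γ hγ).and
    ((big (16 * (S.Q * (2 + K))) ξ hξ).and ((big 1400 θ hθ).and
    ((big (12 * S.Q) (ν ^ 2) (by positivity)).and
    (big ((2 * S.Q + S.Q ^ 3) * (2 * ((C0 + 1) ^ C0 : ℕ)) ^ 2) (ν ^ 2) (by positivity)))))))))
  refine ⟨γ / 4, by positivity, N0, fun V _ _ T ep ω0 a0 l0 hN H hnl => ?_⟩
  obtain ⟨n1, n2, n3, n4, n5, n6, n7, n8⟩ := hN0 _ hN
  obtain ⟨Z, hr, hZ, hcut⟩ := exists_cut T.r T.π T.d T.hd hC00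
  obtain ⟨top, ht1, ht2⟩ := hcut Z Subset.rfl
  obtain ⟨N, hN'⟩ : ∃ N : ℝ, N = Fintype.card V := ⟨_, rfl⟩
  rw [← hN'] at n3 n4 n5 n6 n7 n8 hnl
  have hNp : 0 < N := by rw [hN']; exact_mod_cast (by omega)
  have hK0 : (0 : ℝ) ≤ K := Nat.cast_nonneg _
  have hlv0 : (0 : ℝ) ≤ T.lv.card := Nat.cast_nonneg _
  have hZ' : (Z.card : ℝ) ≤ θ * N / 2000 + 1 := by
    have h1 : (Z.card : ℝ) ≤ 2 * ((Fintype.card V / C0 : ℕ) : ℝ) + 1 := by exact_mod_cast hZ
    have h2 : ((Fintype.card V / C0 : ℕ) : ℝ) * C0 ≤ N := by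
      rw [hN']; exact_mod_cast Nat.div_mul_le_self _ _
    have h3 : (0 : ℝ) ≤ ((Fintype.card V / C0 : ℕ) : ℝ) := Nat.cast_nonneg _
    nlinarith [mul_le_mul_of_nonneg_left hC0 h3, mul_le_mul_of_nonneg_left h2 hθ.le]
  have q1 := mul_le_mul_of_nonneg_right hθφ hNp.le
  have q2 := mul_le_mul_of_nonneg_right hφδ hNp.le
  have q3 := mul_le_mul_of_nonneg_right hν2 hNp.le
  have q4 := mul_le_mul_of_nonneg_right hξ1 hNp.le
  have q5 := mul_le_mul_of_nonneg_right hξ2 hNp.le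
  have q6 := mul_le_mul_of_nonneg_right hξ3 hNp.le
  have q7 := mul_pos hξ hNp
  have f1 : (⌊φ * N⌋₊ : ℝ) ≤ φ * N := Nat.floor_le (by positivity)
  have f2 : φ * N - 1 < ⌊φ * N⌋₊ := Nat.sub_one_lt_floor _
  have f3 : (⌊δ * N / 10⌋₊ : ℝ) ≤ δ * N / 10 := Nat.floor_le (by positivity)
  have f4 : δ * N / 10 - 1 < ⌊δ * N / 10⌋₊ := Nat.sub_one_lt_floor _
  obtain ⟨Φ, hΦc, hπ, hΦ, hdep, hkind⟩ := exists_flex T Z hr ⌊δ * N / 10⌋₊ ⌊φ * N⌋₊
    (by
      have : (3 * ⌊φ * N⌋₊ : ℝ) ≤ ⌊δ * N / 10⌋₊ := by linarith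
      exact_mod_cast this)
    (by
      have : (3 * Z.card + 3 * ⌊δ * N / 10⌋₊ + T.lv.card : ℝ) ≤ Fintype.card V := by
        rw [← hN']; linarith
      exact_mod_cast this)
  rw [← hΦc] at f1 f2
  have hXb : S.Q * (ν * N + 2 + K) ≤ ξ * N / 8 := by
    have : S.Q * (ν * N) = ξ * N / 16 := by rw [← hν1]; ring
    linarith
  obtain ⟨α, e1, e2, e3, e4, e5, e6⟩ := early1 S.Q K H (Φ ∩ T.lv) inter_subset_right hK
    (hN' ▸ n4) hν (hN' ▸ n7) (by rw [← hN']; linarith) (by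
      rintro ⟨x, hx⟩
      rcases hkind with h | h
      · have h1 : (⌊δ * N / 10⌋₊ : ℝ) ≤ T.lv.card := by exact_mod_cast h.2
        have h2 : ((Φ ∩ T.lv).card : ℝ) ≤ Φ.card := by
          exact_mod_cast card_le_card inter_subset_left
        have h3 : φ * N * S.Q = δ * N / 80 := by rw [← hφ1]; ring
        rw [lt_div_iff₀ hQ0]
        have h4 : (2 * ((Φ ∩ T.lv).card : ℝ) + K + 1) * S.Q ≤ (3 * (φ * N)) * S.Q :=
          mul_le_mul_of_nonneg_right (by linarith) hQ0.le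
        linarith
      · exact absurd (mem_inter.mp hx).2 (h x (mem_inter.mp hx).1))
  rw [← hN'] at e2 e3 e4
  set ω := T.om ep ω0 α with hω
  obtain ⟨ρ, σ, r1, r2, r3, r4, r5⟩ := res1 S T Z hr top _ ht1 ht2 (fun v => (ω v : ZMod S.Q)) Φ hπ
    hΦ _ (Φ.card / S.Q - ν * N) (ν * N) e2 (fun j => by
      rcases hkind with h | h
      · refine le_trans ?_ ((e3 j).trans (Nat.cast_le.mpr (card_le_card fun x hx =>
          mem_filter.mpr ⟨(mem_inter.mp (mem_filter.mp hx).1).1, Or.inr (mem_filter.mp hx).2⟩)))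
        rw [inter_eq_left.mpr h.1]
      · rw [filter_true_of_mem fun x hx => Or.inl (h x hx)]
        have := div_le_self (Nat.cast_nonneg (α := ℝ) Φ.card) hQ1
        have : 0 ≤ ν * N := by positivity
        linarith) (by positivity) (by
      rw [← hN', mul_assoc]
      refine (mul_le_mul_of_nonneg_left n8 hNp.le).trans (le_of_eq (by ring)))
  rw [← hN'] at r3 r4
  obtain ⟨lam, Cov, l1, l2, l3, l4, l5, l6, l7, l8⟩ := HN V T Z top ω l0 ρ σ Φ n1 hr ht1 ht2 r1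
    (fun j => (r3 j).trans (by rw [← hN']; linarith)) (fun j => (r4 j).trans (by
      rw [← hN']
      have : (N + T.lv.card) / S.SN.card ≤ 2 * (N / S.Q) := by
        rw [← mul_div_assoc, div_le_div_iff₀ hS0 hQ0]
        have h1 := mul_le_mul_of_nonneg_left hS (show 0 ≤ 2 * N by positivity)
        have h2 := mul_le_mul_of_nonneg_right hnl hQ0.le
        linarith
      have : 0 ≤ κ * N := by positivity
      linarith)) (hN' ▸ e4) e5 hπ hΦ hdep (by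
      have h1 : δ ≤ 1 := le_of_mul_le_mul_right (by linarith) hNp
      have h2 : (S.Q * Φ.card : ℝ) ≤ Fintype.card V := by
        rw [← hN']
        have h3 : S.Q * (φ * N) = δ * N / 80 := by rw [← hφ1]; ring
        have h4 := mul_le_mul_of_nonneg_left f1 hQ0.le
        have h5 := mul_le_mul_of_nonneg_right h1 hNp.le
        linarith
      exact_mod_cast h2) e6
  rw [← hN'] at l3
  have hBad : (Covᶜ.card : ℝ) ≤ θ * N / 500 + 2 := by
    have a1 : Covᶜ ⊆ Z ∪ (Zᶜ \ T.K Z) ∪ (T.K Z \ Cov) := fun v hv => by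
      simp only [mem_union, mem_sdiff, mem_compl] at hv ⊢
      tauto
    have a2 := (card_le_card a1).trans ((card_union_le _ _).trans (Nat.add_le_add_right
      ((card_union_le _ _).trans (Nat.add_le_add_left (card_U T Z) _)) _))
    have a3 : (Covᶜ.card : ℝ) ≤ Z.card + Z.card + (T.K Z \ Cov).card := by exact_mod_cast a2
    linarith
  have g1 : (⌊θ * N⌋₊ : ℝ) ≤ θ * N := Nat.floor_le (by positivity)
  have g2 : θ * N - 1 < ⌊θ * N⌋₊ := Nat.sub_one_lt_floor _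
  obtain ⟨lam', m1, m2⟩ := fix1 S T n2 ω lam _ l1 Covᶜ (Φ ∩ Cov) ⌊θ * N⌋₊ (by
      have : (200 * (Covᶜ.card + 2) : ℝ) ≤ ⌊θ * N⌋₊ := by linarith
      exact_mod_cast this) (by rw [compl_compl]; exact l4)
    (fun v hv => by
      rw [mem_compl, not_not] at hv
      rw [(l5 v hv).2]; exact r2 v (l2 hv))
    (fun x hx => T.mem_W.mpr fun e => (T.mem_K.mp (l2 (mem_inter.mp hx).2)).1 (e ▸ hr))
    (hπ.mono (coe_subset.mpr inter_subset_left)) (fun b s s' hs hs' => by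
      have a1 : (Φ.filter fun x => ρ x = b ∧ σ x = s ∧ σ (T.π x) = s') ⊆
          ((Φ ∩ Cov).filter fun x => ((lam x : ℤ) : ZMod S.Q) = b ∧
            ((T.sm ω lam x : ℤ) : ZMod S.Q) = s ∧ ((T.sm ω lam (T.π x) : ℤ) : ZMod S.Q) = s') ∪
          (T.K Z \ Cov) := fun x hx => by
        obtain ⟨b1, b2⟩ := mem_filter.mp hx
        by_cases h : x ∈ Cov
        · refine mem_union_left _ (mem_filter.mpr ⟨mem_inter.mpr ⟨b1, h⟩, ?_⟩)
          rwa [(l5 x h).1, (l5 x h).2, (l5 _ (l6 x b1 h)).2]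
        · exact mem_union_right _ (mem_sdiff.mpr ⟨(hΦ x b1).1, h⟩)
      have a2 := Nat.cast_le (α := ℝ).mpr ((card_le_card a1).trans (card_union_le _ _))
      have a3 := r5 b s s' hs hs'
      have a4 : 2 * (θ * N) - ν * N ≤ (Φ.card / S.Q - ν * N) / S.n ^ 3 := by
        rw [le_div_iff₀ (by positivity), le_sub_iff_add_le, le_div_iff₀ hQ0]
        have b1 : θ * N * (S.Q * S.n ^ 3) = φ * N / 4 := by rw [← hθ1]; ring
        have b2 : 0 ≤ ν * N * S.Q * (S.n ^ 3 - 1) := by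
          have : (0 : ℝ) ≤ S.n ^ 3 - 1 := by linarith
          positivity
        linarith
      push_cast at a2
      refine Nat.cast_le (α := ℝ).mp (by linarith)) l7 l8
  exact ⟨α, lam', e1, m1, m2⟩

end Pool.Agent.Lib.MP_0830d8_co.Ex
end

-- part Pool.Agent.Lib.MP_0830d8_co.Ex.Final
section

/-!
All large connected graphs are antimagic.
-/

namespace Pool.Agent.Lib.MP_0830d8_co.Ex

open Finset

theorem core_stmt : CoreStmt := by
  obtain ⟨δ, hδ, γ2, hγ2, N2, H2⟩ := regime2_of @exists_sys @init2 @fix2a @fix2b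
  obtain ⟨γ1, hγ1, N1, H1⟩ := regime1 hδ
  refine ⟨min γ1 γ2, lt_min hγ1 hγ2, max N1 N2, fun V _ _ T ep ω0 a0 l0 hN H => ?_⟩
  have mono : ∀ γ, min γ1 γ2 ≤ γ → Hyp T ep ω0 a0 γ := fun γ hγ =>
    ⟨H.self, H.two, H.ind, H.nn, H.a0, fun z hz => (H.mult z hz).trans
      (mul_le_mul_of_nonneg_right hγ (Nat.cast_nonneg _))⟩
  rcases le_total (δ * Fintype.card V) ((Fintype.card V : ℝ) - T.lv.card) with h | h
  · exact H1 V T ep ω0 a0 l0 ((le_max_left _ _).trans hN) (mono _ (min_le_left _ _)) h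
  · exact H2 V T ep ω0 a0 l0 ((le_max_right _ _).trans hN) (mono _ (min_le_right _ _)) h

theorem all_large : ∃ n0 : ℕ, ∀ (V : Type) [Fintype V] [DecidableEq V] (G : SimpleGraph V)
    [DecidableRel G.Adj], G.Connected → n0 ≤ Fintype.card V → AM G := by
  obtain ⟨N0, H1⟩ := big_core core_stmt
  obtain ⟨n0, H2⟩ := small_core N0
  refine ⟨n0, fun V _ _ G _ hG hn => ?_⟩
  rcases le_total N0 (univ.filter fun v => 2 ≤ G.degree v).card with h | h
  · exact H1 V G hG h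
  · exact H2 V G hG hn h

lemma sum_nbr' {V M : Type*} [AddCommMonoid M] [Fintype V] [DecidableEq V] (G : SimpleGraph V)
    [DecidableRel G.Adj] (f : Sym2 V → M) (v : V) :
    ∑ w ∈ G.neighborFinset v, f s(v, w) = ∑ e ∈ G.edgeFinset with v ∈ e, f e := by
  refine sum_bij (fun w _ => s(v, w)) (fun w hw => ?_) (fun a _ b _ h => ?_) (fun e he => ?_)
    fun _ _ => rfl
  · simpa using hw
  · exact Sym2.congr_right.mp h
  · obtain ⟨h1, h2⟩ := mem_filter.mp he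
    obtain ⟨w, rfl⟩ := Sym2.mem_iff_exists.mp h2
    exact ⟨w, by simpa using h1, rfl⟩

end Pool.Agent.Lib.MP_0830d8_co.Ex
end
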