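import Pool.Agent.Lib.MP_0830d8_co.Ex.Fix2
import Pool.Agent.Lib.MP_0830d8_co.Tree

-- part Pool.Agent.Lib.MP_0830d8_co.Ex.Res1
section

/-!
Residue design on the blocks of a rooted tree.
-/

set_option linter.unusedSectionVars false

namespace Pool.Agent.Lib.MP_0830d8_co.Ex

open Finset

variable {V : Type} [Fintype V] [DecidableEq V]

lemma bal_events {Ω J : Type} [Fintype Ω] [Nonempty Ω] [Fintype J] (A : Finset V) (top : V → V)
    (C : ℕ) (hC : ∀ t, (A.filter (top · = t)).card ≤ C) (ev : J → V → Ω → Prop)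
    [∀ j v ω, Decidable (ev j v ω)] (wt : J → V → ℝ) (hwt : ∀ j v, 0 ≤ wt j v ∧ wt j v ≤ 2)
    (err : ℝ) (h0 : 0 ≤ err)
    (herr : (Fintype.card V : ℝ) * Fintype.card J * (2 * C) ^ 2 ≤ err ^ 2) :
    ∃ Y : V → Ω, ∀ j, |∑ v ∈ A with ev j v (Y (top v)), wt j v -
      ∑ v ∈ A, wt j v * (univ.filter fun ω => ev j v ω).card / Fintype.card Ω| ≤ err := by
  obtain ⟨Y, hY⟩ := bal (univ : Finset V)
    (fun t ω j => ∑ v ∈ A with top v = t, if ev j v ω then wt j v else 0) (2 * C) (by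
      intro t _ ω j
      refine ⟨sum_nonneg fun v _ => ?_, (sum_le_card_nsmul _ _ 2 fun v _ => ?_).trans ?_⟩
      · split_ifs
        · exact (hwt j v).1
        · exact le_rfl
      · split_ifs
        · exact (hwt j v).2
        · norm_num
      · rw [nsmul_eq_mul, mul_comm]
        have : ((A.filter (top · = t)).card : ℝ) ≤ C := by exact_mod_cast hC t
        linarith)
  refine ⟨Y, fun j => abs_le_of_sq_le_sq (le_trans (le_of_eq ?_) ((hY j).trans herr)) h0⟩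
  congr 2
  · rw [sum_filter, ← sum_fiberwise_of_maps_to (s := A) (t := univ) (g := top)
      fun _ _ => mem_univ _]
    refine sum_congr rfl fun t _ => sum_congr rfl fun v hv => ?_
    rw [(mem_filter.mp hv).2]
  · rw [← sum_fiberwise_of_maps_to (s := A) (t := univ) (g := top) fun _ _ => mem_univ _]
    refine sum_congr rfl fun t _ => ?_
    rw [sum_comm, sum_div]
    refine sum_congr rfl fun v _ => ?_
    rw [← sum_filter, sum_const, nsmul_eq_mul, mul_comm]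

lemma line_real {n q : ℕ} (hn : 0 < n) (a : V) (E : Finset (V → Fin n))
    (hE : ∀ Y, (univ.filter fun c => Function.update Y a c ∈ E).card * q ≤ n) :
    E.card * q ≤ Fintype.card (V → Fin n) := by
  rcases Nat.eq_zero_or_pos q with rfl | hq
  · simp
  have h := card_line_le (Ω := V → Fin n) (fun Y => Y a) (fun Y c => Function.update Y a c)
    (fun _ _ => by simp) (fun _ => by simp) (fun _ _ _ => by simp) E (n / q)
    fun Y => (Nat.le_div_iff_mul_le hq).mpr (hE Y)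
  rw [Fintype.card_fin] at h
  refine Nat.le_of_mul_le_mul_right ?_ hn
  calc E.card * q * n = q * (E.card * n) := by ring
    _ ≤ q * (n / q * Fintype.card (V → Fin n)) := Nat.mul_le_mul_left _ h
    _ = q * (n / q) * Fintype.card (V → Fin n) := by ring
    _ ≤ n * Fintype.card (V → Fin n) := Nat.mul_le_mul_right _ (Nat.mul_div_le n q)
    _ = _ := mul_comm _ _

lemma ge3 {n : ℕ} (a b c : V) (E : Finset (V → Fin n))
    (hE : ∀ Y : V → Fin n, ∃ Y' ∈ E, ∀ u, u ≠ a → u ≠ b → u ≠ c → Y' u = Y u) :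
    Fintype.card (V → Fin n) ≤ E.card * n ^ 3 := by
  have h := card_line_ge (Ω := V → Fin n) (γ := Fin n × Fin n × Fin n) (fun Y => (Y a, Y b, Y c))
    (fun Y p u => if u = a then p.1 else if u = b then p.2.1 else if u = c then p.2.2 else Y u)
    (fun Y => funext fun u => by
      simp only
      split_ifs with h1 h2 h3
      · rw [h1]
      · rw [h2]
      · rw [h3]
      · rfl)
    (fun Y p p' => funext fun u => by
      simp only
      split_ifs <;> rfl) E fun Y => by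
      obtain ⟨Y', h1, h2⟩ := hE Y
      refine ⟨(Y' a, Y' b, Y' c), ?_⟩
      convert h1 using 1
      funext u
      simp only
      split_ifs with a1 a2 a3
      · rw [a1]
      · rw [a2]
      · rw [a3]
      · exact (h2 u a1 a2 a3).symm
  simpa [pow_succ, mul_assoc] using h

/-- children outside the cut -/
def RT.ch (T : RT V) (Z : Finset V) (v : V) : Finset V := Zᶜ.filter (T.π · = v)

/-- vertices outside the cut all of whose children are outside the cut -/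
def RT.K (T : RT V) (Z : Finset V) : Finset V :=
  Zᶜ.filter fun v => ∀ c, c ≠ T.r → T.π c = v → c ∉ Z

lemma RT.mem_ch (T : RT V) {Z : Finset V} {v c : V} : c ∈ T.ch Z v ↔ c ∉ Z ∧ T.π c = v := by
  simp [RT.ch]

lemma RT.mem_K (T : RT V) {Z : Finset V} {v : V} :
    v ∈ T.K Z ↔ v ∉ Z ∧ ∀ c, c ≠ T.r → T.π c = v → c ∉ Z := by
  simp [RT.K]

/-- descendants inside a block -/
def RT.desc (T : RT V) (Z : Finset V) : V → V → Prop :=
  Relation.ReflTransGen fun u p => u ∉ Z ∧ p ∉ Z ∧ T.π u = p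

section desc
variable {T : RT V} {Z : Finset V}

lemma hdZ (hr : T.r ∈ Z) {v : V} (hv : v ∉ Z) : T.d (T.π v) + 1 = T.d v :=
  T.hd v fun e => hv (e ▸ hr)

lemma desc_iter (hr : T.r ∈ Z) {u v : V} (h : T.desc Z u v) :
    T.d v ≤ T.d u ∧ T.π^[T.d u - T.d v] u = v := by
  induction h with
  | refl => simp
  | tail _ hs ih =>
    obtain ⟨h1, -, rfl⟩ := hs
    have := hdZ hr h1
    refine ⟨by omega, ?_⟩
    rename_i b _
    rw [show T.d u - T.d (T.π b) = T.d u - T.d b + 1 by omega, Function.iterate_succ_apply', ih.2]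

open Classical in
lemma desc_sum (hr : T.r ∈ Z) {M : Type} [AddCommMonoid M] (f : V → M) {v : V} (hv : v ∉ Z) :
    ∑ u ∈ Zᶜ with T.desc Z u v, f u =
      f v + ∑ c ∈ T.ch Z v, ∑ u ∈ Zᶜ with T.desc Z u c, f u := by
  have hd : ∀ c ∈ T.ch Z v, T.d c = T.d v + 1 := fun c hc => by
    obtain ⟨h1, h2⟩ := T.mem_ch.mp hc
    rw [← hdZ hr h1, h2]
  rw [← sum_biUnion, ← sum_insert]
  · refine sum_congr (Finset.ext fun u => ?_) fun _ _ => rfl
    simp only [mem_filter, mem_insert, mem_biUnion, mem_compl]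
    constructor
    · rintro ⟨h1, h2⟩
      rcases Relation.ReflTransGen.cases_tail h2 with h | ⟨c, h3, h4⟩
      · exact Or.inl h.symm
      · exact Or.inr ⟨c, T.mem_ch.mpr ⟨h4.1, h4.2.2⟩, h1, h3⟩
    · rintro (rfl | ⟨c, h1, h2, h3⟩)
      · exact ⟨hv, Relation.ReflTransGen.refl⟩
      · exact ⟨h2, h3.tail ⟨(T.mem_ch.mp h1).1, hv, (T.mem_ch.mp h1).2⟩⟩
  · simp only [mem_biUnion, mem_filter, not_exists, not_and]
    intro c hc _ h
    have := (desc_iter hr h).1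
    have := hd c hc
    omega
  · intro c hc c' hc' hne
    refine disjoint_left.mpr fun u h1 h2 => hne ?_
    rw [← (desc_iter hr (mem_filter.mp h1).2).2, ← (desc_iter hr (mem_filter.mp h2).2).2,
      hd c hc, hd c' hc']

lemma exists_unif (hr : T.r ∈ Z) {v : V} (hv : v ∉ Z) (hl : v ∉ T.lv) :
    ∃ a, T.desc Z a v ∧ a ∉ Z ∧ a ∉ T.lv ∧ (a ∈ T.K Z → ∃ x ∈ T.lv, T.π x = a) := by
  classical
  obtain ⟨a, ha, hmax⟩ := exists_max_image (Zᶜ.filter fun u => T.desc Z u v ∧ u ∉ T.lv) T.d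
    ⟨v, mem_filter.mpr ⟨mem_compl.mpr hv, Relation.ReflTransGen.refl, hl⟩⟩
  obtain ⟨a1, a2, a3⟩ := mem_filter.mp ha
  rw [mem_compl] at a1
  refine ⟨a, a2, a1, a3, fun hK => ?_⟩
  have h1 := a3
  rw [T.mem_lv] at h1
  push Not at h1
  obtain ⟨c, c1, c2⟩ := h1 fun e => a1 (e ▸ hr)
  have c3 := (T.mem_K.mp hK).2 c c1 c2
  refine ⟨c, ?_, c2⟩
  by_contra hc
  have := hmax c (mem_filter.mpr ⟨mem_compl.mpr c3,
    Relation.ReflTransGen.head ⟨c3, a1, c2⟩ a2, hc⟩)
  have := hdZ hr c3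
  rw [c2] at this
  omega

end desc

section design
variable (S : Sys) (T : RT V) (Z : Finset V) (sp : V → V) (ω : V → ZMod S.Q)

/-- the residue of the sum at `v` -/
noncomputable def sig (Y : V → Fin S.n) (v : V) : ZMod S.Q :=
  if v ∈ T.lv ∧ T.π v ∈ T.K Z ∧ sp (T.π v) = v then S.s2 (Y (T.π v))
  else if v ∈ T.K Z then S.s1 (Y v) else S.s1 (Y v) - S.s2 (Y v)

open Classical in
/-- the residue of the label of the edge `v` -/
noncomputable def rho (Y : V → Fin S.n) (v : V) : ZMod S.Q :=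
  ∑ u ∈ Zᶜ with T.desc Z u v, (-1) ^ T.d u * (-1) ^ T.d v * (sig S T Z sp Y u - ω u)

variable {S T Z sp ω}

lemma sgn_sq (n : ℕ) : ((-1 : ZMod S.Q)) ^ n * (-1) ^ n = 1 := by
  rw [← mul_pow]; simp

lemma rho_eq (hr : T.r ∈ Z) (Y : V → Fin S.n) {v : V} (hv : v ∉ Z) :
    rho S T Z sp ω Y v + ∑ c ∈ T.ch Z v, rho S T Z sp ω Y c + ω v = sig S T Z sp Y v := by
  rw [rho, desc_sum hr _ hv, sgn_sq, one_mul, add_assoc (sig S T Z sp Y v - ω v),
    ← sum_add_distrib, sum_eq_zero]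
  · ring
  · intro c hc
    obtain ⟨h1, h2⟩ := T.mem_ch.mp hc
    rw [rho, ← sum_add_distrib]
    refine sum_eq_zero fun u _ => ?_
    rw [← hdZ hr h1, h2, pow_succ]
    ring

lemma sig_mem (Y : V → Fin S.n) {v : V} (hv : v ∈ T.K Z) : sig S T Z sp Y v ∈ S.SN := by
  unfold sig
  split_ifs
  · exact S.m2 _
  · exact S.m1 _

lemma sig_nonleaf (Y : V → Fin S.n) {v : V} (hv : v ∈ T.K Z) (hl : v ∉ T.lv) :
    sig S T Z sp Y v = S.s1 (Y v) := by
  rw [sig, if_neg fun h => hl h.1, if_pos hv]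

lemma sig_card {v : V} (hv : v ∈ T.K Z) (j : ZMod S.Q) :
    (univ.filter fun Y => sig S T Z sp Y v = j).card * S.SN.card ≤
      Fintype.card (V → Fin S.n) := by
  by_cases h : v ∈ T.lv ∧ T.π v ∈ T.K Z ∧ sp (T.π v) = v
  · refine line_real S.hn (T.π v) _ fun Y => le_trans (le_of_eq ?_) (S.c2 j)
    simp only [sig, if_pos h, mem_filter, mem_univ, true_and, Function.update_self]
  · refine line_real S.hn v _ fun Y => le_trans (le_of_eq ?_) (S.c1 j)
    simp only [sig, if_neg h, if_pos hv, mem_filter, mem_univ, true_and, Function.update_self]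

lemma rho_update (hr : T.r ∈ Z) (hsp : ∀ y, (∃ x ∈ T.lv, T.π x = y) → sp y ∈ T.lv ∧ T.π (sp y) = y)
    {a v : V} (h1 : T.desc Z a v) (h2 : a ∉ Z) (h3 : a ∉ T.lv)
    (h4 : a ∈ T.K Z → ∃ x ∈ T.lv, T.π x = a) (Y : V → Fin S.n) (c : Fin S.n) :
    rho S T Z sp ω (Function.update Y a c) v = rho S T Z sp ω Y v +
      (-1) ^ T.d a * (-1) ^ T.d v * ((S.s1 c - S.s2 c) - (S.s1 (Y a) - S.s2 (Y a))) := by
  classical
  have key : ∀ u, u ≠ a → ¬(a ∈ T.K Z ∧ u = sp a) →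
      sig S T Z sp (Function.update Y a c) u = sig S T Z sp Y u := by
    intro u hu hu'
    unfold sig
    rw [Function.update_of_ne hu]
    split_ifs with b1 b2
    · rw [Function.update_of_ne]
      intro e
      exact hu' ⟨e ▸ b1.2.1, by rw [← e, b1.2.2]⟩
    · rfl
    · rfl
  have ha : a ∈ Zᶜ.filter fun u => T.desc Z u v := mem_filter.mpr ⟨mem_compl.mpr h2, h1⟩
  rw [← sub_eq_iff_eq_add', rho, rho, ← sum_sub_distrib]
  by_cases hK : a ∈ T.K Z
  · obtain ⟨x1, x2⟩ := hsp a (h4 hK)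
    have x3 : sp a ∉ Z := (T.mem_K.mp hK).2 _ (T.mem_lv.mp x1).1 x2
    have x4 : a ≠ sp a := fun e => h3 (e ▸ x1)
    have x5 := hdZ hr x3
    rw [x2] at x5
    rw [sum_eq_add_of_mem a (sp a) ha (mem_filter.mpr ⟨mem_compl.mpr x3,
      Relation.ReflTransGen.head ⟨x3, h2, x2⟩ h1⟩) x4 fun u _ hu => by
        rw [key u hu.1 fun h => hu.2 h.2, sub_self]]
    have x6 : ∀ Y' : V → Fin S.n, sig S T Z sp Y' (sp a) = S.s2 (Y' a) := fun Y' => by
      rw [sig, x2, if_pos ⟨x1, hK, rfl⟩]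
    rw [x6, x6, sig_nonleaf _ hK h3, sig_nonleaf _ hK h3, Function.update_self, ← x5, pow_succ]
    ring
  · rw [sum_eq_single_of_mem a ha fun u _ hu => by rw [key u hu fun h => hK h.1, sub_self]]
    simp only [sig, if_neg (fun h : a ∈ T.lv ∧ _ => h3 h.1), if_neg hK, Function.update_self]
    ring

lemma rho_card (hr : T.r ∈ Z) (hsp : ∀ y, (∃ x ∈ T.lv, T.π x = y) → sp y ∈ T.lv ∧ T.π (sp y) = y)
    {v : V} (hv : v ∉ Z) (hl : v ∉ T.lv) (j : ZMod S.Q) :
    (univ.filter fun Y => rho S T Z sp ω Y v = j).card * S.Q ≤ Fintype.card (V → Fin S.n) := by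
  obtain ⟨a, a1, a2, a3, a4⟩ := exists_unif hr hv hl
  refine line_real S.hn a _ fun Y => le_trans (Nat.mul_le_mul_right _ (card_le_card fun c hc => ?_))
    (S.c0 ((-1) ^ T.d a * (-1) ^ T.d v * (j - rho S T Z sp ω Y v) + (S.s1 (Y a) - S.s2 (Y a))))
  simp only [mem_filter, mem_univ, true_and] at hc ⊢
  rw [rho_update hr hsp a1 a2 a3 a4] at hc
  rw [← hc]
  have e1 := sgn_sq (S := S) (T.d a)
  have e2 := sgn_sq (S := S) (T.d v)
  linear_combination (-(S.s1 c - S.s2 c - (S.s1 (Y a) - S.s2 (Y a)))) *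
    (((-1) ^ T.d v * (-1) ^ T.d v) * e1 + e2)

lemma lv_mem_K {x : V} (hx : x ∈ T.lv) (hZ : x ∉ Z) : x ∈ T.K Z :=
  T.mem_K.mpr ⟨hZ, fun c h1 h2 => absurd h2 ((T.mem_lv.mp hx).2 c h1)⟩

lemma ch_lv (hr : T.r ∈ Z) {x : V} (hx : x ∈ T.lv) : T.ch Z x = ∅ :=
  eq_empty_of_forall_notMem fun c hc =>
    (T.mem_lv.mp hx).2 c (fun e => (T.mem_ch.mp hc).1 (e ▸ hr)) (T.mem_ch.mp hc).2

lemma rho_leaf (hr : T.r ∈ Z) (Y : V → Fin S.n) {x : V} (hx : x ∈ T.lv) (hZ : x ∉ Z) :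
    rho S T Z sp ω Y x + ω x = sig S T Z sp Y x := by
  have := rho_eq (sp := sp) (ω := ω) hr Y hZ
  rwa [ch_lv hr hx, sum_empty, add_zero] at this

lemma type_card (hr : T.r ∈ Z)
    (hsp : ∀ y, (∃ x ∈ T.lv, T.π x = y) → sp y ∈ T.lv ∧ T.π (sp y) = y) {x : V}
    (h1 : x ∈ T.K Z) (h2 : T.π x ∈ T.K Z) {b s s' : ZMod S.Q} (hs : s ∈ S.SN) (hs' : s' ∈ S.SN)
    (h3 : (x ∈ T.lv ∧ sp (T.π x) = x ∧ ω x = s - b) ∨ ∃ c, c ≠ T.r ∧ T.π c = x ∧ c ∉ T.lv) :
    Fintype.card (V → Fin S.n) ≤ (univ.filter fun Y => rho S T Z sp ω Y x = b ∧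
      sig S T Z sp Y x = s ∧ sig S T Z sp Y (T.π x) = s').card * S.n ^ 3 := by
  have hxZ := (T.mem_K.mp h1).1
  have hxr : x ≠ T.r := fun e => hxZ (e ▸ hr)
  have hy : T.π x ∉ T.lv := fun h => (T.mem_lv.mp h).2 x hxr rfl
  have hdx := hdZ hr hxZ
  rcases h3 with ⟨a1, a2, a3⟩ | ⟨c, a1, a2, a3⟩
  · obtain ⟨y, y1, y2⟩ := S.surj s' hs' s hs
    refine ge3 (T.π x) x x _ fun Y => ⟨Function.update Y (T.π x) y, ?_,
      fun u hu _ _ => Function.update_of_ne hu _ _⟩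
    have e1 : sig S T Z sp (Function.update Y (T.π x) y) x = s := by
      rw [sig, if_pos ⟨a1, h2, a2⟩, Function.update_self, y2]
    refine mem_filter.mpr ⟨mem_univ _, ?_, e1, ?_⟩
    · have := rho_leaf (sp := sp) (ω := ω) hr (Function.update Y (T.π x) y) a1 hxZ
      rw [e1, a3] at this
      linear_combination this
    · rw [sig_nonleaf _ h2 hy, Function.update_self, y1]
  · have hcZ := (T.mem_K.mp h1).2 c a1 a2
    have hxl : x ∉ T.lv := fun h => (T.mem_lv.mp h).2 c a1 a2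
    obtain ⟨a, b1, b2, b3, b4⟩ := exists_unif hr hcZ a3
    have d1 := (desc_iter hr b1).1
    have d2 := hdZ hr hcZ
    rw [a2] at d2
    have b5 : T.desc Z a x := b1.tail ⟨hcZ, hxZ, a2⟩
    obtain ⟨y, y1, -⟩ := S.surj s' hs' s hs
    obtain ⟨y', y2, -⟩ := S.surj s hs s hs
    refine ge3 (T.π x) x a _ fun Y => ?_
    set Y1 := Function.update (Function.update Y (T.π x) y) x y' with hY1
    obtain ⟨z, hz⟩ := S.surj0 ((-1) ^ T.d a * (-1) ^ T.d x * (b - rho S T Z sp ω Y1 x) +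
      (S.s1 (Y1 a) - S.s2 (Y1 a)))
    have n1 : x ≠ a := fun e => by rw [← e] at d1; omega
    have n2 : T.π x ≠ a := fun e => by rw [← e] at d1; omega
    have n3 : T.π x ≠ x := fun e => by rw [e] at hdx; omega
    refine ⟨Function.update Y1 a z, mem_filter.mpr ⟨mem_univ _, ?_, ?_, ?_⟩, fun u u1 u2 u3 => ?_⟩
    · rw [rho_update hr hsp b5 b2 b3 b4, hz]
      have e1 := sgn_sq (S := S) (T.d a)
      have e2 := sgn_sq (S := S) (T.d x)
      linear_combination (b - rho S T Z sp ω Y1 x) * (((-1) ^ T.d x * (-1) ^ T.d x) * e1 + e2)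
    · rw [sig_nonleaf _ h1 hxl, Function.update_of_ne n1, hY1, Function.update_self, y2]
    · rw [sig_nonleaf _ h2 hy, Function.update_of_ne n2, hY1, Function.update_of_ne n3,
        Function.update_self, y1]
    · rw [Function.update_of_ne u3, hY1, Function.update_of_ne u2, Function.update_of_ne u1]

end design

theorem res1 (S : Sys) (T : RT V) (Z : Finset V) (hr : T.r ∈ Z) (top : V → V) (C : ℕ)
    (ht1 : ∀ v ∉ Z, T.π v ∉ Z → top (T.π v) = top v)
    (ht2 : ∀ t, (Zᶜ.filter (top · = t)).card ≤ C) (ω : V → ZMod S.Q) (Φ : Finset V)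
    (hπ : Set.InjOn T.π Φ) (hΦ : ∀ x ∈ Φ, x ∈ T.K Z ∧ T.π x ∈ T.K Z ∧
      (x ∈ T.lv ∨ ∃ c, c ≠ T.r ∧ T.π c = x ∧ c ∉ T.lv)) (e1 m err : ℝ)
    (hE1 : ∀ j, ((T.lv.filter fun x => ω x = j).card : ℝ) ≤ T.lv.card / S.Q + e1)
    (hE2 : ∀ j, m ≤ (Φ.filter fun x => x ∉ T.lv ∨ ω x = j).card) (h0 : 0 ≤ err)
    (herr : (Fintype.card V : ℝ) * (2 * S.Q + S.Q ^ 3) * (2 * C) ^ 2 ≤ err ^ 2) :
    ∃ ρ σ : V → ZMod S.Q, (∀ v ∉ Z, ρ v + ∑ c ∈ T.ch Z v, ρ c + ω v = σ v) ∧
      (∀ v ∈ T.K Z, σ v ∈ S.SN) ∧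
      (∀ j, ((Zᶜ.filter fun v => ρ v = j).card : ℝ) ≤ Fintype.card V / S.Q + e1 + err) ∧
      (∀ j, ∑ v ∈ T.K Z with σ v = j, (if v ∈ T.lv then 2 else 1 : ℝ) ≤
        (Fintype.card V + T.lv.card) / S.SN.card + err) ∧
      ∀ b s s', s ∈ S.SN → s' ∈ S.SN → m / S.n ^ 3 - err ≤
        (Φ.filter fun x => ρ x = b ∧ σ x = s ∧ σ (T.π x) = s').card := by
  classical
  have hsp' : ∀ y, ∃ x, ((∃ x ∈ T.lv, T.π x = y) → x ∈ T.lv ∧ T.π x = y) ∧
      ∀ x' ∈ Φ, x' ∈ T.lv → T.π x' = y → x = x' := by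
    intro y
    by_cases h : ∃ x ∈ Φ, x ∈ T.lv ∧ T.π x = y
    · obtain ⟨x, h1, h2, h3⟩ := h
      exact ⟨x, fun _ => ⟨h2, h3⟩, fun x' a1 _ a3 => hπ h1 a1 (h3.trans a3.symm)⟩
    · by_cases h' : ∃ x ∈ T.lv, T.π x = y
      · obtain ⟨x, h1, h2⟩ := h'
        exact ⟨x, fun _ => ⟨h1, h2⟩, fun x' a1 a2 a3 => absurd ⟨x', a1, a2, a3⟩ h⟩
      · exact ⟨y, fun a => absurd a h', fun x' a1 a2 a3 => absurd ⟨x', a1, a2, a3⟩ h⟩
  choose sp hsp hsp2 using hsp'
  have : Nonempty (Fin S.n) := ⟨⟨0, S.hn⟩⟩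
  set N : ℝ := (Fintype.card (V → Fin S.n) : ℝ) with hN
  have hN0 : 0 < N := by rw [hN]; exact_mod_cast Fintype.card_pos
  have hQ0 : (0 : ℝ) < S.Q := by exact_mod_cast S.hQ
  have hn0 : (0 : ℝ) < S.n := by exact_mod_cast S.hn
  have hS0 : (0 : ℝ) < S.SN.card := by
    exact_mod_cast card_pos.mpr ⟨_, S.m1 ⟨0, S.hn⟩⟩
  obtain ⟨Y, hY⟩ := bal_events (Ω := V → Fin S.n)
    (J := ZMod S.Q ⊕ ZMod S.Q ⊕ ZMod S.Q × ZMod S.Q × ZMod S.Q) Zᶜ top C ht2
    (fun j v y => Sum.elim (fun j => rho S T Z sp ω y v = j) (Sum.elim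
      (fun j => v ∈ T.K Z ∧ sig S T Z sp y v = j) fun p => v ∈ Φ ∧ rho S T Z sp ω y v = p.1 ∧
        sig S T Z sp y v = p.2.1 ∧ sig S T Z sp y (T.π v) = p.2.2) j)
    (fun j v => Sum.elim (fun _ => 1) (Sum.elim (fun _ => if v ∈ T.lv then 2 else 1) fun _ => 1) j)
    (by
      rintro (j | j | j) v
      · norm_num
      · simp only [Sum.elim_inr, Sum.elim_inl]
        split_ifs <;> norm_num
      · norm_num) err h0 (by
      convert herr using 3
      simp only [Fintype.card_sum, Fintype.card_prod, ZMod.card]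
      push_cast; ring)
  refine ⟨fun v => rho S T Z sp ω (Y (top v)) v, fun v => sig S T Z sp (Y (top v)) v,
    fun v hv => ?_, fun v hv => sig_mem _ hv, fun j => ?_, fun j => ?_, fun b s s' hs hs' => ?_⟩
  · beta_reduce
    rw [← rho_eq (ω := ω) hr (Y (top v)) hv]
    congr 2
    refine sum_congr rfl fun c hc => ?_
    obtain ⟨h1, h2⟩ := T.mem_ch.mp hc
    rw [← ht1 c h1 (h2 ▸ hv), h2]
  · have h1 : ∑ v ∈ Zᶜ with rho S T Z sp ω (Y (top v)) v = j, (1 : ℝ) -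
        ∑ v ∈ Zᶜ, 1 * ((univ.filter fun y => rho S T Z sp ω y v = j).card : ℝ) / N ≤ err := by
      convert (abs_le.mp (hY (.inl j))).2 <;> rfl
    simp only [sum_const, nsmul_eq_mul, mul_one, one_mul] at h1
    refine (sub_le_iff_le_add'.mp h1).trans (add_le_add_left ?_ _)
    rw [← sum_filter_add_sum_filter_not _ (· ∈ T.lv)]
    have a1 : ∑ v ∈ Zᶜ with v ∉ T.lv,
        ((univ.filter fun y => rho S T Z sp ω y v = j).card : ℝ) / N ≤
        (Fintype.card V - T.lv.card) / S.Q := by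
      refine (sum_le_card_nsmul _ _ (1 / S.Q : ℝ) fun v hv => ?_).trans ?_
      · rw [div_le_div_iff₀ hN0 hQ0, one_mul, hN]
        exact_mod_cast rho_card hr hsp (mem_compl.mp (mem_filter.mp hv).1) (mem_filter.mp hv).2 j
      · rw [nsmul_eq_mul, mul_one_div]
        gcongr
        have : (Zᶜ.filter (· ∉ T.lv)).card ≤ T.lvᶜ.card :=
          card_le_card fun v hv => mem_compl.mpr (mem_filter.mp hv).2
        rw [card_compl] at this
        rw [← Nat.cast_sub (card_le_univ _)]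
        exact_mod_cast this
    have a2 : ∑ v ∈ Zᶜ with v ∈ T.lv,
        ((univ.filter fun y => rho S T Z sp ω y v = j).card : ℝ) / N ≤
        ∑ v ∈ T.lv, ∑ s ∈ S.SN, (if ω v = s - j then (1 / S.SN.card : ℝ) else 0) := by
      refine (sum_le_sum (g := fun v => ∑ s ∈ S.SN,
        (if ω v = s - j then (1 / S.SN.card : ℝ) else 0)) fun v hv => ?_).trans
        (sum_le_sum_of_subset_of_nonneg (fun v hv => (mem_filter.mp hv).2) fun v _ _ =>
          sum_nonneg fun s _ => by split_ifs <;> positivity)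
      obtain ⟨b1, b2⟩ := mem_filter.mp hv
      rw [mem_compl] at b1
      have b3 : (univ.filter fun y => rho S T Z sp ω y v = j) =
          univ.filter fun y => sig S T Z sp y v = j + ω v :=
        filter_congr fun y _ => by rw [← rho_leaf (ω := ω) hr y b2 b1, add_left_inj]
      rw [b3]
      by_cases b4 : j + ω v ∈ S.SN
      · refine le_trans ?_ (single_le_sum (f := fun s =>
          if ω v = s - j then (1 / S.SN.card : ℝ) else 0)
          (fun s _ => by split_ifs <;> positivity) b4)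
        rw [if_pos (by ring), div_le_div_iff₀ hN0 hS0, one_mul, hN]
        exact_mod_cast sig_card (lv_mem_K b2 b1) _
      · rw [filter_eq_empty_iff.mpr fun y _ (h : sig S T Z sp y v = j + ω v) =>
          b4 (h ▸ sig_mem y (lv_mem_K b2 b1))]
        simp only [card_empty, Nat.cast_zero, zero_div]
        exact sum_nonneg fun s _ => by split_ifs <;> positivity
    have a3 : ∑ v ∈ T.lv, ∑ s ∈ S.SN, (if ω v = s - j then (1 / S.SN.card : ℝ) else 0) ≤
        T.lv.card / S.Q + e1 := by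
      rw [sum_comm]
      refine (sum_le_card_nsmul _ _ ((T.lv.card / S.Q + e1) / S.SN.card) fun s _ => ?_).trans ?_
      · rw [← sum_filter, sum_const, nsmul_eq_mul, mul_one_div]
        exact div_le_div_of_nonneg_right (hE1 _) hS0.le
      · rw [nsmul_eq_mul, mul_div_cancel₀ _ hS0.ne']
    have a4 : ((Fintype.card V : ℝ) - T.lv.card) / S.Q =
        Fintype.card V / S.Q - T.lv.card / S.Q := sub_div _ _ _
    linarith
  · have h1 : ∑ v ∈ Zᶜ with (v ∈ T.K Z ∧ sig S T Z sp (Y (top v)) v = j),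
        (if v ∈ T.lv then 2 else 1 : ℝ) - ∑ v ∈ Zᶜ, (if v ∈ T.lv then 2 else 1 : ℝ) *
          ((univ.filter fun y => v ∈ T.K Z ∧ sig S T Z sp y v = j).card : ℝ) / N ≤ err := by
      convert (abs_le.mp (hY (.inr (.inl j)))).2 <;> rfl
    have a0 : (Zᶜ.filter fun v => v ∈ T.K Z ∧ sig S T Z sp (Y (top v)) v = j) =
        (T.K Z).filter fun v => sig S T Z sp (Y (top v)) v = j := by
      ext v
      simp only [mem_filter, mem_compl]
      exact ⟨fun h => h.2, fun h => ⟨(T.mem_K.mp h.1).1, h⟩⟩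
    rw [a0] at h1
    refine (sub_le_iff_le_add'.mp h1).trans (add_le_add_left ?_ _)
    refine (sum_le_sum (g := fun v => (1 + if v ∈ T.lv then 1 else 0 : ℝ) / S.SN.card)
      fun v _ => ?_).trans ((sum_le_sum_of_subset_of_nonneg (subset_univ _) fun v _ _ => by
        split_ifs <;> positivity).trans (le_of_eq ?_))
    · have b1 : ((univ.filter fun y => v ∈ T.K Z ∧ sig S T Z sp y v = j).card : ℝ) * S.SN.card ≤
          N := by
        by_cases hv : v ∈ T.K Z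
        · simp only [hv, true_and, hN]
          exact_mod_cast sig_card hv j
        · simp only [hv, false_and, filter_false, card_empty, Nat.cast_zero, zero_mul]
          exact hN0.le
      rw [div_le_div_iff₀ hN0 hS0, mul_assoc]
      split_ifs
      · norm_num; linarith
      · norm_num; linarith
    · rw [← sum_div, sum_add_distrib, sum_boole, sum_const, card_univ, nsmul_eq_mul, mul_one,
        filter_mem_eq_inter, univ_inter]
  · have h1 : -err ≤ ∑ v ∈ Zᶜ with (v ∈ Φ ∧ rho S T Z sp ω (Y (top v)) v = b ∧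
        sig S T Z sp (Y (top v)) v = s ∧ sig S T Z sp (Y (top v)) (T.π v) = s'), (1 : ℝ) -
        ∑ v ∈ Zᶜ, 1 * ((univ.filter fun y => v ∈ Φ ∧ rho S T Z sp ω y v = b ∧
          sig S T Z sp y v = s ∧ sig S T Z sp y (T.π v) = s').card : ℝ) / N := by
      convert (abs_le.mp (hY (.inr (.inr (b, s, s'))))).1 <;> rfl
    simp only [sum_const, nsmul_eq_mul, mul_one, one_mul] at h1
    have a0 : (Zᶜ.filter fun v => v ∈ Φ ∧ rho S T Z sp ω (Y (top v)) v = b ∧
        sig S T Z sp (Y (top v)) v = s ∧ sig S T Z sp (Y (top v)) (T.π v) = s') =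
        Φ.filter fun x => rho S T Z sp ω (Y (top x)) x = b ∧ sig S T Z sp (Y (top x)) x = s ∧
          sig S T Z sp (Y (top (T.π x))) (T.π x) = s' := by
      ext v
      simp only [mem_filter, mem_compl]
      constructor
      · rintro ⟨b1, b2, b3⟩
        rw [ht1 v b1 (T.mem_K.mp (hΦ v b2).2.1).1]
        exact ⟨b2, b3⟩
      · rintro ⟨b2, b3⟩
        have b1 := (T.mem_K.mp (hΦ v b2).1).1
        rw [ht1 v b1 (T.mem_K.mp (hΦ v b2).2.1).1] at b3
        exact ⟨b1, b2, b3⟩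
    rw [a0] at h1
    refine le_trans ?_ (le_sub_iff_add_le.mp h1)
    rw [neg_add_eq_sub]
    refine sub_le_sub_right ?_ _
    refine le_trans ?_ (sum_le_sum_of_subset_of_nonneg
      (s := Φ.filter fun x => x ∉ T.lv ∨ ω x = s - b)
      (fun v hv => mem_compl.mpr (T.mem_K.mp (hΦ v (mem_filter.mp hv).1).1).1)
      fun v _ _ => by positivity)
    refine le_trans ?_ (card_nsmul_le_sum _ _ (1 / S.n ^ 3 : ℝ) fun v hv => ?_)
    · rw [nsmul_eq_mul, mul_one_div]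
      exact div_le_div_of_nonneg_right (hE2 _) (by positivity)
    · obtain ⟨b1, b2⟩ := mem_filter.mp hv
      obtain ⟨b3, b4, b5⟩ := hΦ v b1
      rw [div_le_div_iff₀ (by positivity) hN0, one_mul, hN]
      simp only [b1, true_and]
      refine mod_cast type_card hr hsp b3 b4 hs hs' ?_
      rcases b5 with b5 | b5
      · exact Or.inl ⟨b5, hsp2 _ v b1 b5 rfl, b2.resolve_left fun h => h b5⟩
      · exact Or.inr b5

end Pool.Agent.Lib.MP_0830d8_co.Ex
end

-- part Pool.Agent.Lib.MP_0830d8_co.Ex.Nib1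
section

/-!
Heights on the blocks of a rooted tree.
-/

set_option linter.unusedSectionVars false

namespace Pool.Agent.Lib.MP_0830d8_co.Ex

open Finset

/-- kinds of values: label, sum, and the two partial sums at a flexible edge -/
inductive Tag
  | L | S | Y | X
  deriving DecidableEq

instance : Fintype Tag := ⟨{.L, .S, .Y, .X}, by intro x; cases x <;> simp⟩

variable {V : Type} [Fintype V] [DecidableEq V]

def supp (T : RT V) (Z : Finset V) : V × Tag → Finset V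
  | (v, .L) => {v}
  | (v, .S) => insert v (T.ch Z v)
  | (v, .Y) => (insert (T.π v) (T.ch Z (T.π v))).erase v
  | (v, .X) => T.ch Z v

def wv (T : RT V) (ω : V → ℤ) : V × Tag → ℤ
  | (_, .L) => 0
  | (v, .S) => ω v
  | (v, .Y) => ω (T.π v)
  | (v, .X) => ω v

def pres (T : RT V) (Z Φ : Finset V) (ω : V → ℤ) : V × Tag → Prop
  | (v, .L) => v ∉ Z
  | (v, .S) => v ∈ T.K Z
  | (v, .Y) => v ∈ Φ ∧ (ω (T.π v) ≠ 0 ∨ (supp T Z (v, .Y)).card ≠ 1)
  | (v, .X) => v ∈ Φ ∧ v ∉ T.lv ∧ (ω v ≠ 0 ∨ (T.ch Z v).card ≠ 1)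

section
variable {T : RT V} {Z Φ : Finset V} {ω : V → ℤ}

lemma ch_depth (hr : T.r ∈ Z) {v c : V} (hc : c ∈ T.ch Z v) : T.d c = T.d v + 1 := by
  obtain ⟨h1, h2⟩ := T.mem_ch.mp hc
  rw [← hdZ hr h1, h2]

lemma ch_ne (hr : T.r ∈ Z) {v : V} (hv : v ∈ T.K Z) (hl : v ∉ T.lv) : (T.ch Z v).Nonempty := by
  have h1 := hl
  rw [T.mem_lv] at h1
  push Not at h1
  obtain ⟨c, c1, c2⟩ := h1 fun e => (T.mem_K.mp hv).1 (e ▸ hr)
  exact ⟨c, T.mem_ch.mpr ⟨(T.mem_K.mp hv).2 c c1 c2, c2⟩⟩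

lemma apexY (hr : T.r ∈ Z) {v : V} (hv : v ∉ Z) : T.π v ∈ supp T Z (v, .Y) :=
  mem_erase.mpr ⟨T.pi_ne fun e => hv (e ▸ hr), mem_insert_self _ _⟩

lemma apex_eq (hr : T.r ∈ Z) {p p' : V} {S : Finset V} (h1 : p ∈ S) (h2 : p' ∈ S)
    (h3 : S ⊆ insert p (T.ch Z p)) (h4 : S ⊆ insert p' (T.ch Z p')) : p = p' := by
  rcases mem_insert.mp (h4 h1) with h | h
  · exact h
  rcases mem_insert.mp (h3 h2) with h' | h'
  · exact h'.symm
  have := ch_depth hr h
  have := ch_depth hr h'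
  omega

lemma same_supp (hr : T.r ∈ Z) (hlv : ∀ x ∈ T.lv, ω x ≠ 0) (hπ : Set.InjOn T.π Φ)
    (hΦ : ∀ x ∈ Φ, x ∈ T.K Z ∧ T.π x ∈ T.K Z ∧ (x ∈ T.lv ∨ ∃ c, c ≠ T.r ∧ T.π c = x ∧ c ∉ T.lv))
    (hdep : ∀ x ∈ Φ, ∀ x' ∈ Φ, T.d x' ≠ T.d x + 2) {o o' : V × Tag} (h1 : pres T Z Φ ω o)
    (h2 : pres T Z Φ ω o') (hne : o ≠ o') (hs : supp T Z o = supp T Z o') :
    (o.2 = .L ∧ o'.2 ≠ .L ∧ wv T ω o' ≠ 0) ∨ (o'.2 = .L ∧ o.2 ≠ .L ∧ wv T ω o ≠ 0) := by
  have hL : ∀ v (o' : V × Tag), pres T Z Φ ω o' → (v, Tag.L) ≠ o' →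
      supp T Z (v, .L) = supp T Z o' → o'.2 ≠ .L ∧ wv T ω o' ≠ 0 := by
    rintro v ⟨v', t⟩ a1 a2 a3
    cases t
    · exact absurd (by rw [singleton_injective a3]) a2
    · refine ⟨nofun, hlv v' ?_⟩
      by_contra hl
      obtain ⟨c, hc⟩ := ch_ne hr a1 hl
      have b1 : v' ∈ supp T Z (v, .L) := a3 ▸ mem_insert_self _ _
      have b2 : c ∈ supp T Z (v, .L) := a3 ▸ mem_insert_of_mem hc
      have := ch_depth hr hc
      rw [mem_singleton.mp b1, mem_singleton.mp b2] at this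
      omega
    · exact ⟨nofun, a1.2.resolve_right fun h => h (a3 ▸ card_singleton v)⟩
    · exact ⟨nofun, a1.2.2.resolve_right fun h => h (by
        have : supp T Z (v', .X) = T.ch Z v' := rfl
        rw [← this, ← a3]; exact card_singleton v)⟩
  have hSY : ∀ v v', v' ∈ Φ → supp T Z (v, .S) ≠ supp T Z (v', .Y) := by
    intro v v' a1 a3
    have b0 := (T.mem_K.mp (hΦ v' a1).1).1
    have b1 : v = T.π v' := apex_eq hr (S := supp T Z (v, .S)) (mem_insert_self _ _)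
      (a3 ▸ apexY hr b0) Subset.rfl (a3 ▸ erase_subset _ _)
    have b2 : v' ∈ supp T Z (v, .S) := mem_insert_of_mem (T.mem_ch.mpr ⟨b0, b1.symm⟩)
    rw [a3] at b2
    exact notMem_erase _ _ b2
  have hSX : ∀ v v', v' ∈ Φ → v ∈ T.K Z → v' ∉ T.lv → supp T Z (v, .S) ≠ supp T Z (v', .X) := by
    intro v v' a1 a2 a4 a3
    obtain ⟨c, c1, c2, c3⟩ := (hΦ v' a1).2.2.resolve_left a4
    have b1 : v ∈ T.ch Z v' := (a3 ▸ mem_insert_self _ _ : v ∈ supp T Z (v', .X))
    have b2 : c ∈ supp T Z (v', .X) := T.mem_ch.mpr ⟨(T.mem_K.mp (hΦ v' a1).1).2 c c1 c2, c2⟩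
    have d1 := ch_depth hr b1
    have d2 := ch_depth hr b2
    rw [← a3] at b2
    rcases mem_insert.mp b2 with rfl | b2
    · obtain ⟨c', hc'⟩ := ch_ne hr a2 c3
      have b3 : c' ∈ supp T Z (v', .X) := a3 ▸ mem_insert_of_mem hc'
      have := ch_depth hr hc'
      have := ch_depth hr b3
      omega
    · have := ch_depth hr b2
      omega
  have hYX : ∀ v v', v ∈ Φ → v' ∈ Φ → supp T Z (v, .Y) ≠ supp T Z (v', .X) := by
    intro v v' a1 a2 a3
    have b0 := (T.mem_K.mp (hΦ v a1).1).1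
    have b1 : T.π v ∈ supp T Z (v', .X) := a3 ▸ apexY hr b0
    have := ch_depth hr b1
    have := hdZ hr b0
    exact hdep v' a2 v a1 (by omega)
  obtain ⟨v, t⟩ := o
  obtain ⟨v', t'⟩ := o'
  by_cases a1 : t = .L
  · subst a1; exact Or.inl ⟨rfl, hL v _ h2 hne hs⟩
  by_cases a2 : t' = .L
  · subst a2; exact Or.inr ⟨rfl, hL v' _ h1 hne.symm hs.symm⟩
  exfalso
  cases t <;> cases t'
  any_goals exact a1 rfl
  any_goals exact a2 rfl
  · refine hne (by rw [apex_eq hr (S := supp T Z (v, .S)) (mem_insert_self _ _)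
      (by rw [hs]; exact mem_insert_self _ _) Subset.rfl (by rw [hs]; exact Subset.rfl)])
  · exact hSY v v' h2.1 hs
  · exact hSX v v' h2.1 h1 h2.2.1 hs
  · exact hSY v' v h1.1 hs.symm
  · refine hne (by rw [hπ h1.1 h2.1 (apex_eq hr (S := supp T Z (v, .Y))
      (apexY hr (T.mem_K.mp (hΦ v h1.1).1).1) (hs ▸ apexY hr (T.mem_K.mp (hΦ v' h2.1).1).1)
      (erase_subset _ _) (hs ▸ erase_subset _ _))])
  · exact hYX v v' h1.1 h2.1 hs
  · exact hSX v' v h1.1 h2 h1.2.1 hs.symm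
  · exact hYX v' v h2.1 h1.1 hs.symm
  · obtain ⟨c, hc⟩ := ch_ne hr (hΦ v h1.1).1 h1.2.1
    have hc' : c ∈ supp T Z (v', .X) := hs ▸ hc
    exact hne (by rw [← (T.mem_ch.mp hc).2, (T.mem_ch.mp hc').2])

lemma sm_eq (T : RT V) (ω lam : V → ℤ) {v : V} (hv : v ≠ T.r) :
    T.sm ω lam v = ω v + lam v + ∑ c ∈ T.W with T.π c = v, lam c := by
  rw [RT.sm, add_assoc, ← add_sum_erase _ _ (T.mem_W.mpr hv), RT.inc, if_pos (Or.inl rfl), one_mul,
    sum_filter, ← add_sum_erase _ _ (T.mem_W.mpr hv), if_neg (T.pi_ne hv), zero_add]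
  congr 2
  refine sum_congr rfl fun c hc => ?_
  have := (mem_erase.mp hc).1
  unfold RT.inc
  split_ifs with h1 h2 h2
  · exact one_mul _
  · exact absurd (h1.resolve_left this.symm).symm h2
  · exact absurd (Or.inr h2.symm) h1
  · exact zero_mul _

lemma sm_K (hr : T.r ∈ Z) (ω lam : V → ℤ) {v : V} (hv : v ∈ T.K Z) :
    T.sm ω lam v = ω v + ∑ u ∈ supp T Z (v, .S), lam u := by
  have h1 := T.mem_K.mp hv
  rw [sm_eq T ω lam fun e : v = T.r => h1.1 (e ▸ hr), supp, sum_insert fun h => by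
    have := ch_depth hr h; omega, add_assoc]
  congr 2
  refine sum_congr (Finset.ext fun c => ?_) fun _ _ => rfl
  rw [mem_filter, T.mem_W, T.mem_ch]
  exact ⟨fun h => ⟨h1.2 c h.1 h.2, h.2⟩, fun h => ⟨fun e => h.1 (e ▸ hr), h.2⟩⟩

end

lemma sum_tag {F : Finset (V × Tag)} {t : Tag} {A : Finset V} {f : V × Tag → ℝ} {g : V → ℝ}
    (hg : ∀ v, 0 ≤ g v) (h : ∀ o ∈ F, o.2 = t ∧ o.1 ∈ A ∧ f o ≤ g o.1) :
    ∑ o ∈ F, f o ≤ ∑ v ∈ A, g v := by
  refine (sum_le_sum fun o ho => (h o ho).2.2).trans ?_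
  rw [← sum_image (g := Prod.fst) fun o ho o' ho' e =>
    Prod.ext e ((h o ho).1.trans (h o' ho').1.symm)]
  exact sum_le_sum_of_subset_of_nonneg (image_subset_iff.mpr fun o ho => (h o ho).2.1)
    fun v _ _ => hg v

lemma card_le_three {F : Finset V} (p q : V → Prop) (h1 : ∀ a ∈ F, ∀ b ∈ F, p a → p b → a = b)
    (h2 : ∀ a ∈ F, ∀ b ∈ F, q a → q b → a = b)
    (h3 : ∀ a ∈ F, ∀ b ∈ F, ¬p a → ¬q a → ¬p b → ¬q b → a = b) : F.card ≤ 3 := by
  classical
  rw [← card_filter_add_card_filter_not p, 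
    ← card_filter_add_card_filter_not (s := F.filter fun a => ¬p a) q]
  have a1 : (F.filter p).card ≤ 1 := card_le_one.mpr fun a ha b hb =>
    h1 a (mem_filter.mp ha).1 b (mem_filter.mp hb).1 (mem_filter.mp ha).2 (mem_filter.mp hb).2
  have a2 : ((F.filter fun a => ¬p a).filter q).card ≤ 1 := card_le_one.mpr fun a ha b hb =>
    h2 a (mem_filter.mp (mem_filter.mp ha).1).1 b (mem_filter.mp (mem_filter.mp hb).1).1
      (mem_filter.mp ha).2 (mem_filter.mp hb).2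
  have a3 : ((F.filter fun a => ¬p a).filter fun a => ¬q a).card ≤ 1 :=
    card_le_one.mpr fun a ha b hb =>
      h3 a (mem_filter.mp (mem_filter.mp ha).1).1 b (mem_filter.mp (mem_filter.mp hb).1).1
        (mem_filter.mp (mem_filter.mp ha).1).2 (mem_filter.mp ha).2
        (mem_filter.mp (mem_filter.mp hb).1).2 (mem_filter.mp hb).2
  omega

lemma card_wv {T : RT V} {Z Φ : Finset V} {ω : V → ℤ} (hπ : Set.InjOn T.π Φ) (D : ℤ) {μ : ℝ}
    (hμ : ((univ.filter fun v => ω v = D).card : ℝ) ≤ μ) (F : Finset (V × Tag))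
    (hF : ∀ o ∈ F, pres T Z Φ ω o ∧ o.2 ≠ .L ∧ wv T ω o = D) : (F.card : ℝ) ≤ 3 * μ := by
  set A := univ.filter fun v => ω v = D with hA
  have h1 : F ⊆ (A.image fun v => (v, Tag.S)) ∪ ((A.image fun v => (v, Tag.X)) ∪
      (Φ.filter fun v => ω (T.π v) = D).image fun v => (v, Tag.Y)) := by
    rintro ⟨v, t⟩ ho
    obtain ⟨a1, a2, a3⟩ := hF _ ho
    cases t
    · exact absurd rfl a2
    · exact mem_union_left _ (mem_image_of_mem _ (mem_filter.mpr ⟨mem_univ _, a3⟩))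
    · exact mem_union_right _ (mem_union_right _
        (mem_image_of_mem _ (mem_filter.mpr ⟨a1.1, a3⟩)))
    · exact mem_union_right _ (mem_union_left _
        (mem_image_of_mem _ (mem_filter.mpr ⟨mem_univ _, a3⟩)))
  have h2 : (Φ.filter fun v => ω (T.π v) = D).card ≤ A.card :=
    card_le_card_of_injOn T.π (fun v hv => mem_filter.mpr ⟨mem_univ _, (mem_filter.mp hv).2⟩)
      (hπ.mono (coe_subset.mpr (filter_subset _ _)))
  have h3 : F.card ≤ A.card + (A.card + A.card) := (card_le_card h1).trans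
    ((card_union_le _ _).trans (add_le_add card_image_le ((card_union_le _ _).trans
      (add_le_add card_image_le (card_image_le.trans h2)))))
  have h4 : (F.card : ℝ) ≤ A.card + (A.card + A.card) := by exact_mod_cast h3
  linarith

theorem nib1 (Q C : ℕ) (hQ : 0 < Q) {ε : ℝ} (hε : 0 < ε) :
    ∃ κ : ℝ, 0 < κ ∧ ∃ γ : ℝ, 0 < γ ∧ ∃ N0 : ℕ, ∀ (V : Type) [Fintype V] [DecidableEq V]
      (T : RT V) (Z : Finset V) (top : V → V) (ω : V → ℤ) (l0 : ℤ) (ρ σ : V → ZMod Q)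
      (Φ : Finset V), N0 ≤ Fintype.card V → T.r ∈ Z →
      (∀ v ∉ Z, T.π v ∉ Z → top (T.π v) = top v) → (∀ t, (Zᶜ.filter (top · = t)).card ≤ C) →
      (∀ v ∉ Z, ρ v + ∑ c ∈ T.ch Z v, ρ c + (ω v : ZMod Q) = σ v) →
      (∀ j, ((Zᶜ.filter fun v => ρ v = j).card : ℝ) ≤ Fintype.card V / Q + κ * Fintype.card V) →
      (∀ j, ∑ v ∈ T.K Z with σ v = j, (if v ∈ T.lv then 2 else 1 : ℝ) ≤
        2 * (Fintype.card V / Q + κ * Fintype.card V)) →
      (∀ z, z ≠ 0 → ((univ.filter fun v => ω v = z).card : ℝ) ≤ γ * Fintype.card V) →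
      (∀ x ∈ T.lv, ω x ≠ 0) → Set.InjOn T.π Φ →
      (∀ x ∈ Φ, x ∈ T.K Z ∧ T.π x ∈ T.K Z ∧ (x ∈ T.lv ∨ ∃ c, c ≠ T.r ∧ T.π c = x ∧ c ∉ T.lv)) →
      (∀ x ∈ Φ, ∀ x' ∈ Φ, T.d x' ≠ T.d x + 2) → Q * Φ.card ≤ Fintype.card V →
      Set.InjOn ω (Φ ∩ T.lv : Finset V) →
      ∃ (lam : V → ℤ) (Cov : Finset V), Set.BijOn lam T.W (Set.Ioc l0 (l0 + T.W.card)) ∧
        Cov ⊆ T.K Z ∧ ((T.K Z \ Cov).card : ℝ) ≤ ε * Fintype.card V ∧
        Set.InjOn (T.sm ω lam) Cov ∧
        (∀ v ∈ Cov, (lam v : ZMod Q) = ρ v ∧ (T.sm ω lam v : ZMod Q) = σ v) ∧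
        (∀ x ∈ Φ, x ∈ Cov → T.π x ∈ Cov) ∧
        (∀ z, ((Φ ∩ Cov).filter fun x => T.sm ω lam x - lam x = z).card ≤ 3) ∧
        (∀ z, ((Φ ∩ Cov).filter fun x => T.sm ω lam (T.π x) - lam x = z).card ≤ 3) := by
  classical
  have hε' : 0 < ε / (3 * (C + 1)) := by positivity
  obtain ⟨γ0, hγ0, H⟩ := nib_lin (4 * C) hε'
  obtain ⟨κ, hκ, γ, hγ, N0, HP⟩ := params1 Q (4 * C) hQ hε' hγ0
  refine ⟨κ, hκ, γ, hγ, N0, fun V _ _ T Z top ω l0 ρ σ Φ hN hr ht1 ht2 heq hL hS hm hlv hπ hΦ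
    hdep hΦc hωΦ => ?_⟩
  obtain ⟨β, w, hβ, hw, p1, p2, p3, p4, p5⟩ := HP _ hN
  have : NeZero Q := ⟨hQ.ne'⟩
  set N := Fintype.card V with hN'
  have hQ0 : (0 : ℝ) < Q := by exact_mod_cast hQ
  have hκN : 0 ≤ κ * N := by positivity
  set a : V → ℤ := fun v => l0 + 1 + ((ρ v - ((l0 + 1 : ℤ) : ZMod Q)).val : ℕ) with ha
  have a1 : ∀ v, (a v : ZMod Q) = ρ v := fun v => by
    simp only [ha]; push_cast; rw [ZMod.natCast_zmod_val]; ring
  have a2 : ∀ v, l0 < a v ∧ a v ≤ l0 + Q := fun v => by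
    have := ZMod.val_lt (ρ v - ((l0 + 1 : ℤ) : ZMod Q))
    simp only [ha]; omega
  set k : V × Tag → ℤ := fun o => wv T ω o + ∑ u ∈ supp T Z o, a u with hk
  set Os := univ.filter (pres T Z Φ ω) with hOs
  have hO : ∀ {o}, o ∈ Os ↔ pres T Z Φ ω o := by simp [hOs]
  have hZ : ∀ o ∈ Os, o.1 ∉ Z := by
    rintro ⟨v, t⟩ ho
    have := hO.mp ho
    cases t
    · exact this
    · exact (T.mem_K.mp this).1
    · exact (T.mem_K.mp (hΦ v this.1).1).1
    · exact (T.mem_K.mp (hΦ v this.1).1).1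
  have hcast : ∀ {x y : ℤ}, (Q : ℤ) ∣ x - y → (y : ZMod Q) = x := fun h =>
    (ZMod.intCast_eq_intCast_iff_dvd_sub _ _ _).mpr h
  have hcard1 : ∀ v ∈ T.K Z, (supp T Z (v, .S)).card = 1 → v ∈ T.lv := by
    intro v hv h
    by_contra hl
    obtain ⟨c, hc⟩ := ch_ne hr hv hl
    have := ch_depth hr hc
    rw [card_le_one.mp h.le c (mem_insert_of_mem hc) v (mem_insert_self _ _)] at this
    omega
  have hΦ2 : ∑ _v ∈ Φ, (2 : ℝ) ≤ 2 * (N / Q + κ * N) := by
    rw [sum_const, nsmul_eq_mul, mul_comm]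
    have : (Φ.card : ℝ) ≤ N / Q := by
      rw [le_div_iff₀ hQ0, mul_comm]; exact_mod_cast hΦc
    linarith
  obtain ⟨B, -, Y, h1, h2⟩ := H V (V × Tag) V Tag univ Os (fun o => top o.1) Prod.snd
    (supp T Z) k Q β w (6 * (γ * N)) hQ hβ hw (by
      intro t
      refine (card_le_card (t := Zᶜ.filter (top · = t) ×ˢ univ) fun o ho => ?_).trans ?_
      · exact mem_product.mpr ⟨mem_filter.mpr ⟨mem_compl.mpr (hZ o (mem_filter.mp ho).1),
          (mem_filter.mp ho).2⟩, mem_univ _⟩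
      · rw [card_product, mul_comm]
        exact Nat.mul_le_mul (by decide) (ht2 t)) (by
      rintro ⟨v, t⟩ ho
      have h := hO.mp ho
      cases t
      · exact singleton_nonempty _
      · exact insert_nonempty _ _
      · exact ⟨_, apexY hr (hZ _ ho)⟩
      · exact ch_ne hr (hΦ v h.1).1 h.2.1) (by
      intro t z
      refine le_trans (mul_le_mul_of_nonneg_right ?_ (by positivity)) p2
      cases t
      · refine (sum_tag (t := .L) (A := Zᶜ.filter fun v => ρ v = z) (g := fun _ => 2)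
          (fun _ => by norm_num) ?_).trans ?_
        · rintro ⟨v, t⟩ ho
          obtain ⟨b1, rfl, b3⟩ := mem_filter.mp ho
          refine ⟨rfl, mem_filter.mpr ⟨mem_compl.mpr (hZ _ b1), ?_⟩, by split_ifs <;> norm_num⟩
          rw [← hcast b3]
          simp only [hk, wv, supp, sum_singleton, zero_add, a1]
        · rw [sum_const, nsmul_eq_mul, mul_comm]
          linarith [hL z]
      · refine (sum_tag (t := .S) (A := (T.K Z).filter fun v => σ v = z)
          (g := fun v => if v ∈ T.lv then 2 else 1)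
          (fun _ => by split_ifs <;> norm_num) ?_).trans (hS z)
        rintro ⟨v, t⟩ ho
        obtain ⟨b1, rfl, b3⟩ := mem_filter.mp ho
        have b4 : v ∈ T.K Z := hO.mp b1
        refine ⟨rfl, mem_filter.mpr ⟨b4, ?_⟩, ?_⟩
        · rw [← hcast b3, ← heq v (hZ _ b1)]
          simp only [hk, wv, supp]
          rw [sum_insert fun h => by have := ch_depth hr h; omega]
          push_cast
          simp only [a1]
          ring
        · split_ifs with c1 c2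
          · exact le_rfl
          · exact absurd (hcard1 v b4 c1) c2
          · norm_num
          · exact le_rfl
      · refine (sum_tag (t := .Y) (A := Φ) (g := fun _ => 2) (fun _ => by norm_num) ?_).trans hΦ2
        rintro ⟨v, t⟩ ho
        obtain ⟨b1, rfl, -⟩ := mem_filter.mp ho
        exact ⟨rfl, (hO.mp b1).1, by split_ifs <;> norm_num⟩
      · refine (sum_tag (t := .X) (A := Φ) (g := fun _ => 2) (fun _ => by norm_num) ?_).trans hΦ2
        rintro ⟨v, t⟩ ho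
        obtain ⟨b1, rfl, -⟩ := mem_filter.mp ho
        exact ⟨rfl, (hO.mp b1).1, by split_ifs <;> norm_num⟩) (by
      intro o ho o' ho' hne hkey hs
      rcases same_supp hr hlv hπ hΦ hdep (hO.mp ho) (hO.mp ho') hne hs with h | h
      · exact h.2.1 (hkey ▸ h.1)
      · exact h.2.1 (hkey.symm ▸ h.1)) (by
      intro D
      set F := (Os ×ˢ Os).filter fun p => p.1 ≠ p.2 ∧ supp T Z p.1 = supp T Z p.2 ∧
        k p.2 - k p.1 = D with hF
      have hF' : ∀ p ∈ F, pres T Z Φ ω p.1 ∧ pres T Z Φ ω p.2 ∧ supp T Z p.1 = supp T Z p.2 ∧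
          wv T ω p.2 - wv T ω p.1 = D ∧ ((p.1.2 = .L ∧ p.2.2 ≠ .L ∧ wv T ω p.2 ≠ 0) ∨
            (p.2.2 = .L ∧ p.1.2 ≠ .L ∧ wv T ω p.1 ≠ 0)) := by
        intro p hp
        obtain ⟨b1, b2, b3, b4⟩ := mem_filter.mp hp
        have b5 := hO.mp (mem_product.mp b1).1
        have b6 := hO.mp (mem_product.mp b1).2
        refine ⟨b5, b6, b3, ?_, same_supp hr hlv hπ hΦ hdep b5 b6 b2 b3⟩
        simp only [hk, b3] at b4
        linarith
      have hw0 : ∀ o : V × Tag, o.2 = .L → wv T ω o = 0 := by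
        rintro ⟨v, t⟩ rfl; rfl
      have hinj : ∀ o o' : V × Tag, o.2 = .L → o'.2 = .L → supp T Z o = supp T Z o' → o = o' := by
        rintro ⟨v, t⟩ ⟨v', t'⟩ rfl rfl h
        rw [singleton_injective h]
      by_cases hD : D = 0
      · rw [eq_empty_of_forall_notMem (s := F) fun p hp => ?_]
        · simp only [card_empty, Nat.cast_zero]; positivity
        · obtain ⟨-, -, -, b4, b5 | b5⟩ := hF' p hp
          · rw [hw0 _ b5.1] at b4; exact b5.2.2 (by omega)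
          · rw [hw0 _ b5.1] at b4; exact b5.2.2 (by omega)
      rw [← card_filter_add_card_filter_not (s := F) fun p => p.1.2 = .L]
      have c1 := card_wv (Z := Z) hπ D (hm D hD) ((F.filter fun p => p.1.2 = .L).image Prod.snd) (by
        intro o ho
        obtain ⟨p, hp, rfl⟩ := mem_image.mp ho
        obtain ⟨b0, b0'⟩ := mem_filter.mp hp
        obtain ⟨-, b2, -, b4, b5⟩ := hF' p b0
        rw [hw0 _ b0', sub_zero] at b4
        exact ⟨b2, (b5.resolve_right fun h => h.2.1 b0').2.1, b4⟩)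
      have c2 := card_wv (Z := Z) hπ (-D) (hm (-D) (by omega))
        ((F.filter fun p => ¬p.1.2 = .L).image Prod.fst) (by
        intro o ho
        obtain ⟨p, hp, rfl⟩ := mem_image.mp ho
        obtain ⟨b0, b0'⟩ := mem_filter.mp hp
        obtain ⟨b1, -, -, b4, b5⟩ := hF' p b0
        rw [hw0 _ (b5.resolve_left fun h => b0' h.1).1] at b4
        exact ⟨b1, b0', by omega⟩)
      rw [card_image_of_injOn fun p hp q hq e => Prod.ext (hinj _ _ (mem_filter.mp hp).2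
        (mem_filter.mp hq).2 (by
          rw [(hF' p (mem_filter.mp hp).1).2.2.1, (hF' q (mem_filter.mp hq).1).2.2.1, e])) e] at c1
      have c3 : ∀ p ∈ F.filter fun p => ¬p.1.2 = .L, p.2.2 = .L := fun p hp =>
        ((hF' p (mem_filter.mp hp).1).2.2.2.2.resolve_left fun h => (mem_filter.mp hp).2 h.1).1
      rw [card_image_of_injOn fun p hp q hq e => Prod.ext e (hinj _ _ (c3 p hp) (c3 q hq)
        (by rw [← (hF' p (mem_filter.mp hp).1).2.2.1, ← (hF' q (mem_filter.mp hq).1).2.2.1, e]))]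
        at c2
      push_cast
      linarith) (by
      refine le_trans (add_le_add_left (mul_le_mul_of_nonneg_right ?_ (by positivity)) _) p3
      have : Os.card ≤ N * 4 := (card_le_univ _).trans (by rw [Fintype.card_prod]; rfl)
      rw [mul_comm]
      exact_mod_cast this) p4 p5
  set lab : V → ℤ := fun v => a v + Q * lin {v} (Y (top v)) with hlab
  set C1 := Zᶜ.filter (top · ∈ B) with hC1
  have hC1W : C1 ⊆ T.W := fun v hv =>
    T.mem_W.mpr fun e => mem_compl.mp (mem_filter.mp hv).1 (e ▸ hr)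
  have hkL : ∀ v, k (v, .L) = a v := fun v => by simp only [hk, wv, supp, sum_singleton, zero_add]
  obtain ⟨lam, l1, l2⟩ := extend_bij T.W C1 hC1W (Ioc l0 (l0 + T.W.card)) (by simp) lab (by
      intro u hu v hv e
      obtain ⟨b1, b2⟩ := mem_filter.mp hu
      obtain ⟨b3, b4⟩ := mem_filter.mp hv
      exact congrArg Prod.fst (h2 (u, .L) (hO.mpr (mem_compl.mp b1)) (v, .L)
        (hO.mpr (mem_compl.mp b3)) b2 b4 rfl (by rw [hkL, hkL]; exact e))) (by
      intro v _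
      have b1 := (Y (top v)).1.2
      have b2 := ((Y (top v)).2 v).2
      have b3 : T.W.card + 1 = N := by
        rw [RT.W, card_erase_of_mem (mem_univ _), card_univ]; omega
      have b4 : (Q : ℤ) * (β + w) + 1 ≤ T.W.card + 1 := by exact_mod_cast b3 ▸ p1
      have b5 := a2 v
      simp only [hlab, lin, sum_singleton, mem_Ioc]
      constructor
      · have : (0 : ℤ) ≤ Q * ((((Y (top v)).1 : ℕ) : ℤ) + (((Y (top v)).2 v : ℕ) : ℤ)) := by
          positivity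
        omega
      · have : (Q : ℤ) * ((((Y (top v)).1 : ℕ) : ℤ) + (((Y (top v)).2 v : ℕ) : ℤ) + 1) ≤
            Q * (β + w) := mul_le_mul_of_nonneg_left (by omega) (by positivity)
        linarith)
  rw [coe_Ioc] at l1
  have hval : ∀ o : V × Tag, top o.1 ∈ B → (∀ u ∈ supp T Z o, u ∉ Z ∧ top u = top o.1) →
      wv T ω o + ∑ u ∈ supp T Z o, lam u = k o + Q * lin (supp T Z o) (Y (top o.1)) := by
    intro o b1 b2
    simp only [hk, lin, mul_sum, add_assoc, ← sum_add_distrib]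
    congr 1
    refine sum_congr rfl fun u hu => ?_
    rw [l2 u (mem_filter.mpr ⟨mem_compl.mpr (b2 u hu).1, (b2 u hu).2 ▸ b1⟩)]
    simp only [hlab, lin, sum_singleton, (b2 u hu).2]
  have hch : ∀ v ∉ Z, ∀ u ∈ insert v (T.ch Z v), u ∉ Z ∧ top u = top v := by
    intro v hv u hu
    rcases mem_insert.mp hu with rfl | hu
    · exact ⟨hv, rfl⟩
    · obtain ⟨b1, b2⟩ := T.mem_ch.mp hu
      exact ⟨b1, by rw [← ht1 u b1 (b2 ▸ hv), b2]⟩
  set Cov := (T.K Z).filter (top · ∈ B) with hCov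
  have hsm : ∀ v ∈ Cov, T.sm ω lam v = k (v, .S) + Q * lin (supp T Z (v, .S)) (Y (top v)) := by
    intro v hv
    obtain ⟨b1, b2⟩ := mem_filter.mp hv
    rw [sm_K hr ω lam b1]
    exact hval (v, .S) b2 (hch v (T.mem_K.mp b1).1)
  have hlam : Set.InjOn lam T.W := l1.injOn
  have hW : ∀ {v}, v ∉ Z → v ∈ T.W := fun h => T.mem_W.mpr fun e => h (e ▸ hr)
  refine ⟨lam, Cov, l1, filter_subset _ _, ?_, fun u hu v hv e => ?_, fun v hv => ?_,
    fun x hx hx' => ?_, fun z => ?_, fun z => ?_⟩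
  · have b1 : (T.K Z \ Cov).card ≤ C * (univ \ B).card :=
      card_le_mul_card_image_of_maps_to (f := top) (fun v hv => mem_sdiff.mpr ⟨mem_univ _,
        fun h => (mem_sdiff.mp hv).2 (mem_filter.mpr ⟨(mem_sdiff.mp hv).1, h⟩)⟩) C fun t _ =>
        (card_le_card (filter_subset_filter _ fun v hv =>
          mem_compl.mpr (T.mem_K.mp (mem_sdiff.mp hv).1).1)).trans (ht2 t)
    have b2 : ((T.K Z \ Cov).card : ℝ) ≤ C * (univ \ B).card := by exact_mod_cast b1
    rw [card_univ, ← hN'] at h1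
    have b3 : (C + 1 : ℝ) * (3 * (ε / (3 * (C + 1))) * N) = ε * N := by field_simp
    have b4 : (0 : ℝ) ≤ (univ \ B).card := Nat.cast_nonneg _
    have b5 := mul_le_mul_of_nonneg_left h1 (show (0 : ℝ) ≤ C + 1 by positivity)
    linarith
  · rw [hsm u hu, hsm v hv] at e
    exact congrArg Prod.fst (h2 (u, .S) (hO.mpr (mem_filter.mp hu).1) (v, .S)
      (hO.mpr (mem_filter.mp hv).1) (mem_filter.mp hu).2 (mem_filter.mp hv).2 rfl e)
  · obtain ⟨b1, b2⟩ := mem_filter.mp hv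
    have b3 := (T.mem_K.mp b1).1
    constructor
    · rw [l2 v (mem_filter.mpr ⟨mem_compl.mpr b3, b2⟩)]
      simp only [hlab]
      push_cast
      rw [a1, ZMod.natCast_self, zero_mul, add_zero]
    · rw [hsm v hv, ← heq v b3]
      simp only [hk, wv, supp]
      rw [sum_insert fun h => by have := ch_depth hr h; omega]
      push_cast
      simp only [a1, ZMod.natCast_self]
      ring
  · refine mem_filter.mpr ⟨(hΦ x hx).2.1, ?_⟩
    rw [ht1 x (T.mem_K.mp (hΦ x hx).1).1 (T.mem_K.mp (hΦ x hx).2.1).1]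
    exact (mem_filter.mp hx').2
  · have e1 : ∀ x ∈ (Φ ∩ Cov).filter fun x => T.sm ω lam x - lam x = z,
        x ∈ Φ ∧ top x ∈ B ∧ ω x + ∑ u ∈ T.ch Z x, lam u = z := by
      intro x hx
      obtain ⟨b1, b2⟩ := mem_filter.mp hx
      obtain ⟨b3, b4⟩ := mem_inter.mp b1
      refine ⟨b3, (mem_filter.mp b4).2, ?_⟩
      rw [sm_K hr ω lam (hΦ x b3).1, supp, sum_insert fun h => by
        have := ch_depth hr h; omega] at b2
      linarith
    refine card_le_three (· ∈ T.lv) (fun x => pres T Z Φ ω (x, .X)) (fun x hx y hy b1 b2 => ?_)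
      (fun x hx y hy b1 b2 => ?_) fun x hx y hy b1 b2 b3 b4 => ?_
    all_goals obtain ⟨c1, c2, c3⟩ := e1 x hx
    all_goals obtain ⟨c4, c5, c6⟩ := e1 y hy
    · rw [ch_lv hr b1, sum_empty] at c3
      rw [ch_lv hr b2, sum_empty] at c6
      exact hωΦ (mem_coe.mpr (mem_inter.mpr ⟨c1, b1⟩)) (mem_coe.mpr (mem_inter.mpr ⟨c4, b2⟩))
        (by linarith)
    · refine congrArg Prod.fst (h2 (x, .X) (hO.mpr b1) (y, .X) (hO.mpr b2) c2 c5 rfl ?_)
      rw [← hval (x, .X) c2 fun u hu => hch x (hZ _ (hO.mpr b1)) u (mem_insert_of_mem hu),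
        ← hval (y, .X) c5 fun u hu => hch y (hZ _ (hO.mpr b2)) u (mem_insert_of_mem hu)]
      exact c3.trans c6.symm
    · simp only [pres, c1, c4, b1, b3, not_false_eq_true, true_and, not_or, not_not] at b2 b4
      obtain ⟨u, hu⟩ := card_eq_one.mp b2.2
      obtain ⟨u', hu'⟩ := card_eq_one.mp b4.2
      rw [hu, b2.1, sum_singleton] at c3
      rw [hu', b4.1, sum_singleton] at c6
      have d1 := T.mem_ch.mp (hu ▸ mem_singleton_self u)
      have d2 := T.mem_ch.mp (hu' ▸ mem_singleton_self u')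
      rw [← d1.2, ← d2.2, hlam (hW d1.1) (hW d2.1) (by linarith)]
  · have e1 : ∀ x ∈ (Φ ∩ Cov).filter fun x => T.sm ω lam (T.π x) - lam x = z,
        x ∈ Φ ∧ top x ∈ B ∧ ω (T.π x) + ∑ u ∈ supp T Z (x, .Y), lam u = z := by
      intro x hx
      obtain ⟨b1, b2⟩ := mem_filter.mp hx
      obtain ⟨b3, b4⟩ := mem_inter.mp b1
      refine ⟨b3, (mem_filter.mp b4).2, ?_⟩
      rw [sm_K hr ω lam (hΦ x b3).2.1, supp, ← add_sum_erase _ _ (mem_insert_of_mem
        (T.mem_ch.mpr ⟨(T.mem_K.mp (hΦ x b3).1).1, rfl⟩))] at b2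
      rw [supp]
      linarith
    have e2 : ∀ x ∈ Φ, ∀ u ∈ supp T Z (x, .Y), u ∉ Z ∧ top u = top x := by
      intro x hx u hu
      have b1 := (T.mem_K.mp (hΦ x hx).2.1).1
      rw [← ht1 x (T.mem_K.mp (hΦ x hx).1).1 b1]
      exact hch _ b1 u (mem_of_mem_erase hu)
    refine card_le_three (fun _ => False) (fun x => pres T Z Φ ω (x, .Y))
      (fun x hx y hy b1 b2 => b1.elim) (fun x hx y hy b1 b2 => ?_) fun x hx y hy _ b2 _ b4 => ?_
    all_goals obtain ⟨c1, c2, c3⟩ := e1 x hx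
    all_goals obtain ⟨c4, c5, c6⟩ := e1 y hy
    · refine congrArg Prod.fst (h2 (x, .Y) (hO.mpr b1) (y, .Y) (hO.mpr b2) c2 c5 rfl ?_)
      rw [← hval (x, .Y) c2 (e2 x c1), ← hval (y, .Y) c5 (e2 y c4)]
      exact c3.trans c6.symm
    · simp only [pres, c1, c4, true_and, not_or, not_not] at b2 b4
      obtain ⟨u, hu⟩ := card_eq_one.mp b2.2
      obtain ⟨u', hu'⟩ := card_eq_one.mp b4.2
      have d1 := apexY hr (T.mem_K.mp (hΦ x c1).1).1
      have d2 := apexY hr (T.mem_K.mp (hΦ y c4).1).1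
      rw [hu] at d1 c3
      rw [hu'] at d2 c6
      rw [← mem_singleton.mp d1, b2.1, sum_singleton] at c3
      rw [← mem_singleton.mp d2, b4.1, sum_singleton] at c6
      exact hπ c1 c4 (hlam (hW (T.mem_K.mp (hΦ x c1).2.1).1) (hW (T.mem_K.mp (hΦ y c4).2.1).1)
        (by linarith))

end Pool.Agent.Lib.MP_0830d8_co.Ex
end
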